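import Pool.Agent.H292.TL.FB

/-!
Project TL, task AF: the flags of a vertex transitive normal tiling form an abstract flag system.
-/

set_option autoImplicit false
set_option linter.unusedSectionVars false
open scoped UpperHalfPlane Topology
open Set

namespace H292.TL

section AFsec

variable {T : Set (Set ℍ)}

/-- abstract count: a set enumerated by two families -/
theorem AF_card {X : Type} (d : ℕ) (f g : ℕ → X) (S : Set X)
    (hS : ∀ y, y ∈ S ↔ ∃ i < d, y = f i ∨ y = g i)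
    (hf : ∀ i < d, ∀ j < d, f i = f j → i = j) (hg : ∀ i < d, ∀ j < d, g i = g j → i = j)
    (hfg : ∀ i < d, ∀ j < d, f i ≠ g j) : S.Finite ∧ S.ncard = 2 * d := by
  have hSe : S = f '' Iio d ∪ g '' Iio d := by
    ext y
    rw [hS]
    constructor
    · rintro ⟨i, hi, h | h⟩
      · exact Or.inl ⟨i, hi, h.symm⟩
      · exact Or.inr ⟨i, hi, h.symm⟩
    · rintro (⟨i, hi, h⟩ | ⟨i, hi, h⟩)
      · exact ⟨i, hi, Or.inl h.symm⟩
      · exact ⟨i, hi, Or.inr h.symm⟩
  have hfin : (Iio d : Set ℕ).Finite := Set.finite_Iio d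
  have f1 : (f '' Iio d).Finite := hfin.image f
  have g1 : (g '' Iio d).Finite := hfin.image g
  have hd : Disjoint (f '' Iio d) (g '' Iio d) := by
    rw [Set.disjoint_left]
    rintro y ⟨i, hi, h⟩ ⟨j, hj, h'⟩
    exact hfg i hi j hj (h.trans h'.symm)
  have hcard : (Iio d : Set ℕ).ncard = d := by
    rw [← Finset.coe_Iio, Set.ncard_coe_finset, Nat.card_Iio]
  refine ⟨by rw [hSe]; exact f1.union g1, ?_⟩
  rw [hSe, Set.ncard_union_eq hd f1 g1, Set.ncard_image_of_injOn, Set.ncard_image_of_injOn, hcard]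
  · omega
  · intro i hi j hj h
    exact hg i hi j hj h
  · intro i hi j hj h
    exact hf i hi j hj h

/-- count of the flags at a vertex -/
theorem AF_vcard (HV : S_VENUM) (H : FS T) (x : Flag T) :
    {y | Rch s1 s2 x y}.Finite ∧ {y | Rch s1 s2 x y}.ncard = 2 * dg T x.v := by
  obtain ⟨-, h2, h3⟩ := HV T H x
  refine AF_card (dg T x.v) (fun i => uv^[i] x) (fun i => s1 (uv^[i] x)) _ ?_ ?_ ?_ ?_
  · intro y
    rw [Set.mem_setOf_eq, Rch_v_iff H]
    constructor
    · exact h3 y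
    · rintro ⟨i, -, h | h⟩
      · rw [h]; exact H.uv_iter_v x i
      · rw [h, H.s1_v]; exact H.uv_iter_v x i
  · intro i hi j hj h
    exact h2 i hi j hj (congrArg Flag.t h)
  · intro i hi j hj h
    have h' := congrArg Flag.t h
    simp only [H.s1_t] at h'
    exact h2 i hi j hj h'
  · intro i hi j hj h
    have h' := congrArg Flag.t h
    simp only [H.s1_t] at h'
    have hij := h2 i hi j hj h'
    subst hij
    exact H.s1_ne _ h.symm

/-- two flags of the base orbit and of its `s1` image are different -/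
theorem AF_sep (HT : S_TENUM) (H : FS T) (x : Flag T) (i j : ℕ) :
    ut^[i] x ≠ s1 (ut^[j] x) := by
  obtain ⟨h1, h2, -⟩ := HT T H x
  have hn : 0 < nn T x.t := by have := H.n3 x.t x.ht; omega
  have hp : Function.IsPeriodicPt ut (nn T x.t) x := h1
  rw [← hp.iterate_mod_apply i, ← hp.iterate_mod_apply j]
  intro h
  have h' := congrArg Flag.v h
  rw [H.s1_v] at h'
  have hij := h2 _ (Nat.mod_lt i hn) _ (Nat.mod_lt j hn) h'
  rw [hij] at h
  exact H.s1_ne _ h.symm

/-- count of the flags of a tile -/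
theorem AF_fcard (HT : S_TENUM) (H : FS T) (x : Flag T) :
    {y | Rch s0 s1 x y}.Finite ∧ {y | Rch s0 s1 x y}.ncard = 2 * nn T x.t := by
  obtain ⟨-, h2, h3⟩ := HT T H x
  refine AF_card (nn T x.t) (fun i => ut^[i] x) (fun i => s1 (ut^[i] x)) _ ?_ ?_ ?_ ?_
  · intro y
    rw [Set.mem_setOf_eq, Rch_t_iff H]
    constructor
    · exact h3 y
    · rintro ⟨i, -, h | h⟩
      · rw [h]; exact H.ut_iter_t x i
      · rw [h, H.s1_t]; exact H.ut_iter_t x i
  · intro i hi j hj h
    exact h2 i hi j hj (congrArg Flag.v h)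
  · intro i hi j hj h
    have h' := congrArg Flag.v h
    simp only [H.s1_v] at h'
    exact h2 i hi j hj h'
  · intro i hi j hj h
    exact AF_sep HT H x i j h

open Classical in
/-- a base flag of each tile -/
noncomputable def AF_bs (x₀ : Flag T) (t : Set ℍ) : Flag T :=
  if h : ∃ x : Flag T, x.t = t then h.choose else x₀

theorem AF_bs_t (x₀ x : Flag T) : (AF_bs x₀ x.t).t = x.t := by
  have h : ∃ y : Flag T, y.t = x.t := ⟨x, rfl⟩
  unfold AF_bs
  rw [dif_pos h]
  exact h.choose_spec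

open Classical in
/-- the orientation -/
noncomputable def AF_eps (x₀ x : Flag T) : ℝ :=
  if ∃ i : ℕ, x = ut^[i] (AF_bs x₀ x.t) then 1 else -1

theorem AF_eps_pos {x₀ x : Flag T} {b : Flag T} (hb : AF_bs x₀ x.t = b) {i : ℕ}
    (h : x = ut^[i] b) : AF_eps x₀ x = 1 := by
  unfold AF_eps
  rw [if_pos]
  rw [hb]
  exact ⟨i, h⟩

theorem AF_eps_neg (HT : S_TENUM) (H : FS T) {x₀ x : Flag T} {b : Flag T}
    (hb : AF_bs x₀ x.t = b) {i : ℕ} (h : x = s1 (ut^[i] b)) : AF_eps x₀ x = -1 := by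
  unfold AF_eps
  rw [if_neg]
  rw [hb]
  rintro ⟨j, hj⟩
  exact AF_sep HT H b j i (hj.symm.trans h)

theorem af (HV : S_VENUM) (HT : S_TENUM) (HA : S_AUT) : S_AF := by
  intro T hN H hE hTr x₀
  have key : ∀ x : Flag T, ∃ i : ℕ, x = ut^[i] (AF_bs x₀ x.t) ∨ x = s1 (ut^[i] (AF_bs x₀ x.t)) := by
    intro x
    obtain ⟨-, -, h3⟩ := HT T H (AF_bs x₀ x.t)
    obtain ⟨i, -, hi⟩ := h3 x (AF_bs_t x₀ x).symm
    exact ⟨i, hi⟩
  have hdg : ∀ x : Flag T, dg T x.v = dg T x₀.v := by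
    intro x
    obtain ⟨h, hh, hv⟩ := hTr x₀.v x₀.hv x.v x.hv
    obtain ⟨γ, h1, -, -, -, -, h6⟩ := HA T H h hh
    have := h6 x₀
    rw [(h1 x₀).1, hv] at this
    exact this
  refine ⟨AF_eps x₀, ?_⟩
  refine { i0 := H.s0_s0, i1 := H.s1_s1, i2 := s2_s2, c02 := H.s0_s2, ne0 := H.s0_ne,
           ne1 := H.s1_ne, ne2 := s2_ne, ne02 := H.s0_ne_s2, n0 := ?_, k0 := ?_, vcard := ?_,
           fcard := AF_fcard HT H, conn := H.c012, ε0 := ?_, ε1 := ?_, εsq := ?_, trans := ?_ }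
  · intro x
    have := H.n3 x.t x.ht
    omega
  · unfold dg
    rw [Set.ncard_pos (H.finv x₀.v)]
    exact ⟨x₀.t, x₀.ht, x₀.hvt⟩
  · intro x
    rw [← hdg x]
    exact AF_vcard HV H x
  · intro x
    have hb : AF_bs x₀ (s0 x).t = AF_bs x₀ x.t := by rw [H.s0_t]
    obtain ⟨i, hi | hi⟩ := key x
    · rw [AF_eps_pos rfl hi]
      have hb' := AF_bs_t x₀ x
      -- replace `i` by `i + nn`
      obtain ⟨h1, -, -⟩ := HT T H (AF_bs x₀ x.t)
      have hn : 0 < nn T (AF_bs x₀ x.t).t := by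
        have := H.n3 _ (AF_bs x₀ x.t).ht; omega
      obtain ⟨m, hm⟩ : ∃ m, i + nn T (AF_bs x₀ x.t).t = m + 1 := ⟨i + nn T (AF_bs x₀ x.t).t - 1, by omega⟩
      have hx : x = ut^[m + 1] (AF_bs x₀ x.t) := by
        rw [← hm, Function.iterate_add_apply, h1]
        exact hi
      have hs : s0 x = s1 (ut^[m] (AF_bs x₀ x.t)) := by
        have h5 : x = s0 (s1 (ut^[m] (AF_bs x₀ x.t))) := by
          rw [Function.iterate_succ_apply'] at hx
          exact hx
        have h6 := congrArg s0 h5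
        rw [H.s0_s0] at h6
        exact h6
      rw [AF_eps_neg HT H hb hs]
    · rw [AF_eps_neg HT H rfl hi]
      have hs : s0 x = ut^[i + 1] (AF_bs x₀ x.t) := by
        rw [Function.iterate_succ_apply']
        exact congrArg s0 hi
      rw [AF_eps_pos hb hs]
      norm_num
  · intro x
    have hb : AF_bs x₀ (s1 x).t = AF_bs x₀ x.t := by rw [H.s1_t]
    obtain ⟨i, hi | hi⟩ := key x
    · rw [AF_eps_pos rfl hi]
      exact AF_eps_neg HT H hb (congrArg s1 hi)
    · rw [AF_eps_neg HT H rfl hi]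
      have hs : s1 x = ut^[i] (AF_bs x₀ x.t) := by
        have h6 := congrArg s1 hi
        rw [H.s1_s1] at h6
        exact h6
      rw [AF_eps_pos hb hs]
      norm_num
  · intro x
    unfold AF_eps
    split_ifs <;> norm_num
  · intro x y
    obtain ⟨h, hh, hv⟩ := hTr x.v x.hv y.v y.hv
    obtain ⟨γ, h1, h2, h3, h4, -, -⟩ := HA T H h hh
    refine ⟨γ, h2, h3, h4, ?_⟩
    rw [Rch_v_iff H, (h1 x).1, hv]

end AFsec

end H292.TL
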