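import Pool.Agent.H292.TL.FB

set_option autoImplicit false
open scoped UpperHalfPlane Topology
open Set

namespace H292.TL

variable {T : Set (Set ℍ)}

theorem aut_vtx (h : ℍ ≃ₜ ℍ) (hT : ∀ s ∈ T, h '' s ∈ T) {v : ℍ} (hv : v ∈ Vtx T) :
    h v ∈ Vtx T := by
  obtain ⟨a, ha, b, hb, c, hc, hab, hac, hbc, va, vb, vc⟩ := hv
  have inj : ∀ {s t : Set ℍ}, s ≠ t → h '' s ≠ h '' t := fun hst he =>
    hst (h.injective.image_injective he)
  exact ⟨_, hT a ha, _, hT b hb, _, hT c hc, inj hab, inj hac, inj hbc, mem_image_of_mem _ va,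
    mem_image_of_mem _ vb, mem_image_of_mem _ vc⟩

/-- the action of a homeomorphism on flags -/
noncomputable def autF (h : ℍ ≃ₜ ℍ) (hT : ∀ s ∈ T, h '' s ∈ T) (x : Flag T) : Flag T where
  v := h x.v
  t := h '' x.t
  s := h '' x.s
  hv := aut_vtx h hT x.hv
  ht := hT _ x.ht
  hs := hT _ x.hs
  hne := fun he => x.hne (h.injective.image_injective he)
  hvt := mem_image_of_mem _ x.hvt
  hvs := mem_image_of_mem _ x.hvs
  hadj := by
    rw [← image_inter h.injective]
    exact x.hadj.image h.injective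

theorem aut_symm (h : ℍ ≃ₜ ℍ) (hT : ∀ s : Set ℍ, s ∈ T ↔ h '' s ∈ T) :
    ∀ s ∈ T, h.symm '' s ∈ T := by
  intro s hs
  rw [hT, ← image_comp]
  simpa using hs

theorem aut : S_AUT := by
  intro T HF h hT
  have H := HF.toFS1
  have hT1 : ∀ s ∈ T, h '' s ∈ T := fun s hs => (hT s).1 hs
  have hT2 := aut_symm h hT
  have hh : ∀ s : Set ℍ, h '' (h.symm '' s) = s := by
    intro s
    rw [← image_comp]
    simp
  have hh' : ∀ s : Set ℍ, h.symm '' (h '' s) = s := by
    intro s
    rw [← image_comp]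
    simp
  let γ : Equiv.Perm (Flag T) :=
    { toFun := autF h hT1
      invFun := autF h.symm hT2
      left_inv := by
        intro x
        ext1
        · exact h.symm_apply_apply _
        · exact hh' _
        · exact hh' _
      right_inv := by
        intro x
        ext1
        · exact h.apply_symm_apply _
        · exact hh _
        · exact hh _ }
  have γv : ∀ x, (γ x).v = h x.v := fun x => rfl
  have γt : ∀ x, (γ x).t = h '' x.t := fun x => rfl
  have γs : ∀ x, (γ x).s = h '' x.s := fun x => rfl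
  have hV : h '' Vtx T = Vtx T := by
    apply Subset.antisymm
    · rintro _ ⟨v, hv, rfl⟩
      exact aut_vtx h hT1 hv
    · intro v hv
      exact ⟨h.symm v, aut_vtx h.symm hT2 hv, h.apply_symm_apply v⟩
  refine ⟨γ, fun x => ⟨rfl, rfl, rfl⟩, fun x => ?_, fun x => ?_, fun x => rfl, fun x => ?_,
    fun x => ?_⟩
  · apply H.eq_s0
    · rw [γt, γt, H.s0_t]
    · rw [γs, γs, H.s0_s]
    · rw [γv, γv]
      exact fun he => H.s0_v x (h.injective he)
  · apply H.eq_s1
    · rw [γv, γv, H.s1_v]
    · rw [γt, γt, H.s1_t]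
    · rw [γs, γs]
      exact fun he => H.s1_s x (h.injective.image_injective he)
  · unfold nn
    rw [γt]
    conv_lhs => rw [← hV, ← image_inter h.injective]
    exact ncard_image_of_injective _ h.injective
  · unfold dg
    rw [γv]
    have he : {t | t ∈ T ∧ h x.v ∈ t} = (fun s : Set ℍ => h '' s) '' {t | t ∈ T ∧ x.v ∈ t} := by
      apply Subset.antisymm
      · rintro t ⟨ht, hv⟩
        refine ⟨h.symm '' t, ⟨hT2 t ht, ⟨h x.v, hv, h.symm_apply_apply _⟩⟩, hh t⟩
      · rintro _ ⟨t, ⟨ht, hv⟩, rfl⟩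
        exact ⟨hT1 t ht, mem_image_of_mem _ hv⟩
    rw [he]
    exact ncard_image_of_injective _ h.injective.image_injective

end H292.TL
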