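import Pool.Agent.H292.TL.FB

/-!
Project TL: the boundary of a tile is covered by its edges (`S_BD`).
-/

set_option autoImplicit false
open scoped UpperHalfPlane Topology
open Set

namespace H292.TL

/-- a boundary point of a tile lies in a second tile -/
theorem bd_second (hCNT : S_CNT) (hFR : S_FR) {T : Set (Set ℍ)} (hT : Nor T) {t : Set ℍ}
    {q : ℍ} (hq : q ∈ frontier t) : ∃ s ∈ T, s ≠ t ∧ q ∈ s := by
  by_contra hc
  push Not at hc
  obtain ⟨N, hN⟩ := hCNT T hT 1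
  have hfin := (hN q).1
  have hG : ({a ∈ T | (a ∩ Metric.closedBall q 1).Nonempty} \ {t}).Finite := hfin.subset sdiff_subset
  have hcl : IsClosed (⋃ a ∈ {a ∈ T | (a ∩ Metric.closedBall q 1).Nonempty} \ {t}, a) := by
    refine hG.isClosed_biUnion fun a ha => ?_
    obtain ⟨φ, hφ⟩ := hT.chart a ha.1.1
    exact (hFR φ a hφ).2.2.2.isClosed
  have hU : IsOpen (Metric.ball q 1 ∩
      (⋃ a ∈ {a ∈ T | (a ∩ Metric.closedBall q 1).Nonempty} \ {t}, a)ᶜ) :=
    Metric.isOpen_ball.inter hcl.isOpen_compl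
  have hsub : Metric.ball q 1 ∩
      (⋃ a ∈ {a ∈ T | (a ∩ Metric.closedBall q 1).Nonempty} \ {t}, a)ᶜ ⊆ t := by
    intro x hx
    obtain ⟨a, ha, hxa⟩ := hT.cover x
    by_cases hat : a = t
    · rwa [hat] at hxa
    · exfalso
      apply hx.2
      rw [mem_iUnion₂]
      exact ⟨a, ⟨⟨ha, ⟨x, hxa, Metric.ball_subset_closedBall hx.1⟩⟩, hat⟩, hxa⟩
  have hqU : q ∈ Metric.ball q 1 ∩
      (⋃ a ∈ {a ∈ T | (a ∩ Metric.closedBall q 1).Nonempty} \ {t}, a)ᶜ := by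
    refine ⟨Metric.mem_ball_self one_pos, ?_⟩
    intro h
    rw [mem_iUnion₂] at h
    obtain ⟨a, ha, hqa⟩ := h
    exact hc a ha.1.1 ha.2 hqa
  exact hq.2 (interior_maximal hsub hU hqU)

/-- the boundary of a tile is covered by its edges -/
theorem bd (hCNT : S_CNT) (hFR : S_FR) : S_BD := by
  intro T hT t ht p hp
  obtain ⟨φ, hφ⟩ := hT.chart t ht
  obtain ⟨-, hfr, -, hcomp⟩ := hFR φ t hφ
  obtain ⟨r, R, hr, hrR⟩ := hT.unif
  obtain ⟨c₁, c₂, -, hc₂⟩ := hrR t ht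
  obtain ⟨N, hN⟩ := hCNT T hT R
  have hF := (hN c₂).1
  set F := {a ∈ T | (a ∩ Metric.closedBall c₂ R).Nonempty} with hFdef
  have hmem : ∀ s ∈ T, ∀ q ∈ s, q ∈ t → s ∈ F := fun s hs q hqs hqt => ⟨hs, q, hqs, hc₂ hqt⟩
  -- the union of the edges
  set E : Set ℍ := ⋃ a ∈ {a ∈ F | a ≠ t ∧ (a ∩ t).Nontrivial}, a ∩ t with hE
  have hEcl : IsClosed E := by
    rw [hE]
    refine (hF.subset (sep_subset _ _)).isClosed_biUnion fun a ha => ?_
    obtain ⟨ψ, hψ⟩ := hT.chart a ha.1.1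
    exact (hFR ψ a hψ).2.2.2.isClosed.inter hcomp.isClosed
  -- the other points
  set Z : Set ℍ := ⋃ a ∈ {a ∈ F | (a ∩ t).Subsingleton}, a ∩ t with hZ
  have hZfin : Z.Finite := by
    rw [hZ]
    exact (hF.subset (sep_subset _ _)).biUnion fun a ha => ha.2.finite
  have hcov : ∀ q ∈ frontier t, q ∉ E → q ∈ Z := by
    intro q hq hqE
    obtain ⟨s, hs, hst, hqs⟩ := bd_second hCNT hFR hT hq
    have hqt : q ∈ t := hcomp.isClosed.frontier_subset hq
    have hsF := hmem s hs q hqs hqt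
    rw [hZ, mem_iUnion₂]
    refine ⟨s, ⟨hsF, ?_⟩, hqs, hqt⟩
    by_contra hns
    apply hqE
    rw [hE, mem_iUnion₂]
    exact ⟨s, ⟨hsF, hst, not_subsingleton_iff.1 hns⟩, hqs, hqt⟩
  -- it is enough that `p ∈ E`
  have hmain : p ∈ E := by
    by_contra hpE
    rw [hfr] at hp
    obtain ⟨z₀, hz₀, rfl⟩ := hp
    rw [mem_sphere_zero_iff_norm] at hz₀
    obtain ⟨θ₀, hθ₀⟩ : ∃ θ : ℝ, ee θ = z₀ := by
      refine ⟨Complex.arg z₀, ?_⟩
      have h := Complex.norm_mul_exp_arg_mul_I z₀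
      rw [hz₀, Complex.ofReal_one, one_mul] at h
      exact h
    have hee : ∀ θ : ℝ, ee θ ∈ Metric.sphere (0 : ℂ) 1 := by
      intro θ
      rw [mem_sphere_zero_iff_norm]
      exact Complex.norm_exp_ofReal_mul_I θ
    have hee' : ∀ θ : ℝ, ee θ ∈ Metric.closedBall (0 : ℂ) 1 := fun θ =>
      Metric.sphere_subset_closedBall (hee θ)
    have heec : Continuous ee := by
      unfold ee
      fun_prop
    have hfc : Continuous fun θ => φ (ee θ) := by
      rw [← continuousOn_univ]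
      exact hφ.cont.comp heec.continuousOn fun θ _ => hee' θ
    have hopen : IsOpen ((fun θ => φ (ee θ)) ⁻¹' Eᶜ) := hEcl.isOpen_compl.preimage hfc
    have hθmem : θ₀ ∈ (fun θ => φ (ee θ)) ⁻¹' Eᶜ := by
      show φ (ee θ₀) ∉ E
      rw [hθ₀]; exact hpE
    obtain ⟨ε, hε, hball⟩ := Metric.isOpen_iff.1 hopen θ₀ hθmem
    obtain ⟨δ, hδ0, hδ1, hδε⟩ : ∃ δ : ℝ, 0 < δ ∧ δ ≤ 1 ∧ δ < ε :=
      ⟨min 1 (ε / 2), lt_min one_pos (half_pos hε), min_le_left _ _,
        lt_of_le_of_lt (min_le_right _ _) (half_lt_self hε)⟩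
    have hsub : (fun θ => φ (ee θ)) '' Icc θ₀ (θ₀ + δ) ⊆ Z := by
      rintro _ ⟨θ, hθ, rfl⟩
      apply hcov
      · rw [hfr]
        exact mem_image_of_mem φ (hee θ)
      · apply hball
        rw [Metric.mem_ball, Real.dist_eq, abs_of_nonneg (by linarith [hθ.1])]
        linarith [hθ.2]
    have hpre : IsPreconnected ((fun θ => φ (ee θ)) '' Icc θ₀ (θ₀ + δ)) :=
      isPreconnected_Icc.image _ hfc.continuousOn
    have hnt : ((fun θ => φ (ee θ)) '' Icc θ₀ (θ₀ + δ)).Nontrivial := by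
      refine ⟨_, mem_image_of_mem _ (left_mem_Icc.2 (by linarith)), _,
        mem_image_of_mem _ (right_mem_Icc.2 (by linarith)), ?_⟩
      intro h
      have h1 : ee θ₀ = ee (θ₀ + δ) := hφ.inj (hee' _) (hee' _) h
      unfold ee at h1
      rw [Complex.exp_eq_exp_iff_exists_int] at h1
      obtain ⟨n, hn⟩ := h1
      have h2 : (θ₀ : ℂ) = ((θ₀ + δ : ℝ) : ℂ) + n * (2 * Real.pi) := by
        apply mul_right_cancel₀ Complex.I_ne_zero
        rw [hn]; ring
      have h3 : θ₀ = θ₀ + δ + n * (2 * Real.pi) := by exact_mod_cast h2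
      have h4 : δ = -(n : ℝ) * (2 * Real.pi) := by linarith
      have hpi := Real.pi_gt_three
      have h5 : (0 : ℝ) < -(n : ℝ) := by
        by_contra hneg
        have : -(n : ℝ) * (2 * Real.pi) ≤ 0 :=
          mul_nonpos_of_nonpos_of_nonneg (not_lt.1 hneg) (by positivity)
        linarith
      have h6 : (1 : ℝ) ≤ -(n : ℝ) := by
        have : (0 : ℤ) < -n := by exact_mod_cast h5
        exact_mod_cast (show (1 : ℤ) ≤ -n by omega)
      nlinarith
    exact (hpre.infinite_of_nontrivial hnt) (hZfin.subset hsub)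
  rw [hE, mem_iUnion₂] at hmain
  obtain ⟨s, hs, hps⟩ := hmain
  exact ⟨s, hs.1.1, hs.2.1, hs.2.2, hps.1⟩

end H292.TL
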