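import Pool.Agent.H292.TL.FB

/-!
Project TL, task BETA (helper280): a two-to-one map of bounded displacement on a net of `ℍ`.
-/

set_option autoImplicit false
open scoped UpperHalfPlane
open Set

namespace H292.TL

namespace BETA

/-- the point `z` lies in the box `a` -/
def InBox (L : ℕ) (a : ℤ × ℤ) (z : ℍ) : Prop :=
  (L : ℝ) ^ a.1 ≤ z.im ∧ z.im < (L : ℝ) ^ (a.1 + 1) ∧
  (a.2 : ℝ) * (4 * L * (L : ℝ) ^ a.1) ≤ z.re ∧ z.re < ((a.2 : ℝ) + 1) * (4 * L * (L : ℝ) ^ a.1)

/-- the address of a point -/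
noncomputable def adr (L : ℕ) (z : ℍ) : ℤ × ℤ :=
  (Int.log L z.im, ⌊z.re / (4 * L * (L : ℝ) ^ (Int.log L z.im))⌋)

theorem inBox_adr {L : ℕ} (hL : 1 < L) (z : ℍ) : InBox L (adr L z) z := by
  have hL0 : (0 : ℝ) < L := by exact_mod_cast (by omega : 0 < L)
  have hpow : (0 : ℝ) < (L : ℝ) ^ (Int.log L z.im) := zpow_pos hL0 _
  have hw : (0 : ℝ) < 4 * L * (L : ℝ) ^ (Int.log L z.im) := by positivity
  refine ⟨?_, ?_, ?_, ?_⟩
  · exact Int.zpow_log_le_self hL z.im_pos
  · exact Int.lt_zpow_succ_log_self hL _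
  · have := Int.floor_le (z.re / (4 * L * (L : ℝ) ^ (Int.log L z.im)))
    rwa [le_div_iff₀ hw] at this
  · have := Int.lt_floor_add_one (z.re / (4 * L * (L : ℝ) ^ (Int.log L z.im)))
    rwa [div_lt_iff₀ hw] at this

theorem adr_eq {L : ℕ} (hL : 1 < L) {a : ℤ × ℤ} {z : ℍ} (h : InBox L a z) : adr L z = a := by
  have hL0 : (0 : ℝ) < L := by exact_mod_cast (by omega : 0 < L)
  obtain ⟨m, j⟩ := a
  obtain ⟨h1, h2, h3, h4⟩ := h
  simp only at h1 h2 h3 h4
  have hm : Int.log L z.im = m := by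
    have e1 := (Int.zpow_le_iff_le_log hL z.im_pos).1 h1
    have e2 := (Int.lt_zpow_iff_log_lt hL z.im_pos).1 h2
    omega
  have hpow : (0 : ℝ) < (L : ℝ) ^ m := zpow_pos hL0 _
  have hw : (0 : ℝ) < 4 * L * (L : ℝ) ^ m := by positivity
  unfold adr
  rw [hm]
  refine Prod.ext rfl ?_
  simp only
  rw [Int.floor_eq_iff, le_div_iff₀ hw, div_lt_iff₀ hw]
  exact ⟨h3, h4⟩

/-- distance of two points, one in a box, the other one in its `p`-th ancestor -/
theorem dist_le_of_inBox {L : ℕ} (hL : 1 < L) (p : ℕ) {a b : ℤ × ℤ} {z w : ℍ}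
    (hz : InBox L a z) (hw : InBox L b w) (h1 : b.1 = a.1 + p)
    (h2 : b.2 * (L : ℤ) ^ p ≤ a.2) (h3 : a.2 + 1 ≤ (b.2 + 1) * (L : ℤ) ^ p) :
    dist z w ≤ 2 * Real.arsinh (5 * L * (L : ℝ) ^ p / 2) := by
  have hL0 : (0 : ℝ) < L := by exact_mod_cast (by omega : 0 < L)
  have hL1 : (1 : ℝ) ≤ L := by exact_mod_cast (by omega : 1 ≤ L)
  obtain ⟨m, j⟩ := a
  obtain ⟨m', j'⟩ := b
  simp only at h1 h2 h3
  subst h1
  obtain ⟨z1, z2, z3, z4⟩ := hz
  obtain ⟨w1, w2, w3, w4⟩ := hw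
  simp only at z1 z2 z3 z4 w1 w2 w3 w4
  set M : ℝ := (L : ℝ) ^ m with hM
  have hM0 : 0 < M := zpow_pos hL0 _
  set P : ℝ := (L : ℝ) ^ p with hP
  have hP1 : 1 ≤ P := one_le_pow₀ hL1
  have hP0 : 0 < P := by linarith
  have eM1 : (L : ℝ) ^ (m + 1) = M * L := by rw [zpow_add₀ hL0.ne', zpow_one]
  have eMp : (L : ℝ) ^ (m + (p : ℤ)) = M * P := by
    rw [zpow_add₀ hL0.ne', zpow_natCast]
  have eMp1 : (L : ℝ) ^ (m + (p : ℤ) + 1) = M * P * L := by
    rw [zpow_add₀ hL0.ne', zpow_one, eMp]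
  rw [eM1] at z2
  rw [eMp] at w1 w3 w4
  rw [eMp1] at w2
  have h2' : (j' : ℝ) * P ≤ j := by
    have : ((j' * (L : ℤ) ^ p : ℤ) : ℝ) ≤ (j : ℝ) := by exact_mod_cast h2
    push_cast at this
    exact this
  have h3' : (j : ℝ) + 1 ≤ (j' + 1) * P := by
    have : ((j + 1 : ℤ) : ℝ) ≤ (((j' + 1) * (L : ℤ) ^ p : ℤ) : ℝ) := by exact_mod_cast h3
    push_cast at this
    exact this
  have hLM : 0 < 4 * L * M := by positivity
  -- real parts
  have r1 : (j' : ℝ) * (4 * L * (M * P)) ≤ z.re := by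
    calc (j' : ℝ) * (4 * L * (M * P)) = (j' * P) * (4 * L * M) := by ring
      _ ≤ j * (4 * L * M) := by gcongr
      _ ≤ z.re := z3
  have r2 : z.re ≤ ((j' : ℝ) + 1) * (4 * L * (M * P)) := by
    calc z.re ≤ (j + 1) * (4 * L * M) := z4.le
      _ ≤ ((j' + 1) * P) * (4 * L * M) := by gcongr
      _ = _ := by ring
  have rr : |z.re - w.re| ≤ 4 * L * (M * P) := by
    rw [abs_le]
    constructor <;> nlinarith
  have ii : |z.im - w.im| ≤ M * P * L := by
    have : M * L ≤ M * P * L := by nlinarith [mul_pos hM0 hL0]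
    have := z.im_pos
    have := w.im_pos
    rw [abs_le]
    constructor <;> nlinarith
  have dd : dist (z : ℂ) w ≤ 5 * L * P * M := by
    rw [Complex.dist_eq]
    refine (Complex.norm_le_abs_re_add_abs_im _).trans ?_
    have e1 : ((z : ℂ) - w).re = z.re - w.re := by simp
    have e2 : ((z : ℂ) - w).im = z.im - w.im := by simp
    rw [e1, e2]
    nlinarith
  have ss : M ≤ √(z.im * w.im) := by
    apply Real.le_sqrt_of_sq_le
    have : M * P ≤ w.im := w1
    have h : M ≤ M * P := by nlinarith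
    nlinarith [z.im_pos]
  rw [UpperHalfPlane.dist_eq]
  have : dist (z : ℂ) w / (2 * √(z.im * w.im)) ≤ 5 * L * P / 2 := by
    rw [div_le_div_iff₀ (by positivity) (by norm_num)]
    calc dist (z : ℂ) w * 2 ≤ (5 * L * P * M) * 2 := by gcongr
      _ ≤ (5 * L * P * √(z.im * w.im)) * 2 := by gcongr
      _ = 5 * L * P * (2 * √(z.im * w.im)) := by ring
  have := Real.arsinh_le_arsinh.2 this
  linarith

/-- boxes contain large balls -/
theorem exists_center {L : ℕ} (hL : 1 < L) {R : ℝ} (hR : 0 ≤ R) (hLR : Real.exp (2 * R + 2) ≤ L)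
    (a : ℤ × ℤ) : ∃ c : ℍ, ∀ z : ℍ, dist z c ≤ R → InBox L a z := by
  have hL0 : (0 : ℝ) < L := by exact_mod_cast (by omega : 0 < L)
  obtain ⟨m, j⟩ := a
  set M : ℝ := (L : ℝ) ^ m with hM
  have hM0 : 0 < M := zpow_pos hL0 _
  have hi : 0 < M * Real.exp (R + 1) := by positivity
  refine ⟨⟨⟨((j : ℝ) + 1 / 2) * (4 * L * M), M * Real.exp (R + 1)⟩, hi⟩, fun z hz => ?_⟩
  set c : ℍ := ⟨⟨((j : ℝ) + 1 / 2) * (4 * L * M), M * Real.exp (R + 1)⟩, hi⟩ with hc
  have cre : c.re = ((j : ℝ) + 1 / 2) * (4 * L * M) := rfl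
  have cim : c.im = M * Real.exp (R + 1) := rfl
  have eM1 : (L : ℝ) ^ (m + 1) = M * L := by rw [zpow_add₀ hL0.ne', zpow_one]
  have i1 : z.im ≤ c.im * Real.exp R :=
    (UpperHalfPlane.im_le_im_mul_exp_dist z c).trans (by
      have := c.im_pos
      gcongr)
  have i2 : c.im ≤ z.im * Real.exp R :=
    (UpperHalfPlane.im_le_im_mul_exp_dist c z).trans (by
      have := z.im_pos
      rw [dist_comm]
      gcongr)
  have ee1 : Real.exp (R + 1) = Real.exp R * Real.exp 1 := Real.exp_add _ _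
  have ee2 : Real.exp (2 * R + 2) = Real.exp R * Real.exp R * Real.exp 1 * Real.exp 1 := by
    rw [← Real.exp_add, ← Real.exp_add, ← Real.exp_add]; ring_nf
  have e1 : 1 < Real.exp 1 := by
    have := Real.add_one_lt_exp (one_ne_zero)
    linarith
  have eR : 1 ≤ Real.exp R := Real.one_le_exp hR
  have hE : Real.exp R * Real.exp R * Real.exp 1 < L := by
    refine lt_of_lt_of_le ?_ hLR
    rw [ee2]
    have : 0 < Real.exp R * Real.exp R * Real.exp 1 := by positivity
    nlinarith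
  have dre : |z.re - c.re| ≤ c.im * Real.exp R := by
    have h1 : |z.re - c.re| ≤ dist (z : ℂ) c := by
      rw [Complex.dist_eq]
      have := Complex.abs_re_le_norm ((z : ℂ) - c)
      simpa using this
    have h2 := UpperHalfPlane.dist_coe_le z c
    have h3 : Real.exp (dist z c) ≤ Real.exp R := Real.exp_le_exp.2 hz
    have := c.im_pos
    calc |z.re - c.re| ≤ dist (z : ℂ) c := h1
      _ ≤ c.im * (Real.exp (dist z c) - 1) := h2
      _ ≤ c.im * Real.exp R := by
        have : Real.exp (dist z c) - 1 ≤ Real.exp R := by linarith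
        gcongr
  have hcR : c.im * Real.exp R < M * L := by
    rw [cim, ee1]
    calc M * (Real.exp R * Real.exp 1) * Real.exp R
        = M * (Real.exp R * Real.exp R * Real.exp 1) := by ring
      _ < M * L := by gcongr
  refine ⟨?_, ?_, ?_, ?_⟩
  · show M ≤ z.im
    rw [cim, ee1] at i2
    have : M * Real.exp 1 ≤ z.im := by
      have h0 : 0 < Real.exp R := Real.exp_pos R
      have : (M * Real.exp 1) * Real.exp R ≤ z.im * Real.exp R := by linarith
      exact le_of_mul_le_mul_right this h0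
    nlinarith
  · show z.im < (L : ℝ) ^ (m + 1)
    rw [eM1]
    linarith
  · show (j : ℝ) * (4 * L * M) ≤ z.re
    have := (abs_le.1 dre).1
    rw [cre] at this
    nlinarith
  · show z.re < ((j : ℝ) + 1) * (4 * L * M)
    have := (abs_le.1 dre).2
    rw [cre] at this
    nlinarith

end BETA

open BETA in
theorem beta : S_BETA := by
  classical
  intro Y pos hN hR
  obtain ⟨R₀, hR₀⟩ := hR
  set R : ℝ := max R₀ 0 with hRdef
  have hR0 : 0 ≤ R := le_max_right _ _
  obtain ⟨L, hLR⟩ := exists_nat_ge (Real.exp (2 * R + 2))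
  have hL : 1 < L := by
    have h1 : (1 : ℝ) < Real.exp (2 * R + 2) := by
      have := Real.add_one_le_exp (2 * R + 2)
      linarith
    have : (1 : ℝ) < L := lt_of_lt_of_le h1 hLR
    exact_mod_cast this
  -- addresses
  set A : Y → ℤ × ℤ := fun y => adr L (pos y) with hA
  have hbox : ∀ y, InBox L (A y) (pos y) := fun y => inBox_adr hL _
  have hsurj : ∀ a, ∃ y, A y = a := by
    intro a
    obtain ⟨c, hc⟩ := exists_center hL hR0 hLR a
    obtain ⟨y, hy⟩ := hR₀ c
    exact ⟨y, adr_eq hL (hc _ (hy.trans (le_max_left _ _)))⟩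
  -- bounded fibres
  obtain ⟨b, hb⟩ := hN (2 * Real.arsinh (5 * L * (L : ℝ) ^ 0 / 2))
  have hsub : ∀ y, {x | A x = A y} ⊆
      {x | dist (pos x) (pos y) ≤ 2 * Real.arsinh (5 * L * (L : ℝ) ^ 0 / 2)} := by
    intro y x hx
    refine dist_le_of_inBox hL 0 (hbox x) (hbox y) ?_ ?_ ?_
    · rw [show A x = A y from hx]; simp
    · rw [show A x = A y from hx]; simp
    · rw [show A x = A y from hx]; simp
  have hfin : ∀ a, {x | A x = a}.Finite ∧ {x | A x = a}.ncard ≤ b := by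
    intro a
    obtain ⟨y, rfl⟩ := hsurj a
    have h1 := (hb (pos y)).1.subset (hsub y)
    exact ⟨h1, (ncard_le_ncard (hsub y) (hb (pos y)).1).trans (hb (pos y)).2⟩
  -- enumerations
  have henum : ∀ a, ∃ e : ℕ → Y, (∀ q, A (e q) = a) ∧ ∀ w, A w = a → ∃ q < b, e q = w := by
    intro a
    obtain ⟨y₀, hy₀⟩ := hsurj a
    have hf := (hfin a).1
    set S : Finset Y := hf.toFinset with hS
    have hcard : S.card ≤ b := by
      rw [hS, ← ncard_eq_toFinset_card _ hf]
      exact (hfin a).2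
    let eq := S.equivFin
    refine ⟨fun q => if h : q < S.card then (eq.symm ⟨q, h⟩ : Y) else y₀, ?_, ?_⟩
    · intro q
      by_cases h : q < S.card
      · simp only [h, dif_pos]
        exact (Finite.mem_toFinset hf).1 (eq.symm ⟨q, h⟩).2
      · simp only [h, dif_neg, not_false_iff]
        exact hy₀
    · intro w hw
      have hwS : w ∈ S := by
        exact (Finite.mem_toFinset hf).2 hw
      refine ⟨(eq ⟨w, hwS⟩ : ℕ), lt_of_lt_of_le (eq ⟨w, hwS⟩).2 hcard, ?_⟩
      have h := (eq ⟨w, hwS⟩).2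
      simp only [h, dif_pos]
      simp
  choose e he1 he2 using henum
  -- the scale
  obtain ⟨p, hp⟩ : ∃ p : ℕ, 2 * b < L ^ p := by
    obtain ⟨p, hp⟩ := pow_unbounded_of_one_lt (2 * b) hL
    exact ⟨p, hp⟩
  set Q : ℤ := (L : ℤ) ^ p with hQ
  have hQ0 : 0 < Q := by
    have : (0 : ℤ) < L := by exact_mod_cast (by omega : 0 < L)
    positivity
  have hQb : (2 * b : ℤ) < Q := by
    rw [hQ]; exact_mod_cast hp
  refine ⟨fun y => e ((A y).1 + p, (A y).2 / Q) (((A y).2 % Q).toNat / 2),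
    2 * Real.arsinh (5 * L * (L : ℝ) ^ p / 2), ?_, ?_⟩
  · intro y
    have hw := hbox (e ((A y).1 + p, (A y).2 / Q) (((A y).2 % Q).toNat / 2))
    rw [he1] at hw
    refine dist_le_of_inBox hL p (hbox y) hw rfl ?_ ?_
    · show (A y).2 / Q * Q ≤ (A y).2
      have h := Int.emod_nonneg (A y).2 hQ0.ne'
      have h' := Int.emod_add_mul_ediv (A y).2 Q
      nlinarith
    · show (A y).2 + 1 ≤ ((A y).2 / Q + 1) * Q
      have h := Int.emod_lt_of_pos (A y).2 hQ0
      have h' := Int.emod_add_mul_ediv (A y).2 Q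
      nlinarith
  · intro w
    obtain ⟨q, hqb, hq⟩ := he2 (A w) w rfl
    obtain ⟨y₁, h₁⟩ := hsurj ((A w).1 - p, (A w).2 * Q + 2 * q)
    obtain ⟨y₂, h₂⟩ := hsurj ((A w).1 - p, (A w).2 * Q + (2 * q + 1))
    have hq' : (q : ℤ) < b := by exact_mod_cast hqb
    refine ⟨y₁, y₂, ?_, ?_, ?_⟩
    · rintro rfl
      rw [h₁] at h₂
      have := congrArg Prod.snd h₂
      simp only at this
      omega
    · show e ((A y₁).1 + p, (A y₁).2 / Q) (((A y₁).2 % Q).toNat / 2) = w
      rw [h₁]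
      have e1 : ((A w).2 * Q + 2 * (q : ℤ)) / Q = (A w).2 := by
        rw [add_comm, Int.add_mul_ediv_right _ _ hQ0.ne', Int.ediv_eq_zero_of_lt (by omega) (by omega)]
        simp
      have e2 : ((A w).2 * Q + 2 * (q : ℤ)) % Q = 2 * q := by
        rw [add_comm, Int.add_mul_emod_self_right, Int.emod_eq_of_lt (by omega) (by omega)]
      simp only [e1, e2]
      have e3 : ((A w).1 - (p : ℤ) + p, (A w).2) = A w := by
        ext <;> simp
      have e4 : (2 * (q : ℤ)).toNat / 2 = q := by omega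
      rw [e3, e4, hq]
    · show e ((A y₂).1 + p, (A y₂).2 / Q) (((A y₂).2 % Q).toNat / 2) = w
      rw [h₂]
      have e1 : ((A w).2 * Q + (2 * (q : ℤ) + 1)) / Q = (A w).2 := by
        rw [add_comm, Int.add_mul_ediv_right _ _ hQ0.ne', Int.ediv_eq_zero_of_lt (by omega) (by omega)]
        simp
      have e2 : ((A w).2 * Q + (2 * (q : ℤ) + 1)) % Q = 2 * q + 1 := by
        rw [add_comm, Int.add_mul_emod_self_right, Int.emod_eq_of_lt (by omega) (by omega)]
      simp only [e1, e2]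
      have e3 : ((A w).1 - (p : ℤ) + p, (A w).2) = A w := by
        ext <;> simp
      have e4 : (2 * (q : ℤ) + 1).toNat / 2 = q := by omega
      rw [e3, e4, hq]

end H292.TL
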