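import Pool.Agent.H292.TL.FB

/-!
Project TL: the boundary map of a tile is a homeomorphism onto the boundary of the polygon.
-/

set_option autoImplicit false
open scoped UpperHalfPlane Topology
open Set

namespace H292.TL

variable {T : Set (Set ℍ)} {l : ℝ} {g : Flag T → (ℍ ≃ᵢ ℍ)} {b : ℍ → ℍ}

theorem bmap_g_ut (hg : Frames T l g) (x : Flag T) :
    g (ut x) = g x * (R1 l (nn T x.t) * R0 l) := by
  unfold ut
  rw [(hg (s1 x)).1, (hg x).2.1, mul_assoc]

theorem bmap_g_iter (H : FS1 T) (hg : Frames T l g) (x : Flag T) (i : ℕ) :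
    g (ut^[i] x) = g x * (R1 l (nn T x.t) * R0 l) ^ i := by
  induction i with
  | zero => rw [pow_zero, mul_one]; rfl
  | succ i ih =>
    rw [Function.iterate_succ_apply', bmap_g_ut hg, H.ut_iter_t, ih, pow_succ, mul_assoc]

/-- the boundary of a tile is the union of its edges -/
theorem bmap_frontier (hTENUM : S_TENUM) (hF : FS T) (hE : ES T)
    (hc : ∀ t ∈ T, IsClosed t) (x : Flag T) :
    frontier x.t = ⋃ i ∈ Finset.range (nn T x.t), ((ut^[i] x).s ∩ (ut^[i] x).t) := by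
  obtain ⟨h1, -, h3⟩ := hTENUM T hF x
  have hn : 3 ≤ nn T x.t := hF.n3 x.t x.ht
  apply Subset.antisymm
  · intro p hp
    obtain ⟨y, hyt, hyp⟩ := hE.bd x.t x.ht p hp
    have hpt : p ∈ x.t := (hc x.t x.ht).frontier_subset hp
    obtain ⟨i, hi, h | h⟩ := h3 y hyt
    · refine mem_biUnion (Finset.mem_coe.2 (Finset.mem_range.2 hi)) ?_
      rw [← h]
      exact ⟨hyp, hyt ▸ hpt⟩
    · have e1 : (ut (ut^[i] x)).s = y.s := by rw [hF.ut_s, h]
      have e2 : (ut (ut^[i] x)).t = x.t := by rw [hF.ut_t, hF.ut_iter_t]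
      rw [← Function.iterate_succ_apply' ut i x] at e1 e2
      rcases (by omega : i + 1 < nn T x.t ∨ i + 1 = nn T x.t) with h4 | h4
      · refine mem_biUnion (Finset.mem_coe.2 (Finset.mem_range.2 h4)) ⟨?_, ?_⟩
        · rw [e1]; exact hyp
        · rw [e2]; exact hpt
      · refine mem_biUnion (Finset.mem_coe.2 (Finset.mem_range.2 (by omega : 0 < nn T x.t)))
          ⟨?_, hpt⟩
        have h5 : ut^[i + 1] x = x := by rw [h4, h1]
        rw [h5] at e1
        show p ∈ x.s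
        rw [e1]; exact hyp
  · intro p hp
    obtain ⟨i, -, hp⟩ := mem_iUnion₂.1 hp
    have h4 := hE.fr _ (ut^[i] x).hs _ (ut^[i] x).ht (ut^[i] x).hne hp
    rwa [hF.ut_iter_t] at h4

/-- two consecutive edges -/
theorem bmap_adj (hPBD : S_PBD) (hF : FS T) (hl : 0 < l) (hg : Frames T l g)
    (hb : ∀ x : Flag T, ContinuousOn b (x.s ∩ x.t) ∧ InjOn b (x.s ∩ x.t) ∧
      b '' (x.s ∩ x.t) = g x '' Seg l ∧ b x.v = g x UpperHalfPlane.I)
    (z : Flag T) {p q : ℍ} (hp : p ∈ z.s ∩ z.t) (hq : q ∈ (ut z).s ∩ (ut z).t) (h : b p = b q) :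
    p = q := by
  have h1 : b p ∈ g z '' Seg l := by
    rw [← (hb z).2.2.1]
    exact mem_image_of_mem b hp
  have h2 : b q ∈ g (ut z) '' Seg l := by
    rw [← (hb (ut z)).2.2.1]
    exact mem_image_of_mem b hq
  obtain ⟨u, hu, hu'⟩ := h1
  obtain ⟨w, hw, hw'⟩ := h2
  rw [bmap_g_ut hg] at hw'
  have h3 : u = (R1 l (nn T z.t) * R0 l : ℍ ≃ᵢ ℍ) w := by
    apply (g z).injective
    rw [hu', h, ← hw']
    rfl
  have h4 : u ∈ Seg l ∩ (R1 l (nn T z.t) * R0 l : ℍ ≃ᵢ ℍ) '' Seg l :=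
    ⟨hu, w, hw, h3.symm⟩
  rw [(hPBD l (nn T z.t) hl (hF.n3 z.t z.ht)).2.2] at h4
  have h5 : u = UpperHalfPlane.I := h4
  have h6 : b p = b z.v := by rw [← hu', h5, (hb z).2.2.2]
  have h7 : p = z.v := (hb z).2.1 hp ⟨z.hvs, z.hvt⟩ h6
  have h8 : z.v ∈ (ut z).s ∩ (ut z).t := by
    rw [hF.ut_s, hF.ut_t]
    refine ⟨?_, z.hvt⟩
    have := (s1 z).hvs
    rwa [hF.s1_v] at this
  have h9 : q = z.v := (hb (ut z)).2.1 hq h8 (by rw [← h, h6])
  rw [h7, h9]

/-- injectivity, with the first edge as base -/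
theorem bmap_inj0 (hPBD : S_PBD) (hTENUM : S_TENUM) (hF : FS T) (hl : 0 < l)
    (hg : Frames T l g)
    (hb : ∀ x : Flag T, ContinuousOn b (x.s ∩ x.t) ∧ InjOn b (x.s ∩ x.t) ∧
      b '' (x.s ∩ x.t) = g x '' Seg l ∧ b x.v = g x UpperHalfPlane.I)
    (z : Flag T) (j : ℕ) (hj : j < nn T z.t) {p q : ℍ} (hp : p ∈ z.s ∩ z.t)
    (hq : q ∈ (ut^[j] z).s ∩ (ut^[j] z).t) (h : b p = b q) : p = q := by
  have hn : 3 ≤ nn T z.t := hF.n3 z.t z.ht
  rcases (by omega : j = 0 ∨ j = 1 ∨ (2 ≤ j ∧ j + 2 ≤ nn T z.t) ∨ j + 1 = nn T z.t)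
    with h0 | h0 | h0 | h0
  · subst h0
    exact (hb z).2.1 hp hq h
  · subst h0
    exact bmap_adj hPBD hF hl hg hb z hp hq h
  · exfalso
    have h1 : b p ∈ g z '' Seg l := by
      rw [← (hb z).2.2.1]
      exact mem_image_of_mem b hp
    have h2 : b q ∈ g (ut^[j] z) '' Seg l := by
      rw [← (hb (ut^[j] z)).2.2.1]
      exact mem_image_of_mem b hq
    obtain ⟨u, hu, hu'⟩ := h1
    obtain ⟨w, hw, hw'⟩ := h2
    rw [bmap_g_iter hF.toFS1 hg] at hw'
    have h3 : u = ((R1 l (nn T z.t) * R0 l) ^ j : ℍ ≃ᵢ ℍ) w := by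
      apply (g z).injective
      rw [hu', h, ← hw']
      rfl
    have h4 := (hPBD l (nn T z.t) hl hn).2.1 j h0.1 h0.2
    exact Set.disjoint_left.1 h4 hu ⟨w, hw, h3.symm⟩
  · have h1 : ut (ut^[j] z) = z := by
      rw [← Function.iterate_succ_apply' ut j z]
      show ut^[j + 1] z = z
      rw [h0]
      exact (hTENUM T hF z).1
    exact (bmap_adj hPBD hF hl hg hb (ut^[j] z) hq (by rw [h1]; exact hp) h.symm).symm

theorem bmap (hPBD : S_PBD) (hTENUM : S_TENUM) (hFR : S_FR) : S_BMAP := by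
  intro T hN hF hE l hl g hg b hb x
  have hc : ∀ t ∈ T, IsClosed t := by
    intro t ht
    obtain ⟨φ, hφ⟩ := hN.chart t ht
    exact (hFR φ t hφ).2.2.2.isClosed
  have hn : 3 ≤ nn T x.t := hF.n3 x.t x.ht
  have hfr := bmap_frontier hTENUM hF hE hc x
  refine ⟨?_, ?_, ?_⟩
  · have e : (⋃ i ∈ Finset.range (nn T x.t), ((ut^[i] x).s ∩ (ut^[i] x).t)) =
        ⋃ i : Fin (nn T x.t), ((ut^[(i : ℕ)] x).s ∩ (ut^[(i : ℕ)] x).t) := by
      ext p
      constructor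
      · intro h
        obtain ⟨i, hi, hp⟩ := mem_iUnion₂.1 h
        exact mem_iUnion.2 ⟨⟨i, Finset.mem_range.1 hi⟩, hp⟩
      · intro h
        obtain ⟨i, hp⟩ := mem_iUnion.1 h
        exact mem_iUnion₂.2 ⟨(i : ℕ), Finset.mem_range.2 i.2, hp⟩
    rw [hfr, e]
    apply LocallyFinite.continuousOn_iUnion (locallyFinite_of_finite _)
    · intro i
      exact (hc _ (ut^[(i : ℕ)] x).hs).inter (hc _ (ut^[(i : ℕ)] x).ht)
    · intro i
      exact (hb (ut^[(i : ℕ)] x)).1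
  · intro p hp q hq h
    rw [hfr] at hp hq
    obtain ⟨i, hi, hp⟩ := mem_iUnion₂.1 hp
    obtain ⟨j, hj, hq⟩ := mem_iUnion₂.1 hq
    have key : ∀ i j : ℕ, i < nn T x.t → j < nn T x.t → i ≤ j → ∀ p q : ℍ,
        p ∈ (ut^[i] x).s ∩ (ut^[i] x).t → q ∈ (ut^[j] x).s ∩ (ut^[j] x).t → b p = b q → p = q := by
      intro i j hi hj hij p q hp hq h
      have e : ut^[j] x = ut^[j - i] (ut^[i] x) := by
        rw [← Function.iterate_add_apply]
        congr 2
        omega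
      rw [e] at hq
      exact bmap_inj0 hPBD hTENUM hF hl hg hb (ut^[i] x) (j - i)
        (by rw [hF.ut_iter_t]; omega) hp hq h
    rcases le_total i j with hij | hij
    · exact key i j (Finset.mem_range.1 hi) (Finset.mem_range.1 hj) hij p q hp hq h
    · exact (key j i (Finset.mem_range.1 hj) (Finset.mem_range.1 hi) hij q p hq hp h.symm).symm
  · have h1 : frontier (g x '' Poly l (nn T x.t)) = g x '' frontier (Poly l (nn T x.t)) :=
      ((g x).toHomeomorph.image_frontier _).symm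
    rw [h1, (hPBD l (nn T x.t) hl hn).1, hfr, image_iUnion₂, image_iUnion₂]
    refine iUnion₂_congr fun i _ => ?_
    rw [(hb (ut^[i] x)).2.2.1, bmap_g_iter hF.toFS1 hg, ← image_comp]
    rfl

end H292.TL
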