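import Pool.Agent.H292.TL.FB

/-!
Project TL (owner helper292): task CCYC, the flags of a normal tiling are connected under
`s0, s1, s2`.
-/

set_option autoImplicit false
open scoped UpperHalfPlane Topology
open Set

namespace H292.TL

namespace CCYCaux

variable {T : Set (Set ℍ)}

/-- `Rch s0 s1` gives `Rch3 s0 s1 s2` -/
theorem rch01 {x y : Flag T} (h : Rch s0 s1 x y) : Rch3 s0 s1 s2 x y := by
  unfold Rch at h
  unfold Rch3
  refine Relation.ReflTransGen.mono (fun a b hab => ?_) x y h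
  rcases hab with hab | hab
  · exact Or.inl hab
  · exact Or.inr (Or.inl hab)

/-- `Rch s1 s2` gives `Rch3 s0 s1 s2` -/
theorem rch12 {x y : Flag T} (h : Rch s1 s2 x y) : Rch3 s0 s1 s2 x y := by
  unfold Rch at h
  unfold Rch3
  exact Relation.ReflTransGen.mono (fun a b hab => Or.inr hab) x y h

theorem rch3_trans {x y z : Flag T} (h : Rch3 s0 s1 s2 x y) (h' : Rch3 s0 s1 s2 y z) :
    Rch3 s0 s1 s2 x z := by
  unfold Rch3 at *
  exact Relation.ReflTransGen.trans h h'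

theorem rch3_s2 {x y : Flag T} (h : Rch3 s0 s1 s2 x y) : Rch3 s0 s1 s2 x (s2 y) := by
  unfold Rch3 at *
  exact Relation.ReflTransGen.tail h (Or.inr (Or.inr rfl))

/-- unions of subfamilies of the tiles are closed -/
theorem closed_union (h : S_CNT) (h' : S_FR) (N : Nor T) (S : Set (Set ℍ)) (hS : S ⊆ T) :
    IsClosed (⋃₀ S) := by
  rw [sUnion_eq_iUnion]
  refine LocallyFinite.isClosed_iUnion ?_ ?_
  · intro q
    obtain ⟨n, hn⟩ := h T N 1
    refine ⟨Metric.closedBall q 1, Metric.closedBall_mem_nhds q one_pos, ?_⟩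
    have hf := (hn q).1
    refine Set.Finite.subset (Set.Finite.preimage (Subtype.val_injective.injOn) hf) ?_
    intro t ht
    exact ⟨hS t.2, ht⟩
  · intro t
    obtain ⟨φ, hφ⟩ := N.chart t.1 (hS t.2)
    exact (h' φ t.1 hφ).2.2.2.isClosed

/-- the union of the tiles at `q` is a neighbourhood of `q` -/
theorem star_nhds (h : S_CNT) (h' : S_FR) (N : Nor T) (q : ℍ) :
    {p : ℍ | ∃ t ∈ T, q ∈ t ∧ p ∈ t} ∈ 𝓝 q := by
  have hc : IsClosed (⋃₀ {t ∈ T | q ∉ t}) := closed_union h h' N _ (fun t ht => ht.1)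
  have hq : q ∈ (⋃₀ {t ∈ T | q ∉ t})ᶜ := by
    rintro ⟨t, ht, hqt⟩
    exact ht.2 hqt
  refine Filter.mem_of_superset (hc.isOpen_compl.mem_nhds hq) ?_
  intro p hp
  obtain ⟨t, htT, hpt⟩ := N.cover p
  refine ⟨t, htT, ?_, hpt⟩
  by_contra hqt
  exact hp ⟨t, ⟨htT, hqt⟩, hpt⟩

end CCYCaux

open CCYCaux in
/-- any two flags of a normal tiling are connected by `s0, s1, s2` -/
theorem ccyc (h : S_CNT) (h' : S_FR) (h'' : S_DISJ) : S_CCYC := by
  intro T N H E ct cv x y
  -- the union of the tiles of the flags reachable from `x`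
  let O : Set (Flag T) := {z | Rch3 s0 s1 s2 x z}
  let W : Set ℍ := ⋃₀ {t | ∃ z ∈ O, z.t = t}
  have hmW : ∀ z ∈ O, z.t ⊆ W := fun z hz p hp => ⟨z.t, ⟨z, hz, rfl⟩, hp⟩
  have hcl : IsClosed W := by
    refine closed_union h h' N _ ?_
    rintro t ⟨z, _, rfl⟩
    exact z.ht
  have hop : IsOpen W := by
    rw [isOpen_iff_mem_nhds]
    rintro q ⟨t, ⟨z, hz, rfl⟩, hq⟩
    by_cases hqi : q ∈ interior z.t
    · exact Filter.mem_of_superset (mem_interior_iff_mem_nhds.1 hqi) (hmW z hz)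
    have hqf : q ∈ frontier z.t := ⟨subset_closure hq, hqi⟩
    by_cases hqv : q ∈ Vtx T
    · obtain ⟨w, hwv, hwt⟩ := H.exv q hqv z.t z.ht hq
      have hwO : w ∈ O := rch3_trans hz (rch01 (ct z w hwt))
      refine Filter.mem_of_superset (star_nhds h h' N q) ?_
      rintro p ⟨t, htT, hqt, hpt⟩
      obtain ⟨u, huv, hut⟩ := H.exv q hqv t htT hqt
      have huO : u ∈ O := rch3_trans hwO (rch12 (cv w u (by rw [huv, hwv])))
      refine hmW u huO ?_
      rw [hut]
      exact hpt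
    · obtain ⟨w, hwt, hws⟩ := E.bd z.t z.ht q hqf
      have hwO : w ∈ O := rch3_trans hz (rch01 (ct z w hwt))
      have hw2 : s2 w ∈ O := rch3_s2 hwO
      have hqw : q ∈ w.t := by rw [hwt]; exact hq
      refine Filter.mem_of_superset (E.two w q ⟨hws, hqw⟩ hqv) ?_
      exact union_subset (hmW (s2 w) hw2) (hmW w hwO)
  have hxW : x.v ∈ W := hmW x Relation.ReflTransGen.refl x.hvt
  have huniv : W = univ := IsClopen.eq_univ ⟨hcl, hop⟩ ⟨_, hxW⟩
  obtain ⟨φ, hφ⟩ := N.chart y.t y.ht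
  have hyc : y.v ∈ closure (interior y.t) := (h' φ y.t hφ).2.2.1 y.hvt
  obtain ⟨p, hp⟩ : (interior y.t).Nonempty := by
    rw [← closure_nonempty_iff]
    exact ⟨_, hyc⟩
  have hpW : p ∈ W := by rw [huniv]; exact mem_univ p
  obtain ⟨t, ⟨z, hz, rfl⟩, hpz⟩ := hpW
  have hzy : z.t = y.t := by
    by_contra hne
    exact (Set.disjoint_left.1 (h'' T N z.t z.ht y.t y.ht hne).2) hpz hp
  exact rch3_trans hz (rch01 (ct z y hzy.symm))

end H292.TL
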