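import Pool.Agent.H292.TL.FB

/-!
Project TL: chains of intersecting tiles of bounded length (task CHAIN, helper174).
-/

set_option autoImplicit false
open scoped UpperHalfPlane Topology
open Set

namespace H292.TL

/-- hyperbolic closed balls are preconnected -/
theorem chain_ball (p : ℍ) (D : ℝ) : IsPreconnected (Metric.closedBall p D) := by
  have h1 : IsPreconnected ((fun z : ℍ => (z : ℂ)) '' Metric.closedBall p D) := by
    have h2 := UpperHalfPlane.image_coe_closedBall p D
    rw [h2]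
    exact (convex_closedBall _ _).isPreconnected
  exact (UpperHalfPlane.isEmbedding_coe.isInducing.isPreconnected_image).1 h1

/-- tiles are closed -/
theorem chain_closed {T : Set (Set ℍ)} (hT : Nor T) {t : Set ℍ} (ht : t ∈ T) : IsClosed t := by
  obtain ⟨φ, hφ⟩ := hT.chart t ht
  have h := (isCompact_closedBall (0:ℂ) 1).image_of_continuousOn hφ.cont
  rw [hφ.img] at h
  exact h.isClosed

/-- the intersection graph of a set of subsets -/
def chainG (B : Set (Set ℍ)) : SimpleGraph B where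
  Adj a b := a ≠ b ∧ ((a : Set ℍ) ∩ (b : Set ℍ)).Nonempty
  symm := ⟨fun a b h => ⟨h.1.symm, by rw [inter_comm]; exact h.2⟩⟩
  loopless := ⟨fun a h => h.1 rfl⟩

theorem chain (hC : S_CNT) : S_CHAIN := by
  intro T hT D
  obtain ⟨N, hN⟩ := hC T hT D
  refine ⟨N, ?_⟩
  intro s hs t ht p hp q hq hpq
  have hD : 0 ≤ D := dist_nonneg.trans hpq
  set K := Metric.closedBall p D with hK
  obtain ⟨hfin, hcard⟩ := hN p
  set B : Set (Set ℍ) := {u ∈ T | (u ∩ Metric.closedBall p D).Nonempty} with hB
  have hsB : s ∈ B := ⟨hs, p, hp, Metric.mem_closedBall_self hD⟩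
  have htB : t ∈ B := ⟨ht, q, hq, by rw [Metric.mem_closedBall, dist_comm]; exact hpq⟩
  have : Finite B := hfin.to_subtype
  let _ : Fintype B := Fintype.ofFinite B
  have hr : (chainG B).Reachable ⟨s, hsB⟩ ⟨t, htB⟩ := by
    by_contra hnr
    set A : Set B := {u | (chainG B).Reachable ⟨s, hsB⟩ u} with hA
    have hcl : ∀ S : Set B, IsClosed (⋃ u ∈ S, (u : Set ℍ)) := by
      intro S
      exact (Set.toFinite S).isClosed_biUnion (fun u _ => chain_closed hT u.2.1)
    have hpre := chain_ball p D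
    rw [isPreconnected_closed_iff] at hpre
    obtain ⟨x, hxK, hx1, hx2⟩ := hpre (⋃ u ∈ A, (u : Set ℍ)) (⋃ u ∈ Aᶜ, (u : Set ℍ)) (hcl A) (hcl Aᶜ)
      (by
        intro x hx
        obtain ⟨u, hu, hxu⟩ := hT.cover x
        have huB : u ∈ B := ⟨hu, x, hxu, hx⟩
        by_cases h : (⟨u, huB⟩ : B) ∈ A
        · left; exact mem_biUnion h hxu
        · right; exact mem_biUnion (show (⟨u, huB⟩ : B) ∈ Aᶜ from h) hxu)
      ⟨p, Metric.mem_closedBall_self hD, mem_biUnion (show (⟨s, hsB⟩ : B) ∈ A from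
        SimpleGraph.Reachable.refl _) hp⟩
      ⟨q, by rw [Metric.mem_closedBall, dist_comm]; exact hpq,
        mem_biUnion (show (⟨t, htB⟩ : B) ∈ Aᶜ from hnr) hq⟩
    simp only [mem_iUnion, exists_prop] at hx1 hx2
    obtain ⟨a, ha, hxa⟩ := hx1
    obtain ⟨b, hb, hxb⟩ := hx2
    apply hb
    have hab : a ≠ b := by
      rintro rfl
      exact hb ha
    have hadj : (chainG B).Adj a b := ⟨hab, x, hxa, hxb⟩
    exact SimpleGraph.Reachable.trans ha hadj.reachable
  classical
  obtain ⟨w⟩ := hr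
  have hlt : w.toPath.1.length < Fintype.card B := w.toPath.2.length_lt
  have hcB : Fintype.card B = B.ncard := by
    rw [← Nat.card_eq_fintype_card]; rfl
  refine ⟨w.toPath.1.length, ?_, fun i => (w.toPath.1.getVert i : Set ℍ), ?_, ?_, ?_, ?_⟩
  · rw [hcB] at hlt
    exact hlt.le.trans hcard
  · simp
  · simp
  · intro i _
    exact (w.toPath.1.getVert i).2.1
  · intro i hi
    exact (w.toPath.1.adj_getVert_succ hi).2

end H292.TL
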