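import Pool.Agent.H292.TL.FB

/-!
Project TL: chains of adjacent tiles of bounded length (CHT).
-/

set_option autoImplicit false
open scoped UpperHalfPlane Topology
open Set

namespace H292.TL

namespace CHT

variable {T : Set (Set ℍ)}

/-- chain of adjacent tiles of length `n` -/
def Ch (T : Set (Set ℍ)) (n : ℕ) (a b : Set ℍ) : Prop :=
  ∃ c : ℕ → Set ℍ, c 0 = a ∧ c n = b ∧ ∀ i < n, ∃ x : Flag T, x.t = c i ∧ x.s = c (i+1)

theorem Ch.append {m n : ℕ} {a b d : Set ℍ} (h1 : Ch T m a b) (h2 : Ch T n b d) :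
    Ch T (m + n) a d := by
  obtain ⟨c, hc0, hcm, hc⟩ := h1
  obtain ⟨e, he0, hen, he⟩ := h2
  refine ⟨fun i => if i < m then c i else e (i - m), ?_, ?_, ?_⟩
  · by_cases hm : 0 < m
    · simp only [hm, if_true]; exact hc0
    · have : m = 0 := by omega
      subst this
      simp only [lt_irrefl, if_false]
      rw [he0, ← hcm, hc0]
  · have h3 : ¬ (m + n < m) := by omega
    simp only [h3, if_false]
    rw [Nat.add_sub_cancel_left, hen]
  · intro i hi
    by_cases him : i < m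
    · obtain ⟨x, hx1, hx2⟩ := hc i him
      refine ⟨x, by simp only [him, if_true]; exact hx1, ?_⟩
      by_cases him' : i + 1 < m
      · simp only [him', if_true]; exact hx2
      · have h4 : i + 1 = m := by omega
        simp only [him', if_false]
        rw [hx2, h4, Nat.sub_self, hcm, he0]
    · have him' : ¬ (i + 1 < m) := by omega
      obtain ⟨x, hx1, hx2⟩ := he (i - m) (by omega)
      refine ⟨x, by simp only [him, if_false]; exact hx1, ?_⟩
      simp only [him', if_false]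
      have h5 : i + 1 - m = i - m + 1 := by omega
      rw [h5]; exact hx2

/-- two intersecting tiles are joined by a short chain of adjacent tiles -/
theorem step (hV : S_VENUM) (H : FS T) (E : ES T) {N : ℕ} (hN : ∀ v : ℍ, dg T v ≤ N)
    {a b : Set ℍ} (ha : a ∈ T) (hb : b ∈ T) (hab : (a ∩ b).Nonempty) :
    ∃ n ≤ N, Ch T n a b := by
  by_cases hE : a = b
  · subst hE
    exact ⟨0, Nat.zero_le _, fun _ => a, rfl, rfl, fun i hi => absurd hi (Nat.not_lt_zero _)⟩
  obtain ⟨v, hv, hva, hvb⟩ := E.nev a ha b hb hE hab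
  obtain ⟨x, hxv, hxt⟩ := H.exv v hv a ha hva
  obtain ⟨y, hyv, hyt⟩ := H.exv v hv b hb hvb
  obtain ⟨-, -, h3⟩ := hV T H x
  obtain ⟨i, hi, hy⟩ := h3 y (by rw [hxv, hyv])
  have hb' : (uv^[i] x).t = b := by
    rcases hy with hy | hy
    · rw [← hyt, hy]
    · rw [← hyt, hy, H.toFS1.s1_t]
  refine ⟨i, hi.le.trans (hN _), fun j => (uv^[j] x).t, hxt, hb', ?_⟩
  intro j _
  refine ⟨s1 (uv^[j] x), H.toFS1.s1_t _, ?_⟩
  change (s1 (uv^[j] x)).s = (uv^[j + 1] x).t
  rw [Function.iterate_succ_apply', H.toFS1.uv_t]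

theorem chain (hV : S_VENUM) (H : FS T) (E : ES T) {N : ℕ} (hN : ∀ v : ℍ, dg T v ≤ N)
    (c : ℕ → Set ℍ) (n : ℕ) (hc : ∀ i ≤ n, c i ∈ T) (hi : ∀ i < n, (c i ∩ c (i+1)).Nonempty) :
    ∃ m ≤ n * N, Ch T m (c 0) (c n) := by
  induction n with
  | zero => exact ⟨0, Nat.zero_le _, fun _ => c 0, rfl, rfl,
      fun i hi => absurd hi (Nat.not_lt_zero _)⟩
  | succ n ih =>
    obtain ⟨m, hm, hch⟩ := ih (fun i hi => hc i (by omega)) (fun i h => hi i (by omega))
    obtain ⟨k, hk, hch'⟩ := step hV H E hN (hc n (by omega)) (hc (n+1) le_rfl) (hi n (by omega))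
    refine ⟨m + k, ?_, hch.append hch'⟩
    rw [Nat.succ_mul]
    omega

end CHT

theorem cht (hCNT : S_CNT) (hCHAIN : S_CHAIN) (hVENUM : S_VENUM) : S_CHT := by
  intro T hT H E D
  obtain ⟨N, hN⟩ := hCNT T hT 0
  obtain ⟨M, hM⟩ := hCHAIN T hT D
  have hdg : ∀ v : ℍ, dg T v ≤ N := by
    intro v
    obtain ⟨hfin, hcard⟩ := hN v
    refine le_trans (ncard_le_ncard ?_ hfin) hcard
    rintro t ⟨ht, hvt⟩
    exact ⟨ht, v, hvt, Metric.mem_closedBall_self le_rfl⟩
  refine ⟨M * N, ?_⟩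
  intro s hs t ht p hp q hq hd
  obtain ⟨n, hn, c, hc0, hcn, hcT, hci⟩ := hM s hs t ht p hp q hq hd
  obtain ⟨m, hm, c', h0, h1, h2⟩ := CHT.chain hVENUM H E hdg c n hcT hci
  refine ⟨m, hm.trans (Nat.mul_le_mul_right N hn), c', ?_, ?_, h2⟩
  · rw [h0, hc0]
  · rw [h1, hcn]

end H292.TL
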