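import Pool.Agent.H292.TL.FB

/-!
Project TL: chains of adjacent vertices of bounded length (task CHV).
-/

set_option autoImplicit false
open scoped UpperHalfPlane Topology
open Set

namespace H292.TL

namespace CHVaux

variable {T : Set (Set ℍ)}

/-- chains of adjacent vertices of length `n` -/
def Cn (T : Set (Set ℍ)) (n : ℕ) (v w : ℍ) : Prop :=
  ∃ c : ℕ → ℍ, c 0 = v ∧ c n = w ∧ ∀ i < n, ∃ x : Flag T, x.v = c i ∧ (s0 x).v = c (i+1)

theorem Cn_trans {n m : ℕ} {u v w : ℍ} (h1 : Cn T n u v) (h2 : Cn T m v w) :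
    Cn T (n + m) u w := by
  obtain ⟨c, c0, cn, hc⟩ := h1
  obtain ⟨d, d0, dm, hd⟩ := h2
  refine ⟨fun i => if i ≤ n then c i else d (i - n), ?_, ?_, ?_⟩
  · simp [c0]
  · by_cases hm : m = 0
    · subst hm
      simp only [Nat.add_zero, le_refl, if_true]
      rw [cn, ← d0, dm]
    · have h1 : ¬ (n + m ≤ n) := by omega
      simp only [h1, if_false, Nat.add_sub_cancel_left]
      exact dm
  · intro i hi
    by_cases h1 : i < n
    · obtain ⟨x, hx1, hx2⟩ := hc i h1
      refine ⟨x, ?_, ?_⟩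
      · simp only [h1.le, if_true]
        exact hx1
      · have h2 : i + 1 ≤ n := h1
        simp only [h2, if_true]
        exact hx2
    · obtain ⟨x, hx1, hx2⟩ := hd (i - n) (by omega)
      refine ⟨x, ?_, ?_⟩
      · by_cases h2 : i ≤ n
        · have h3 : i = n := by omega
          simp only [h2, if_true]
          rw [hx1, h3, Nat.sub_self, d0, cn]
        · simp only [h2, if_false]
          exact hx1
      · have h2 : ¬ (i + 1 ≤ n) := by omega
        simp only [h2, if_false]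
        rw [hx2]
        congr 1
        omega

/-- two vertices of a tile -/
theorem Cn_tile (hT : S_TENUM) (H : FS T) {t : Set ℍ} (ht : t ∈ T) {v w : ℍ} (hv : v ∈ Vtx T)
    (hw : w ∈ Vtx T) (hvt : v ∈ t) (hwt : w ∈ t) : ∃ k ≤ nn T t, Cn T k v w := by
  obtain ⟨x, hxv, hxt⟩ := H.exv v hv t ht hvt
  obtain ⟨y, hyv, hyt⟩ := H.exv w hw t ht hwt
  obtain ⟨-, -, h3⟩ := hT T H x
  obtain ⟨i, hi, hy⟩ := h3 y (hyt.trans hxt.symm)
  rw [hxt] at hi
  refine ⟨i, hi.le, fun j => (ut^[j] x).v, hxv, ?_, ?_⟩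
  · rw [← hyv]
    rcases hy with hy | hy
    · rw [hy]
    · rw [hy, H.toFS1.s1_v]
  · intro j _
    refine ⟨s1 (ut^[j] x), H.toFS1.s1_v _, ?_⟩
    change (ut (ut^[j] x)).v = (ut^[j+1] x).v
    rw [Function.iterate_succ_apply']

end CHVaux

open CHVaux in
/-- chains of adjacent vertices -/
theorem chv (hC : S_CHAIN) (hT : S_TENUM) (hB : S_BDD) : S_CHV := by
  intro T hN H E D
  obtain ⟨M, hM⟩ := hC T hN D
  obtain ⟨N, hN1, -⟩ := hB T hN H E
  refine ⟨N * (M + 1), fun v hv w hw hd => ?_⟩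
  obtain ⟨s, hs, hvs⟩ := hN.cover v
  obtain ⟨t, ht, hwt⟩ := hN.cover w
  obtain ⟨n, hn, c, hc0, hcn, hcT, hci⟩ := hM s hs t ht v hvs w hwt hd
  have key : ∀ i ≤ n, ∀ u ∈ Vtx T, u ∈ c i → ∃ k ≤ N * (i + 1), Cn T k v u := by
    intro i
    induction i with
    | zero =>
      intro _ u hu huc
      rw [hc0] at huc
      obtain ⟨k, hk, h⟩ := Cn_tile hT H hs hv hu hvs huc
      refine ⟨k, ?_, h⟩
      have := hN1 s hs
      omega
    | succ i ih =>
      intro hi u hu huc
      by_cases heq : c i = c (i+1)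
      · rw [← heq] at huc
        obtain ⟨k, hk, h⟩ := ih (by omega) u hu huc
        refine ⟨k, hk.trans ?_, h⟩
        exact Nat.mul_le_mul_left _ (by omega)
      · obtain ⟨u', hu', hu'm⟩ := E.nev (c i) (hcT i (by omega)) (c (i+1)) (hcT (i+1) hi) heq
          (hci i (by omega))
        obtain ⟨k, hk, h⟩ := ih (by omega) u' hu' hu'm.1
        obtain ⟨k', hk', h'⟩ := Cn_tile hT H (hcT (i+1) hi) hu' hu hu'm.2 huc
        refine ⟨k + k', ?_, Cn_trans h h'⟩
        have h1 := hN1 _ (hcT (i+1) hi)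
        calc k + k' ≤ N * (i + 1) + N := by omega
          _ = N * (i + 1 + 1) := by ring
  obtain ⟨k, hk, h⟩ := key n le_rfl w hw (by rw [hcn]; exact hwt)
  exact ⟨k, hk.trans (Nat.mul_le_mul_left _ (by omega)), h⟩

end H292.TL
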