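import Pool.Agent.H292.TL.FB

/-! CINJ: an injective continuous self-map of the circle is surjective -/

namespace H292.TL

open Set

namespace CINJx

theorem slit_of {w : ℂ} (h1 : ‖w‖ = 1) (h2 : w ≠ -1) : w ∈ Complex.slitPlane := by
  rw [Complex.mem_slitPlane_iff]
  by_contra hcon
  push Not at hcon
  obtain ⟨hre, him⟩ := hcon
  have h3 : w.re * w.re + w.im * w.im = 1 := by
    have h4 := Complex.normSq_eq_norm_sq w
    rw [Complex.normSq_apply, h1] at h4
    rw [h4]
    norm_num
  rw [him] at h3
  have h5 : (w.re - 1) * (w.re + 1) = 0 := by linarith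
  rcases mul_eq_zero.1 h5 with h6 | h6
  · linarith
  · apply h2
    apply Complex.ext
    · rw [Complex.neg_re, Complex.one_re]; linarith
    · rw [Complex.neg_im, Complex.one_im, him, neg_zero]

theorem mem_circle (θ : ℝ) : Complex.exp (θ * Complex.I) ∈ Metric.sphere (0 : ℂ) 1 := by
  rw [mem_sphere_zero_iff_norm, Complex.norm_exp_ofReal_mul_I]

end CINJx

open CINJx in
theorem cinj : S_CINJ := by
  intro f hf hinj hmap
  apply Subset.antisymm
  · rintro _ ⟨z, hz, rfl⟩
    exact hmap hz
  · intro p hp
    by_contra hpn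
    have hp1 : ‖p‖ = 1 := mem_sphere_zero_iff_norm.1 hp
    have hp0 : p ≠ 0 := by
      rintro rfl
      rw [norm_zero] at hp1
      norm_num at hp1
    have hnorm : ∀ z ∈ Metric.sphere (0 : ℂ) 1, ‖-f z / p‖ = 1 := by
      intro z hz
      have h1 : ‖f z‖ = 1 := mem_sphere_zero_iff_norm.1 (hmap hz)
      rw [norm_div, norm_neg, h1, hp1, div_one]
    have hslit : ∀ z ∈ Metric.sphere (0 : ℂ) 1, -f z / p ∈ Complex.slitPlane := by
      intro z hz
      apply slit_of (hnorm z hz)
      intro h
      apply hpn
      refine ⟨z, hz, ?_⟩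
      rw [div_eq_iff hp0] at h
      linear_combination -h
    have hcont : ContinuousOn (fun z => Complex.arg (-f z / p)) (Metric.sphere (0 : ℂ) 1) := by
      intro z hz
      have h1 : ContinuousWithinAt (fun z => -f z / p) (Metric.sphere (0 : ℂ) 1) z :=
        ((hf z hz).neg).div_const p
      exact ContinuousAt.comp_continuousWithinAt (g := Complex.arg) (f := fun z => -f z / p)
        (Complex.continuousAt_arg (hslit z hz)) h1
    have hcomp : Continuous (fun θ : ℝ => Complex.arg (-f (Complex.exp (θ * Complex.I)) / p)) := by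
      have h1 : Continuous (fun θ : ℝ => Complex.exp (θ * Complex.I)) := by fun_prop
      exact hcont.comp_continuous h1 mem_circle
    have hcomp2 : Continuous (fun θ : ℝ =>
        Complex.arg (-f (Complex.exp (((θ + Real.pi : ℝ) : ℂ) * Complex.I)) / p)) :=
      hcomp.comp (continuous_id.add continuous_const)
    have hg := hcomp.sub hcomp2
    have e0 : Complex.exp (((0 : ℝ) : ℂ) * Complex.I) = 1 := by
      rw [Complex.ofReal_zero, zero_mul, Complex.exp_zero]
    have epi : ∀ θ : ℝ, Complex.exp (((θ + Real.pi : ℝ) : ℂ) * Complex.I) =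
        -Complex.exp ((θ : ℂ) * Complex.I) := by
      intro θ
      rw [Complex.ofReal_add, add_mul, Complex.exp_add, Complex.exp_pi_mul_I]
      ring
    obtain ⟨θ, hθ⟩ : ∃ θ : ℝ, Complex.arg (-f (Complex.exp (θ * Complex.I)) / p) -
        Complex.arg (-f (Complex.exp (((θ + Real.pi : ℝ) : ℂ) * Complex.I)) / p) = 0 := by
      have hneg : Complex.arg (-f (Complex.exp (((Real.pi : ℝ) : ℂ) * Complex.I)) / p) -
          Complex.arg (-f (Complex.exp (((Real.pi + Real.pi : ℝ) : ℂ) * Complex.I)) / p) =
          -(Complex.arg (-f (Complex.exp (((0 : ℝ) : ℂ) * Complex.I)) / p) -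
          Complex.arg (-f (Complex.exp (((0 + Real.pi : ℝ) : ℂ) * Complex.I)) / p)) := by
        rw [epi, zero_add]
        have e1 : -Complex.exp (((Real.pi : ℝ) : ℂ) * Complex.I) =
            Complex.exp (((0 : ℝ) : ℂ) * Complex.I) := by
          rw [Complex.exp_pi_mul_I, e0, neg_neg]
        rw [e1]
        ring
      rcases le_total 0 (Complex.arg (-f (Complex.exp (((0 : ℝ) : ℂ) * Complex.I)) / p) -
          Complex.arg (-f (Complex.exp (((0 + Real.pi : ℝ) : ℂ) * Complex.I)) / p)) with h | h
      · exact mem_range_of_exists_le_of_exists_ge hg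
          ⟨Real.pi, by
            show Complex.arg (-f (Complex.exp (((Real.pi : ℝ) : ℂ) * Complex.I)) / p) -
              Complex.arg (-f (Complex.exp (((Real.pi + Real.pi : ℝ) : ℂ) * Complex.I)) / p) ≤ 0
            rw [hneg]; linarith⟩ ⟨0, h⟩
      · exact mem_range_of_exists_le_of_exists_ge hg ⟨0, h⟩
          ⟨Real.pi, by
            show 0 ≤ Complex.arg (-f (Complex.exp (((Real.pi : ℝ) : ℂ) * Complex.I)) / p) -
              Complex.arg (-f (Complex.exp (((Real.pi + Real.pi : ℝ) : ℂ) * Complex.I)) / p)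
            rw [hneg]; linarith⟩
    rw [sub_eq_zero] at hθ
    have m1 := mem_circle θ
    have m2 := mem_circle (θ + Real.pi)
    have h1 := Complex.ext_norm_arg ((hnorm _ m1).trans (hnorm _ m2).symm) hθ
    have h2 : f (Complex.exp (θ * Complex.I)) =
        f (Complex.exp (((θ + Real.pi : ℝ) : ℂ) * Complex.I)) := by
      have h3 := (div_left_inj' hp0).1 h1
      exact neg_injective h3
    have h4 := hinj m1 m2 h2
    rw [epi] at h4
    have h5 : (2 : ℂ) * Complex.exp (θ * Complex.I) = 0 := by linear_combination h4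
    rcases mul_eq_zero.1 h5 with h6 | h6
    · norm_num at h6
    · exact Complex.exp_ne_zero _ h6

end H292.TL
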