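import Pool.Agent.H292.TL.FB

/-!
Project TL, task CIRC: proper closed connected nontrivial subsets of the unit circle are arcs.
-/

set_option autoImplicit false
open scoped UpperHalfPlane Topology
open Set

namespace H292.TL

namespace CircAux

theorem ee_add (a b : ℝ) : ee (a + b) = ee a * ee b := by
  unfold ee
  rw [← Complex.exp_add]
  congr 1
  push_cast
  ring

/-- a unit complex number is the exponential of its argument -/
theorem ee_arg {w : ℂ} (hw : ‖w‖ = 1) : ee (Complex.arg w) = w := by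
  have h := Complex.norm_mul_exp_arg_mul_I w
  rw [hw] at h
  simpa [ee] using h

/-- the arguments of the unit complex numbers different from `-1` -/
theorem arg_lt {w : ℂ} (hw : ‖w‖ = 1) (hne : w ≠ -1) :
    Complex.arg w < Real.pi ∧ w ∈ Complex.slitPlane := by
  have h1 : w.arg ≠ Real.pi := by
    intro h
    have h2 := ee_arg hw
    rw [h] at h2
    apply hne
    rw [← h2]
    unfold ee
    rw [Complex.exp_pi_mul_I]
  refine ⟨lt_of_le_of_ne (Complex.arg_le_pi w) h1, ?_⟩
  rw [Complex.mem_slitPlane_iff_arg]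
  refine ⟨h1, ?_⟩
  rintro rfl
  simp at hw

end CircAux

open CircAux in
theorem circ : S_CIRC := by
  intro K hKs hKc hKp hKn hne
  obtain ⟨p, hp, hpK⟩ : ∃ p ∈ Metric.sphere (0:ℂ) 1, p ∉ K := by
    by_contra hc
    push Not at hc
    exact hne (Subset.antisymm hKs hc)
  rw [mem_sphere_zero_iff_norm] at hp
  have hq : ‖-p‖ = 1 := by rw [norm_neg, hp]
  have hq0 : -p ≠ 0 := by
    intro h
    rw [h, norm_zero] at hq
    exact zero_ne_one hq
  have hnorm : ∀ z ∈ K, ‖z / -p‖ = 1 := by
    intro z hz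
    have h1 := hKs hz
    rw [mem_sphere_zero_iff_norm] at h1
    rw [norm_div, hq, h1, div_one]
  have hne1 : ∀ z ∈ K, z / -p ≠ -1 := by
    intro z hz h
    rw [div_eq_iff hq0] at h
    apply hpK
    have : z = p := by rw [h]; ring
    rwa [← this]
  have hcont : ContinuousOn (fun z : ℂ => Complex.arg (z / -p)) K := by
    intro z hz
    have h1 : ContinuousAt Complex.arg (z / -p) :=
      Complex.continuousAt_arg (arg_lt (hnorm z hz) (hne1 z hz)).2
    have h2 : ContinuousAt (fun z : ℂ => z / -p) z := by fun_prop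
    exact (ContinuousAt.comp (f := fun z : ℂ => z / -p) h1 h2).continuousWithinAt
  have hrep : ∀ z ∈ K, ee (Complex.arg (-p) + Complex.arg (z / -p)) = z := by
    intro z hz
    rw [ee_add, ee_arg hq, ee_arg (hnorm z hz), mul_div_cancel₀ _ hq0]
  have hKcomp : IsCompact K := (isCompact_sphere (0:ℂ) 1).of_isClosed_subset hKc hKs
  have himg : (fun z : ℂ => Complex.arg (z / -p)) '' K =
      Icc (sInf ((fun z : ℂ => Complex.arg (z / -p)) '' K))
        (sSup ((fun z : ℂ => Complex.arg (z / -p)) '' K)) :=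
    eq_Icc_of_connected_compact ⟨hKn.nonempty.image _, hKp.image _ hcont⟩
      (hKcomp.image_of_continuousOn hcont)
  generalize sInf ((fun z : ℂ => Complex.arg (z / -p)) '' K) = a' at himg
  generalize sSup ((fun z : ℂ => Complex.arg (z / -p)) '' K) = b' at himg
  obtain ⟨x, hx, y, hy, hxy⟩ := hKn
  have hmx : Complex.arg (x / -p) ∈ Icc a' b' := by
    rw [← himg]
    exact ⟨x, hx, rfl⟩
  have hmy : Complex.arg (y / -p) ∈ Icc a' b' := by
    rw [← himg]
    exact ⟨y, hy, rfl⟩
  have hxy' : Complex.arg (x / -p) ≠ Complex.arg (y / -p) := by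
    intro h
    apply hxy
    rw [← hrep x hx, ← hrep y hy, h]
  have hab : a' < b' := by
    rcases lt_or_gt_of_ne hxy' with h | h
    · exact hmx.1.trans_lt (h.trans_le hmy.2)
    · exact hmy.1.trans_lt (h.trans_le hmx.2)
  have ha : -Real.pi < a' := by
    have h1 : a' ∈ (fun z : ℂ => Complex.arg (z / -p)) '' K := by
      rw [himg]
      exact left_mem_Icc.2 hab.le
    obtain ⟨z, hz, rfl⟩ := h1
    exact Complex.neg_pi_lt_arg _
  have hb : b' < Real.pi := by
    have h1 : b' ∈ (fun z : ℂ => Complex.arg (z / -p)) '' K := by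
      rw [himg]
      exact right_mem_Icc.2 hab.le
    obtain ⟨z, hz, rfl⟩ := h1
    exact (arg_lt (hnorm z hz) (hne1 z hz)).1
  refine ⟨Complex.arg (-p) + a', Complex.arg (-p) + b', by linarith, by linarith, ?_⟩
  ext z
  constructor
  · intro hz
    have h1 : Complex.arg (z / -p) ∈ Icc a' b' := by
      rw [← himg]
      exact ⟨z, hz, rfl⟩
    exact ⟨Complex.arg (-p) + Complex.arg (z / -p), ⟨by linarith [h1.1], by linarith [h1.2]⟩,
      hrep z hz⟩
  · rintro ⟨θ, hθ, rfl⟩
    have h1 : θ - Complex.arg (-p) ∈ (fun z : ℂ => Complex.arg (z / -p)) '' K := by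
      rw [himg]
      exact ⟨by linarith [hθ.1], by linarith [hθ.2]⟩
    obtain ⟨z, hz, hzθ⟩ := h1
    have h2 := hrep z hz
    have h3 : Complex.arg (-p) + Complex.arg (z / -p) = θ := by
      have : Complex.arg (z / -p) = θ - Complex.arg (-p) := hzθ
      linarith
    rw [h3] at h2
    rwa [h2]

end H292.TL
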