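import Pool.Agent.H292.TL.FB

/-!
Project TL: uniform local finiteness (`S_CNT`).
-/

set_option autoImplicit false
open scoped UpperHalfPlane Topology MatrixGroups
open Set

namespace H292.TL

theorem cnt : S_CNT := by
  intro T hT ρ
  obtain ⟨r, R, hr, hu⟩ := hT.unif
  choose! c₁ c₂ h1 h2 using hu
  obtain ⟨F, -, hF, hcov⟩ := (isCompact_closedBall UpperHalfPlane.I (ρ + 2 * R)).finite_cover_balls
    (half_pos hr)
  refine ⟨F.ncard, fun x => ?_⟩
  obtain ⟨g, hg⟩ := MulAction.exists_smul_eq SL(2, ℝ) x UpperHalfPlane.I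
  -- the centre of a tile is near `x`
  have hc : ∀ t ∈ {t ∈ T | (t ∩ Metric.closedBall x ρ).Nonempty},
      ∃ q ∈ F, dist (g • c₁ t) q < r / 2 := by
    rintro t ⟨ht, y, hy, hyx⟩
    have a1 : c₁ t ∈ t := h1 t ht (Metric.mem_ball_self hr)
    have a2 : dist (c₁ t) (c₂ t) ≤ R := h2 t ht a1
    have a3 : dist y (c₂ t) ≤ R := h2 t ht hy
    have a4 : dist y x ≤ ρ := hyx
    have a5 : g • c₁ t ∈ Metric.closedBall UpperHalfPlane.I (ρ + 2 * R) := by
      rw [Metric.mem_closedBall, ← hg, dist_smul]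
      have a6 := dist_triangle4 (c₁ t) (c₂ t) y x
      rw [dist_comm (c₂ t) y] at a6
      linarith
    have a6 := hcov a5
    simp only [mem_iUnion, Metric.mem_ball, exists_prop] at a6
    exact a6
  choose! f hfF hfd using hc
  have hmaps : MapsTo f {t ∈ T | (t ∩ Metric.closedBall x ρ).Nonempty} F := fun t ht => hfF t ht
  have hinj : InjOn f {t ∈ T | (t ∩ Metric.closedBall x ρ).Nonempty} := by
    intro s hs t ht hst
    by_contra hne
    have b1 := hfd s hs
    have b2 := hfd t ht
    rw [← hst] at b2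
    have b3 : dist (c₁ s) (c₁ t) < r := by
      rw [← dist_smul g]
      have := dist_triangle (g • c₁ s) (f s) (g • c₁ t)
      rw [dist_comm (f s)] at this
      linarith
    have b4 : c₁ s ∈ interior s :=
      interior_maximal (h1 s hs.1) Metric.isOpen_ball (Metric.mem_ball_self hr)
    have b5 : c₁ s ∈ interior t :=
      interior_maximal (h1 t ht.1) Metric.isOpen_ball (Metric.mem_ball.2 b3)
    exact Set.disjoint_left.1 (hT.disj s hs.1 t ht.1 hne) b4 b5
  exact ⟨hF.of_injOn hmaps hinj, Set.ncard_le_ncard_of_injOn f hmaps hinj hF⟩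

end H292.TL
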