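import Pool.Agent.H292.TL.FB

/-!
Project TL, task CNTV (helper400): number of vertices in balls.
-/

set_option autoImplicit false
open scoped UpperHalfPlane Topology
open Set

namespace H292.TL

open Classical in
theorem cntv (hCNT : S_CNT) (hBDD : S_BDD) : S_CNTV := by
  intro T hT hF hE ρ
  obtain ⟨N₁, hN₁⟩ := hCNT T hT ρ
  obtain ⟨N₂, hN₂, _⟩ := hBDD T hT hF hE
  refine ⟨N₁ * N₂, fun x => ?_⟩
  obtain ⟨hfin, hcard⟩ := hN₁ x
  set S : Finset (Set ℍ) := hfin.toFinset with hS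
  set f : Set ℍ → Finset ℍ := fun t =>
    if h : (Vtx T ∩ t).Finite then h.toFinset else ∅ with hf
  have hmem : ∀ t ∈ T, ∀ v, v ∈ f t ↔ v ∈ Vtx T ∩ t := by
    intro t ht v
    have h := hF.fint t ht
    simp only [hf]
    rw [dif_pos h, Set.Finite.mem_toFinset]
  have hfc : ∀ t ∈ S, (f t).card ≤ N₂ := by
    intro t ht
    have ht' : t ∈ T := (hfin.mem_toFinset.1 ht).1
    have h := hF.fint t ht'
    have h1 := hN₂ t ht'
    unfold nn at h1
    rw [Set.ncard_eq_toFinset_card _ h] at h1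
    simp only [hf]
    rw [dif_pos h]
    exact h1
  have hsub : Vtx T ∩ Metric.closedBall x ρ ⊆ ((S.biUnion f : Finset ℍ) : Set ℍ) := by
    rintro v ⟨hv, hvx⟩
    have hv' := hv
    obtain ⟨t, ht, _, _, _, _, _, _, _, hvt, _, _⟩ := hv'
    rw [Finset.mem_coe, Finset.mem_biUnion]
    refine ⟨t, hfin.mem_toFinset.2 ⟨ht, ⟨v, hvt, hvx⟩⟩, (hmem t ht v).2 ⟨hv, hvt⟩⟩
  refine ⟨(Finset.finite_toSet _).subset hsub, ?_⟩
  calc (Vtx T ∩ Metric.closedBall x ρ).ncard ≤ ((S.biUnion f : Finset ℍ) : Set ℍ).ncard :=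
        Set.ncard_le_ncard hsub (Finset.finite_toSet _)
    _ = (S.biUnion f).card := Set.ncard_coe_finset _
    _ ≤ S.card * N₂ := Finset.card_biUnion_le_card_mul _ _ _ hfc
    _ ≤ N₁ * N₂ := by
      refine Nat.mul_le_mul_right _ ?_
      rw [hS, ← Set.ncard_eq_toFinset_card _ hfin]
      exact hcard

end H292.TL
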