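import Pool.Agent.H292.TL.FB

/-!
Project TL: S_COV, a map of ℍ with uniform local inverses is a homeomorphism.
-/

set_option autoImplicit false
open scoped UpperHalfPlane Topology MatrixGroups
open Set

namespace H292.TL

/-- A continuous map which is injective on an open set maps it to an open set. -/
theorem cov_open (f : ℍ → ℍ) {O : Set ℍ} (hO : IsOpen O) (hc : ContinuousOn f O)
    (hi : InjOn f O) : IsOpen (f '' O) := by
  rw [isOpen_iff_mem_nhds]
  rintro _ ⟨x, hx, rfl⟩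
  exact iodHH f (hO.mem_nhds hx) hc hi (hO.mem_nhds hx)

/-- Preimages of open sets in a compact set on which `F` is injective. -/
theorem cov_pre (F : ℍ → ℍ) (hF : Continuous F) {A : Set ℍ} (hA : IsCompact A)
    (hi : InjOn F A) {W : Set ℍ} (hW : IsOpen W) (hWA : W ⊆ F '' A) : IsOpen (F ⁻¹' W ∩ A) := by
  have h0 : ∀ w : ℍ, ∃ x : ℍ, w ∈ W → x ∈ A ∧ F x = w := by
    intro w
    by_cases hw : w ∈ W
    · obtain ⟨x, hx, hxw⟩ := hWA hw
      exact ⟨x, fun _ => ⟨hx, hxw⟩⟩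
    · exact ⟨w, fun h => absurd h hw⟩
  choose σ hσ using h0
  have hc : ContinuousOn σ W := by
    rw [continuousOn_iff_isClosed]
    intro C hC
    refine ⟨F '' (A ∩ C), ((hA.inter_right hC).image hF).isClosed, ?_⟩
    ext w
    constructor
    · rintro ⟨hw1, hw⟩
      exact ⟨⟨σ w, ⟨(hσ w hw).1, hw1⟩, (hσ w hw).2⟩, hw⟩
    · rintro ⟨⟨x, ⟨hx, hxC⟩, rfl⟩, hw⟩
      refine ⟨?_, hw⟩
      have : σ (F x) = x := hi (hσ _ hw).1 hx (hσ _ hw).2
      rw [mem_preimage, this]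
      exact hxC
  have hi' : InjOn σ W := by
    intro a ha b hb h
    rw [← (hσ a ha).2, h, (hσ b hb).2]
  have h1 : F ⁻¹' W ∩ A = σ '' W := by
    ext x
    constructor
    · rintro ⟨hx, hxA⟩
      exact ⟨F x, hx, hi (hσ _ hx).1 hxA (hσ _ hx).2⟩
    · rintro ⟨w, hw, rfl⟩
      refine ⟨?_, (hσ w hw).1⟩
      rw [mem_preimage, (hσ w hw).2]
      exact hw
  rw [h1]
  exact cov_open σ hW hc hi'

/-- Balls are connected. -/
theorem cov_ball (y : ℍ) (r : ℝ) : IsPreconnected (Metric.ball y r) := by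
  rw [← UpperHalfPlane.isEmbedding_coe.isInducing.isPreconnected_image,
    UpperHalfPlane.image_coe_ball]
  exact (convex_ball _ _).isPreconnected

/-- Two sheets with a common point agree. -/
theorem cov_sheet (F : ℍ → ℍ) (hF : Continuous F) {A A' V : Set ℍ} (hA : IsCompact A)
    (hA' : IsCompact A') (hi : InjOn F A) (hV : IsOpen V) (hVc : IsPreconnected V)
    (hVA : V ⊆ F '' A) (hVA' : V ⊆ F '' A') {x : ℍ} (hx : x ∈ A) (hx' : x ∈ A') (hxV : F x ∈ V)
    (hi' : InjOn F A') {z : ℍ} (hz : z ∈ A) (hzV : F z ∈ V) : z ∈ A' := by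
  have h1 : IsOpen (F ⁻¹' V ∩ A) := cov_pre F hF hA hi hV hVA
  have h2 : IsOpen (F ⁻¹' V ∩ A') := cov_pre F hF hA' hi' hV hVA'
  have h3 : IsOpen (F '' (F ⁻¹' V ∩ A ∩ (F ⁻¹' V ∩ A'))) :=
    cov_open F (h1.inter h2) hF.continuousOn (hi.mono fun a ha => ha.1.2)
  have h4 : IsOpen (F '' (F ⁻¹' V ∩ A ∩ A'ᶜ)) :=
    cov_open F (h1.inter hA'.isClosed.isOpen_compl) hF.continuousOn (hi.mono fun a ha => ha.1.2)
  by_contra hc
  have h5 := hVc _ _ h3 h4 (by
    intro v hv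
    obtain ⟨a, ha, rfl⟩ := hVA hv
    by_cases h : a ∈ A'
    · exact Or.inl ⟨a, ⟨⟨hv, ha⟩, ⟨hv, h⟩⟩, rfl⟩
    · exact Or.inr ⟨a, ⟨⟨hv, ha⟩, h⟩, rfl⟩) ⟨F x, hxV, x, ⟨⟨hxV, hx⟩, ⟨hxV, hx'⟩⟩, rfl⟩
    ⟨F z, hzV, z, ⟨⟨hzV, hz⟩, hc⟩, rfl⟩
  obtain ⟨v, hv, ⟨a, ha, hav⟩, ⟨b, hb, hbv⟩⟩ := h5
  have h6 : a = b := hi ha.1.2 hb.1.2 (hav.trans hbv.symm)
  rw [h6] at ha
  exact hb.2 ha.2.2

/-- Evenly covered balls. -/
theorem cov_even (F : ℍ → ℍ) (hF : Continuous F) (y : ℍ) (r : ℝ) (hr : 0 < r) (ι : Type)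
    [Nonempty ι] (c : ι → ℍ) (A : ι → Set ℍ)
    (hAc : ∀ i, IsCompact (A i)) (hAi : ∀ i, InjOn F (A i)) (hAm : ∀ i, c i ∈ A i)
    (hc : ∀ i, F (c i) = y) (hci : Function.Injective c)
    (hVA : ∀ i, Metric.ball y r ⊆ F '' A i)
    (hex : ∀ x, F x ∈ Metric.ball y r → ∃ i, x ∈ A i) :
    IsEvenlyCovered F y (F ⁻¹' {y}) := by
  let _ : TopologicalSpace ι := ⊥
  have _ : DiscreteTopology ι := ⟨rfl⟩
  have hyV : y ∈ Metric.ball y r := Metric.mem_ball_self hr
  have h1 : ∀ i {W : Set ℍ}, W ⊆ Metric.ball y r → (IsOpen W ↔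
      IsOpen (F ⁻¹' W ∩ (F ⁻¹' (Metric.ball y r) ∩ A i))) := by
    intro i W hW
    constructor
    · intro h
      have h1 := cov_pre F hF (hAc i) (hAi i) h (hW.trans (hVA i))
      have h2 : F ⁻¹' W ∩ (F ⁻¹' (Metric.ball y r) ∩ A i) = F ⁻¹' W ∩ A i := by
        ext x
        exact ⟨fun h => ⟨h.1, h.2.2⟩, fun h => ⟨h.1, hW h.1, h.2⟩⟩
      rw [h2]
      exact h1
    · intro h
      have h1 := cov_open F h hF.continuousOn ((hAi i).mono fun a ha => ha.2.2)
      have h2 : F '' (F ⁻¹' W ∩ (F ⁻¹' (Metric.ball y r) ∩ A i)) = W := by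
        ext w
        constructor
        · rintro ⟨x, hx, rfl⟩
          exact hx.1
        · intro hw
          obtain ⟨x, hx, rfl⟩ := hVA i (hW hw)
          exact ⟨x, ⟨hw, hW hw, hx⟩, rfl⟩
      rwa [h2] at h1
  have h2 : ∀ i, Set.SurjOn F (F ⁻¹' (Metric.ball y r) ∩ A i) (Metric.ball y r) := by
    intro i v hv
    obtain ⟨x, hx, rfl⟩ := hVA i hv
    exact ⟨x, ⟨hv, hx⟩, rfl⟩
  have h3 : Pairwise (Function.onFun Disjoint fun i => F ⁻¹' (Metric.ball y r) ∩ A i) := by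
    intro i i' hii
    show Disjoint _ _
    rw [Set.disjoint_left]
    intro x hx hx'
    apply hii
    have h1 := cov_sheet F hF (hAc i) (hAc i') (hAi i) Metric.isOpen_ball
      (cov_ball y r) (hVA i) (hVA i') hx.2 hx'.2 hx.1 (hAi i') (hAm i)
      (by rw [hc]; exact hyV)
    exact hci (hAi i' h1 (hAm i') ((hc i).trans (hc i').symm))
  have h4 : F ⁻¹' (Metric.ball y r) ⊆ ⋃ i, F ⁻¹' (Metric.ball y r) ∩ A i := by
    intro x hx
    obtain ⟨i, hi⟩ := hex x hx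
    rw [mem_iUnion]
    exact ⟨i, hx, hi⟩
  exact IsEvenlyCovered.to_isEvenlyCovered_preimage (IsEvenlyCovered.of_trivialization
    (t := IsOpen.trivializationDiscrete (fun i => F ⁻¹' (Metric.ball y r) ∩ A i)
      (Metric.ball y r) Metric.isOpen_ball h1 (fun i => (hAi i).mono fun a ha => ha.2) h2 h3 h4)
    hyV)

theorem cov : S_COV := by
  intro F hF hA
  obtain ⟨δ, hδ, hA⟩ := hA
  choose A hAc hAm hAi hAb using hA
  have hVA : ∀ p y : ℍ, F p = y → Metric.ball y (δ / 2) ⊆ F '' A p := by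
    intro p y hpy
    refine Subset.trans ?_ (hAb p)
    rw [hpy]
    exact Metric.ball_subset_ball (by linarith)
  have hne : ∀ y : ℍ, ∀ x : ℍ, F x ∈ Metric.ball y (δ / 2) →
      ∃ p : ℍ, F p = y ∧ x ∈ A p := by
    intro y x hx
    rw [Metric.mem_ball] at hx
    have h1 : y ∈ Metric.ball (F x) δ := by
      rw [Metric.mem_ball, dist_comm]
      linarith
    obtain ⟨p, hp, hpy⟩ := hAb x h1
    refine ⟨p, hpy, ?_⟩
    have hV1 : Metric.ball y (δ / 2) ⊆ F '' A x := by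
      refine Subset.trans ?_ (hAb x)
      intro v hv
      rw [Metric.mem_ball] at hv ⊢
      have h2 := dist_triangle v y (F x)
      rw [dist_comm y] at h2
      linarith
    exact cov_sheet F hF (hAc x) (hAc p) (hAi x) Metric.isOpen_ball (cov_ball y _) hV1
      (hVA p y hpy) (x := p) hp (hAm p) (by rw [hpy]; exact Metric.mem_ball_self (by linarith))
      (hAi p) (hAm x) (Metric.mem_ball.2 hx)
  have hcov : IsCoveringMap F := by
    intro y
    by_cases he : ∃ p, F p = y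
    · obtain ⟨p₀, hp₀⟩ := he
      have _ : Nonempty {p : ℍ // F p = y} := ⟨⟨p₀, hp₀⟩⟩
      exact cov_even F hF y (δ / 2) (by linarith) {p : ℍ // F p = y}
        (fun p => p.1) (fun p => A p.1) (fun p => hAc _) (fun p => hAi _) (fun p => hAm _)
        (fun p => p.2) Subtype.val_injective (fun p => hVA _ _ p.2)
        (fun x hx => by
          obtain ⟨p, hp, hxp⟩ := hne y x hx
          exact ⟨⟨p, hp⟩, hxp⟩)
    · have _ : IsEmpty (F ⁻¹' {y} : Set ℍ) := ⟨fun p => he ⟨p.1, p.2⟩⟩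
      refine IsEvenlyCovered.of_preimage_eq_empty _
        (Metric.ball_mem_nhds y (by linarith : 0 < δ / 2)) ?_
      rw [eq_empty_iff_forall_notMem]
      intro x hx
      obtain ⟨p, hp, _⟩ := hne y x hx
      exact he ⟨p, hp⟩
  obtain ⟨s, ⟨hs1, hs2⟩, _⟩ := hcov.existsUnique_continuousMap_lifts (ContinuousMap.id ℍ)
    (F UpperHalfPlane.I) UpperHalfPlane.I rfl
  have hs3 : ∀ y, F (s y) = y := fun y => congrFun hs2 y
  have hs4 : (s : ℍ → ℍ) ∘ F = id := by
    refine hcov.eq_of_comp_eq (s.continuous.comp hF) continuous_id ?_ UpperHalfPlane.I ?_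
    · funext x
      exact hs3 (F x)
    · exact hs1
  exact ⟨{ toFun := F
           invFun := s
           left_inv := fun x => congrFun hs4 x
           right_inv := hs3
           continuous_toFun := hF
           continuous_invFun := s.continuous }, fun p => rfl⟩

end H292.TL
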