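import Pool.Agent.H292.TL.FB

/-!
Project TL, subtask CYC: orbits of two fixed point free involutions.
-/

set_option autoImplicit false
open Set

namespace H292.TL

section
variable {X : Type} {a b : X → X}

theorem cyc_inj (ha : ∀ x, a (a x) = x) (hb : ∀ x, b (b x) = x) :
    Function.Injective (b ∘ a) := by
  intro x y h
  have h1 : b (a x) = b (a y) := h
  have h2 : a x = a y := by rw [← hb (a x), h1, hb]
  rw [← ha x, h2, ha]

theorem cyc_key (ha : ∀ x, a (a x) = x) (hb : ∀ x, b (b x) = x) (y : X) :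
    (b ∘ a) (a ((b ∘ a) y)) = a y := by
  show b (a (a (b (a y)))) = a y
  rw [ha, hb]

theorem cyc_move (ha : ∀ x, a (a x) = x) (hb : ∀ x, b (b x) = x) (x : X) (i j : ℕ) :
    (b ∘ a)^[i + 1] x = a ((b ∘ a)^[j] x) ↔ (b ∘ a)^[i] x = a ((b ∘ a)^[j + 1] x) := by
  rw [Function.iterate_succ_apply' (b ∘ a) i x, Function.iterate_succ_apply' (b ∘ a) j x,
    ← cyc_key ha hb ((b ∘ a)^[j] x)]
  exact (cyc_inj ha hb).eq_iff

theorem cyc_shift (ha : ∀ x, a (a x) = x) (hb : ∀ x, b (b x) = x) (x : X) (k : ℕ) :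
    ∀ i j : ℕ, (b ∘ a)^[i + k] x = a ((b ∘ a)^[j] x) ↔ (b ∘ a)^[i] x = a ((b ∘ a)^[j + k] x) := by
  induction k with
  | zero => intro i j; rfl
  | succ k ih =>
    intro i j
    have h1 := cyc_move ha hb x (i + k) j
    have h2 := ih i (j + 1)
    have e : j + 1 + k = j + (k + 1) := by omega
    rw [e] at h2
    exact h1.trans h2

theorem cyc_ne (ha : ∀ x, a (a x) = x) (hb : ∀ x, b (b x) = x) (ha' : ∀ x, a x ≠ x)
    (hb' : ∀ x, b x ≠ x) (x : X) (i j : ℕ) :
    (b ∘ a)^[i] x ≠ a ((b ∘ a)^[j] x) := by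
  intro h
  have h0 : (b ∘ a)^[0] x = a ((b ∘ a)^[j + i] x) := by
    have := cyc_shift ha hb x i 0 j
    rw [Nat.zero_add] at this
    exact this.1 h
  rcases Nat.even_or_odd' (j + i) with ⟨p, hp | hp⟩
  · rw [hp] at h0
    have h1 := cyc_shift ha hb x p 0 p
    rw [Nat.zero_add, ← two_mul] at h1
    exact ha' _ (h1.2 h0).symm
  · rw [hp] at h0
    have h1 := cyc_shift ha hb x (p + 1) 0 p
    have e : p + (p + 1) = 2 * p + 1 := by omega
    rw [Nat.zero_add, e] at h1
    have h2 := h1.2 h0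
    rw [Function.iterate_succ_apply'] at h2
    exact hb' _ h2

end

theorem cyc : S_CYC := by
  intro X a b ha hb ha' hb' x hfin
  have hinj := cyc_inj ha hb
  have hr : ∀ i : ℕ, Rch a b x ((b ∘ a)^[i] x) := by
    intro i
    induction i with
    | zero => exact Relation.ReflTransGen.refl
    | succ i ih =>
      rw [Function.iterate_succ_apply']
      exact (ih.tail (Or.inl rfl)).tail (Or.inr rfl)
  obtain ⟨i, j, hij, he⟩ : ∃ i j : ℕ, i < j ∧ (b ∘ a)^[i] x = (b ∘ a)^[j] x := by
    have hm : Set.MapsTo (fun i : ℕ => (b ∘ a)^[i] x) Set.univ {y | Rch a b x y} :=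
      fun i _ => hr i
    obtain ⟨i, -, j, -, hne, he⟩ := Set.infinite_univ.exists_ne_map_eq_of_mapsTo hm hfin
    rcases lt_or_gt_of_ne hne with h | h
    · exact ⟨i, j, h, he⟩
    · exact ⟨j, i, h, he.symm⟩
  have hper : (b ∘ a)^[j - i] x = x := by
    have e : j = i + (j - i) := by omega
    rw [e, Function.iterate_add_apply] at he
    exact (hinj.iterate i he).symm
  have hpp : Function.IsPeriodicPt (b ∘ a) (j - i) x := hper
  have hpos : 0 < Function.minimalPeriod (b ∘ a) x :=
    hpp.minimalPeriod_pos (by omega)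
  have hm0 : (b ∘ a)^[Function.minimalPeriod (b ∘ a) x] x = x := Function.iterate_minimalPeriod
  refine ⟨Function.minimalPeriod (b ∘ a) x, hpos, hm0, ?_, cyc_ne ha hb ha' hb' x, ?_⟩
  · intro i hi j hj h
    exact Function.iterate_injOn_Iio_minimalPeriod hi hj h
  · have hC : ∀ y, Rch a b x y → ∃ i : ℕ, y = (b ∘ a)^[i] x ∨ y = a ((b ∘ a)^[i] x) := by
      intro y hy
      induction hy with
      | refl => exact ⟨0, Or.inl rfl⟩
      | tail hy hyz ih =>
        obtain ⟨i, hi⟩ := ih
        rcases hyz with hz | hz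
        · rcases hi with hi | hi
          · exact ⟨i, Or.inr (by rw [hz, hi])⟩
          · exact ⟨i, Or.inl (by rw [hz, hi, ha])⟩
        · rcases hi with hi | hi
          · obtain ⟨k, hk⟩ : ∃ k : ℕ, (b ∘ a)^[i] x = (b ∘ a)^[k + 1] x := by
              rcases i with _ | i
              · refine ⟨Function.minimalPeriod (b ∘ a) x - 1, ?_⟩
                rw [Nat.sub_add_cancel hpos, hm0]
                rfl
              · exact ⟨i, rfl⟩
            refine ⟨k, Or.inr ?_⟩
            rw [hz, hi, hk, Function.iterate_succ_apply']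
            exact hb _
          · refine ⟨i + 1, Or.inl ?_⟩
            rw [hz, hi, Function.iterate_succ_apply']
            rfl
    intro y hy
    obtain ⟨i, hi⟩ := hC y hy
    refine ⟨i % Function.minimalPeriod (b ∘ a) x, Nat.mod_lt _ hpos, ?_⟩
    rw [Function.iterate_mod_minimalPeriod_eq]
    exact hi

end H292.TL
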