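import Pool.Agent.H292.TL.FB

/-!
Project TL, task DISJ (helper400): points of two distinct tiles are boundary points.
-/

set_option autoImplicit false
open scoped UpperHalfPlane Topology
open Set

namespace H292.TL

theorem disj (hFR : S_FR) : S_DISJ := by
  intro T hT s hs t ht hst
  have hd : Disjoint s (interior t) := by
    obtain ⟨φ, hφ⟩ := hT.chart s hs
    obtain ⟨_, _, h3⟩ := hFR φ s hφ
    have h4 : Disjoint (closure (interior s)) (interior t) :=
      (hT.disj s hs t ht hst).closure_left isOpen_interior
    exact h4.mono_left h3.1
  refine ⟨?_, hd⟩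
  rintro p ⟨hps, hpt⟩
  exact ⟨subset_closure hpt, fun h => disjoint_left.1 hd hps h⟩

end H292.TL
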