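import Pool.Agent.H292.TL.FB

/-!
Project TL, task EDGE: structure of the intersection of two tiles.
-/

set_option autoImplicit false
open scoped UpperHalfPlane Topology
open Set

namespace H292.TL

namespace EDGEx

theorem ee_mem (θ : ℝ) : ee θ ∈ Metric.sphere (0:ℂ) 1 := by
  rw [mem_sphere_zero_iff_norm]
  unfold ee
  rw [Complex.norm_exp_ofReal_mul_I]

theorem ee_cont : Continuous ee := by
  unfold ee
  exact Complex.continuous_exp.comp (Complex.continuous_ofReal.mul continuous_const)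

/-- equality on the circle -/
theorem ee_eq {u v : ℝ} (h : ee u = ee v) : ∃ n : ℤ, u = v + n * (2 * Real.pi) := by
  unfold ee at h
  rw [Complex.exp_eq_exp_iff_exists_int] at h
  obtain ⟨n, hn⟩ := h
  refine ⟨n, ?_⟩
  have h1 := congrArg Complex.im hn
  simpa using h1

/-- `ee` is injective on short intervals -/
theorem ee_inj {u v : ℝ} (h : ee u = ee v) (h1 : u < v + 2 * Real.pi)
    (h2 : v < u + 2 * Real.pi) : u = v := by
  obtain ⟨n, hn⟩ := ee_eq h
  have hp := Real.pi_pos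
  have hn1 : (n : ℝ) < 1 := by
    by_contra hc
    push Not at hc
    nlinarith
  have hn2 : (-1 : ℝ) < n := by
    by_contra hc
    push Not at hc
    nlinarith
  have hn3 : n < 1 := by exact_mod_cast hn1
  have hn4 : -1 < n := by exact_mod_cast hn2
  have hn5 : n = 0 := by omega
  rw [hn, hn5]
  simp

theorem sphere_sub : Metric.sphere (0:ℂ) 1 ⊆ Metric.closedBall 0 1 := Metric.sphere_subset_closedBall

variable {T : Set (Set ℍ)}

/-- a third tile -/
theorem third {p : ℍ} (hp : p ∈ Vtx T) (s t : Set ℍ) : ∃ u ∈ T, u ≠ s ∧ u ≠ t ∧ p ∈ u := by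
  obtain ⟨a, ha, b, hb, c, hc, hab, hac, hbc, hpa, hpb, hpc⟩ := hp
  by_cases h1 : a ≠ s ∧ a ≠ t
  · exact ⟨a, ha, h1.1, h1.2, hpa⟩
  by_cases h2 : b ≠ s ∧ b ≠ t
  · exact ⟨b, hb, h2.1, h2.2, hpb⟩
  by_cases h3 : c ≠ s ∧ c ≠ t
  · exact ⟨c, hc, h3.1, h3.2, hpc⟩
  exfalso
  have h1' : a = s ∨ a = t := by
    by_contra h
    push Not at h
    exact h1 h
  have h2' : b = s ∨ b = t := by
    by_contra h
    push Not at h
    exact h2 h
  have h3' : c = s ∨ c = t := by
    by_contra h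
    push Not at h
    exact h3 h
  rcases h1' with h1' | h1' <;> rcases h2' with h2' | h2' <;> rcases h3' with h3' | h3'
  · exact hab (h1'.trans h2'.symm)
  · exact hab (h1'.trans h2'.symm)
  · exact hac (h1'.trans h3'.symm)
  · exact hbc (h2'.trans h3'.symm)
  · exact hbc (h2'.trans h3'.symm)
  · exact hac (h1'.trans h3'.symm)
  · exact hab (h1'.trans h2'.symm)
  · exact hab (h1'.trans h2'.symm)

/-- tiles are compact -/
theorem cpt (hFR : S_FR) (hN : Nor T) {t : Set ℍ} (ht : t ∈ T) : IsCompact t := by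
  obtain ⟨φ, hφ⟩ := hN.chart t ht
  exact (hFR φ t hφ).2.2.2

/-- a point near which only two tiles occur is not a vertex -/
theorem not_vtx (hFR : S_FR) (hDISJ : S_DISJ) (hN : Nor T) {s t : Set ℍ} (hs : s ∈ T)
    (ht : t ∈ T) {p : ℍ} (h : s ∪ t ∈ 𝓝 p) : p ∉ Vtx T := by
  intro hp
  obtain ⟨u, hu, hus, hut, hpu⟩ := third hp s t
  obtain ⟨φ, hφ⟩ := hN.chart u hu
  have h1 : p ∈ closure (interior u) := (hFR φ u hφ).2.2.1 hpu
  obtain ⟨q, hq1, hq2⟩ := mem_closure_iff_nhds.1 h1 _ h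
  rcases hq1 with hq1 | hq1
  · exact Set.disjoint_left.1 (hDISJ T hN s hs u hu hus.symm).2 hq1 hq2
  · exact Set.disjoint_left.1 (hDISJ T hN t ht u hu hut.symm).2 hq1 hq2

/-- the tiles containing `p` cover a neighbourhood of `p` -/
theorem st_nhds (hCNT : S_CNT) (hFR : S_FR) (hN : Nor T) (p : ℍ) :
    ⋃₀ {u ∈ T | p ∈ u} ∈ 𝓝 p := by
  obtain ⟨M, hM⟩ := hCNT T hN 1
  have hfin := (hM p).1
  set F : Set (Set ℍ) := {u ∈ T | (u ∩ Metric.closedBall p 1).Nonempty} ∩ {u | p ∉ u} with hF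
  have hFf : F.Finite := hfin.subset inter_subset_left
  have hcl : IsClosed (⋃₀ F) := by
    rw [sUnion_eq_biUnion]
    exact hFf.isClosed_biUnion fun u hu => (cpt hFR hN hu.1.1).isClosed
  have hp : p ∉ ⋃₀ F := by
    rintro ⟨u, hu, hpu⟩
    exact hu.2 hpu
  have hn : (⋃₀ F)ᶜ ∩ Metric.ball p 1 ∈ 𝓝 p :=
    Filter.inter_mem (hcl.isOpen_compl.mem_nhds hp) (Metric.ball_mem_nhds p one_pos)
  refine Filter.mem_of_superset hn ?_
  rintro q ⟨hq1, hq2⟩
  obtain ⟨u, hu, hqu⟩ := hN.cover q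
  refine ⟨u, ⟨hu, ?_⟩, hqu⟩
  by_contra hpu
  exact hq1 ⟨u, ⟨⟨hu, q, hqu, Metric.ball_subset_closedBall hq2⟩, hpu⟩, hqu⟩

/-- a point of two tiles which is not a vertex -/
theorem two_nhds (hCNT : S_CNT) (hFR : S_FR) (hN : Nor T) {s t : Set ℍ} (hs : s ∈ T)
    (ht : t ∈ T) (hst : s ≠ t) {p : ℍ} (hps : p ∈ s) (hpt : p ∈ t) (hp : p ∉ Vtx T) :
    s ∪ t ∈ 𝓝 p := by
  refine Filter.mem_of_superset (st_nhds hCNT hFR hN p) ?_
  rintro q ⟨u, ⟨hu, hpu⟩, hqu⟩
  by_cases h1 : u = s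
  · left; rw [← h1]; exact hqu
  · by_cases h2 : u = t
    · right; rw [← h2]; exact hqu
    · exfalso
      exact hp ⟨s, hs, t, ht, u, hu, hst, Ne.symm h1, Ne.symm h2, hps, hpt, hpu⟩

/-- continuity of the boundary curve -/
theorem curve_cont {φ : ℂ → ℍ} {t : Set ℍ} (hφ : Chart φ t) : Continuous fun θ => φ (ee θ) :=
  hφ.cont.comp_continuous ee_cont fun θ => sphere_sub (ee_mem θ)

/-- a boundary point of `s` in the frontier of `t` is a vertex -/
theorem endp (hCNT : S_CNT) (hFR : S_FR) (hN : Nor T) {s t : Set ℍ}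
    (hs : s ∈ T) (ht : t ∈ T) (hst : s ≠ t) {φ : ℂ → ℍ} (hφ : Chart φ t) {θ₀ : ℝ}
    (h : ∃ᶠ θ in 𝓝 θ₀, φ (ee θ) ∉ s) (h0 : φ (ee θ₀) ∈ s) : φ (ee θ₀) ∈ Vtx T := by
  by_contra hp
  have hpt : ∀ θ, φ (ee θ) ∈ t := fun θ => by
    rw [← hφ.img]
    exact ⟨ee θ, sphere_sub (ee_mem θ), rfl⟩
  have h1 := two_nhds hCNT hFR hN hs ht hst h0 (hpt θ₀) hp
  have h2 : ∀ᶠ θ in 𝓝 θ₀, φ (ee θ) ∈ interior (s ∪ t) :=
    (curve_cont hφ).continuousAt.eventually_mem (isOpen_interior.mem_nhds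
      (mem_interior_iff_mem_nhds.2 h1))
  obtain ⟨θ, hθ1, hθ2⟩ := (h.and_eventually h2).exists
  have h3 : φ (ee θ) ∈ interior t := by
    rw [mem_interior]
    refine ⟨interior (s ∪ t) ∩ sᶜ, ?_, isOpen_interior.inter
      (cpt hFR hN hs).isClosed.isOpen_compl, ⟨hθ2, hθ1⟩⟩
    rintro q ⟨hq1, hq2⟩
    rcases interior_subset hq1 with h | h
    · exact absurd h hq2
    · exact h
  have h4 : φ (ee θ) ∈ frontier t := by
    rw [(hFR φ t hφ).2.1]
    exact ⟨ee θ, ee_mem θ, rfl⟩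
  exact h4.2 h3

/-- the preimage of a connected subset of a disc is connected -/
theorem pre_conn {φ : ℂ → ℍ} {t : Set ℍ} (hφ : Chart φ t) {K : Set ℂ}
    (hK : K ⊆ Metric.closedBall 0 1) (h : IsPreconnected (φ '' K)) : IsPreconnected K := by
  let D : Set ℂ := Metric.closedBall (0:ℂ) 1
  have hD : CompactSpace D := isCompact_iff_compactSpace.1 (isCompact_closedBall 0 1)
  let f : D → ℍ := D.domRestrict φ
  have hf : Continuous f := continuousOn_iff_continuous_domRestrict.1 hφ.cont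
  have hfi : Function.Injective f := injOn_iff_injective.1 hφ.inj
  have hemb : Topology.IsClosedEmbedding f := hf.isClosedEmbedding hfi
  let K' : Set D := Subtype.val ⁻¹' K
  have hK' : Subtype.val '' K' = K := by
    rw [Subtype.image_preimage_coe, inter_eq_right]
    exact hK
  have h1 : f '' K' = φ '' K := by
    rw [← hK', image_image]
    rfl
  have h2 : IsPreconnected K' := by
    rw [← hemb.isInducing.isPreconnected_image, h1]
    exact h
  rw [← hK']
  exact h2.image _ continuous_subtype_val.continuousOn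

end EDGEx

open EDGEx in
/-- structure of an edge -/
theorem edge (hCNT : S_CNT) (hFR : S_FR) (hDISJ : S_DISJ) (hGLUE : S_GLUE) (hCIRC : S_CIRC)
    (hFULL : S_FULL) : S_EDGE := by
  intro T hN s hs t ht hst hnt φ hφ
  obtain ⟨φs, hφs⟩ := hN.chart s hs
  have hfr := (hFR φ t hφ).2.1
  have hscl : IsClosed s := (cpt hFR hN hs).isClosed
  have hsub : s ∩ t ⊆ frontier t := (hDISJ T hN s hs t ht hst).1
  have hsub' : s ∩ t ⊆ frontier s := by
    rw [inter_comm]
    exact (hDISJ T hN t ht s hs hst.symm).1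
  set K : Set ℂ := Metric.sphere (0:ℂ) 1 ∩ φ ⁻¹' s with hKdef
  have hKS : K ⊆ Metric.sphere 0 1 := inter_subset_left
  have himg : φ '' K = s ∩ t := by
    apply Subset.antisymm
    · rintro _ ⟨z, ⟨hz1, hz2⟩, rfl⟩
      refine ⟨hz2, ?_⟩
      rw [← hφ.img]
      exact ⟨z, sphere_sub hz1, rfl⟩
    · intro p hp
      have h1 := hsub hp
      rw [hfr] at h1
      obtain ⟨z, hz, rfl⟩ := h1
      exact ⟨z, ⟨hz, hp.1⟩, rfl⟩
  have hKcl : IsClosed K :=
    (hφ.cont.mono sphere_sub).preimage_isClosed_of_isClosed Metric.isClosed_sphere hscl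
  have hKconn : IsPreconnected K := by
    apply pre_conn hφ (hKS.trans sphere_sub)
    rw [himg]
    exact hN.conn s hs t ht
  have hKnt : K.Nontrivial := by
    apply Set.nontrivial_of_image φ K
    rw [himg]
    exact hnt
  have hKne : K ≠ Metric.sphere 0 1 := by
    intro h
    apply hFULL T hN s hs t ht hst
    rw [hfr, ← h, himg]
    exact inter_subset_left
  obtain ⟨a, b, hab, hb2, hK⟩ := hCIRC K hKS hKcl hKconn hKnt hKne
  have hE : s ∩ t = (fun θ => φ (ee θ)) '' Icc a b := by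
    rw [← himg, hK, image_image]
  have hpt : ∀ θ, φ (ee θ) ∈ t := fun θ => by
    rw [← hφ.img]
    exact ⟨ee θ, sphere_sub (ee_mem θ), rfl⟩
  have hmem : ∀ θ ∈ Icc a b, φ (ee θ) ∈ s := by
    intro θ hθ
    have : φ (ee θ) ∈ s ∩ t := by
      rw [hE]
      exact ⟨θ, hθ, rfl⟩
    exact this.1
  have hnot : ∀ θ, φ (ee θ) ∈ s → ∃ θ' ∈ Icc a b, ee θ = ee θ' := by
    intro θ hθ
    have : φ (ee θ) ∈ s ∩ t := ⟨hθ, hpt θ⟩
    rw [hE] at this
    obtain ⟨θ', hθ', he⟩ := this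
    exact ⟨θ', hθ', (hφ.inj (sphere_sub (ee_mem θ')) (sphere_sub (ee_mem θ)) he).symm⟩
  refine ⟨a, b, hab, hb2, hE, ?_, ?_, ?_⟩
  · apply endp hCNT hFR hN hs ht hst hφ _ (hmem a ⟨le_rfl, hab.le⟩)
    have h1 : ∀ᶠ θ in 𝓝[<] a, φ (ee θ) ∉ s := by
      have h2 : Ioo (b - 2 * Real.pi) a ∈ 𝓝[<] a := Ioo_mem_nhdsLT (by linarith)
      filter_upwards [h2] with θ hθ hc
      obtain ⟨θ', hθ', he⟩ := hnot θ hc
      have := ee_inj he (by linarith [hθ.2, hθ'.1, Real.pi_pos]) (by linarith [hθ.1, hθ'.2])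
      linarith [hθ.2, hθ'.1]
    exact h1.frequently.filter_mono nhdsWithin_le_nhds
  · apply endp hCNT hFR hN hs ht hst hφ _ (hmem b ⟨hab.le, le_rfl⟩)
    have h1 : ∀ᶠ θ in 𝓝[>] b, φ (ee θ) ∉ s := by
      have h2 : Ioo b (a + 2 * Real.pi) ∈ 𝓝[>] b := Ioo_mem_nhdsGT (by linarith)
      filter_upwards [h2] with θ hθ hc
      obtain ⟨θ', hθ', he⟩ := hnot θ hc
      have := ee_inj he (by linarith [hθ.2, hθ'.1]) (by linarith [hθ.1, hθ'.2, Real.pi_pos])
      linarith [hθ.1, hθ'.2]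
    exact h1.frequently.filter_mono nhdsWithin_le_nhds
  · intro θ hθ
    have hba : 0 < b - a := by linarith
    have hnh : s ∪ t ∈ 𝓝 (φ (ee θ)) := by
      have h1 := hGLUE s t φs φ hφs hφ hsub' hsub (fun x => φ (ee (a + (b - a) * x)))
        (((curve_cont hφ).comp (by fun_prop : Continuous fun x : ℝ => a + (b - a) * x)).continuousOn)
        (by
          intro x hx y hy hxy
          have h2 := hφ.inj (sphere_sub (ee_mem _)) (sphere_sub (ee_mem _)) hxy
          have e1 := mul_nonneg hba.le hx.1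
          have e2 := mul_nonneg hba.le hy.1
          have e3 := mul_le_mul_of_nonneg_left hx.2 hba.le
          have e4 := mul_le_mul_of_nonneg_left hy.2 hba.le
          have h3 := ee_inj h2 (by linarith) (by linarith)
          have h4 : (b - a) * x = (b - a) * y := by linarith
          exact mul_left_cancel₀ hba.ne' h4)
        (by
          intro x hx
          have e1 := mul_nonneg hba.le hx.1
          have e3 := mul_le_mul_of_nonneg_left hx.2 hba.le
          rw [hE]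
          exact ⟨a + (b - a) * x, ⟨by linarith, by linarith⟩, rfl⟩)
        ((θ - a) / (b - a)) ⟨div_pos (by linarith [hθ.1]) hba, by
          rw [div_lt_one hba]
          linarith [hθ.2]⟩
      have h2 : a + (b - a) * ((θ - a) / (b - a)) = θ := by
        rw [mul_div_cancel₀ _ hba.ne']
        ring
      simp only [h2] at h1
      exact h1
    exact ⟨hnh, not_vtx hFR hDISJ hN hs ht hnh⟩

end H292.TL
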