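import Pool.Agent.H292.TL.FB

/-!
Project TL, subtask EXT: extension of boundary homeomorphisms of discs (Alexander trick).
-/

set_option autoImplicit false
open scoped UpperHalfPlane Topology
open Set

namespace H292.TL

/-- the inverse of a continuous injection on a compact set is continuous -/
theorem ext_invCont {X Y : Type*} [TopologicalSpace X] [TopologicalSpace Y] [T2Space Y]
    [Nonempty X] {K : Set X} (hK : IsCompact K) {f : X → Y} (hf : ContinuousOn f K)
    (hi : InjOn f K) : ContinuousOn (Function.invFunOn f K) (f '' K) := by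
  rw [continuousOn_iff_isClosed]
  intro C hC
  refine ⟨f '' (C ∩ K), ?_, ?_⟩
  · exact ((hK.inter_left hC).image_of_continuousOn (hf.mono inter_subset_right)).isClosed
  · ext p
    constructor
    · rintro ⟨hp, z, hz, rfl⟩
      have e : Function.invFunOn f K (f z) = z := hi.leftInvOn_invFunOn hz
      have hp' : Function.invFunOn f K (f z) ∈ C := hp
      rw [e] at hp'
      exact ⟨⟨z, ⟨hp', hz⟩, rfl⟩, z, hz, rfl⟩
    · rintro ⟨⟨z, ⟨hzC, hz⟩, rfl⟩, -⟩
      have e : Function.invFunOn f K (f z) = z := hi.leftInvOn_invFunOn hz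
      refine ⟨?_, z, hz, rfl⟩
      show Function.invFunOn f K (f z) ∈ C
      rw [e]
      exact hzC

/-- radial extension of a self-map of the circle -/
noncomputable def ext_rad (β : ℂ → ℂ) (z : ℂ) : ℂ := (‖z‖ : ℂ) * β (z / (‖z‖ : ℂ))

theorem ext_unit {z : ℂ} (hz : z ≠ 0) : z / (‖z‖ : ℂ) ∈ Metric.sphere (0 : ℂ) 1 := by
  rw [mem_sphere_zero_iff_norm, norm_div, Complex.norm_real, norm_norm]
  exact div_self (norm_ne_zero_iff.2 hz)

theorem ext_rad_norm {β : ℂ → ℂ} (hβ : MapsTo β (Metric.sphere 0 1) (Metric.sphere 0 1)) (z : ℂ) :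
    ‖ext_rad β z‖ = ‖z‖ := by
  unfold ext_rad
  by_cases hz : z = 0
  · rw [hz]; simp
  · rw [norm_mul, Complex.norm_real, norm_norm, mem_sphere_zero_iff_norm.1 (hβ (ext_unit hz)),
      mul_one]

theorem ext_rad_cont {β : ℂ → ℂ} (hβ : MapsTo β (Metric.sphere 0 1) (Metric.sphere 0 1))
    (hc : ContinuousOn β (Metric.sphere 0 1)) : Continuous (ext_rad β) := by
  rw [continuous_iff_continuousAt]
  intro z
  by_cases hz : z = 0
  · subst hz
    have h0 : ext_rad β 0 = 0 := by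
      have := ext_rad_norm hβ 0
      rw [norm_zero] at this
      exact norm_eq_zero.1 this
    unfold ContinuousAt
    rw [h0, tendsto_zero_iff_norm_tendsto_zero]
    have : (fun x => ‖ext_rad β x‖) = fun x => ‖x‖ := by
      funext x; exact ext_rad_norm hβ x
    rw [this]
    exact tendsto_norm_zero
  · have h1 : ContinuousAt (fun w : ℂ => w / (‖w‖ : ℂ)) z := by
      apply ContinuousAt.div continuousAt_id
      · exact (Complex.continuous_ofReal.comp continuous_norm).continuousAt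
      · intro h
        exact hz (norm_eq_zero.1 (Complex.ofReal_eq_zero.1 h))
    have h2 : ContinuousWithinAt (fun w : ℂ => β (w / (‖w‖ : ℂ))) {w | w ≠ 0} z := by
      have h3 : ContinuousWithinAt β (Metric.sphere 0 1) (z / (‖z‖ : ℂ)) :=
        hc _ (ext_unit hz)
      exact h3.comp (f := fun w : ℂ => w / (‖w‖ : ℂ)) h1.continuousWithinAt
        (fun w hw => ext_unit hw)
    have h4 : ContinuousAt (fun w : ℂ => β (w / (‖w‖ : ℂ))) z :=
      h2.continuousAt (isOpen_ne.mem_nhds hz)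
    exact ((Complex.continuous_ofReal.comp continuous_norm).continuousAt).mul h4

theorem ext_rad_inj {β : ℂ → ℂ} (hβ : MapsTo β (Metric.sphere 0 1) (Metric.sphere 0 1))
    (hi : InjOn β (Metric.sphere 0 1)) : Function.Injective (ext_rad β) := by
  intro z w h
  have hn : ‖z‖ = ‖w‖ := by rw [← ext_rad_norm hβ z, h, ext_rad_norm hβ w]
  by_cases hz : z = 0
  · have : ‖w‖ = 0 := by rw [← hn, hz, norm_zero]
    rw [hz, norm_eq_zero.1 this]
  · have hw : w ≠ 0 := by
      intro hw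
      apply hz
      rw [hw, norm_zero] at hn
      exact norm_eq_zero.1 hn
    have hnw : (‖w‖ : ℂ) ≠ 0 := by
      intro h
      exact hw (norm_eq_zero.1 (Complex.ofReal_eq_zero.1 h))
    have h1 : (‖z‖ : ℂ) * β (z / (‖z‖ : ℂ)) = (‖w‖ : ℂ) * β (w / (‖w‖ : ℂ)) := h
    have hmz := ext_unit hz
    rw [hn] at h1 hmz
    have h2 := hi hmz (ext_unit hw) (mul_left_cancel₀ hnw h1)
    exact (div_left_inj' hnw).1 h2

theorem ext_rad_surj {β : ℂ → ℂ} (hβ : MapsTo β (Metric.sphere 0 1) (Metric.sphere 0 1))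
    (hs : SurjOn β (Metric.sphere 0 1) (Metric.sphere 0 1)) :
    Function.Surjective (ext_rad β) := by
  intro w
  by_cases hw : w = 0
  · refine ⟨0, ?_⟩
    have := ext_rad_norm hβ 0
    rw [norm_zero] at this
    rw [norm_eq_zero.1 this, hw]
  · have hnw : (‖w‖ : ℂ) ≠ 0 := by
      intro h
      exact hw (norm_eq_zero.1 (Complex.ofReal_eq_zero.1 h))
    obtain ⟨ζ, hζ, hζw⟩ := hs (ext_unit hw)
    have hζ1 : ‖ζ‖ = 1 := mem_sphere_zero_iff_norm.1 hζ
    refine ⟨(‖w‖ : ℂ) * ζ, ?_⟩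
    have hn : ‖(‖w‖ : ℂ) * ζ‖ = ‖w‖ := by
      rw [norm_mul, Complex.norm_real, norm_norm, hζ1, mul_one]
    unfold ext_rad
    rw [hn, mul_div_cancel_left₀ _ hnw, hζw, mul_div_cancel₀ _ hnw]

theorem ext_rad_bd (β : ℂ → ℂ) {z : ℂ} (hz : z ∈ Metric.sphere (0 : ℂ) 1) :
    ext_rad β z = β z := by
  unfold ext_rad
  rw [mem_sphere_zero_iff_norm.1 hz]
  simp

theorem ext (hFR : S_FR) : S_EXT := by
  intro t Q φ ψ hφ hψ b hbc hbi hbs
  obtain ⟨-, hft, -, -⟩ := hFR φ t hφ
  obtain ⟨-, hfQ, -, -⟩ := hFR ψ Q hψ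
  have hK : IsCompact (Metric.closedBall (0 : ℂ) 1) := isCompact_closedBall 0 1
  have hsub : Metric.sphere (0 : ℂ) 1 ⊆ Metric.closedBall 0 1 := Metric.sphere_subset_closedBall
  set φi : ℍ → ℂ := Function.invFunOn φ (Metric.closedBall 0 1) with hφi
  set ψi : ℍ → ℂ := Function.invFunOn ψ (Metric.closedBall 0 1) with hψi
  have cφi : ContinuousOn φi t := by
    have := ext_invCont hK hφ.cont hφ.inj
    rwa [hφ.img] at this
  have cψi : ContinuousOn ψi Q := by
    have := ext_invCont hK hψ.cont hψ.inj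
    rwa [hψ.img] at this
  have lφ : ∀ z ∈ Metric.closedBall (0 : ℂ) 1, φi (φ z) = z := fun z hz =>
    hφ.inj.leftInvOn_invFunOn hz
  have lψ : ∀ z ∈ Metric.closedBall (0 : ℂ) 1, ψi (ψ z) = z := fun z hz =>
    hψ.inj.leftInvOn_invFunOn hz
  have hQs : frontier Q ⊆ Q := by
    rw [hfQ]
    exact (image_mono hsub).trans hψ.img.subset
  set β : ℂ → ℂ := fun z => ψi (b (φ z)) with hβd
  have hb_mem : ∀ z ∈ Metric.sphere (0 : ℂ) 1, φ z ∈ frontier t := by
    intro z hz
    rw [hft]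
    exact mem_image_of_mem φ hz
  have hb_mem2 : ∀ z ∈ Metric.sphere (0 : ℂ) 1, b (φ z) ∈ frontier Q := by
    intro z hz
    rw [← hbs]
    exact mem_image_of_mem b (hb_mem z hz)
  have ψβ : ∀ z ∈ Metric.sphere (0 : ℂ) 1, ψ (β z) = b (φ z) := by
    intro z hz
    have h1 := hb_mem2 z hz
    rw [hfQ] at h1
    obtain ⟨w, hw, hwz⟩ := h1
    show ψ (ψi (b (φ z))) = b (φ z)
    rw [← hwz, lψ w (hsub hw)]
  have hβm : MapsTo β (Metric.sphere 0 1) (Metric.sphere 0 1) := by
    intro z hz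
    have h1 := hb_mem2 z hz
    rw [hfQ] at h1
    obtain ⟨w, hw, hwz⟩ := h1
    show ψi (b (φ z)) ∈ _
    rw [← hwz, lψ w (hsub hw)]
    exact hw
  have hβc : ContinuousOn β (Metric.sphere 0 1) := by
    have h1 : ContinuousOn (fun z => b (φ z)) (Metric.sphere 0 1) :=
      hbc.comp (hφ.cont.mono hsub) hb_mem
    exact cψi.comp h1 (fun z hz => hQs (hb_mem2 z hz))
  have hβi : InjOn β (Metric.sphere 0 1) := by
    intro z hz w hw h
    have h1 : b (φ z) = b (φ w) := by rw [← ψβ z hz, ← ψβ w hw, h]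
    exact hφ.inj (hsub hz) (hsub hw) (hbi (hb_mem z hz) (hb_mem w hw) h1)
  have hβs : SurjOn β (Metric.sphere 0 1) (Metric.sphere 0 1) := by
    intro w hw
    have h1 : ψ w ∈ frontier Q := by rw [hfQ]; exact mem_image_of_mem ψ hw
    rw [← hbs, hft] at h1
    obtain ⟨p, ⟨z, hz, rfl⟩, hp⟩ := h1
    refine ⟨z, hz, ?_⟩
    show ψi (b (φ z)) = w
    rw [hp, lψ w (hsub hw)]
  have hBm : ∀ z ∈ Metric.closedBall (0 : ℂ) 1, ext_rad β z ∈ Metric.closedBall (0 : ℂ) 1 := by
    intro z hz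
    rw [mem_closedBall_zero_iff, ext_rad_norm hβm]
    exact mem_closedBall_zero_iff.1 hz
  have hφim : ∀ p ∈ t, φi p ∈ Metric.closedBall (0 : ℂ) 1 := by
    intro p hp
    rw [← hφ.img] at hp
    obtain ⟨z, hz, rfl⟩ := hp
    rw [lφ z hz]
    exact hz
  have hφr : ∀ p ∈ t, φ (φi p) = p := by
    intro p hp
    rw [← hφ.img] at hp
    obtain ⟨z, hz, rfl⟩ := hp
    rw [lφ z hz]
  refine ⟨fun p => ψ (ext_rad β (φi p)), ?_, ?_, ?_, ?_⟩
  · exact hψ.cont.comp ((ext_rad_cont hβm hβc).comp_continuousOn cφi)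
      (fun p hp => hBm _ (hφim p hp))
  · intro p hp q hq h
    have h1 := hψ.inj (hBm _ (hφim p hp)) (hBm _ (hφim q hq)) h
    have h2 := ext_rad_inj hβm hβi h1
    rw [← hφr p hp, h2, hφr q hq]
  · apply Subset.antisymm
    · rintro _ ⟨p, hp, rfl⟩
      rw [← hψ.img]
      exact mem_image_of_mem ψ (hBm _ (hφim p hp))
    · intro q hq
      rw [← hψ.img] at hq
      obtain ⟨w, hw, rfl⟩ := hq
      obtain ⟨z, hzw⟩ := ext_rad_surj hβm hβs w
      have hz : z ∈ Metric.closedBall (0 : ℂ) 1 := by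
        rw [mem_closedBall_zero_iff, ← ext_rad_norm hβm, hzw]
        exact mem_closedBall_zero_iff.1 hw
      refine ⟨φ z, ?_, ?_⟩
      · rw [← hφ.img]
        exact mem_image_of_mem φ hz
      · show ψ (ext_rad β (φi (φ z))) = ψ w
        rw [lφ z hz, hzw]
  · intro p hp
    rw [hft] at hp
    obtain ⟨z, hz, rfl⟩ := hp
    show ψ (ext_rad β (φi (φ z))) = b (φ z)
    rw [lφ z (hsub hz), ext_rad_bd β hz, ψβ z hz]

end H292.TL
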