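import Pool.Agent.H292.TL.FB

/-!
Project TL, FINV: a tile has finitely many vertices.
-/

set_option autoImplicit false
open scoped UpperHalfPlane Topology
open Set

namespace H292.TL

/-- a vertex on `t` lies in another tile -/
theorem finv_other {T : Set (Set ℍ)} {v : ℍ} (hv : v ∈ Vtx T) (t : Set ℍ) :
    ∃ s ∈ T, s ≠ t ∧ v ∈ s := by
  obtain ⟨a, ha, b, hb, c, hc, hab, hac, hbc, hva, hvb, hvc⟩ := hv
  by_cases h : a = t
  · refine ⟨b, hb, ?_, hvb⟩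
    rintro rfl
    exact hab h
  · exact ⟨a, ha, h, hva⟩

/-- the vertices on the intersection with another tile -/
theorem finv_pair (hE : S_EDGE) {T : Set (Set ℍ)} (hT : Nor T) {s t : Set ℍ} (hs : s ∈ T)
    (ht : t ∈ T) (hst : s ≠ t) : (Vtx T ∩ (s ∩ t)).Finite := by
  by_cases hn : (s ∩ t).Nontrivial
  · obtain ⟨φ, hφ⟩ := hT.chart t ht
    obtain ⟨a, b, hab, -, hst', -, -, hint⟩ := hE T hT s hs t ht hst hn φ hφ
    refine (Set.toFinite {φ (ee a), φ (ee b)}).subset ?_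
    rintro v ⟨hv, hvst⟩
    rw [hst'] at hvst
    obtain ⟨θ, hθ, rfl⟩ := hvst
    by_cases h1 : θ = a
    · left
      rw [h1]
    by_cases h2 : θ = b
    · right
      rw [h2]
      rfl
    exact absurd hv (hint θ ⟨lt_of_le_of_ne hθ.1 (Ne.symm h1), lt_of_le_of_ne hθ.2 h2⟩).2
  · rw [Set.not_nontrivial_iff] at hn
    exact hn.finite.subset Set.inter_subset_right

theorem finv (hC : S_CNT) (hE : S_EDGE) : S_FINV := by
  intro T hT t ht
  obtain ⟨r, R, -, hu⟩ := hT.unif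
  obtain ⟨c₁, c₂, -, hc₂⟩ := hu t ht
  obtain ⟨N, hN⟩ := hC T hT R
  have hfin := (hN c₂).1
  have hA : {s ∈ T | (s ∩ t).Nonempty}.Finite := by
    refine hfin.subset ?_
    rintro s ⟨hs, hst⟩
    exact ⟨hs, hst.mono (Set.inter_subset_inter_right s hc₂)⟩
  have hB : {s ∈ T | (s ∩ t).Nonempty ∧ s ≠ t}.Finite :=
    hA.subset fun s hs => ⟨hs.1, hs.2.1⟩
  refine (hB.biUnion (t := fun s => Vtx T ∩ (s ∩ t))
    fun s hs => finv_pair hE hT hs.1 ht hs.2.2).subset ?_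
  rintro v ⟨hv, hvt⟩
  obtain ⟨s, hs, hst, hvs⟩ := finv_other hv t
  exact Set.mem_biUnion (x := s) ⟨hs, ⟨v, hvs, hvt⟩, hst⟩ ⟨hv, hvs, hvt⟩

end H292.TL
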