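import Pool.Agent.H292.TL.FB

/-!
Project TL, task FR: interior and frontier of an embedded closed disc in `ℍ` (helper264).
-/

set_option autoImplicit false
open scoped UpperHalfPlane Topology
open Set

namespace H292.TL

namespace FRL

/-- the inverse of a chart is continuous -/
theorem inv_cont {φ : ℂ → ℍ} {t : Set ℍ} (h : Chart φ t) :
    ∃ g : ℍ → ℂ, ContinuousOn g t ∧ (∀ z ∈ Metric.closedBall (0:ℂ) 1, g (φ z) = z) := by
  classical
  set K : Set ℂ := Metric.closedBall (0:ℂ) 1 with hK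
  have hKc : CompactSpace K := isCompact_iff_compactSpace.1 (isCompact_closedBall _ _)
  have hf : Continuous (K.domRestrict φ) := continuousOn_iff_continuous_domRestrict.1 h.cont
  have hinj : Function.Injective (K.domRestrict φ) := injOn_iff_injective.1 h.inj
  have he := (hf.isClosedEmbedding hinj).isEmbedding
  let e : K ≃ₜ range (K.domRestrict φ) := he.toHomeomorph
  have hr : range (K.domRestrict φ) = t := by rw [range_domRestrict, h.img]
  have hmem : ∀ x ∈ t, x ∈ range (K.domRestrict φ) := fun x hx => by rw [hr]; exact hx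
  let g : ℍ → ℂ := fun x => if hx : x ∈ range (K.domRestrict φ) then ((e.symm ⟨x, hx⟩ : K) : ℂ) else 0
  refine ⟨g, ?_, ?_⟩
  · rw [continuousOn_iff_continuous_domRestrict]
    have h1 : t.domRestrict g = fun x : t => ((e.symm ⟨x, hmem x x.2⟩ : K) : ℂ) := by
      funext x
      exact dif_pos (hmem x x.2)
    rw [h1]
    refine continuous_subtype_val.comp (e.symm.continuous.comp ?_)
    exact continuous_subtype_val.subtype_mk _
  · intro z hz
    have h1 : φ z ∈ range (K.domRestrict φ) := ⟨⟨z, hz⟩, rfl⟩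
    have h2 : g (φ z) = ((e.symm ⟨φ z, h1⟩ : K) : ℂ) := dif_pos h1
    rw [h2]
    have h3 : e ⟨z, hz⟩ = ⟨φ z, h1⟩ := rfl
    rw [← h3, Homeomorph.symm_apply_apply]

theorem interior_sub {φ : ℂ → ℍ} {t : Set ℍ} (h : Chart φ t) :
    interior t ⊆ φ '' Metric.ball 0 1 := by
  intro p hp
  obtain ⟨g, hgc, hg⟩ := inv_cont h
  obtain ⟨z, hz, rfl⟩ : p ∈ φ '' Metric.closedBall 0 1 := by
    rw [h.img]; exact interior_subset hp
  refine ⟨z, ?_, rfl⟩
  have h0 : IsOpen {w : ℂ | 0 < w.im} := isOpen_lt continuous_const Complex.continuous_im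
  let o : ℂ → ℍ := fun w => UpperHalfPlane.ofComplex w
  have ho : ∀ w : ℍ, o w = w := fun w => UpperHalfPlane.ofComplex_apply w
  have hoc : ContinuousOn o {w : ℂ | 0 < w.im} := by
    intro w hw
    have h1 : ContinuousAt UpperHalfPlane.ofComplex w := by
      have h2 := UpperHalfPlane.contMDiffAt_ofComplex (n := 0) (z := w) hw
      exact h2.continuousAt
    exact h1.continuousWithinAt
  have hoi : ∀ w : ℂ, 0 < w.im → ((o w : ℍ) : ℂ) = w := fun w hw => by
    change ((UpperHalfPlane.ofComplex w : ℍ) : ℂ) = w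
    rw [UpperHalfPlane.ofComplex_apply_of_im_pos hw]
  set U : Set ℂ := {w : ℂ | 0 < w.im} ∩ o ⁻¹' (interior t) with hU
  have hUn : U ∈ 𝓝 ((φ z : ℍ) : ℂ) := by
    have hx : ((φ z : ℍ) : ℂ) ∈ {w : ℂ | 0 < w.im} := (φ z).2
    refine Filter.inter_mem (h0.mem_nhds hx) ?_
    have h1 : ContinuousAt o ((φ z : ℍ) : ℂ) := hoc.continuousAt (h0.mem_nhds hx)
    apply h1.preimage_mem_nhds
    rw [ho]
    exact isOpen_interior.mem_nhds hp
  have hginj : ∀ p ∈ t, ∀ q ∈ t, g p = g q → p = q := by
    intro p hp q hq hpq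
    rw [← h.img] at hp hq
    obtain ⟨a, ha, rfl⟩ := hp
    obtain ⟨b, hb, rfl⟩ := hq
    rw [hg a ha, hg b hb] at hpq
    rw [hpq]
  have h1 := iodCC (fun w => g (o w)) hUn
    (hgc.comp (hoc.mono inter_subset_left) (fun w hw => interior_subset hw.2))
    (fun a ha b hb hab => by
      have h2 := hginj _ (interior_subset ha.2) _ (interior_subset hb.2) hab
      rw [← hoi a ha.1, ← hoi b hb.1, h2]) hUn
  simp only [ho, hg z hz] at h1
  have h2 : Metric.closedBall (0:ℂ) 1 ∈ 𝓝 z := by
    refine Filter.mem_of_superset h1 ?_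
    rintro _ ⟨w, hw, rfl⟩
    have h3 : o w ∈ t := interior_subset hw.2
    rw [← h.img] at h3
    obtain ⟨a, ha, ha'⟩ := h3
    change g (o w) ∈ _
    rw [← ha', hg a ha]
    exact ha
  have h3 : z ∈ interior (Metric.closedBall (0:ℂ) 1) := mem_interior_iff_mem_nhds.2 h2
  rwa [interior_closedBall _ one_ne_zero] at h3

end FRL

open FRL in
theorem fr : S_FR := by
  intro φ t h
  have hcomp : IsCompact t := by
    rw [← h.img]
    exact (isCompact_closedBall _ _).image_of_continuousOn h.cont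
  have hint : interior t = φ '' Metric.ball 0 1 := by
    apply Subset.antisymm (interior_sub h)
    rintro _ ⟨z, hz, rfl⟩
    have h1 : Metric.ball (0:ℂ) 1 ∈ 𝓝 z := Metric.isOpen_ball.mem_nhds hz
    have h2 : Metric.closedBall (0:ℂ) 1 ∈ 𝓝 z := Filter.mem_of_superset h1 Metric.ball_subset_closedBall
    have h3 := iodCH φ h2 h.cont h.inj h2
    rw [h.img] at h3
    exact mem_interior_iff_mem_nhds.2 h3
  refine ⟨hint, ?_, ?_, hcomp⟩
  · rw [hcomp.isClosed.frontier_eq, hint]
    nth_rewrite 1 [← h.img]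
    rw [← h.inj.image_sdiff_subset Metric.ball_subset_closedBall, Metric.closedBall_sdiff_ball]
  · rw [hint]
    nth_rewrite 1 [← h.img]
    rw [← closure_ball (0:ℂ) one_ne_zero]
    apply ContinuousOn.image_closure
    rw [closure_ball (0:ℂ) one_ne_zero]
    exact h.cont

end H292.TL

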