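import Pool.Agent.H292.TL.FB

/-!
Project TL, task FRAME (helper400): global frames from MT1, MV1, MON.
-/

set_option autoImplicit false
open scoped UpperHalfPlane Topology
open Set

namespace H292.TL

namespace FRM

variable {T : Set (Set ℍ)} {G : Type} [Group G]

open Classical in
/-- the corner element attached to a vertex and a tile -/
noncomputable def kpp (κ : Flag T → G) (v : ℍ) (t : Set ℍ) : G :=
  if h : ∃ x : Flag T, x.v = v ∧ x.t = t then κ h.choose else 1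

theorem kpp_eq (H : FS1 T) {κ : Flag T → G} (hκ : ∀ x, κ (s1 x) = κ x) (x : Flag T) :
    kpp κ x.v x.t = κ x := by
  have h : ∃ y : Flag T, y.v = x.v ∧ y.t = x.t := ⟨x, rfl, rfl⟩
  unfold kpp
  rw [dif_pos h]
  obtain ⟨h1, h2⟩ := h.choose_spec
  rcases H.u1 x h.choose h1 h2 with h3 | h3
  · rw [h3]
  · rw [h3, hκ]

open Classical in
/-- the cocycle -/
noncomputable def rr (κ : Flag T → G) (s t : Set ℍ) : G :=
  if h : s ≠ t ∧ ∃ v : ℍ, v ∈ Vtx T ∧ v ∈ s ∧ v ∈ t then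
    (kpp κ h.2.choose s)⁻¹ * kpp κ h.2.choose t else 1

theorem rr_self (κ : Flag T → G) (s : Set ℍ) : rr κ s s = 1 := by
  unfold rr
  rw [dif_neg (fun h => h.1 rfl)]

theorem rr_eq (κ : Flag T → G)
    (hi : ∀ s ∈ T, ∀ t ∈ T, s ≠ t → ∀ v ∈ Vtx T, v ∈ s → v ∈ t → ∀ w ∈ Vtx T, w ∈ s → w ∈ t →
      (kpp κ v s)⁻¹ * kpp κ v t = (kpp κ w s)⁻¹ * kpp κ w t)
    {s t : Set ℍ} (hs : s ∈ T) (ht : t ∈ T) {v : ℍ} (hv : v ∈ Vtx T) (hvs : v ∈ s) (hvt : v ∈ t) :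
    rr κ s t = (kpp κ v s)⁻¹ * kpp κ v t := by
  by_cases hst : s = t
  · subst hst
    rw [rr_self, inv_mul_cancel]
  · have h : s ≠ t ∧ ∃ v : ℍ, v ∈ Vtx T ∧ v ∈ s ∧ v ∈ t := ⟨hst, v, hv, hvs, hvt⟩
    unfold rr
    rw [dif_pos h]
    obtain ⟨h1, h2, h3⟩ := h.2.choose_spec
    exact hi s hs t ht hst _ h1 h2 h3 v hv hvs hvt

end FRM

open FRM in
theorem frame (hMT : S_MT1) (hMV : S_MV1) (hMON : S_MON) (hREL : S_REL) (hCNT : S_CNT) :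
    S_FRAME := by
  intro T hT hF hE l hl hang
  obtain ⟨m, hm⟩ := hMT T hF l hl
  obtain ⟨h, hh⟩ := hMV T hF l hl hang
  have H : FS1 T := hF.toFS1
  obtain ⟨-, -, -, hR0, -, -⟩ := hREL
  have hcomm : R0 l * R2 = R2 * R0 l := (hR0 l).2
  set κ : Flag T → (ℍ ≃ᵢ ℍ) := fun x => h x * (m x)⁻¹ with hκ
  have hκ1 : ∀ x, κ (s1 x) = κ x := by
    intro x
    simp only [hκ]
    rw [(hh x).1, (hm x).2]
    group
  -- the product for an edge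
  have hedge : ∀ x : Flag T, (κ (s2 x))⁻¹ * κ x = m (s2 x) * (R2)⁻¹ * (m x)⁻¹ := by
    intro x
    simp only [hκ]
    rw [(hh x).2]
    group
  have hkx : ∀ x : Flag T, kpp κ x.v x.t = κ x := fun x => kpp_eq H hκ1 x
  have hks : ∀ x : Flag T, kpp κ x.v x.s = κ (s2 x) := fun x => kpp_eq H hκ1 (s2 x)
  have hi : ∀ s ∈ T, ∀ t ∈ T, s ≠ t → ∀ v ∈ Vtx T, v ∈ s → v ∈ t → ∀ w ∈ Vtx T, w ∈ s → w ∈ t →
      (kpp κ v s)⁻¹ * kpp κ v t = (kpp κ w s)⁻¹ * kpp κ w t := by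
    intro s hs t ht hst v hv hvs hvt w hw hws hwt
    by_cases hvw : v = w
    · rw [hvw]
    · have hadj : (s ∩ t).Nontrivial := ⟨v, ⟨hvs, hvt⟩, w, ⟨hws, hwt⟩, hvw⟩
      let x : Flag T := ⟨v, t, s, hv, ht, hs, hst, hvt, hvs, hadj⟩
      let y : Flag T := ⟨w, t, s, hw, ht, hs, hst, hwt, hws, hadj⟩
      have hy : y = s0 x := H.eq_s0 rfl rfl (fun h => hvw h.symm)
      have e1 : (kpp κ v s)⁻¹ * kpp κ v t = m (s2 x) * (R2)⁻¹ * (m x)⁻¹ := by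
        rw [← hedge x]
        exact congrArg₂ (fun a b => a⁻¹ * b) (hks x) (hkx x)
      have e2 : (kpp κ w s)⁻¹ * kpp κ w t = m (s2 y) * (R2)⁻¹ * (m y)⁻¹ := by
        rw [← hedge y]
        exact congrArg₂ (fun a b => a⁻¹ * b) (hks y) (hkx y)
      rw [e1, e2, hy, ← H.s0_s2, (hm (s2 x)).1, (hm x).1]
      have e3 : R0 l * (R2)⁻¹ * (R0 l)⁻¹ = (R2)⁻¹ := by
        rw [mul_inv_eq_iff_eq_mul, eq_inv_mul_iff_mul_eq, ← mul_assoc, ← hcomm, mul_assoc,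
          mul_inv_cancel, mul_one]
      calc m (s2 x) * (R2)⁻¹ * (m x)⁻¹ = m (s2 x) * (R0 l * (R2)⁻¹ * (R0 l)⁻¹) * (m x)⁻¹ := by
            rw [e3]
        _ = m (s2 x) * R0 l * (R2)⁻¹ * (m x * R0 l)⁻¹ := by group
  have hrr : ∀ s ∈ T, ∀ t ∈ T, ∀ v ∈ Vtx T, v ∈ s → v ∈ t →
      rr κ s t = (kpp κ v s)⁻¹ * kpp κ v t := fun s hs t ht v hv hvs hvt =>
    rr_eq κ hi hs ht hv hvs hvt
  have hcoc : ∀ s ∈ T, ∀ t ∈ T, ∀ u ∈ T, (s ∩ t ∩ u).Nonempty →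
      rr κ s t * rr κ t u = rr κ s u := by
    intro s hs t ht u hu hne
    have key : ∀ v ∈ Vtx T, v ∈ s → v ∈ t → v ∈ u → rr κ s t * rr κ t u = rr κ s u := by
      intro v hv hvs hvt hvu
      rw [hrr s hs t ht v hv hvs hvt, hrr t ht u hu v hv hvt hvu, hrr s hs u hu v hv hvs hvu]
      group
    by_cases hst : s = t
    · subst hst
      rw [rr_self, one_mul]
    by_cases htu : t = u
    · subst htu
      rw [rr_self, mul_one]
    obtain ⟨p, ⟨hps, hpt⟩, hpu⟩ := hne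
    by_cases hsu : s = u
    · subst hsu
      obtain ⟨v, hv, hvs, hvt⟩ := hE.nev s hs t ht hst ⟨p, hps, hpt⟩
      exact key v hv hvs hvt hvs
    · exact key p ⟨s, hs, t, ht, u, hu, hst, hsu, htu, hps, hpt, hpu⟩ hps hpt hpu
  obtain ⟨g, hg⟩ := hMON T
    (fun t ht => by
      obtain ⟨φ, hφ⟩ := hT.chart t ht
      rw [← hφ.img]
      exact ((isCompact_closedBall (0 : ℂ) 1).image_of_continuousOn hφ.cont).isClosed)
    (fun t ht => by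
      obtain ⟨φ, hφ⟩ := hT.chart t ht
      rw [← hφ.img]
      exact ((convex_closedBall (0 : ℂ) 1).isConnected ⟨0, by simp⟩).image _ hφ.cont)
    hT.cover
    (fun x ρ => by
      obtain ⟨N, hN⟩ := hCNT T hT ρ
      exact (hN x).1)
    (ℍ ≃ᵢ ℍ) (rr κ) hcoc
  refine ⟨fun x => g x.t * m x, fun x => ⟨?_, ?_, ?_⟩⟩
  · show g (s0 x).t * m (s0 x) = g x.t * m x * R0 l
    rw [H.s0_t, (hm x).1, mul_assoc]
  · show g (s1 x).t * m (s1 x) = g x.t * m x * R1 l (nn T x.t)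
    rw [H.s1_t, (hm x).2, mul_assoc]
  · show g x.s * m (s2 x) = g x.t * m x * R2
    have h1 := hg x.s x.hs x.t x.ht ⟨x.v, x.hvs, x.hvt⟩
    rw [hrr x.s x.hs x.t x.ht x.v x.hv x.hvs x.hvt, hks, hkx, hedge] at h1
    rw [← h1]
    group

end H292.TL
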