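import Pool.Agent.H292.TL.FB

/-!
Project TL (owner helper292): assembling `FS1` and `ES` (S_FS1), by helper51.
-/

set_option autoImplicit false
open scoped UpperHalfPlane Topology
open Set

namespace H292.TL

variable {T : Set (Set ℍ)}

namespace TFS1

theorem ee_norm (θ : ℝ) : ‖ee θ‖ = 1 := by
  unfold ee; exact Complex.norm_exp_ofReal_mul_I θ

theorem ee_continuous : Continuous ee := by
  unfold ee; fun_prop

theorem ee_inj_of_lt {θ η : ℝ} (h : ee θ = ee η) (h1 : θ - η < 2 * Real.pi)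
    (h2 : η - θ < 2 * Real.pi) : θ = η := by
  unfold ee at h
  rw [Complex.exp_eq_exp_iff_exists_int] at h
  obtain ⟨k, hk⟩ := h
  have h3 : (θ : ℂ) = η + k * (2 * Real.pi) := by
    have hI : Complex.I ≠ 0 := Complex.I_ne_zero
    have : ((θ : ℂ) - (η + k * (2 * Real.pi))) * Complex.I = 0 := by
      linear_combination hk
    rcases mul_eq_zero.1 this with h | h
    · linear_combination h
    · exact absurd h hI
  have h4 : θ = η + k * (2 * Real.pi) := by exact_mod_cast h3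
  have hpi : 0 < 2 * Real.pi := by positivity
  have h5 : (k : ℝ) < 1 := by nlinarith
  have h6 : (-1 : ℝ) < k := by nlinarith
  have h7 : k < 1 := by exact_mod_cast h5
  have h8 : -1 < k := by exact_mod_cast h6
  have h9 : k = 0 := by omega
  rw [h9] at h4
  simpa using h4

/-- the edge as a parametrized arc -/
theorem edge_arc (hEDGE : S_EDGE) (hT : Nor T) {s t : Set ℍ} (hs : s ∈ T) (ht : t ∈ T)
    (hne : s ≠ t) (hn : (s ∩ t).Nontrivial) :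
    ∃ c : ℝ → ℍ, ContinuousOn c (Icc 0 1) ∧ InjOn c (Icc 0 1) ∧ c '' Icc 0 1 = s ∩ t ∧
      c 0 ∈ Vtx T ∧ c 1 ∈ Vtx T ∧ ∀ τ ∈ Ioo (0:ℝ) 1, s ∪ t ∈ 𝓝 (c τ) ∧ c τ ∉ Vtx T := by
  obtain ⟨φ, hφ⟩ := hT.chart t ht
  obtain ⟨a, b, hab, hb, himg, hva, hvb, hint⟩ := hEDGE T hT s hs t ht hne hn φ hφ
  have hmem : ∀ θ : ℝ, ee θ ∈ Metric.closedBall (0:ℂ) 1 := fun θ => by
    rw [mem_closedBall_zero_iff, ee_norm]
  have haff : ∀ τ ∈ Icc (0:ℝ) 1, a + (b - a) * τ ∈ Icc a b := by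
    intro τ hτ
    constructor
    · have := mul_nonneg (sub_nonneg.2 hab.le) hτ.1
      linarith
    · have := mul_le_mul_of_nonneg_left hτ.2 (sub_nonneg.2 hab.le)
      linarith
  refine ⟨fun τ => φ (ee (a + (b - a) * τ)), ?_, ?_, ?_, ?_, ?_, ?_⟩
  · refine hφ.cont.comp (Continuous.continuousOn ?_) (fun τ _ => hmem _)
    exact ee_continuous.comp (by fun_prop)
  · intro τ hτ τ' hτ' h
    have h1 := hφ.inj (hmem _) (hmem _) h
    have e1 := haff τ hτ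
    have e2 := haff τ' hτ'
    have h2 := ee_inj_of_lt h1 (by linarith [e1.2, e2.1]) (by linarith [e1.1, e2.2])
    have h3 : (b - a) * τ = (b - a) * τ' := by linarith
    exact mul_left_cancel₀ (sub_pos.2 hab).ne' h3
  · rw [himg]
    ext p
    constructor
    · rintro ⟨τ, hτ, rfl⟩
      exact ⟨_, haff τ hτ, rfl⟩
    · rintro ⟨θ, hθ, rfl⟩
      refine ⟨(θ - a) / (b - a), ⟨div_nonneg (sub_nonneg.2 hθ.1) (sub_pos.2 hab).le, ?_⟩, ?_⟩
      · rw [div_le_one (sub_pos.2 hab)]; linarith [hθ.2]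
      · have : a + (b - a) * ((θ - a) / (b - a)) = θ := by
          rw [mul_div_cancel₀ _ (sub_pos.2 hab).ne']; ring
        simp only [this]
  · simpa using hva
  · simpa using hvb
  · intro τ hτ
    refine hint _ ⟨?_, ?_⟩
    · have := mul_pos (sub_pos.2 hab) hτ.1
      linarith
    · have := mul_lt_mul_of_pos_left hτ.2 (sub_pos.2 hab)
      linarith

/-- the edge as an arc starting at the vertex of a flag -/
theorem flag_arc (hEDGE : S_EDGE) (hT : Nor T) (x : Flag T) :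
    ∃ c : ℝ → ℍ, ContinuousOn c (Icc 0 1) ∧ InjOn c (Icc 0 1) ∧ c '' Icc 0 1 = x.s ∩ x.t ∧
      c 0 = x.v ∧ c 1 ∈ Vtx T ∧ ∀ τ ∈ Ioo (0:ℝ) 1, x.s ∪ x.t ∈ 𝓝 (c τ) ∧ c τ ∉ Vtx T := by
  obtain ⟨c, h1, h2, h3, h4, h5, h6⟩ := edge_arc hEDGE hT x.hs x.ht x.hne x.hadj
  have hv : x.v ∈ c '' Icc 0 1 := by rw [h3]; exact ⟨x.hvs, x.hvt⟩
  obtain ⟨τ, hτ, hc⟩ := hv
  rcases eq_or_lt_of_le hτ.1 with h0 | h0
  · exact ⟨c, h1, h2, h3, by rw [h0, hc], h5, h6⟩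
  rcases eq_or_lt_of_le hτ.2 with h | h
  · have hrev : ∀ τ ∈ Icc (0:ℝ) 1, 1 - τ ∈ Icc (0:ℝ) 1 := fun τ hτ =>
      ⟨by linarith [hτ.2], by linarith [hτ.1]⟩
    refine ⟨fun τ => c (1 - τ), ?_, ?_, ?_, ?_, ?_, ?_⟩
    · exact h1.comp (by fun_prop) (fun τ hτ => hrev τ hτ)
    · intro τ hτ τ' hτ' he
      have := h2 (hrev τ hτ) (hrev τ' hτ') he
      linarith
    · rw [← h3]
      ext p
      constructor
      · rintro ⟨τ, hτ, rfl⟩
        exact ⟨_, hrev τ hτ, rfl⟩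
      · rintro ⟨τ, hτ, rfl⟩
        exact ⟨1 - τ, hrev τ hτ, by simp⟩
    · simp only [sub_zero]; rw [← h]; exact hc
    · simpa using h4
    · intro τ hτ
      exact h6 _ ⟨by linarith [hτ.2], by linarith [hτ.1]⟩
  · exact absurd x.hv (by rw [← hc]; exact (h6 τ ⟨h0, h⟩).2)

theorem mem_Ioo_of {c : ℝ → ℍ} {p : ℍ} {τ : ℝ} (hτ : τ ∈ Icc (0:ℝ) 1) (hp : c τ = p)
    (h0 : c 0 ≠ p) (h1 : c 1 ≠ p) : τ ∈ Ioo (0:ℝ) 1 := by
  refine ⟨lt_of_le_of_ne hτ.1 ?_, lt_of_le_of_ne hτ.2 ?_⟩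
  · rintro rfl; exact h0 hp
  · rintro rfl; exact h1 hp

end TFS1

open TFS1 in
theorem fs1 (hCNT : S_CNT) (hFR : S_FR) (hDISJ : S_DISJ) (hEDGE : S_EDGE) (hNEV : S_NEV)
    (hBD : S_BD) (hFINV : S_FINV) (hTWO : S_TWO) : S_FS1 := by
  intro T hT
  have hE : ∀ x : Flag T, ∃ c : ℝ → ℍ, ContinuousOn c (Icc 0 1) ∧ InjOn c (Icc 0 1) ∧
      c '' Icc 0 1 = x.s ∩ x.t ∧ c 0 = x.v ∧ c 1 ∈ Vtx T ∧
      ∀ τ ∈ Ioo (0:ℝ) 1, x.s ∪ x.t ∈ 𝓝 (c τ) ∧ c τ ∉ Vtx T := fun x => flag_arc hEDGE hT x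
  have h01 : (0:ℝ) ∈ Icc (0:ℝ) 1 := ⟨le_refl _, zero_le_one⟩
  have h11 : (1:ℝ) ∈ Icc (0:ℝ) 1 := ⟨zero_le_one, le_refl _⟩
  -- the vertices of an edge
  have hV : ∀ x : Flag T, ∃ w : ℍ, w ≠ x.v ∧ w ∈ Vtx T ∧ w ∈ x.s ∧ w ∈ x.t ∧
      ∀ p ∈ Vtx T, p ∈ x.s → p ∈ x.t → p = x.v ∨ p = w := by
    intro x
    obtain ⟨c, h1, h2, h3, h4, h5, h6⟩ := hE x
    have hm : c 1 ∈ x.s ∩ x.t := by rw [← h3]; exact ⟨1, h11, rfl⟩
    refine ⟨c 1, ?_, h5, hm.1, hm.2, ?_⟩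
    · intro h
      rw [← h4] at h
      have := h2 h11 h01 h
      norm_num at this
    · intro p hp hps hpt
      have hp' : p ∈ c '' Icc 0 1 := by rw [h3]; exact ⟨hps, hpt⟩
      obtain ⟨τ, hτ, hc⟩ := hp'
      by_contra hcon
      push Not at hcon
      have hτ' := mem_Ioo_of hτ hc (fun h => hcon.1 (by rw [← h, h4])) (fun h => hcon.2 h.symm)
      exact (h6 τ hτ').2 (by rw [hc]; exact hp)
  have e0 : ∀ x : Flag T, ∃ y : Flag T, y.t = x.t ∧ y.s = x.s ∧ y.v ≠ x.v := by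
    intro x
    obtain ⟨w, w1, w2, w3, w4, -⟩ := hV x
    exact ⟨⟨w, x.t, x.s, w2, x.ht, x.hs, x.hne, w4, w3, x.hadj⟩, rfl, rfl, w1⟩
  have s0t : ∀ x : Flag T, (s0 x).t = x.t := fun x => by
    unfold s0; rw [dif_pos (e0 x)]; exact (e0 x).choose_spec.1
  have s0s : ∀ x : Flag T, (s0 x).s = x.s := fun x => by
    unfold s0; rw [dif_pos (e0 x)]; exact (e0 x).choose_spec.2.1
  have s0v : ∀ x : Flag T, (s0 x).v ≠ x.v := fun x => by
    unfold s0; rw [dif_pos (e0 x)]; exact (e0 x).choose_spec.2.2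
  -- the two edges at a corner
  have hW : ∀ x : Flag T, ∃ w ∈ T, w ≠ x.s ∧ w ≠ x.t ∧ x.v ∈ w ∧ (w ∩ x.t).Nontrivial ∧
      ∀ s ∈ T, s ≠ x.t → x.v ∈ s → (s ∩ x.t).Nontrivial → s = x.s ∨ s = w := by
    intro x
    obtain ⟨a, ha, b, hb, hab, hat, hbt, hva, hvb, hna, hnb, hall⟩ :=
      hTWO T hT x.t x.ht x.v x.hv x.hvt
    rcases hall x.s x.hs x.hne x.hvs x.hadj with h | h
    · refine ⟨b, hb, ?_, hbt, hvb, hnb, ?_⟩
      · rw [h]; exact hab.symm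
      · intro s hs h1 h2 h3
        rw [h]; exact hall s hs h1 h2 h3
    · refine ⟨a, ha, ?_, hat, hva, hna, ?_⟩
      · rw [h]; exact hab
      · intro s hs h1 h2 h3
        rw [h]; exact (hall s hs h1 h2 h3).symm
  have e1 : ∀ x : Flag T, ∃ y : Flag T, y.v = x.v ∧ y.t = x.t ∧ y.s ≠ x.s := by
    intro x
    obtain ⟨w, w1, w2, w3, w4, w5, -⟩ := hW x
    exact ⟨⟨x.v, x.t, w, x.hv, x.ht, w1, w3, x.hvt, w4, w5⟩, rfl, rfl, w2⟩
  have s1v : ∀ x : Flag T, (s1 x).v = x.v := fun x => by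
    unfold s1; rw [dif_pos (e1 x)]; exact (e1 x).choose_spec.1
  have s1t : ∀ x : Flag T, (s1 x).t = x.t := fun x => by
    unfold s1; rw [dif_pos (e1 x)]; exact (e1 x).choose_spec.2.1
  have s1s : ∀ x : Flag T, (s1 x).s ≠ x.s := fun x => by
    unfold s1; rw [dif_pos (e1 x)]; exact (e1 x).choose_spec.2.2
  -- a flag from two adjacent tiles
  have hmk : ∀ s ∈ T, ∀ t ∈ T, s ≠ t → (s ∩ t).Nontrivial → ∃ x : Flag T, x.t = t ∧ x.s = s := by
    intro s hs t ht hne hn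
    obtain ⟨c, h1, h2, h3, h4, h5, h6⟩ := edge_arc hEDGE hT hs ht hne hn
    have hm : c 0 ∈ s ∩ t := by rw [← h3]; exact ⟨0, h01, rfl⟩
    exact ⟨⟨c 0, t, s, h4, ht, hs, hne, hm.2, hm.1, hn⟩, rfl, rfl⟩
  have u0 : ∀ x y : Flag T, y.t = x.t → y.s = x.s → y = x ∨ y = s0 x := by
    intro x y ht hs
    obtain ⟨w, w1, w2, w3, w4, w5⟩ := hV x
    have hy := w5 y.v y.hv (by rw [← hs]; exact y.hvs) (by rw [← ht]; exact y.hvt)
    have hs0 := w5 (s0 x).v (s0 x).hv (by rw [← s0s x]; exact (s0 x).hvs)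
      (by rw [← s0t x]; exact (s0 x).hvt)
    rcases hy with hy | hy
    · left; exact Flag.ext hy ht hs
    · right
      rcases hs0 with h | h
      · exact absurd h (s0v x)
      · exact Flag.ext (by rw [hy, h]) (by rw [ht, s0t]) (by rw [hs, s0s])
  have u1 : ∀ x y : Flag T, y.v = x.v → y.t = x.t → y = x ∨ y = s1 x := by
    intro x y hv ht
    obtain ⟨w, w1, w2, w3, w4, w5, w6⟩ := hW x
    have hy := w6 y.s y.hs (by rw [← ht]; exact y.hne) (by rw [← hv]; exact y.hvs)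
      (by rw [← ht]; exact y.hadj)
    have hs1 := w6 (s1 x).s (s1 x).hs (by rw [← s1t x]; exact (s1 x).hne)
      (by rw [← s1v x]; exact (s1 x).hvs) (by
        have := (s1 x).hadj
        rw [s1t x] at this; exact this)
    rcases hy with hy | hy
    · left; exact Flag.ext hv ht hy
    · right
      rcases hs1 with h | h
      · exact absurd h (s1s x)
      · exact Flag.ext (by rw [hv, s1v]) (by rw [ht, s1t]) (by rw [hy, h])
  refine ⟨⟨e0, u0, e1, u1, ?_, ?_, ?_, ?_⟩, ⟨?_, ?_, ?_, ?_, ?_⟩⟩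
  · -- ext
    intro t ht
    obtain ⟨φ, hφ⟩ := hT.chart t ht
    have hf : φ 1 ∈ frontier t := by
      rw [(hFR φ t hφ).2.1]
      exact ⟨1, by simp, rfl⟩
    obtain ⟨s, hs, hne, hn, -⟩ := hBD T hT t ht _ hf
    obtain ⟨x, hx, -⟩ := hmk s hs t ht hne hn
    exact ⟨x, hx⟩
  · -- exv
    intro v hv t ht hvt
    obtain ⟨a, ha, b, hb, hab, hat, hbt, hva, hvb, hna, hnb, hall⟩ := hTWO T hT t ht v hv hvt
    exact ⟨⟨v, t, a, hv, ht, ha, hat, hvt, hva, hna⟩, rfl, rfl⟩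
  · exact hFINV T hT
  · intro v
    obtain ⟨N, hN⟩ := hCNT T hT 0
    refine (hN v).1.subset ?_
    rintro t ⟨ht, hvt⟩
    exact ⟨ht, v, hvt, by simp⟩
  · exact hNEV T hT
  · -- arc
    intro x
    obtain ⟨c, h1, h2, h3, h4, h5, h6⟩ := hE x
    refine ⟨c, h1, h2, h3, h4, ?_⟩
    have hm : c 1 ∈ x.s ∩ x.t := by rw [← h3]; exact ⟨1, h11, rfl⟩
    let y : Flag T := ⟨c 1, x.t, x.s, h5, x.ht, x.hs, x.hne, hm.2, hm.1, x.hadj⟩
    rcases u0 x y rfl rfl with h | h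
    · exfalso
      have h7 : c 1 = c 0 := by rw [h4]; exact congrArg Flag.v h
      have := h2 h11 h01 h7
      norm_num at this
    · exact congrArg Flag.v h
  · -- two
    intro x p hp hpv
    obtain ⟨c, h1, h2, h3, h4, h5, h6⟩ := hE x
    rw [← h3] at hp
    obtain ⟨τ, hτ, hc⟩ := hp
    have hτ' := mem_Ioo_of hτ hc (fun h => hpv (by rw [← h, h4]; exact x.hv))
      (fun h => hpv (by rw [← h]; exact h5))
    rw [← hc]
    exact (h6 τ hτ').1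
  · -- bd
    intro t ht p hp
    obtain ⟨s, hs, hne, hn, hps⟩ := hBD T hT t ht p hp
    obtain ⟨x, hx, hxs⟩ := hmk s hs t ht hne hn
    exact ⟨x, hx, by rw [hxs]; exact hps⟩
  · intro s hs t ht hne
    exact (hDISJ T hT s hs t ht hne).1

end H292.TL
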