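import Pool.Agent.H292.TL.FB

/-!
Project TL: no tile contains the whole boundary of another tile.
-/

set_option autoImplicit false
open scoped UpperHalfPlane Topology
open Set

namespace H292.TL

/-- the inverse of a continuous injective map on a compact set is continuous -/
theorem full_inv (φ : ℂ → ℍ) (D : Set ℂ) (hD : IsCompact D) (hc : ContinuousOn φ D)
    (hi : InjOn φ D) : ContinuousOn (Function.invFunOn φ D) (φ '' D) := by
  rw [continuousOn_iff_isClosed]
  intro C hC
  refine ⟨φ '' (C ∩ D), ?_, ?_⟩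
  · have h1 : IsCompact (C ∩ D) := hD.inter_left hC
    exact (h1.image_of_continuousOn (hc.mono inter_subset_right)).isClosed
  · have hl := hi.leftInvOn_invFunOn
    ext y
    constructor
    · rintro ⟨h1, z, hz, rfl⟩
      refine ⟨⟨z, ⟨?_, hz⟩, rfl⟩, ⟨z, hz, rfl⟩⟩
      have h2 : Function.invFunOn φ D (φ z) = z := hl hz
      have h3 : Function.invFunOn φ D (φ z) ∈ C := h1
      rwa [h2] at h3
    · rintro ⟨⟨z, ⟨hzC, hzD⟩, rfl⟩, h2⟩
      refine ⟨?_, h2⟩
      have h3 : Function.invFunOn φ D (φ z) = z := hl hzD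
      change Function.invFunOn φ D (φ z) ∈ C
      rwa [h3]

theorem full_ee_norm (θ : ℝ) : ‖ee θ‖ = 1 := by
  unfold ee
  exact Complex.norm_exp_ofReal_mul_I θ

theorem full_ee_mem (θ : ℝ) : ee θ ∈ Metric.sphere (0 : ℂ) 1 := by
  rw [mem_sphere_zero_iff_norm]
  exact full_ee_norm θ

theorem full_ee_cont : Continuous ee := by
  unfold ee
  exact Complex.continuous_exp.comp (Complex.continuous_ofReal.mul continuous_const)

theorem full_ee_surj (z : ℂ) (hz : z ∈ Metric.sphere (0 : ℂ) 1) : ∃ θ : ℝ, ee θ = z := by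
  rw [mem_sphere_zero_iff_norm] at hz
  refine ⟨Complex.arg z, ?_⟩
  have h := Complex.norm_mul_exp_arg_mul_I z
  rw [hz] at h
  unfold ee
  simpa using h

theorem full_ee_inj (a b : ℝ) (hab : |a - b| ≤ 2) (h : ee a = ee b) : a = b := by
  unfold ee at h
  rw [Complex.exp_eq_exp_iff_exists_int] at h
  obtain ⟨n, hn⟩ := h
  have h1 : (a : ℂ) = b + n * (2 * Real.pi) := by
    have h2 : (a : ℂ) * Complex.I = (b + n * (2 * Real.pi)) * Complex.I := by
      rw [hn]; ring
    exact mul_right_cancel₀ Complex.I_ne_zero h2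
  have h3 : a = b + n * (2 * Real.pi) := by exact_mod_cast h1
  have hpi := Real.pi_gt_three
  have hn0 : n = 0 := by
    by_contra hne
    have h4 : (1 : ℝ) ≤ |(n : ℝ)| := by
      have : (1 : ℤ) ≤ |n| := Int.one_le_abs hne
      exact_mod_cast this
    have h5 : |a - b| = |(n : ℝ)| * (2 * Real.pi) := by
      rw [h3]
      have : b + n * (2 * Real.pi) - b = n * (2 * Real.pi) := by ring
      rw [this, abs_mul, abs_of_pos (by positivity : (0 : ℝ) < 2 * Real.pi)]
    rw [h5] at hab
    nlinarith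
  rw [h3, hn0]
  simp

theorem full (hFR : S_FR) (hGLUE : S_GLUE) (hCINJ : S_CINJ) (hDISJ : S_DISJ) : S_FULL := by
  intro T hT s hs t ht hst hsub
  obtain ⟨φ, hφ⟩ := hT.chart s hs
  obtain ⟨ψ, hψ⟩ := hT.chart t ht
  obtain ⟨fis, ffs, fcs, fks⟩ := hFR φ s hφ
  obtain ⟨fit, fft, fct, fkt⟩ := hFR ψ t hψ
  have hd1 : s ∩ t ⊆ frontier t := (hDISJ T hT s hs t ht hst).1
  have hd2 : s ∩ t ⊆ frontier s := by
    have h := (hDISJ T hT t ht s hs hst.symm).1
    rwa [inter_comm] at h
  have hft : frontier t ⊆ t := fkt.isClosed.frontier_subset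
  have hfs : frontier s ⊆ s := fks.isClosed.frontier_subset
  have hts : frontier t ⊆ frontier s := fun p hp => hd2 ⟨hsub hp, hft hp⟩
  have hsph : Metric.sphere (0 : ℂ) 1 ⊆ Metric.closedBall 0 1 := Metric.sphere_subset_closedBall
  -- the map of the circle
  have hinv : ContinuousOn (Function.invFunOn φ (Metric.closedBall 0 1))
      (φ '' Metric.closedBall 0 1) :=
    full_inv φ _ (isCompact_closedBall 0 1) hφ.cont hφ.inj
  have hl := hφ.inj.leftInvOn_invFunOn
  have hmem : ∀ z ∈ Metric.sphere (0 : ℂ) 1, ∃ w ∈ Metric.sphere (0 : ℂ) 1, φ w = ψ z := by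
    intro z hz
    have h1 : ψ z ∈ frontier t := by rw [fft]; exact ⟨z, hz, rfl⟩
    have h2 := hts h1
    rw [ffs] at h2
    obtain ⟨w, hw, h3⟩ := h2
    exact ⟨w, hw, h3⟩
  have hval : ∀ z ∈ Metric.sphere (0 : ℂ) 1,
      Function.invFunOn φ (Metric.closedBall 0 1) (ψ z) ∈ Metric.sphere (0 : ℂ) 1 ∧
      φ (Function.invFunOn φ (Metric.closedBall 0 1) (ψ z)) = ψ z := by
    intro z hz
    obtain ⟨w, hw, h3⟩ := hmem z hz
    have h4 : Function.invFunOn φ (Metric.closedBall 0 1) (φ w) = w := hl (hsph hw)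
    rw [← h3, h4]
    exact ⟨hw, rfl⟩
  have hsur := hCINJ (fun z => Function.invFunOn φ (Metric.closedBall 0 1) (ψ z)) ?_ ?_ ?_
  rotate_left
  · refine hinv.comp (hψ.cont.mono hsph) ?_
    intro z hz
    obtain ⟨w, hw, h3⟩ := hmem z hz
    exact ⟨w, hsph hw, h3⟩
  · intro z hz z' hz' h
    have h1 : φ (Function.invFunOn φ (Metric.closedBall 0 1) (ψ z)) =
        φ (Function.invFunOn φ (Metric.closedBall 0 1) (ψ z')) := congrArg φ h
    rw [(hval z hz).2, (hval z' hz').2] at h1
    exact hψ.inj (hsph hz) (hsph hz') h1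
  · intro z hz
    exact (hval z hz).1
  have hst2 : frontier s ⊆ frontier t := by
    intro p hp
    rw [ffs] at hp
    obtain ⟨w, hw, rfl⟩ := hp
    rw [← hsur] at hw
    obtain ⟨z, hz, rfl⟩ := hw
    simp only
    rw [(hval z hz).2, fft]
    exact ⟨z, hz, rfl⟩
  -- the union is open
  have hopen : IsOpen (s ∪ t) := by
    rw [isOpen_iff_mem_nhds]
    have key : ∀ p ∈ frontier t, s ∪ t ∈ 𝓝 p := by
      intro p hp
      rw [fft] at hp
      obtain ⟨z, hz, rfl⟩ := hp
      obtain ⟨θ, rfl⟩ := full_ee_surj z hz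
      have h := hGLUE s t φ ψ hφ hψ hd2 hd1 (fun x => ψ (ee (θ - 1 + 2 * x))) ?_ ?_ ?_ (1 / 2)
        ⟨by norm_num, by norm_num⟩
      · have e : θ - 1 + 2 * (1 / 2) = θ := by ring
        rwa [e] at h
      · refine hψ.cont.comp ?_ ?_
        · refine Continuous.continuousOn ?_
          exact full_ee_cont.comp (continuous_const.add (continuous_const.mul continuous_id))
        · intro x _
          exact hsph (full_ee_mem _)
      · intro x hx y hy hxy
        have h1 : ee (θ - 1 + 2 * x) = ee (θ - 1 + 2 * y) :=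
          hψ.inj (hsph (full_ee_mem _)) (hsph (full_ee_mem _)) hxy
        have h2 : θ - 1 + 2 * x = θ - 1 + 2 * y := by
          refine full_ee_inj _ _ ?_ h1
          rw [abs_le]
          constructor
          · linarith [hx.1, hx.2, hy.1, hy.2]
          · linarith [hx.1, hx.2, hy.1, hy.2]
        linarith
      · intro x _
        have h1 : ψ (ee (θ - 1 + 2 * x)) ∈ frontier t := by
          rw [fft]; exact ⟨_, full_ee_mem _, rfl⟩
        exact ⟨hsub h1, hft h1⟩
    rintro p (hp | hp)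
    · by_cases h : p ∈ interior s
      · exact Filter.mem_of_superset (mem_interior_iff_mem_nhds.1 h) subset_union_left
      · exact key p (hst2 ⟨subset_closure hp, h⟩)
    · by_cases h : p ∈ interior t
      · exact Filter.mem_of_superset (mem_interior_iff_mem_nhds.1 h) subset_union_right
      · exact key p ⟨subset_closure hp, h⟩
  have hcomp : IsCompact (s ∪ t) := fks.union fkt
  have hclopen : IsClopen (s ∪ t) := ⟨hcomp.isClosed, hopen⟩
  have hne : (s ∪ t).Nonempty := by
    refine ⟨φ 0, Or.inl ?_⟩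
    rw [← hφ.img]
    exact ⟨0, by simp, rfl⟩
  have huniv : s ∪ t = univ := hclopen.eq_univ hne
  rw [huniv] at hcomp
  exact noncompact_univ ℍ hcomp

end H292.TL
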