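import Pool.Agent.H292.TL.FB

/-!
Project TL, task GLUE (helper127): two discs sharing a boundary arc cover a neighbourhood of the
interior points of the arc.
-/

set_option autoImplicit false
open scoped UpperHalfPlane Topology
open Set

namespace H292.TL

namespace Glue

/-- the inverse of a continuous injective map on a compact set -/
theorem inv_cont {f : ℂ → ℍ} {K : Set ℂ} (hK : IsCompact K) (hc : ContinuousOn f K)
    (hi : InjOn f K) : ContinuousOn (Function.invFunOn f K) (f '' K) := by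
  rw [continuousOn_iff_isClosed]
  intro C hC
  refine ⟨f '' (K ∩ C), ((hK.inter_right hC).image_of_continuousOn
    (hc.mono inter_subset_left)).isClosed, ?_⟩
  ext y
  constructor
  · rintro ⟨h1, x, hx, rfl⟩
    have h2 : Function.invFunOn f K (f x) = x := hi.leftInvOn_invFunOn hx
    rw [mem_preimage, h2] at h1
    exact ⟨⟨x, ⟨hx, h1⟩, rfl⟩, ⟨x, hx, rfl⟩⟩
  · rintro ⟨⟨x, ⟨hx, hxC⟩, rfl⟩, -⟩
    refine ⟨?_, x, hx, rfl⟩
    rw [mem_preimage, hi.leftInvOn_invFunOn hx]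
    exact hxC

/-- the image of an interior point of the disc is an interior point -/
theorem int_of_lt {φ : ℂ → ℍ} {s : Set ℍ} (h : Chart φ s) {ζ : ℂ} (hζ : ‖ζ‖ < 1) :
    φ ζ ∈ interior s := by
  have h1 : Metric.closedBall (0 : ℂ) 1 ∈ 𝓝 ζ :=
    Filter.mem_of_superset (Metric.isOpen_ball.mem_nhds (mem_ball_zero_iff.2 hζ))
      Metric.ball_subset_closedBall
  have h2 := iodCH φ h1 h.cont h.inj h1
  rw [h.img] at h2
  exact mem_interior_iff_mem_nhds.2 h2

/-- the lift of a path in the boundary to the circle -/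
theorem lift_path {φ : ℂ → ℍ} {s : Set ℍ} (h : Chart φ s) {c : ℝ → ℍ}
    (hc : ContinuousOn c (Icc 0 1)) (hcs : ∀ x ∈ Icc (0 : ℝ) 1, c x ∈ s ∧ c x ∈ frontier s) :
    ∃ z : ℝ → ℂ, ContinuousOn z (Icc 0 1) ∧ (∀ x ∈ Icc (0 : ℝ) 1, ‖z x‖ = 1) ∧
      ∀ x ∈ Icc (0 : ℝ) 1, φ (z x) = c x := by
  have hK : IsCompact (Metric.closedBall (0 : ℂ) 1) := isCompact_closedBall 0 1
  have hinv := inv_cont hK h.cont h.inj
  have hmem : ∀ x ∈ Icc (0 : ℝ) 1, c x ∈ φ '' Metric.closedBall 0 1 := by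
    intro x hx
    rw [h.img]
    exact (hcs x hx).1
  have hφ : ∀ x ∈ Icc (0 : ℝ) 1,
      φ (Function.invFunOn φ (Metric.closedBall 0 1) (c x)) = c x := fun x hx =>
    Function.invFunOn_eq (hmem x hx)
  refine ⟨fun x => Function.invFunOn φ (Metric.closedBall 0 1) (c x), hinv.comp hc hmem, ?_, hφ⟩
  intro x hx
  have h1 : Function.invFunOn φ (Metric.closedBall 0 1) (c x) ∈ Metric.closedBall (0 : ℂ) 1 :=
    Function.invFunOn_mem (hmem x hx)
  rw [mem_closedBall_zero_iff] at h1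
  by_contra hne
  have h2 := int_of_lt h (lt_of_le_of_ne h1 hne)
  rw [hφ x hx] at h2
  exact (hcs x hx).2.2 h2

theorem norm_sc {r : ℝ} (hr : 0 ≤ r) {z : ℂ} (hz : ‖z‖ = 1) : ‖(r : ℂ) * z‖ = r := by
  rw [norm_mul, hz, mul_one, Complex.norm_real, Real.norm_of_nonneg hr]

/-- the half rectangles -/
theorem half_cont {φ : ℂ → ℍ} {s : Set ℍ} (h : Chart φ s) {z : ℝ → ℂ} {e : ℝ}
    (hz : ContinuousOn z (Icc 0 1)) (hz1 : ∀ x ∈ Icc (0 : ℝ) 1, ‖z x‖ = 1) {Q : Set ℂ}
    (hQ : ∀ p ∈ Q, p.re ∈ Icc (0 : ℝ) 1 ∧ e * p.im ∈ Icc (0 : ℝ) 1) :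
    ContinuousOn (fun p : ℂ => φ (((1 - e * p.im / 2 : ℝ) : ℂ) * z p.re)) Q := by
  have h1 : ContinuousOn (fun p : ℂ => ((1 - e * p.im / 2 : ℝ) : ℂ) * z p.re) Q := by
    refine ContinuousOn.mul (Continuous.continuousOn (by fun_prop)) ?_
    exact hz.comp Complex.continuous_re.continuousOn (fun p hp => (hQ p hp).1)
  refine h.cont.comp h1 ?_
  intro p hp
  rw [mem_closedBall_zero_iff, norm_sc (by linarith [(hQ p hp).2.2]) (hz1 _ (hQ p hp).1)]
  linarith [(hQ p hp).2.1]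

end Glue

open Glue

/-- **Task GLUE.** -/
theorem glue : S_GLUE := by
  intro s t φ ψ hφ hψ hs ht c hc hci hcst x hx
  obtain ⟨w, w1, w2, w3⟩ := lift_path hφ hc (fun x hx => ⟨(hcst x hx).1, hs (hcst x hx)⟩)
  obtain ⟨z, z1, z2, z3⟩ := lift_path hψ hc (fun x hx => ⟨(hcst x hx).2, ht (hcst x hx)⟩)
  classical
  let G : ℂ → ℍ := fun p => if 0 ≤ p.im then ψ (((1 - p.im / 2 : ℝ) : ℂ) * z p.re)
    else φ (((1 + p.im / 2 : ℝ) : ℂ) * w p.re)
  let Qp : Set ℂ := {p | p.re ∈ Icc (0 : ℝ) 1 ∧ p.im ∈ Icc (0 : ℝ) 1}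
  let Qm : Set ℂ := {p | p.re ∈ Icc (0 : ℝ) 1 ∧ p.im ∈ Icc (-1 : ℝ) 0}
  have hQp : IsClosed Qp := (isClosed_Icc.preimage Complex.continuous_re).inter
    (isClosed_Icc.preimage Complex.continuous_im)
  have hQm : IsClosed Qm := (isClosed_Icc.preimage Complex.continuous_re).inter
    (isClosed_Icc.preimage Complex.continuous_im)
  have gp : ∀ p ∈ Qp, G p = ψ (((1 - 1 * p.im / 2 : ℝ) : ℂ) * z p.re) := by
    intro p hp
    simp only [G]
    rw [if_pos hp.2.1, one_mul]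
  have gm : ∀ p ∈ Qm, G p = φ (((1 - (-1) * p.im / 2 : ℝ) : ℂ) * w p.re) := by
    intro p hp
    simp only [G]
    have e1 : (1 - (-1) * p.im / 2 : ℝ) = 1 + p.im / 2 := by ring
    rw [e1]
    by_cases h0 : 0 ≤ p.im
    · have h1 : p.im = 0 := le_antisymm hp.2.2 h0
      rw [if_pos h0, h1]
      norm_num
      rw [z3 _ hp.1, w3 _ hp.1]
    · rw [if_neg h0]
  have cont : ContinuousOn G (Qp ∪ Qm) := by
    refine ContinuousOn.union_of_isClosed ?_ ?_ hQp hQm
    · refine (half_cont hψ (e := 1) z1 z2 (Q := Qp) ?_).congr gp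
      intro p hp
      rw [one_mul]
      exact hp
    · refine (half_cont hφ (e := -1) w1 w2 (Q := Qm) ?_).congr gm
      intro p hp
      refine ⟨hp.1, ?_, ?_⟩
      · linarith [hp.2.2]
      · linarith [hp.2.1]
  -- values
  have vp : ∀ p ∈ Qp ∪ Qm, 0 ≤ p.im → ‖((1 - p.im / 2 : ℝ) : ℂ) * z p.re‖ = 1 - p.im / 2 := by
    intro p hp h0
    rcases hp with hp | hp
    · exact norm_sc (by linarith [hp.2.2]) (z2 _ hp.1)
    · exact norm_sc (by linarith [hp.2.2]) (z2 _ hp.1)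
  have vm : ∀ p ∈ Qp ∪ Qm, p.im < 0 → ‖((1 + p.im / 2 : ℝ) : ℂ) * w p.re‖ = 1 + p.im / 2 := by
    intro p hp h0
    rcases hp with hp | hp
    · linarith [hp.2.1]
    · exact norm_sc (by linarith [hp.2.1]) (w2 _ hp.1)
  have re_mem : ∀ p ∈ Qp ∪ Qm, p.re ∈ Icc (0 : ℝ) 1 := by
    intro p hp
    rcases hp with hp | hp
    · exact hp.1
    · exact hp.1
  have Gt : ∀ p ∈ Qp ∪ Qm, 0 ≤ p.im → G p ∈ t := by
    intro p hp h0
    simp only [G]
    rw [if_pos h0, ← hψ.img]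
    exact mem_image_of_mem _ (mem_closedBall_zero_iff.2 (by rw [vp p hp h0]; linarith))
  have Gs : ∀ p ∈ Qp ∪ Qm, p.im < 0 → G p ∈ interior s := by
    intro p hp h0
    simp only [G]
    rw [if_neg (not_le.2 h0)]
    exact int_of_lt hφ (by rw [vm p hp h0]; linarith)
  have cross : ∀ p ∈ Qp ∪ Qm, ∀ p' ∈ Qp ∪ Qm, 0 ≤ p.im → p'.im < 0 → G p ≠ G p' := by
    intro p hp p' hp' h0 h0' he
    have h1 := Gt p hp h0
    have h2 := Gs p' hp' h0'
    rw [he] at h1
    exact (hs ⟨interior_subset h2, h1⟩).2 h2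
  have inj : InjOn G (Qp ∪ Qm) := by
    intro p hp p' hp' he
    rcases le_or_gt 0 p.im with h0 | h0 <;> rcases le_or_gt 0 p'.im with h0' | h0'
    · have e1 : ((1 - p.im / 2 : ℝ) : ℂ) * z p.re = ((1 - p'.im / 2 : ℝ) : ℂ) * z p'.re := by
        refine hψ.inj (mem_closedBall_zero_iff.2 (by rw [vp p hp h0]; linarith))
          (mem_closedBall_zero_iff.2 (by rw [vp p' hp' h0']; linarith)) ?_
        simp only [G] at he
        rwa [if_pos h0, if_pos h0'] at he
      have e2 := congrArg norm e1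
      rw [vp p hp h0, vp p' hp' h0'] at e2
      have e3 : p.im = p'.im := by linarith
      have e4 : ((1 - p'.im / 2 : ℝ) : ℂ) ≠ 0 := by
        intro h
        have h2 := vp p' hp' h0'
        rw [h, zero_mul, norm_zero] at h2
        rcases hp' with hp' | hp'
        · linarith [hp'.2.2]
        · linarith [hp'.2.2]
      rw [e3] at e1
      have e5 := mul_left_cancel₀ e4 e1
      have e6 : c p.re = c p'.re := by
        rw [← z3 _ (re_mem p hp), ← z3 _ (re_mem p' hp'), e5]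
      exact Complex.ext (hci (re_mem p hp) (re_mem p' hp') e6) e3
    · exact absurd he (cross p hp p' hp' h0 h0')
    · exact absurd he.symm (cross p' hp' p hp h0' h0)
    · have e1 : ((1 + p.im / 2 : ℝ) : ℂ) * w p.re = ((1 + p'.im / 2 : ℝ) : ℂ) * w p'.re := by
        refine hφ.inj (mem_closedBall_zero_iff.2 (by rw [vm p hp h0]; linarith))
          (mem_closedBall_zero_iff.2 (by rw [vm p' hp' h0']; linarith)) ?_
        simp only [G] at he
        rwa [if_neg (not_le.2 h0), if_neg (not_le.2 h0')] at he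
      have e2 := congrArg norm e1
      rw [vm p hp h0, vm p' hp' h0'] at e2
      have e3 : p.im = p'.im := by linarith
      have e4 : ((1 + p'.im / 2 : ℝ) : ℂ) ≠ 0 := by
        intro h
        have h2 := vm p' hp' h0'
        rw [h, zero_mul, norm_zero] at h2
        rcases hp' with hp' | hp'
        · linarith [hp'.2.1]
        · linarith [hp'.2.1]
      rw [e3] at e1
      have e5 := mul_left_cancel₀ e4 e1
      have e6 : c p.re = c p'.re := by
        rw [← w3 _ (re_mem p hp), ← w3 _ (re_mem p' hp'), e5]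
      exact Complex.ext (hci (re_mem p hp) (re_mem p' hp') e6) e3
  have nh : Qp ∪ Qm ∈ 𝓝 (x : ℂ) := by
    have h1 : {p : ℂ | p.re ∈ Ioo (0 : ℝ) 1 ∧ p.im ∈ Ioo (-1 : ℝ) 1} ∈ 𝓝 (x : ℂ) := by
      refine IsOpen.mem_nhds ((isOpen_Ioo.preimage Complex.continuous_re).inter
        (isOpen_Ioo.preimage Complex.continuous_im)) ?_
      refine ⟨?_, ?_⟩
      · rw [Complex.ofReal_re]
        exact hx
      · rw [Complex.ofReal_im]
        exact ⟨by norm_num, by norm_num⟩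
    refine Filter.mem_of_superset h1 ?_
    rintro p ⟨h2, h3⟩
    rcases le_total 0 p.im with h4 | h4
    · exact Or.inl ⟨⟨h2.1.le, h2.2.le⟩, h4, h3.2.le⟩
    · exact Or.inr ⟨⟨h2.1.le, h2.2.le⟩, h3.1.le, h4⟩
  have key := iodCH G nh cont inj nh
  have hGx : G (x : ℂ) = c x := by
    simp only [G]
    rw [Complex.ofReal_im, Complex.ofReal_re, if_pos le_rfl]
    norm_num
    exact z3 x ⟨hx.1.le, hx.2.le⟩
  rw [hGx] at key
  refine Filter.mem_of_superset key ?_
  rintro _ ⟨p, hp, rfl⟩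
  rcases le_or_gt 0 p.im with h0 | h0
  · exact Or.inr (Gt p hp h0)
  · exact Or.inl (interior_subset (Gs p hp h0))

end H292.TL
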