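import Pool.Agent.H292.TL.FB

/-!
Project TL: a function of finite energy that is not constant plus square summable (`S_HU`).
-/

set_option autoImplicit false
open scoped UpperHalfPlane Topology
open Set

namespace H292.TL

namespace HUAux

variable {T : Set (Set ℍ)}

/-- the function -/
noncomputable def uu (x : Flag T) : ℝ := max 0 (1 - ‖(x.v : ℂ)‖)

/-- data of the uniform bounds -/
structure Dt (T : Set (Set ℍ)) (r R : ℝ) (c₁ : Set ℍ → ℍ) : Prop where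
  hr : 0 < r
  ball : ∀ t ∈ T, Metric.ball (c₁ t) r ⊆ t
  diam : ∀ t ∈ T, ∀ p ∈ t, ∀ q ∈ t, dist p q ≤ 2 * R
  disj : ∀ s ∈ T, ∀ t ∈ T, s ≠ t → Disjoint (Metric.ball (c₁ s) r) (Metric.ball (c₁ t) r)

theorem exists_dt (hT : Nor T) : ∃ (r R : ℝ) (c₁ : Set ℍ → ℍ), Dt T r R c₁ := by
  obtain ⟨r, R, hr, hu⟩ := hT.unif
  choose! c₁ c₂ h1 h2 using hu
  refine ⟨r, R, c₁, hr, h1, fun t ht p hp q hq => ?_, fun s hs t ht hst => ?_⟩
  · have a1 : dist p (c₂ t) ≤ R := h2 t ht hp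
    have a2 : dist q (c₂ t) ≤ R := h2 t ht hq
    have a3 := dist_triangle_right p q (c₂ t)
    linarith
  · exact (hT.disj s hs t ht hst).mono (interior_maximal (h1 s hs) Metric.isOpen_ball)
      (interior_maximal (h1 t ht) Metric.isOpen_ball)

variable {r R : ℝ} {c₁ : Set ℍ → ℍ}

theorem Dt.mem (D : Dt T r R c₁) {t : Set ℍ} (ht : t ∈ T) : c₁ t ∈ t :=
  D.ball t ht (Metric.mem_ball_self D.hr)

theorem nsub_le (D : Dt T r R c₁) {t : Set ℍ} (ht : t ∈ T) {p : ℍ} (hp : p ∈ t) :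
    ‖(p : ℂ) - (c₁ t : ℂ)‖ ≤ (c₁ t).im * (Real.exp (2 * R) - 1) := by
  have h1 := UpperHalfPlane.dist_coe_le p (c₁ t)
  rw [dist_eq_norm] at h1
  refine h1.trans (mul_le_mul_of_nonneg_left ?_ (c₁ t).im_pos.le)
  have h2 := D.diam t ht p hp (c₁ t) (D.mem ht)
  have h3 := Real.exp_le_exp.2 h2
  linarith

/-- the energy of a flag -/
theorem uu_energy (D : Dt T r R c₁) (H : FS1 T) (x : Flag T) :
    (uu (s0 x) - uu x) ^ 2 ≤ (2 * (Real.exp (2 * R) - 1)) ^ 2 * (c₁ x.t).im ^ 2 := by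
  have h1 : |uu (s0 x) - uu x| ≤ ‖((s0 x).v : ℂ) - (x.v : ℂ)‖ := by
    have h2 : |uu (s0 x) - uu x| ≤ |(1 - ‖((s0 x).v : ℂ)‖) - (1 - ‖(x.v : ℂ)‖)| := by
      unfold uu
      rw [max_comm 0, max_comm 0]
      exact abs_max_sub_max_le_abs _ _ _
    refine h2.trans ?_
    have h3 : (1 - ‖((s0 x).v : ℂ)‖) - (1 - ‖(x.v : ℂ)‖) = ‖(x.v : ℂ)‖ - ‖((s0 x).v : ℂ)‖ := by
      ring
    rw [h3, norm_sub_rev ((s0 x).v : ℂ)]
    exact abs_norm_sub_norm_le _ _
  have hv : (s0 x).v ∈ x.t := by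
    have := (s0 x).hvt
    rwa [H.s0_t] at this
  have h2 := nsub_le D x.ht hv
  have h3 := nsub_le D x.ht x.hvt
  have h4 : ‖((s0 x).v : ℂ) - (x.v : ℂ)‖ ≤ 2 * (Real.exp (2 * R) - 1) * (c₁ x.t).im := by
    have h5 : ((s0 x).v : ℂ) - (x.v : ℂ) =
        (((s0 x).v : ℂ) - (c₁ x.t : ℂ)) - ((x.v : ℂ) - (c₁ x.t : ℂ)) := by ring
    rw [h5]
    refine (norm_sub_le _ _).trans ?_
    linarith
  have h6 := h1.trans h4
  rw [← sq_abs, ← mul_pow]
  exact pow_le_pow_left₀ (abs_nonneg _) h6 2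

theorem uu_zero (H : FS1 T) {x : Flag T} (h : ∀ p ∈ x.t, 1 ≤ ‖(p : ℂ)‖) :
    uu (s0 x) - uu x = 0 := by
  have hv : (s0 x).v ∈ x.t := by
    have := (s0 x).hvt
    rwa [H.s0_t] at this
  unfold uu
  rw [max_eq_left (by linarith [h _ hv]), max_eq_left (by linarith [h _ x.hvt]), sub_self]

/-- number of flags of a tile -/
theorem card_flags (H : FS1 T) {N : ℕ} (hN : ∀ t ∈ T, nn T t ≤ N) {t : Set ℍ} (ht : t ∈ T)
    (S : Finset (Flag T)) (hS : ∀ x ∈ S, x.t = t) : S.card ≤ 2 * N := by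
  classical
  have hfin := H.fint t ht
  have h1 : S.card ≤ 2 * (hfin.toFinset).card := by
    refine Finset.card_le_mul_card_image_of_maps_to (f := fun x : Flag T => x.v) ?_ 2 ?_
    · intro x hx
      rw [Set.Finite.mem_toFinset]
      exact ⟨x.hv, by rw [← hS x hx]; exact x.hvt⟩
    · intro v _
      by_cases hne : (S.filter fun x => x.v = v).Nonempty
      · obtain ⟨x, hx⟩ := hne
        rw [Finset.mem_filter] at hx
        have hsub : (S.filter fun y => y.v = v) ⊆ {x, s1 x} := by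
          intro y hy
          rw [Finset.mem_filter] at hy
          rw [Finset.mem_insert, Finset.mem_singleton]
          exact H.u1 x y (by rw [hy.2, hx.2]) (by rw [hS y hy.1, hS x hx.1])
        exact (Finset.card_le_card hsub).trans Finset.card_le_two
      · rw [Finset.not_nonempty_iff_eq_empty] at hne
        rw [hne]
        simp
  have h2 : hfin.toFinset.card = nn T t := by
    unfold nn
    rw [Set.ncard_eq_toFinset_card _ hfin]
  rw [h2] at h1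
  exact h1.trans (Nat.mul_le_mul_left 2 (hN t ht))

/-- areas -/
theorem area (D : Dt T r R c₁) (S : Finset (Set ℍ)) (hS : ∀ t ∈ S, t ∈ T ∧ ∃ p : ℍ, p ∈ t ∧ ‖(p : ℂ)‖ < 1) :
    ∑ t ∈ S, ((c₁ t).im * Real.sinh r) ^ 2 ≤ (Real.exp (r + 2 * R)) ^ 2 := by
  classical
  have hsinh : 0 < Real.sinh r := Real.sinh_pos_iff.2 D.hr
  -- the euclidean balls
  have himg : ∀ t, ((↑) : ℍ → ℂ) '' Metric.ball (c₁ t) r =
      Metric.ball (((c₁ t).center r : ℍ) : ℂ) ((c₁ t).im * Real.sinh r) := fun t =>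
    UpperHalfPlane.image_coe_ball (c₁ t) r
  have hdisj : ∀ s ∈ S, ∀ t ∈ S, s ≠ t →
      Disjoint (((↑) : ℍ → ℂ) '' Metric.ball (c₁ s) r) (((↑) : ℍ → ℂ) '' Metric.ball (c₁ t) r) :=
    fun s hs t ht hst => (Set.disjoint_image_iff UpperHalfPlane.coe_injective).2
      (D.disj s (hS s hs).1 t (hS t ht).1 hst)
  have hsub : (⋃ t ∈ S, ((↑) : ℍ → ℂ) '' Metric.ball (c₁ t) r) ⊆
      Metric.ball (0 : ℂ) (Real.exp (r + 2 * R)) := by
    intro w hw
    simp only [mem_iUnion] at hw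
    obtain ⟨t, ht, q, hq, rfl⟩ := hw
    obtain ⟨htT, p, hp, hp1⟩ := hS t ht
    have h1 : dist q p < r + 2 * R := by
      have h2 : dist q (c₁ t) < r := hq
      have h3 := D.diam t htT (c₁ t) (D.mem htT) p hp
      have h4 := dist_triangle q (c₁ t) p
      linarith
    have h2 := UpperHalfPlane.dist_coe_le q p
    have h3 : p.im ≤ ‖(p : ℂ)‖ := by
      have := Complex.abs_im_le_norm (p : ℂ)
      have h4 : (p : ℂ).im = p.im := rfl
      rw [h4, abs_of_pos p.im_pos] at this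
      exact this
    have h4 : p.im * (Real.exp (dist q p) - 1) ≤ 1 * (Real.exp (dist q p) - 1) := by
      refine mul_le_mul_of_nonneg_right (by linarith) ?_
      have := Real.one_le_exp (dist_nonneg (x := q) (y := p))
      linarith
    have h5 : Real.exp (dist q p) < Real.exp (r + 2 * R) := Real.exp_lt_exp.2 h1
    rw [dist_eq_norm] at h2
    rw [Metric.mem_ball, dist_zero_right]
    have h6 : (q : ℂ) = ((q : ℂ) - p) + p := by ring
    have h7 : ‖(q : ℂ)‖ ≤ ‖(q : ℂ) - p‖ + ‖(p : ℂ)‖ := by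
      calc ‖(q : ℂ)‖ = ‖((q : ℂ) - p) + p‖ := by rw [← h6]
        _ ≤ _ := norm_add_le _ _
    linarith
  have hmeas : MeasureTheory.volume (⋃ t ∈ S, ((↑) : ℍ → ℂ) '' Metric.ball (c₁ t) r) =
      ∑ t ∈ S, MeasureTheory.volume (((↑) : ℍ → ℂ) '' Metric.ball (c₁ t) r) := by
    refine MeasureTheory.measure_biUnion_finset (fun s hs t ht hst => hdisj s hs t ht hst) ?_
    intro t _
    rw [himg]
    exact measurableSet_ball
  have h1 := MeasureTheory.measure_mono (μ := MeasureTheory.volume) hsub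
  rw [hmeas] at h1
  simp only [himg, Complex.volume_ball] at h1
  have hpi : ((NNReal.pi : NNReal) : ENNReal) ≠ 0 := by
    simp [NNReal.pi_ne_zero]
  rw [← Finset.sum_mul] at h1
  have h2 := (ENNReal.mul_le_mul_iff_left hpi ENNReal.coe_ne_top).1 h1
  have h3 : ∑ t ∈ S, ENNReal.ofReal ((c₁ t).im * Real.sinh r) ^ 2 =
      ENNReal.ofReal (∑ t ∈ S, ((c₁ t).im * Real.sinh r) ^ 2) := by
    rw [ENNReal.ofReal_sum_of_nonneg fun t _ => sq_nonneg _]
    refine Finset.sum_congr rfl fun t _ => ?_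
    rw [ENNReal.ofReal_pow (mul_nonneg (c₁ t).im_pos.le hsinh.le)]
  rw [h3, ← ENNReal.ofReal_pow (Real.exp_pos _).le] at h2
  exact (ENNReal.ofReal_le_ofReal_iff (by positivity)).1 h2

/-- the energy is finite -/
theorem summable_energy (D : Dt T r R c₁) (H : FS1 T) {N : ℕ} (hN : ∀ t ∈ T, nn T t ≤ N) :
    Summable (fun x : Flag T => (uu (s0 x) - uu x) ^ 2) := by
  classical
  have hsinh : 0 < Real.sinh r := Real.sinh_pos_iff.2 D.hr
  obtain ⟨K, hK⟩ : ∃ K, K = (2 * (Real.exp (2 * R) - 1)) ^ 2 := ⟨_, rfl⟩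
  have hK0 : 0 ≤ K := by rw [hK]; positivity
  refine summable_of_sum_le (c := K * (2 * N) * ((Real.exp (r + 2 * R)) ^ 2 / Real.sinh r ^ 2))
    (fun x => sq_nonneg _) fun S => ?_
  obtain ⟨a, ha⟩ : ∃ a : Set ℍ → ℝ, a = fun t => if ∃ p : ℍ, p ∈ t ∧ ‖(p : ℂ)‖ < 1 then
    K * (c₁ t).im ^ 2 else 0 := ⟨_, rfl⟩
  have h1 : ∀ x : Flag T, (uu (s0 x) - uu x) ^ 2 ≤ a x.t := by
    intro x
    rw [ha]
    show _ ≤ ite _ _ _
    split_ifs with h
    · rw [hK]
      exact uu_energy D H x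
    · push Not at h
      rw [uu_zero H h]
      norm_num
  have ha0 : ∀ t, 0 ≤ a t := by
    intro t
    rw [ha]
    show 0 ≤ ite _ _ _
    split_ifs
    · positivity
    · exact le_rfl
  calc ∑ x ∈ S, (uu (s0 x) - uu x) ^ 2 ≤ ∑ x ∈ S, a x.t := Finset.sum_le_sum fun x _ => h1 x
    _ = ∑ t ∈ S.image (fun x => x.t), (S.filter fun x => x.t = t).card • a t :=
        Finset.sum_comp _ _
    _ ≤ ∑ t ∈ S.image (fun x => x.t), (2 * N) * a t := by
        refine Finset.sum_le_sum fun t ht => ?_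
        rw [nsmul_eq_mul]
        refine mul_le_mul_of_nonneg_right ?_ (ha0 t)
        obtain ⟨x, hx, rfl⟩ := Finset.mem_image.1 ht
        have := card_flags H hN x.ht (S.filter fun y => y.t = x.t)
          (fun y hy => (Finset.mem_filter.1 hy).2)
        exact_mod_cast this
    _ = (2 * N) * ∑ t ∈ (S.image (fun x => x.t)).filter (fun t : Set ℍ => ∃ p : ℍ, p ∈ t ∧ ‖(p : ℂ)‖ < 1),
          K * (c₁ t).im ^ 2 := by
        rw [← Finset.mul_sum, Finset.sum_filter]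
        congr 1
        refine Finset.sum_congr rfl fun t _ => ?_
        rw [ha]
    _ ≤ (2 * N) * (K * ((Real.exp (r + 2 * R)) ^ 2 / Real.sinh r ^ 2)) := by
        refine mul_le_mul_of_nonneg_left ?_ (by positivity)
        rw [← Finset.mul_sum]
        refine mul_le_mul_of_nonneg_left ?_ hK0
        rw [le_div_iff₀ (by positivity), Finset.sum_mul]
        refine le_trans (le_of_eq ?_) (area D ((S.image (fun x => x.t)).filter
          (fun t : Set ℍ => ∃ p : ℍ, p ∈ t ∧ ‖(p : ℂ)‖ < 1)) ?_)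
        · refine Finset.sum_congr rfl fun t _ => ?_
          ring
        · intro t ht
          obtain ⟨ht1, ht2⟩ := Finset.mem_filter.1 ht
          obtain ⟨x, -, rfl⟩ := Finset.mem_image.1 ht1
          exact ⟨x.ht, ht2⟩
    _ = K * (2 * N) * ((Real.exp (r + 2 * R)) ^ 2 / Real.sinh r ^ 2) := by ring

/-- flags near the points `i y` -/
theorem near (hT : Nor T) (D : Dt T r R c₁) (H : FS1 T) {y : ℝ} (hy : 0 < y) :
    ∃ x : Flag T, x.v.im ≤ y * Real.exp (2 * R) ∧ y ≤ x.v.im * Real.exp (2 * R) ∧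
      ‖(x.v : ℂ)‖ ≤ y * Real.exp (2 * R) := by
  obtain ⟨z, hz⟩ : ∃ z : ℍ, (z : ℂ) = (y : ℂ) * Complex.I :=
    ⟨⟨(y : ℂ) * Complex.I, by simpa using hy⟩, rfl⟩
  have hzim : z.im = y := by
    have h : (z : ℂ).im = y := by rw [hz]; simp
    exact h
  have hzn : ‖(z : ℂ)‖ = y := by
    rw [hz, norm_mul, Complex.norm_I, mul_one, Complex.norm_real, Real.norm_of_nonneg hy.le]
  obtain ⟨t, ht, hzt⟩ := hT.cover z
  obtain ⟨x, rfl⟩ := H.ext t ht
  have hd := D.diam _ ht x.v x.hvt z hzt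
  have he : Real.exp (dist x.v z) ≤ Real.exp (2 * R) := Real.exp_le_exp.2 hd
  refine ⟨x, ?_, ?_, ?_⟩
  · have h1 := UpperHalfPlane.im_le_im_mul_exp_dist x.v z
    rw [hzim] at h1
    exact h1.trans (mul_le_mul_of_nonneg_left he hy.le)
  · have h1 := UpperHalfPlane.im_le_im_mul_exp_dist z x.v
    rw [hzim, dist_comm] at h1
    exact h1.trans (mul_le_mul_of_nonneg_left he x.v.im_pos.le)
  · have h1 := UpperHalfPlane.dist_coe_le x.v z
    rw [hzim, dist_eq_norm] at h1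
    have h2 : (x.v : ℂ) = ((x.v : ℂ) - z) + z := by ring
    have h3 : ‖(x.v : ℂ)‖ ≤ ‖(x.v : ℂ) - z‖ + ‖(z : ℂ)‖ := by
      calc ‖(x.v : ℂ)‖ = ‖((x.v : ℂ) - z) + z‖ := by rw [← h2]
        _ ≤ _ := norm_add_le _ _
    rw [hzn] at h3
    have h4 := mul_le_mul_of_nonneg_left he hy.le
    linarith

theorem inf_small (hT : Nor T) (D : Dt T r R c₁) (H : FS1 T) :
    {x : Flag T | ‖(x.v : ℂ)‖ ≤ 1 / 2}.Infinite := by
  intro hfin
  have hE : 0 < Real.exp (2 * R) := Real.exp_pos _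
  obtain ⟨m, hm0, hm⟩ : ∃ m : ℝ, 0 < m ∧ ∀ x ∈ {x : Flag T | ‖(x.v : ℂ)‖ ≤ 1 / 2}, m ≤ x.v.im := by
    rcases Set.eq_empty_or_nonempty {x : Flag T | ‖(x.v : ℂ)‖ ≤ 1 / 2} with h | h
    · exact ⟨1, one_pos, fun x hx => by rw [h] at hx; exact absurd hx (notMem_empty x)⟩
    · obtain ⟨x₀, _, hmin⟩ := Set.exists_min_image _ (fun x : Flag T => x.v.im) hfin h
      exact ⟨x₀.v.im, x₀.v.im_pos, hmin⟩
  obtain ⟨y, hy0, hy1, hy2⟩ : ∃ y : ℝ, 0 < y ∧ y * Real.exp (2 * R) ≤ 1 / 2 ∧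
      y * Real.exp (2 * R) < m := by
    refine ⟨min (1 / 2) (m / 2) / Real.exp (2 * R), by positivity, ?_, ?_⟩
    · rw [div_mul_cancel₀ _ hE.ne']
      exact min_le_left _ _
    · rw [div_mul_cancel₀ _ hE.ne']
      exact (min_le_right _ _).trans_lt (by linarith)
  obtain ⟨x, h1, -, h3⟩ := near hT D H hy0
  have := hm x (h3.trans hy1)
  linarith

theorem inf_large (hT : Nor T) (D : Dt T r R c₁) (H : FS1 T) :
    {x : Flag T | 1 < ‖(x.v : ℂ)‖}.Infinite := by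
  intro hfin
  have hE : 0 < Real.exp (2 * R) := Real.exp_pos _
  obtain ⟨m, hm0, hm⟩ : ∃ m : ℝ, 0 < m ∧ ∀ x ∈ {x : Flag T | 1 < ‖(x.v : ℂ)‖}, x.v.im ≤ m := by
    rcases Set.eq_empty_or_nonempty {x : Flag T | 1 < ‖(x.v : ℂ)‖} with h | h
    · exact ⟨1, one_pos, fun x hx => by rw [h] at hx; exact absurd hx (notMem_empty x)⟩
    · obtain ⟨x₀, _, hmax⟩ := Set.exists_max_image _ (fun x : Flag T => x.v.im) hfin h
      exact ⟨x₀.v.im, x₀.v.im_pos, hmax⟩
  obtain ⟨x, -, h2, -⟩ := near hT D H (y := (m + 1 + 1) * Real.exp (2 * R)) (by positivity)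
  have h3 : m + 1 + 1 ≤ x.v.im := le_of_mul_le_mul_right h2 hE
  have h4 : x.v.im ≤ ‖(x.v : ℂ)‖ := by
    have := Complex.abs_im_le_norm (x.v : ℂ)
    have h5 : (x.v : ℂ).im = x.v.im := rfl
    rw [h5, abs_of_pos x.v.im_pos] at this
    exact this
  have := hm x (show 1 < ‖(x.v : ℂ)‖ by linarith)
  linarith

end HUAux

open HUAux in
theorem hu (hB : S_BDD) : S_HU := by
  intro T hT hF hE
  have H := hF.toFS1
  obtain ⟨r, R, c₁, D⟩ := exists_dt hT
  obtain ⟨N, hN, -⟩ := hB T hT hF hE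
  refine ⟨uu, fun x => ?_, fun x => rfl, summable_energy D H hN, fun c hc => ?_⟩
  · unfold uu
    rw [H.s1_v]
  · have h1 := hc.tendsto_cofinite_zero
    have h2 : ∀ᶠ x : Flag T in Filter.cofinite, (uu x - c) ^ 2 < 1 / 16 :=
      h1.eventually (gt_mem_nhds (by norm_num))
    rw [Filter.eventually_cofinite] at h2
    by_cases hc4 : 1 / 4 ≤ c
    · refine inf_large hT D H (h2.subset fun x hx => ?_)
      have hx1 : 1 < ‖(x.v : ℂ)‖ := hx
      have h3 : uu x = 0 := by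
        unfold uu
        exact max_eq_left (by linarith)
      show ¬ (uu x - c) ^ 2 < 1 / 16
      rw [h3]
      nlinarith
    · refine inf_small hT D H (h2.subset fun x hx => ?_)
      have hx1 : ‖(x.v : ℂ)‖ ≤ 1 / 2 := hx
      have h3 : 1 / 2 ≤ uu x := by
        unfold uu
        exact le_max_of_le_right (by linarith)
      show ¬ (uu x - c) ^ 2 < 1 / 16
      nlinarith

end H292.TL
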