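import Pool.Agent.H292.TL.FB

/-!
Project TL, task HYP: hyperbolicity of the combinatorial type (helper264).
-/

set_option autoImplicit false
open scoped UpperHalfPlane Topology
open Set

namespace H292.TL

namespace HYPL

variable {T : Set (Set ℍ)}

/-- sums over the flags at a vertex -/
theorem sum_flags (hVE : S_VENUM) (H : FS T) (x : Flag T) (f : Flag T → ℝ)
    (hf : ∀ y, f (s1 y) = f y) :
    (∑ᶠ (y : Flag T) (_ : Rch s1 s2 x y), f y) =
      ∑ i ∈ Finset.range (dg T x.v), 2 * f (uv^[i] x) := by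
  classical
  obtain ⟨-, hinj, hsurj⟩ := hVE T H x
  set k := dg T x.v with hk
  set F1 : Finset (Flag T) := (Finset.range k).image (fun i => uv^[i] x) with hF1
  set F2 : Finset (Flag T) := (Finset.range k).image (fun i => s1 (uv^[i] x)) with hF2
  have hset : {y | Rch s1 s2 x y} = ((F1 ∪ F2 : Finset (Flag T)) : Set (Flag T)) := by
    ext y
    rw [mem_ofPred_eq, Rch_v_iff H, Finset.mem_coe, Finset.mem_union, hF1, hF2, Finset.mem_image,
      Finset.mem_image]
    constructor
    · intro h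
      obtain ⟨i, hi, h1 | h1⟩ := hsurj y h
      · exact Or.inl ⟨i, Finset.mem_range.2 hi, h1.symm⟩
      · exact Or.inr ⟨i, Finset.mem_range.2 hi, h1.symm⟩
    · rintro (⟨i, _, rfl⟩ | ⟨i, _, rfl⟩)
      · exact H.toFS1.uv_iter_v x i
      · rw [H.toFS1.s1_v]
        exact H.toFS1.uv_iter_v x i
  have h1 : (∑ᶠ (y : Flag T) (_ : Rch s1 s2 x y), f y) =
      ∑ᶠ (y : Flag T) (_ : y ∈ {y | Rch s1 s2 x y}), f y := rfl
  rw [h1, hset, finsum_mem_coe_finset]
  have hdis : Disjoint F1 F2 := by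
    rw [Finset.disjoint_left]
    intro y hy1 hy2
    rw [hF1, Finset.mem_image] at hy1
    rw [hF2, Finset.mem_image] at hy2
    obtain ⟨i, hi, rfl⟩ := hy1
    obtain ⟨j, hj, hji⟩ := hy2
    have h2 : (uv^[j] x).t = (uv^[i] x).t := by
      rw [← hji, H.toFS1.s1_t]
    have h3 := hinj j (Finset.mem_range.1 hj) i (Finset.mem_range.1 hi) h2
    rw [h3] at hji
    exact H.toFS1.s1_ne _ hji
  rw [Finset.sum_union hdis, hF1, hF2, Finset.sum_image, Finset.sum_image,
    ← Finset.sum_add_distrib]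
  · refine Finset.sum_congr rfl fun i _ => ?_
    rw [hf]
    ring
  · intro i hi j hj hij
    refine hinj i (Finset.mem_range.1 hi) j (Finset.mem_range.1 hj) ?_
    have h2 := congrArg Flag.t hij
    simp only [H.toFS1.s1_t] at h2
    exact h2
  · intro i hi j hj hij
    exact hinj i (Finset.mem_range.1 hi) j (Finset.mem_range.1 hj) (congrArg Flag.t hij)

end HYPL

open HYPL in
theorem hyp (hAF : S_AF) (hPV : S_PV) (hPF : S_PF) (hHU : S_HU) (hL2 : S_L2)
    (hVE : S_VENUM) : S_HYP := by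
  intro T hN H hE hT x
  obtain ⟨ε, hA⟩ := hAF T hN H hE hT x
  have h1 := hL2 (Flag T) s0 s1 s2 (dg T x.v) (fun y => nn T y.t) ε hA (hPV T hN H hE)
    (hPF T hN H hE) (hHU T hN H hE) x
  rw [sum_flags hVE H x (fun y => 1 / (2 * (nn T y.t : ℝ))) (fun y => by
    simp only [H.toFS1.s1_t])] at h1
  rw [Finset.sum_sub_distrib, Finset.sum_const, Finset.card_range, nsmul_eq_mul, mul_one]
  have h2 : ∑ i ∈ Finset.range (dg T x.v), 2 / (nn T (uv^[i] x).t : ℝ) =
      2 * ∑ i ∈ Finset.range (dg T x.v), 2 * (1 / (2 * (nn T (uv^[i] x).t : ℝ))) := by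
    rw [Finset.mul_sum]
    refine Finset.sum_congr rfl fun i _ => ?_
    rw [one_div, mul_inv]
    ring
  rw [h2]
  linarith

end H292.TL

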