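import Pool.Agent.H292.TL.FB

/-!
Project TL: automorphisms of the tiling are realized by isometries (ISO).
-/

set_option autoImplicit false
open scoped UpperHalfPlane Topology
open Set

namespace H292.TL

theorem iso (hAUT : S_AUT) : S_ISO := by
  intro T hT H E l hl g hg F hF h hh
  obtain ⟨γ, hγ, c0, c1, c2, hnn, -⟩ := hAUT T H h hh
  obtain ⟨t₀, ht₀, -⟩ := hT.cover UpperHalfPlane.I
  obtain ⟨x₀, -⟩ := H.ext t₀ ht₀
  have key : ∀ x : Flag T, g (γ x) = g (γ x₀) * (g x₀)⁻¹ * g x := by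
    intro x
    refine Flag.ind3 H (P := fun x => g (γ x) = g (γ x₀) * (g x₀)⁻¹ * g x) x₀ ?_ ?_ ?_ ?_ x
    · rw [mul_assoc, inv_mul_cancel, mul_one]
    · intro y hy
      rw [c0, (hg (γ y)).1, (hg y).1, hy, mul_assoc]
    · intro y hy
      rw [c1, (hg (γ y)).2.1, (hg y).2.1, hy, hnn, mul_assoc]
    · intro y hy
      rw [c2, (hg (γ y)).2.2, (hg y).2.2, hy, mul_assoc]
  refine ⟨g (γ x₀) * (g x₀)⁻¹, ?_, ?_⟩
  · intro v hv
    have hv' := hv
    obtain ⟨a, ha, _, _, _, _, _, _, _, hva, _, _⟩ := hv'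
    obtain ⟨x, hxv, -⟩ := H.exv v hv a ha hva
    rw [← hxv, ← (hγ x).1, hF.vert, hF.vert, key x]
    rfl
  · intro t ht
    obtain ⟨x, hx⟩ := H.ext t ht
    rw [← hx, ← (hγ x).2.1, hF.tile, hF.tile, key x, hnn, image_image]
    rfl

end H292.TL
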