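import Pool.Agent.H292.TL.FB

/-!
Project TL (owner helper292), task KLF: formulas for the isometries in the Klein model
(by helper671).
-/

set_option autoImplicit false
open scoped UpperHalfPlane Topology MatrixGroups
open Set

namespace H292.TL

namespace KLF

theorem sl_coe (g : SL(2, ℝ)) (z : ℍ) : ((g • z : ℍ) : ℂ) =
    (((g 0 0 : ℝ) : ℂ) * z + ((g 0 1 : ℝ) : ℂ)) / (((g 1 0 : ℝ) : ℂ) * z + ((g 1 1 : ℝ) : ℂ)) := by
  rw [UpperHalfPlane.specialLinearGroup_apply]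
  rfl

theorem kl_eq (z : ℍ) : kl z = ((z : ℂ) - Complex.I) * ((starRingEnd ℂ) (z : ℂ) - Complex.I) /
    ((z : ℂ) * (starRingEnd ℂ) (z : ℂ) + 1) := by
  unfold kl
  have h1 : (z : ℂ) * (starRingEnd ℂ) (z : ℂ) = ((Complex.normSq (z : ℂ) : ℝ) : ℂ) :=
    Complex.mul_conj _
  have h2 : (z : ℂ) + (starRingEnd ℂ) (z : ℂ) = ((2 * z.re : ℝ) : ℂ) := by
    rw [Complex.add_conj]; rfl
  have h3 : ((z : ℂ) - Complex.I) * ((starRingEnd ℂ) (z : ℂ) - Complex.I) =
      ((Complex.normSq (z : ℂ) - 1 : ℝ) : ℂ) - ((2 * z.re : ℝ) : ℂ) * Complex.I := by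
    rw [← h2]
    push_cast
    rw [← h1]
    linear_combination Complex.I_sq
  rw [h3, h1]
  push_cast
  rfl

theorem prod_pos (z : ℍ) : (z : ℂ) * (starRingEnd ℂ) (z : ℂ) + 1 ≠ 0 := by
  rw [Complex.mul_conj]
  have h : (0 : ℝ) < Complex.normSq (z : ℂ) + 1 := by
    have := Complex.normSq_nonneg (z : ℂ)
    linarith
  exact_mod_cast h.ne'

/-- algebraic form of the rotation -/
theorem rot_alg {A B c s : ℂ} (hD : -s * A + c ≠ 0) (hE : -s * B + c ≠ 0)
    (hcs : c ^ 2 + s ^ 2 = 1) :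
    ((c * A + s) / (-s * A + c) - Complex.I) * ((c * B + s) / (-s * B + c) - Complex.I) /
      ((c * A + s) / (-s * A + c) * ((c * B + s) / (-s * B + c)) + 1) =
    (c + s * Complex.I) ^ 2 * ((A - Complex.I) * (B - Complex.I) / (A * B + 1)) := by
  have h1 : (c * A + s) / (-s * A + c) - Complex.I =
      (c + s * Complex.I) * (A - Complex.I) / (-s * A + c) := by
    rw [eq_div_iff hD, sub_mul, div_mul_cancel₀ _ hD]
    linear_combination s * Complex.I_sq
  have h2 : (c * B + s) / (-s * B + c) - Complex.I =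
      (c + s * Complex.I) * (B - Complex.I) / (-s * B + c) := by
    rw [eq_div_iff hE, sub_mul, div_mul_cancel₀ _ hE]
    linear_combination s * Complex.I_sq
  have h3 : (c * A + s) / (-s * A + c) * ((c * B + s) / (-s * B + c)) + 1 =
      (A * B + 1) / ((-s * A + c) * (-s * B + c)) := by
    rw [div_mul_div_comm, div_add_one (mul_ne_zero hD hE)]
    congr 1
    linear_combination (A * B + 1) * hcs
  have hDE : (-s * A + c) * (-s * B + c) ≠ 0 := mul_ne_zero hD hE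
  rw [h1, h2, h3, div_mul_div_comm, div_div_div_cancel_right₀ hDE]
  ring

theorem re_div (a b c : ℝ) : (((a : ℝ) : ℂ) + ((b : ℝ) : ℂ) * Complex.I) / ((c : ℝ) : ℂ) =
    ((a / c : ℝ) : ℂ) + ((b / c : ℝ) : ℂ) * Complex.I := by
  push_cast
  ring

theorem kl_form (z : ℍ) : kl z = (((Complex.normSq (z : ℂ) - 1) / (Complex.normSq (z : ℂ) + 1) : ℝ) : ℂ) +
    ((-(2 * z.re) / (Complex.normSq (z : ℂ) + 1) : ℝ) : ℂ) * Complex.I := by
  rw [← re_div]
  unfold kl
  push_cast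
  ring

theorem kl_re (z : ℍ) : (kl z).re = (Complex.normSq (z : ℂ) - 1) / (Complex.normSq (z : ℂ) + 1) := by
  rw [kl_form, Complex.add_re, Complex.ofReal_re, Complex.re_ofReal_mul, Complex.I_re, mul_zero,
    add_zero]

theorem kl_im (z : ℍ) : (kl z).im = -(2 * z.re) / (Complex.normSq (z : ℂ) + 1) := by
  rw [kl_form, Complex.add_im, Complex.ofReal_im, Complex.im_ofReal_mul, Complex.I_im, mul_one,
    zero_add]

theorem tr_coe (ρ : ℝ) (z : ℍ) : ((tr ρ z : ℍ) : ℂ) = ((Real.exp ρ : ℝ) : ℂ) * z := by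
  have h := sl_coe (trM ρ) z
  have e1 : (trM ρ) 0 0 = Real.exp (ρ / 2) := rfl
  have e2 : (trM ρ) 0 1 = 0 := rfl
  have e3 : (trM ρ) 1 0 = 0 := rfl
  have e4 : (trM ρ) 1 1 = Real.exp (-(ρ / 2)) := rfl
  have e5 : ((tr ρ z : ℍ) : ℂ) = ((trM ρ • z : ℍ) : ℂ) := rfl
  rw [e5, h, e1, e2, e3, e4]
  have h0 : ((Real.exp (-(ρ / 2)) : ℝ) : ℂ) ≠ 0 := by
    exact_mod_cast (Real.exp_pos _).ne'
  rw [Complex.ofReal_zero, zero_mul, zero_add, add_zero, div_eq_iff h0]
  have h6 : (Real.exp ρ : ℝ) * Real.exp (-(ρ / 2)) = Real.exp (ρ / 2) := by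
    rw [← Real.exp_add]; congr 1; ring
  have h7 : ((Real.exp ρ : ℝ) : ℂ) * ((Real.exp (-(ρ / 2)) : ℝ) : ℂ) =
      ((Real.exp (ρ / 2) : ℝ) : ℂ) := by
    rw [← Complex.ofReal_mul, h6]
  rw [← h7]
  ring

theorem rot_coe (θ : ℝ) (z : ℍ) : ((rot θ z : ℍ) : ℂ) =
    (((Real.cos (θ / 2) : ℝ) : ℂ) * z + ((Real.sin (θ / 2) : ℝ) : ℂ)) /
      (-((Real.sin (θ / 2) : ℝ) : ℂ) * z + ((Real.cos (θ / 2) : ℝ) : ℂ)) := by
  have h := sl_coe (rotM θ) z
  have e1 : (rotM θ) 0 0 = Real.cos (θ / 2) := rfl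
  have e2 : (rotM θ) 0 1 = Real.sin (θ / 2) := rfl
  have e3 : (rotM θ) 1 0 = -Real.sin (θ / 2) := rfl
  have e4 : (rotM θ) 1 1 = Real.cos (θ / 2) := rfl
  have e5 : ((rot θ z : ℍ) : ℂ) = ((rotM θ • z : ℍ) : ℂ) := rfl
  rw [e5, h, e1, e2, e3, e4, Complex.ofReal_neg]

theorem den_ne (θ : ℝ) (z : ℍ) :
    -((Real.sin (θ / 2) : ℝ) : ℂ) * (z : ℂ) + ((Real.cos (θ / 2) : ℝ) : ℂ) ≠ 0 := by
  intro h
  have him := congrArg Complex.im h
  have hre := congrArg Complex.re h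
  have hz : 0 < (z : ℂ).im := z.2
  simp only [Complex.add_im, Complex.mul_im, Complex.neg_re, Complex.neg_im, Complex.ofReal_re,
    Complex.ofReal_im, neg_zero, zero_mul, add_zero, Complex.zero_im] at him
  simp only [Complex.add_re, Complex.mul_re, Complex.neg_re, Complex.neg_im, Complex.ofReal_re,
    Complex.ofReal_im, neg_zero, zero_mul, sub_zero, Complex.zero_re] at hre
  have hs : Real.sin (θ / 2) = 0 := by
    have : Real.sin (θ / 2) * (z : ℂ).im = 0 := by linarith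
    rcases mul_eq_zero.1 this with h | h
    · exact h
    · exact absurd h hz.ne'
  rw [hs] at hre
  have hc : Real.cos (θ / 2) = 0 := by linarith
  have := Real.sin_sq_add_cos_sq (θ / 2)
  rw [hs, hc] at this
  norm_num at this

end KLF

open KLF

/-- **KLF** -/
theorem klf : S_KLF := by
  refine ⟨?_, ?_, ?_, ?_⟩
  · intro θ z
    have hcs : ((Real.cos (θ / 2) : ℝ) : ℂ) ^ 2 + ((Real.sin (θ / 2) : ℝ) : ℂ) ^ 2 = 1 := by
      have := Real.sin_sq_add_cos_sq (θ / 2)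
      rw [add_comm] at this
      exact_mod_cast this
    have hD := den_ne θ z
    have hconj : (starRingEnd ℂ) ((rot θ z : ℍ) : ℂ) =
        (((Real.cos (θ / 2) : ℝ) : ℂ) * (starRingEnd ℂ) (z : ℂ) + ((Real.sin (θ / 2) : ℝ) : ℂ)) /
        (-((Real.sin (θ / 2) : ℝ) : ℂ) * (starRingEnd ℂ) (z : ℂ) +
          ((Real.cos (θ / 2) : ℝ) : ℂ)) := by
      rw [rot_coe]
      simp only [map_div₀, map_add, map_mul, map_neg, Complex.conj_ofReal]
    have hE : -((Real.sin (θ / 2) : ℝ) : ℂ) * (starRingEnd ℂ) (z : ℂ) +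
        ((Real.cos (θ / 2) : ℝ) : ℂ) ≠ 0 := by
      intro h
      apply hD
      have := congrArg (starRingEnd ℂ) h
      simpa only [map_add, map_mul, map_neg, Complex.conj_ofReal, Complex.conj_conj,
        map_zero] using this
    rw [kl_eq, hconj, rot_coe, rot_alg hD hE hcs, ← kl_eq]
    congr 1
    unfold ee
    have h2 : ((θ : ℝ) : ℂ) * Complex.I = ((2 : ℕ) : ℂ) * ((((θ / 2 : ℝ)) : ℂ) * Complex.I) := by
      push_cast; ring
    rw [h2, Complex.exp_nat_mul, Complex.exp_mul_I, ← Complex.ofReal_cos, ← Complex.ofReal_sin]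
  · intro z
    have h1 : ((cj z : ℍ) : ℂ) = -(starRingEnd ℂ) (z : ℂ) := rfl
    rw [kl_eq, kl_eq, h1]
    simp only [map_div₀, map_add, map_sub, map_mul, map_neg, Complex.conj_conj, Complex.conj_I,
      map_one]
    congr 1
    · ring
    · ring
  · intro ρ z
    have hN : 0 ≤ Complex.normSq (z : ℂ) := Complex.normSq_nonneg _
    have ha : 0 < Real.exp ρ := Real.exp_pos ρ
    have h1 : Complex.normSq ((tr ρ z : ℍ) : ℂ) = Real.exp ρ ^ 2 * Complex.normSq (z : ℂ) := by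
      rw [tr_coe, Complex.normSq_mul, Complex.normSq_ofReal]; ring
    have h2 : (tr ρ z).re = Real.exp ρ * z.re := by
      have : (tr ρ z).re = ((tr ρ z : ℍ) : ℂ).re := rfl
      rw [this, tr_coe, Complex.re_ofReal_mul]
      rfl
    have hcosh : Real.cosh ρ = (Real.exp ρ + (Real.exp ρ)⁻¹) / 2 := by
      rw [Real.cosh_eq, Real.exp_neg]
    have hsinh : Real.sinh ρ = (Real.exp ρ - (Real.exp ρ)⁻¹) / 2 := by
      rw [Real.sinh_eq, Real.exp_neg]
    have htanh : Real.tanh ρ = (Real.exp ρ ^ 2 - 1) / (Real.exp ρ ^ 2 + 1) := by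
      rw [Real.tanh_eq_sinh_div_cosh, hcosh, hsinh]
      field_simp
    have hcosh' : Real.cosh ρ = (Real.exp ρ ^ 2 + 1) / (2 * Real.exp ρ) := by
      rw [hcosh]
      field_simp
    rw [kl_form (tr ρ z), re_div, h1, h2, kl_re, kl_im, htanh, hcosh']
    set N := Complex.normSq (z : ℂ)
    set a := Real.exp ρ
    have hN1 : N + 1 ≠ 0 := by positivity
    have ha1 : a ^ 2 + 1 ≠ 0 := by positivity
    have hk : a ^ 2 * N + 1 ≠ 0 := by positivity
    have hden : 1 + (a ^ 2 - 1) / (a ^ 2 + 1) * ((N - 1) / (N + 1)) =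
        2 * (a ^ 2 * N + 1) / ((a ^ 2 + 1) * (N + 1)) := by
      field_simp
      ring
    have hnum : (N - 1) / (N + 1) + (a ^ 2 - 1) / (a ^ 2 + 1) =
        2 * (a ^ 2 * N - 1) / ((a ^ 2 + 1) * (N + 1)) := by
      field_simp
      ring
    have him : -(2 * z.re) / (N + 1) / ((a ^ 2 + 1) / (2 * a)) =
        2 * (-(2 * (a * z.re))) / ((a ^ 2 + 1) * (N + 1)) := by
      field_simp
      try ring
    have hQ : (a ^ 2 + 1) * (N + 1) ≠ 0 := mul_ne_zero ha1 hN1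
    rw [hden, hnum, him, div_div_div_cancel_right₀ hQ, div_div_div_cancel_right₀ hQ,
      mul_div_mul_left _ _ two_ne_zero, mul_div_mul_left _ _ two_ne_zero]
  · unfold kl
    have h1 : Complex.normSq ((UpperHalfPlane.I : ℍ) : ℂ) = 1 := by
      rw [UpperHalfPlane.coe_I, Complex.normSq_I]
    rw [h1]
    simp

end H292.TL
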