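import Pool.Agent.H292.TL.FB

/-!
Project TL, task KLG: in the Klein model geodesics are segments.
-/

set_option autoImplicit false
open scoped UpperHalfPlane Topology
open Set

namespace H292.TL

namespace KlgAux

/-- hyperboloid coordinates -/
noncomputable def X0 (z : ℍ) : ℝ := (z.re ^ 2 + z.im ^ 2 + 1) / (2 * z.im)

/-- hyperboloid coordinates -/
noncomputable def X1 (z : ℍ) : ℝ := (z.re ^ 2 + z.im ^ 2 - 1) / (2 * z.im)

/-- hyperboloid coordinates -/
noncomputable def X2 (z : ℍ) : ℝ := - z.re / z.im

theorem X0_pos (z : ℍ) : 0 < X0 z := by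
  have := z.im_pos
  unfold X0
  positivity

theorem form (z w : ℍ) : X0 z * X0 w - X1 z * X1 w - X2 z * X2 w = Real.cosh (dist z w) := by
  have h1 := z.im_pos
  have h2 := w.im_pos
  rw [UpperHalfPlane.cosh_dist']
  unfold X0 X1 X2
  field_simp
  ring

theorem form_self (z : ℍ) : X0 z * X0 z - X1 z * X1 z - X2 z * X2 z = 1 := by
  rw [form, dist_self, Real.cosh_zero]

theorem kl_mul (z : ℍ) : (X0 z : ℂ) * kl z = (X1 z : ℂ) + (X2 z : ℂ) * Complex.I := by
  have h1 := z.im_pos
  have h2 : Complex.normSq (z : ℂ) = z.re ^ 2 + z.im ^ 2 := by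
    rw [Complex.normSq_apply]
    simp only [UpperHalfPlane.coe_re, UpperHalfPlane.coe_im]
    ring
  have h3 : (0 : ℝ) < z.re ^ 2 + z.im ^ 2 + 1 := by positivity
  have h4 : ((z.re ^ 2 + z.im ^ 2 + 1 : ℝ) : ℂ) ≠ 0 := by exact_mod_cast h3.ne'
  have h5 : ((z.im : ℝ) : ℂ) ≠ 0 := by exact_mod_cast h1.ne'
  unfold kl X0 X1 X2
  rw [h2]
  push_cast at h4 ⊢
  field_simp
  ring

theorem null_zero {a b c x y z : ℝ} (h1 : a * a = b * b + c * c) (h2 : a * x = b * y + c * z)
    (h3 : x * x = 1 + y * y + z * z) : a = 0 ∧ b = 0 ∧ c = 0 := by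
  have h4 : a * a ≤ 0 := by
    have h5 : (a * x) * (a * x) = (b * y + c * z) * (b * y + c * z) := by rw [h2]
    have h6 : (a * x) * (a * x) = (b * b + c * c) * (1 + y * y + z * z) := by
      rw [← h3, ← h1]
      ring
    nlinarith [sq_nonneg (b * z - c * y)]
  have h5 : a = 0 := by nlinarith [mul_self_nonneg a]
  subst h5
  have h6 : b = 0 := by nlinarith [mul_self_nonneg b, mul_self_nonneg c]
  have h7 : c = 0 := by nlinarith [mul_self_nonneg b, mul_self_nonneg c]
  exact ⟨rfl, h6, h7⟩

/-- the linear relation -/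
theorem relation {x y z : ℍ} (h : dist x z + dist z y = dist x y) :
    Real.sinh (dist x y) * X0 z = Real.sinh (dist z y) * X0 x + Real.sinh (dist x z) * X0 y ∧
    Real.sinh (dist x y) * X1 z = Real.sinh (dist z y) * X1 x + Real.sinh (dist x z) * X1 y ∧
    Real.sinh (dist x y) * X2 z = Real.sinh (dist z y) * X2 x + Real.sinh (dist x z) * X2 y := by
  have fxz := form x z
  have fzy := form z y
  have fxy := form x y
  have fx := form_self x
  have fy := form_self y
  have fz := form_self z
  have e1 : Real.sinh (dist x y) = Real.sinh (dist x z) * Real.cosh (dist z y) +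
      Real.cosh (dist x z) * Real.sinh (dist z y) := by rw [← h, Real.sinh_add]
  have e2 : Real.cosh (dist x y) = Real.cosh (dist x z) * Real.cosh (dist z y) +
      Real.sinh (dist x z) * Real.sinh (dist z y) := by rw [← h, Real.cosh_add]
  have e3 := Real.cosh_sq (dist x z)
  have e4 := Real.cosh_sq (dist z y)
  generalize Real.sinh (dist x y) = S at *
  generalize Real.cosh (dist x y) = C at *
  generalize Real.sinh (dist x z) = s at *
  generalize Real.cosh (dist x z) = c at *
  generalize Real.sinh (dist z y) = t at *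
  generalize Real.cosh (dist z y) = k at *
  -- the products with the three vectors
  have b1 : (S * X0 z - t * X0 x - s * X0 y) * X0 z - (S * X1 z - t * X1 x - s * X1 y) * X1 z -
      (S * X2 z - t * X2 x - s * X2 y) * X2 z = 0 := by
    linear_combination S * fz - t * fxz - s * fzy + e1
  have b2 : (S * X0 z - t * X0 x - s * X0 y) * X0 x - (S * X1 z - t * X1 x - s * X1 y) * X1 x -
      (S * X2 z - t * X2 x - s * X2 y) * X2 x = 0 := by
    linear_combination S * fxz - t * fx - s * fxy + c * e1 - s * e2 + t * e3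
  have b3 : (S * X0 z - t * X0 x - s * X0 y) * X0 y - (S * X1 z - t * X1 x - s * X1 y) * X1 y -
      (S * X2 z - t * X2 x - s * X2 y) * X2 y = 0 := by
    linear_combination S * fzy - t * fxy - s * fy + k * e1 - t * e2 + s * e4
  have hnull := null_zero (a := S * X0 z - t * X0 x - s * X0 y)
    (b := S * X1 z - t * X1 x - s * X1 y) (c := S * X2 z - t * X2 x - s * X2 y)
    (x := X0 z) (y := X1 z) (z := X2 z) (by linear_combination S * b1 - t * b2 - s * b3)
    (by linear_combination b1) (by linear_combination fz)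
  obtain ⟨h1, h2, h3⟩ := hnull
  exact ⟨by linear_combination h1, by linear_combination h2, by linear_combination h3⟩

end KlgAux

open KlgAux in
theorem klg : S_KLG := by
  intro x y z h
  obtain ⟨h0, h1, h2⟩ := relation h
  have hs : 0 ≤ Real.sinh (dist x z) := Real.sinh_nonneg_iff.2 dist_nonneg
  have ht : 0 ≤ Real.sinh (dist z y) := Real.sinh_nonneg_iff.2 dist_nonneg
  rcases eq_or_lt_of_le (dist_nonneg (x := x) (y := y)) with hd | hd
  · have h3 : dist x z = 0 := by
      have := dist_nonneg (x := x) (y := z)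
      have := dist_nonneg (x := z) (y := y)
      linarith
    have h4 : x = z := dist_eq_zero.1 h3
    rw [← h4]
    exact left_mem_segment ℝ _ _
  · have hS : 0 < Real.sinh (dist x y) := Real.sinh_pos_iff.2 hd
    have hz := X0_pos z
    have hx := X0_pos x
    have hy := X0_pos y
    have hx' := kl_mul x
    have hy' := kl_mul y
    have hz' := kl_mul z
    generalize Real.sinh (dist x y) = S at *
    generalize Real.sinh (dist x z) = s at *
    generalize Real.sinh (dist z y) = t at *
    refine ⟨t * X0 x / (S * X0 z), s * X0 y / (S * X0 z), by positivity, by positivity, ?_, ?_⟩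
    · rw [← add_div, ← h0, div_self (mul_pos hS hz).ne']
    · have hne : ((S * X0 z : ℝ) : ℂ) ≠ 0 := by exact_mod_cast (mul_pos hS hz).ne'
      rw [← mul_right_inj' hne]
      simp only [Complex.real_smul]
      push_cast
      have hSc : ((S : ℝ) : ℂ) ≠ 0 := by exact_mod_cast hS.ne'
      have hzc : ((X0 z : ℝ) : ℂ) ≠ 0 := by exact_mod_cast hz.ne'
      have h1' : (S : ℂ) * X1 z = t * X1 x + s * X1 y := by exact_mod_cast h1
      have h2' : (S : ℂ) * X2 z = t * X2 x + s * X2 y := by exact_mod_cast h2
      field_simp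
      linear_combination (t : ℂ) * hx' + (s : ℂ) * hy' - (S : ℂ) * hz' - h1' - Complex.I * h2'

end H292.TL
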