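import Pool.Agent.H292.TL.FB

/-!
Project TL, task KLH: the Klein model coordinate is a homeomorphism onto the disc.
-/

set_option autoImplicit false
open scoped UpperHalfPlane Topology
open Set

namespace H292.TL

theorem klh_re (z : ℍ) : (kl z).re = (Complex.normSq z - 1) / (Complex.normSq z + 1) := by
  unfold kl
  rw [Complex.div_ofReal_re]
  simp

theorem klh_im (z : ℍ) : (kl z).im = -(2 * z.re) / (Complex.normSq z + 1) := by
  unfold kl
  rw [Complex.div_ofReal_im]
  simp

theorem klh_pos (z : ℍ) : 0 < Complex.normSq z + 1 := by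
  have := Complex.normSq_nonneg (z : ℂ)
  linarith

theorem klh_nsq (z : ℍ) : Complex.normSq (z : ℂ) = z.re ^ 2 + z.im ^ 2 := by
  rw [Complex.normSq_apply]
  simp only [UpperHalfPlane.coe_re, UpperHalfPlane.coe_im]
  ring

theorem klh_norm (z : ℍ) : 1 - Complex.normSq (kl z) =
    (2 * z.im / (Complex.normSq z + 1)) ^ 2 := by
  rw [Complex.normSq_apply (kl z), klh_re, klh_im]
  have h := (klh_pos z).ne'
  field_simp
  rw [klh_nsq]
  ring

theorem klh_lt (z : ℍ) : Complex.normSq (kl z) < 1 := by
  have h := klh_norm z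
  have h2 : 0 < (2 * z.im / (Complex.normSq (z : ℂ) + 1)) ^ 2 := by
    have := z.im_pos
    have := klh_pos z
    positivity
  linarith

theorem klh_sqrt (z : ℍ) : √(1 - Complex.normSq (kl z)) = 2 * z.im / (Complex.normSq z + 1) := by
  rw [klh_norm, Real.sqrt_sq]
  have := z.im_pos
  have := klh_pos z
  positivity

/-- the inverse in `ℂ` -/
noncomputable def kap0 (w : ℂ) : ℂ :=
  ((-w.im / (1 - w.re) : ℝ) : ℂ) + ((√(1 - Complex.normSq w) / (1 - w.re) : ℝ) : ℂ) * Complex.I

theorem kap0_re (w : ℂ) : (kap0 w).re = -w.im / (1 - w.re) := by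
  unfold kap0
  rw [Complex.add_re, Complex.ofReal_re, Complex.re_ofReal_mul, Complex.I_re, mul_zero, add_zero]

theorem kap0_im (w : ℂ) : (kap0 w).im = √(1 - Complex.normSq w) / (1 - w.re) := by
  unfold kap0
  rw [Complex.add_im, Complex.ofReal_im, Complex.im_ofReal_mul, Complex.I_im, mul_one, zero_add]

theorem ball_nsq {w : ℂ} (hw : w ∈ Metric.ball (0 : ℂ) 1) : Complex.normSq w < 1 := by
  rw [mem_ball_zero_iff] at hw
  rw [Complex.normSq_eq_norm_sq]
  nlinarith [norm_nonneg w]

theorem ball_re {w : ℂ} (hw : w ∈ Metric.ball (0 : ℂ) 1) : 0 < 1 - w.re := by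
  rw [mem_ball_zero_iff] at hw
  have := (Complex.re_le_norm w)
  linarith

theorem kap0_im_pos {w : ℂ} (hw : w ∈ Metric.ball (0 : ℂ) 1) : 0 < (kap0 w).im := by
  rw [kap0_im]
  have h1 := ball_re hw
  have h2 := Real.sqrt_pos.2 (sub_pos.2 (ball_nsq hw))
  positivity

theorem kap0_nsq {w : ℂ} (hw : w ∈ Metric.ball (0 : ℂ) 1) :
    Complex.normSq (kap0 w) = (1 + w.re) / (1 - w.re) := by
  rw [Complex.normSq_apply, kap0_re, kap0_im]
  have h1 := (ball_re hw).ne'
  have h2 : √(1 - Complex.normSq w) * √(1 - Complex.normSq w) = 1 - Complex.normSq w :=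
    Real.mul_self_sqrt (sub_pos.2 (ball_nsq hw)).le
  have h3 := Complex.normSq_apply w
  rw [div_mul_div_comm, div_mul_div_comm, h2, h3]
  field_simp
  ring

/-- the inverse of `kl` -/
noncomputable def kap1 (w : ℂ) : ℍ := UpperHalfPlane.ofComplex (kap0 w)

theorem kap1_coe {w : ℂ} (hw : w ∈ Metric.ball (0 : ℂ) 1) : ((kap1 w : ℍ) : ℂ) = kap0 w := by
  unfold kap1
  rw [UpperHalfPlane.ofComplex_apply_of_im_pos (kap0_im_pos hw)]

theorem klh : S_KLH := by
  have e1 : ∀ z, kap1 (kl z) = z := by
    intro z
    have hz : kl z ∈ Metric.ball (0 : ℂ) 1 := by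
      rw [mem_ball_zero_iff]
      have := klh_lt z
      rw [Complex.normSq_eq_norm_sq] at this
      nlinarith [norm_nonneg (kl z)]
    apply UpperHalfPlane.ext
    rw [kap1_coe hz]
    have hp := (klh_pos z).ne'
    have h1 : 1 - (kl z).re = 2 / (Complex.normSq z + 1) := by
      rw [klh_re]
      field_simp
      ring
    apply Complex.ext
    · rw [kap0_re, h1, klh_im, UpperHalfPlane.coe_re]
      field_simp
    · rw [kap0_im, h1, klh_sqrt, UpperHalfPlane.coe_im]
      field_simp
  have e2 : ∀ w ∈ Metric.ball (0 : ℂ) 1, kl (kap1 w) = w := by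
    intro w hw
    have h0 := (ball_re hw).ne'
    have h1 : Complex.normSq (kap1 w : ℂ) = (1 + w.re) / (1 - w.re) := by
      rw [kap1_coe hw, kap0_nsq hw]
    have h2 : (kap1 w).re = -w.im / (1 - w.re) := by
      rw [← UpperHalfPlane.coe_re, kap1_coe hw, kap0_re]
    have h3 : (1 + w.re) / (1 - w.re) + 1 = 2 / (1 - w.re) := by
      field_simp
      ring
    apply Complex.ext
    · rw [klh_re, h1, h3]
      field_simp
      ring
    · rw [klh_im, h1, h3, h2]
      field_simp
  refine ⟨?_, ?_, ?_, kap1, ?_, e1, e2⟩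
  · unfold kl
    have hc : Continuous fun z : ℍ => (z : ℂ) := UpperHalfPlane.continuous_coe
    have hn : Continuous fun z : ℍ => Complex.normSq (z : ℂ) := Complex.continuous_normSq.comp hc
    have hr : Continuous fun z : ℍ => z.re := UpperHalfPlane.continuous_re
    refine Continuous.div ?_ ?_ ?_
    · exact (Complex.continuous_ofReal.comp (hn.sub continuous_const)).sub
        ((Complex.continuous_ofReal.comp (continuous_const.mul hr)).mul continuous_const)
    · exact Complex.continuous_ofReal.comp (hn.add continuous_const)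
    · intro z
      exact_mod_cast (klh_pos z).ne'
  · intro z z' h
    rw [← e1 z, ← e1 z', h]
  · ext w
    constructor
    · rintro ⟨z, rfl⟩
      rw [mem_ball_zero_iff]
      have := klh_lt z
      rw [Complex.normSq_eq_norm_sq] at this
      nlinarith [norm_nonneg (kl z)]
    · intro hw
      exact ⟨kap1 w, e2 w hw⟩
  · rw [UpperHalfPlane.isEmbedding_coe.continuousOn_iff]
    have : ContinuousOn kap0 (Metric.ball (0 : ℂ) 1) := by
      unfold kap0
      have hr : ContinuousOn (fun w : ℂ => 1 - w.re) (Metric.ball (0 : ℂ) 1) :=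
        (continuous_const.sub Complex.continuous_re).continuousOn
      refine ContinuousOn.add ?_ (ContinuousOn.mul ?_ continuousOn_const)
      · refine Complex.continuous_ofReal.comp_continuousOn (ContinuousOn.div ?_ hr ?_)
        · exact Complex.continuous_im.neg.continuousOn
        · intro w hw; exact (ball_re hw).ne'
      · refine Complex.continuous_ofReal.comp_continuousOn (ContinuousOn.div ?_ hr ?_)
        · exact (Real.continuous_sqrt.comp
            (continuous_const.sub Complex.continuous_normSq)).continuousOn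
        · intro w hw; exact (ball_re hw).ne'
    refine this.congr ?_
    intro w hw
    exact kap1_coe hw

end H292.TL
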