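import Pool.Agent.H292.TL.FB

set_option autoImplicit false
open scoped UpperHalfPlane Topology
open Set

namespace H292.TL

namespace L2

/-! ### square summable functions -/

/-- square summable -/
def Sq {X : Type} (f : X → ℝ) : Prop := Summable (fun y => f y ^ 2)

variable {X : Type}

theorem Sq.mul {f g : X → ℝ} (hf : Sq f) (hg : Sq g) : Summable (fun y => f y * g y) := by
  refine Summable.of_norm_bounded (g := fun y => f y ^ 2 + g y ^ 2) (hf.add hg) fun y => ?_
  rw [Real.norm_eq_abs, abs_le]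
  constructor <;> nlinarith [sq_nonneg (f y + g y), sq_nonneg (f y - g y), sq_nonneg (f y),
    sq_nonneg (g y)]

theorem Sq.add {f g : X → ℝ} (hf : Sq f) (hg : Sq g) : Sq (fun y => f y + g y) := by
  have h : (fun y => (f y + g y) ^ 2) = fun y => f y ^ 2 + 2 * (f y * g y) + g y ^ 2 := by
    funext y; ring
  unfold Sq
  rw [h]
  have h1 : Summable (fun y => f y ^ 2) := hf
  have h2 : Summable (fun y => g y ^ 2) := hg
  exact (h1.add ((Sq.mul hf hg).mul_left 2)).add h2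

theorem Sq.neg {f : X → ℝ} (hf : Sq f) : Sq (fun y => - f y) := by
  have h : (fun y => (- f y) ^ 2) = fun y => f y ^ 2 := by
    funext y; ring
  unfold Sq
  rw [h]
  exact hf

theorem Sq.sub {f g : X → ℝ} (hf : Sq f) (hg : Sq g) : Sq (fun y => f y - g y) := by
  have h : (fun y => f y - g y) = fun y => f y + (- g y) := by
    funext y; ring
  rw [h]
  exact hf.add hg.neg

theorem invol_summable {s : X → X} (hs : ∀ x, s (s x) = x) {h : X → ℝ} :
    Summable (fun y => h (s y)) ↔ Summable h :=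
  (Function.Involutive.toPerm s hs).summable_iff (f := h)

theorem invol_tsum {s : X → X} (hs : ∀ x, s (s x) = x) (h : X → ℝ) :
    ∑' y, h (s y) = ∑' y, h y :=
  (Function.Involutive.toPerm s hs).tsum_eq h

theorem Sq.comp {f : X → ℝ} {s : X → X} (hs : ∀ x, s (s x) = x) (hf : Sq f) :
    Sq (fun y => f (s y)) :=
  (invol_summable hs (h := fun y => f y ^ 2)).2 hf

theorem eq_zero_of_tsum {f : X → ℝ} (hf : Sq f) (h0 : ∑' y, f y ^ 2 = 0) (y : X) : f y = 0 := by
  have h1 := hf.tsum_pos (fun i => sq_nonneg (f i)) y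
  by_contra hne
  have h2 := h1 (by positivity)
  linarith

/-! ### the orthogonality lemma -/

theorem rch_closed {a b : X → X} (ha : ∀ x, a (a x) = x) (hb : ∀ x, b (b x) = x) {x y : X} :
    (Rch a b x (a y) ↔ Rch a b x y) ∧ (Rch a b x (b y) ↔ Rch a b x y) := by
  refine ⟨⟨fun h => ?_, fun h => h.tail (Or.inl rfl)⟩, ⟨fun h => ?_, fun h => h.tail (Or.inr rfl)⟩⟩
  · have := h.tail (Or.inl rfl : a (a y) = a (a y) ∨ a (a y) = b (a y))
    rwa [ha] at this
  · have := h.tail (Or.inr rfl : b (b y) = a (b y) ∨ b (b y) = b (b y))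
    rwa [hb] at this

/-- a summable function whose sums over the (finite) classes vanish has sum zero -/
theorem tsum_classes {a b : X → X} (ha : ∀ x, a (a x) = x) (hb : ∀ x, b (b x) = x)
    (hfin : ∀ x, {y | Rch a b x y}.Finite) {h : X → ℝ} (hs : Summable h)
    (h0 : ∀ x, ∑ y ∈ (hfin x).toFinset, h y = 0) : ∑' y, h y = 0 := by
  let S : Setoid X :=
    { r := Rch a b
      iseqv := ⟨fun x => Relation.ReflTransGen.refl, fun h => Rch.symm' ha hb h,
        fun h1 h2 => Relation.ReflTransGen.trans h1 h2⟩ }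
  let p : X → Quotient S := fun x => Quotient.mk S x
  rw [← (Equiv.sigmaFiberEquiv p).tsum_eq h]
  have hs' : Summable (fun c => h ((Equiv.sigmaFiberEquiv p) c)) :=
    (Equiv.sigmaFiberEquiv p).summable_iff.2 hs
  rw [hs'.tsum_sigma]
  rw [← tsum_zero (α := ℝ) (β := Quotient S)]
  congr 1
  funext q
  obtain ⟨x, rfl⟩ := Quotient.exists_rep q
  have h1 := h0 x
  rw [← Finset.tsum_subtype] at h1
  rw [← h1]
  let e : {y // p y = Quotient.mk S x} ≃ {y // y ∈ (hfin x).toFinset} :=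
    { toFun := fun y => ⟨y.1, by
        rw [Finite.mem_toFinset]
        exact Rch.symm' ha hb (Quotient.exact y.2)⟩
      invFun := fun y => ⟨y.1, by
        have := y.2
        rw [Finite.mem_toFinset] at this
        exact Quotient.sound (Rch.symm' ha hb this)⟩
      left_inv := fun y => rfl
      right_inv := fun y => rfl }
  exact e.tsum_eq (fun y : {y // y ∈ (hfin x).toFinset} => h y)

/-- functions on the orbits -/
theorem orth {s0 s1 s2 : X → X} (i0 : ∀ x, s0 (s0 x) = x) (i1 : ∀ x, s1 (s1 x) = x)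
    (i2 : ∀ x, s2 (s2 x) = x) (c02 : ∀ x, s0 (s2 x) = s2 (s0 x))
    (hfin : ∀ x, {y | Rch s0 s1 x y}.Finite) {u g : X → ℝ} (u1 : ∀ x, u (s1 x) = u x)
    (u2 : ∀ x, u (s2 x) = u x) (hu : Sq (fun y => u (s0 y) - u y)) (hg : Sq g)
    (g0 : ∀ x, g (s0 x) = - g x) (g1 : ∀ x, g (s1 x) = - g x) :
    ∑' y, (u (s0 y) - u y) * (g y + g (s2 y)) = 0 := by
  have h1 : ∑' y, (u (s0 y) - u y) * g y = 0 := by
    refine tsum_classes i0 i1 hfin (hu.mul hg) fun x => ?_
    have hmem0 : ∀ y, s0 y ∈ (hfin x).toFinset ↔ y ∈ (hfin x).toFinset := by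
      intro y
      rw [Finite.mem_toFinset, Finite.mem_toFinset]
      exact (rch_closed i0 i1).1
    have hmem1 : ∀ y, s1 y ∈ (hfin x).toFinset ↔ y ∈ (hfin x).toFinset := by
      intro y
      rw [Finite.mem_toFinset, Finite.mem_toFinset]
      exact (rch_closed i0 i1).2
    have h2 : ∑ y ∈ (hfin x).toFinset, u (s0 y) * g (s0 y) = ∑ y ∈ (hfin x).toFinset, u y * g y :=
      Finset.sum_nbij' s0 s0 (fun y hy => (hmem0 y).2 hy) (fun y hy => (hmem0 y).2 hy)
        (fun y _ => i0 y) (fun y _ => i0 y) (fun y _ => rfl)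
    have h3 : ∑ y ∈ (hfin x).toFinset, u (s1 y) * g (s1 y) = ∑ y ∈ (hfin x).toFinset, u y * g y :=
      Finset.sum_nbij' s1 s1 (fun y hy => (hmem1 y).2 hy) (fun y hy => (hmem1 y).2 hy)
        (fun y _ => i1 y) (fun y _ => i1 y) (fun y _ => rfl)
    have h4 : ∑ y ∈ (hfin x).toFinset, u y * g y = 0 := by
      have h5 : ∑ y ∈ (hfin x).toFinset, u (s1 y) * g (s1 y) =
          - ∑ y ∈ (hfin x).toFinset, u y * g y := by
        rw [← Finset.sum_neg_distrib]
        refine Finset.sum_congr rfl fun y _ => ?_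
        rw [u1, g1]; ring
      linarith
    have h6 : ∑ y ∈ (hfin x).toFinset, (u (s0 y) - u y) * g y =
        - ∑ y ∈ (hfin x).toFinset, u (s0 y) * g (s0 y) - ∑ y ∈ (hfin x).toFinset, u y * g y := by
      rw [← Finset.sum_neg_distrib, ← Finset.sum_sub_distrib]
      refine Finset.sum_congr rfl fun y _ => ?_
      rw [g0]; ring
    rw [h6, h2, h4]; ring
  have h7 : ∑' y, (u (s0 y) - u y) * g (s2 y) = ∑' y, (u (s0 y) - u y) * g y := by
    rw [← invol_tsum i2 (fun y => (u (s0 y) - u y) * g y)]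
    congr 1
    funext y
    rw [c02, u2, u2]
  have h8 : (fun y => (u (s0 y) - u y) * (g y + g (s2 y))) =
      fun y => (u (s0 y) - u y) * g y + (u (s0 y) - u y) * g (s2 y) := by
    funext y; ring
  rw [h8, (hu.mul hg).tsum_add (hu.mul (hg.comp i2)), h7, h1]
  ring

/-! ### the projection of a delta function -/

/-- the function `δ⁻` -/
noncomputable def dm [DecidableEq X] (s0 s2 : X → X) (x y : X) : ℝ :=
  ((if y = x then 1 else 0) - (if y = s0 x then 1 else 0) + (if y = s2 x then 1 else 0) -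
    (if y = s0 (s2 x) then 1 else 0)) / 4

theorem hasSum_dm [DecidableEq X] (s0 s2 : X → X) (x : X) (h : X → ℝ) :
    HasSum (fun y => h y * dm s0 s2 x y)
      ((h x - h (s0 x) + h (s2 x) - h (s0 (s2 x))) / 4) := by
  have h1 : ∀ z : X, HasSum (fun y => h y * (if y = z then (1 : ℝ) else 0)) (h z) := by
    intro z
    have h2 := hasSum_single (f := fun y => h y * (if y = z then (1 : ℝ) else 0)) z
      (fun y hy => by simp [hy])
    simpa using h2
  have h3 := (((h1 x).sub (h1 (s0 x))).add (h1 (s2 x))).sub (h1 (s0 (s2 x)))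
  have h4 := h3.div_const 4
  have h5 : (fun y => h y * dm s0 s2 x y) = fun y =>
      (h y * (if y = x then (1 : ℝ) else 0) - h y * (if y = s0 x then (1 : ℝ) else 0) +
        h y * (if y = s2 x then (1 : ℝ) else 0) - h y * (if y = s0 (s2 x) then (1 : ℝ) else 0)) /
          4 := by
    funext y
    unfold dm
    ring
  rw [h5]
  exact h4

section AFs

variable {s0 s1 s2 : X → X} {k : ℕ} {n : X → ℕ} {ε : X → ℝ}

theorem dm_sq [DecidableEq X] (H : AF X s0 s1 s2 k n ε) (x : X) :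
    HasSum (fun y => dm s0 s2 x y ^ 2) (1 / 4) := by
  have h1 := hasSum_dm s0 s2 x (dm s0 s2 x)
  have a1 : x ≠ s0 x := (H.ne0 x).symm
  have a2 : x ≠ s2 x := (H.ne2 x).symm
  have a3 : x ≠ s0 (s2 x) := fun h => H.ne02 x (by
    have := congrArg s0 h
    rwa [H.i0] at this)
  have a4 : s0 x ≠ s2 x := H.ne02 x
  have a5 : s0 x ≠ s0 (s2 x) := fun h => a2 (by
    have := congrArg s0 h
    rwa [H.i0, H.i0] at this)
  have a6 : s2 x ≠ s0 (s2 x) := (H.ne0 _).symm
  have h2 : (dm s0 s2 x x - dm s0 s2 x (s0 x) + dm s0 s2 x (s2 x) -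
      dm s0 s2 x (s0 (s2 x))) / 4 = 1 / 4 := by
    unfold dm
    simp only [if_true, if_neg a1, if_neg a2, if_neg a3, if_neg a4, if_neg a5, if_neg a6,
      if_neg a1.symm, if_neg a2.symm, if_neg a3.symm, if_neg a4.symm, if_neg a5.symm,
      if_neg a6.symm]
    norm_num
  rw [h2] at h1
  have h3 : (fun y => dm s0 s2 x y ^ 2) = fun y => dm s0 s2 x y * dm s0 s2 x y := by
    funext y; ring
  rw [h3]
  exact h1

theorem dm_apply [DecidableEq X] {h : X → ℝ} (h0 : ∀ y, h (s0 y) = - h y)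
    (h2 : ∀ y, h (s2 y) = h y) (x : X) : HasSum (fun y => h y * dm s0 s2 x y) (h x) := by
  have h1 := hasSum_dm s0 s2 x h
  rw [h0, h0, h2] at h1
  have h3 : (h x - -h x + h x - -h x) / 4 = h x := by ring
  rwa [h3] at h1

/-- the data at a flag -/
structure Dat (s0 s1 s2 : X → X) (a b : X → X → ℝ) : Prop where
  a1 : ∀ x, ∃ w : X → ℝ, Sq w ∧ (∀ y, w (s1 y) = w y) ∧
      (∀ y, w (s2 y) = w y) ∧ ∀ y, a x y = w (s0 y) - w y
  a2 : ∀ x, ∀ f : X → ℝ, Sq f → (∀ y, f (s1 y) = f y) →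
      (∀ y, f (s2 y) = f y) → ∑' y, a x y * (f (s0 y) - f y) = f (s0 x) - f x
  b1 : ∀ x, ∃ g : X → ℝ, Sq g ∧ (∀ y, g (s0 y) = - g y) ∧
      (∀ y, g (s1 y) = - g y) ∧ ∀ y, b x y = g y + g (s2 y)
  b2 : ∀ x, ∀ g : X → ℝ, Sq g → (∀ y, g (s0 y) = - g y) →
      (∀ y, g (s1 y) = - g y) → ∑' y, b x y * (g y + g (s2 y)) = g x + g (s2 x)

variable {a b : X → X → ℝ}

theorem Dat.asq (H : AF X s0 s1 s2 k n ε) (D : Dat s0 s1 s2 a b) (x : X) :
    Sq (a x) ∧ ∑' y, a x y ^ 2 = a x x ∧ (∀ y, a x (s0 y) = - a x y) ∧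
      ∀ y, a x (s2 y) = a x y := by
  obtain ⟨w, hw, w1, w2, hw'⟩ := D.a1 x
  have e : a x = fun y => w (s0 y) - w y := funext hw'
  refine ⟨?_, ?_, ?_, ?_⟩
  · rw [e]
    exact (hw.comp H.i0).sub hw
  · have h1 := D.a2 x w hw w1 w2
    rw [← hw' x] at h1
    rw [← h1]
    congr 1
    funext y
    rw [← hw' y]; ring
  · intro y
    rw [hw', hw', H.i0]; ring
  · intro y
    rw [hw', hw', H.c02, w2, w2]

theorem Dat.bsq (H : AF X s0 s1 s2 k n ε) (D : Dat s0 s1 s2 a b) (x : X) :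
    Sq (b x) ∧ ∑' y, b x y ^ 2 = b x x ∧ (∀ y, b x (s0 y) = - b x y) ∧
      ∀ y, b x (s2 y) = b x y := by
  obtain ⟨g, hg, g0, g1, hg'⟩ := D.b1 x
  have e : b x = fun y => g y + g (s2 y) := funext hg'
  refine ⟨?_, ?_, ?_, ?_⟩
  · rw [e]
    exact hg.add (hg.comp H.i2)
  · have h1 := D.b2 x g hg g0 g1
    rw [← hg' x] at h1
    rw [← h1]
    congr 1
    funext y
    rw [← hg' y]; ring
  · intro y
    rw [hg', hg', ← H.c02, g0, g0]; ring
  · intro y
    rw [hg', hg', H.i2]; ring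

theorem Dat.ab (H : AF X s0 s1 s2 k n ε) (D : Dat s0 s1 s2 a b) (x : X) :
    ∑' y, a x y * b x y = 0 := by
  obtain ⟨w, hw, w1, w2, hw'⟩ := D.a1 x
  obtain ⟨g, hg, g0, g1, hg'⟩ := D.b1 x
  rw [← orth H.i0 H.i1 H.i2 H.c02 (fun x => (H.fcard x).1) w1 w2 ((hw.comp H.i0).sub hw) hg g0 g1]
  congr 1
  funext y
  rw [hw', hg']

/-- the squared norm of the rest -/
theorem Dat.rest [DecidableEq X] (H : AF X s0 s1 s2 k n ε) (D : Dat s0 s1 s2 a b) (x : X) :
    HasSum (fun y => (dm s0 s2 x y - a x y - b x y) ^ 2)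
      (1 / 4 - ∑' y, a x y ^ 2 - ∑' y, b x y ^ 2) := by
  obtain ⟨a1, a2, a3, a4⟩ := D.asq H x
  obtain ⟨b1, b2, b3, b4⟩ := D.bsq H x
  have h1 := dm_sq H x
  have h2 := dm_apply (s0 := s0) (s2 := s2) a3 a4 x
  have h3 := dm_apply (s0 := s0) (s2 := s2) b3 b4 x
  have h4 : HasSum (fun y => a x y ^ 2) (∑' y, a x y ^ 2) := a1.hasSum
  have h5 : HasSum (fun y => b x y ^ 2) (∑' y, b x y ^ 2) := b1.hasSum
  have h6 : HasSum (fun y => a x y * b x y) 0 := by
    rw [← D.ab H x]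
    exact (a1.mul b1).hasSum
  have h7 := ((((h1.sub (h2.mul_left 2)).sub (h3.mul_left 2)).add h4).add h5).add (h6.mul_left 2)
  have h8 : (fun y => (dm s0 s2 x y - a x y - b x y) ^ 2) = fun y =>
      dm s0 s2 x y ^ 2 - 2 * (a x y * dm s0 s2 x y) - 2 * (b x y * dm s0 s2 x y) + a x y ^ 2 +
        b x y ^ 2 + 2 * (a x y * b x y) := by
    funext y; ring
  have h9 : 1 / 4 - ∑' y, a x y ^ 2 - ∑' y, b x y ^ 2 =
      1 / 4 - 2 * a x x - 2 * b x x + ∑' y, a x y ^ 2 + ∑' y, b x y ^ 2 + 2 * 0 := by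
    rw [a2, b2]; ring
  rw [h8, h9]
  exact h7

/-- the inequality, and the case of equality -/
theorem Dat.ineq [DecidableEq X] (H : AF X s0 s1 s2 k n ε) (D : Dat s0 s1 s2 a b)
    (ha : ∀ x, (∑ᶠ (y : X) (_ : Rch s1 s2 x y), ∑' z, a y z ^ 2) = 1)
    (hb : ∀ x, (∑ᶠ (y : X) (_ : Rch s1 s2 x y), ∑' z, b y z ^ 2) =
      ∑ᶠ (y : X) (_ : Rch s1 s2 x y), 1 / (2 * (n y : ℝ))) (x : X) :
    1 + (∑ᶠ (y : X) (_ : Rch s1 s2 x y), 1 / (2 * (n y : ℝ))) ≤ (k : ℝ) / 2 ∧
    (1 + (∑ᶠ (y : X) (_ : Rch s1 s2 x y), 1 / (2 * (n y : ℝ))) = (k : ℝ) / 2 →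
      ∀ y, dm s0 s2 x y = a x y + b x y) := by
  obtain ⟨hV, hc⟩ := H.vcard x
  have conv : ∀ f : X → ℝ, (∑ᶠ (y : X) (_ : Rch s1 s2 x y), f y) = ∑ y ∈ hV.toFinset, f y :=
    fun f => finsum_mem_eq_finite_toFinset_sum f hV
  have ha' := ha x
  have hb' := hb x
  rw [conv] at ha'
  rw [conv, conv] at hb'
  rw [conv]
  have hcard : hV.toFinset.card = 2 * k := by
    rw [← hc, ncard_eq_toFinset_card _ hV]
  let r : X → ℝ := fun y => ∑' z, (dm s0 s2 y z - a y z - b y z) ^ 2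
  have hr : ∀ y, r y = 1 / 4 - ∑' z, a y z ^ 2 - ∑' z, b y z ^ 2 := fun y =>
    (D.rest H y).tsum_eq
  have hr0 : ∀ y, 0 ≤ r y := fun y => tsum_nonneg fun z => sq_nonneg _
  have hsum : ∑ y ∈ hV.toFinset, r y = (k : ℝ) / 2 - 1 -
      ∑ y ∈ hV.toFinset, 1 / (2 * (n y : ℝ)) := by
    have h1 : ∑ y ∈ hV.toFinset, r y = ∑ y ∈ hV.toFinset, (1 / 4 - ∑' z, a y z ^ 2 -
        ∑' z, b y z ^ 2) := Finset.sum_congr rfl fun y _ => hr y
    rw [h1, Finset.sum_sub_distrib, Finset.sum_sub_distrib, ha', hb', Finset.sum_const, hcard]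
    rw [nsmul_eq_mul]
    push_cast
    ring
  have hnn : 0 ≤ ∑ y ∈ hV.toFinset, r y := Finset.sum_nonneg fun y _ => hr0 y
  refine ⟨by linarith, fun heq => ?_⟩
  have hz : ∑ y ∈ hV.toFinset, r y = 0 := by linarith
  have hx : r x = 0 := (Finset.sum_eq_zero_iff_of_nonneg fun y _ => hr0 y).1 hz x (by
    rw [Finite.mem_toFinset]
    exact Relation.ReflTransGen.refl)
  intro y
  have h2 := eq_zero_of_tsum (D.rest H x).summable hx y
  linarith

/-- automorphisms preserve the classes -/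
theorem aut_rch {s t : X → X} {γ : Equiv.Perm X} (hs : ∀ z, γ (s z) = s (γ z))
    (ht : ∀ z, γ (t z) = t (γ z)) {x y : X} : Rch s t (γ x) (γ y) ↔ Rch s t x y := by
  have key : ∀ (γ : Equiv.Perm X), (∀ z, γ (s z) = s (γ z)) → (∀ z, γ (t z) = t (γ z)) →
      ∀ x y, Rch s t x y → Rch s t (γ x) (γ y) := by
    intro γ hs ht x y h
    induction h with
    | refl => exact Relation.ReflTransGen.refl
    | tail _ h2 ih =>
      refine ih.tail ?_
      rcases h2 with h2 | h2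
      · left; rw [h2, hs]
      · right; rw [h2, ht]
  refine ⟨fun h => ?_, key γ hs ht x y⟩
  have h1 := key γ.symm (fun z => by
    rw [Equiv.symm_apply_eq, hs, Equiv.apply_symm_apply]) (fun z => by
    rw [Equiv.symm_apply_eq, ht, Equiv.apply_symm_apply]) _ _ h
  rwa [Equiv.symm_apply_apply, Equiv.symm_apply_apply] at h1

theorem aut_image {s t : X → X} {γ : Equiv.Perm X} (hs : ∀ z, γ (s z) = s (γ z))
    (ht : ∀ z, γ (t z) = t (γ z)) (x : X) : {y | Rch s t (γ x) y} = γ '' {y | Rch s t x y} := by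
  ext y
  constructor
  · intro h
    refine ⟨γ.symm y, ?_, γ.apply_symm_apply y⟩
    have h' : Rch s t (γ x) (γ (γ.symm y)) := by
      rw [γ.apply_symm_apply]
      exact h
    exact (aut_rch hs ht).1 h'
  · rintro ⟨z, hz, rfl⟩
    exact (aut_rch hs ht).2 hz

theorem sum_const (H : AF X s0 s1 s2 k n ε) (x y : X) :
    (∑ᶠ (z : X) (_ : Rch s1 s2 x z), 1 / (2 * (n z : ℝ))) =
      ∑ᶠ (z : X) (_ : Rch s1 s2 y z), 1 / (2 * (n z : ℝ)) := by
  obtain ⟨γ, g0, g1, g2, hγ⟩ := H.trans x y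
  have hn : ∀ z, n (γ z) = n z := by
    intro z
    have h1 := (H.fcard (γ z)).2
    have h2 := (H.fcard z).2
    rw [aut_image g0 g1, ncard_image_of_injective _ γ.injective, h2] at h1
    omega
  have h3 : {z | Rch s1 s2 y z} = γ '' {z | Rch s1 s2 x z} := by
    rw [← aut_image g1 g2]
    ext z
    exact ⟨fun h => Relation.ReflTransGen.trans hγ h,
      fun h => Relation.ReflTransGen.trans (Rch.symm' H.i1 H.i2 hγ) h⟩
  have h4 : (∑ᶠ (z : X) (_ : Rch s1 s2 y z), 1 / (2 * (n z : ℝ))) =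
      ∑ᶠ z ∈ γ '' {z | Rch s1 s2 x z}, 1 / (2 * (n z : ℝ)) := by
    rw [← h3]
    rfl
  rw [h4, finsum_mem_image (γ.injective.injOn)]
  simp only [hn]
  rfl

end AFs

/-! ### the projection to the space of coboundaries -/

/-- the Hilbert space of square summable functions -/
abbrev E (X : Type) := lp (fun _ : X => ℝ) 2

theorem memE {f : X → ℝ} (hf : Sq f) : Memℓp f 2 := by
  rw [memℓp_gen_iff (by norm_num)]
  refine Summable.congr hf fun y => ?_
  simp

theorem sqE (f : E X) : Sq (fun y => f y) := by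
  have h := (memℓp_gen_iff (by norm_num)).1 (lp.memℓp f)
  refine Summable.congr h fun y => ?_
  simp

/-- a square summable function as an element of the Hilbert space -/
def toE (f : X → ℝ) (hf : Sq f) : E X := ⟨f, memE hf⟩

theorem toE_apply (f : X → ℝ) (hf : Sq f) (y : X) : toE f hf y = f y := rfl

theorem inner_E (f g : E X) : inner ℝ f g = ∑' y, f y * g y := by
  rw [lp.inner_eq_tsum]
  congr 1
  funext y
  simp [mul_comm]

theorem norm_sq_E (f : E X) : ‖f‖ ^ 2 = ∑' y, f y ^ 2 := by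
  rw [← real_inner_self_eq_norm_sq, inner_E]
  congr 1
  funext y
  ring

/-- composition with an involution -/
noncomputable def cmp (s : X → X) (hs : ∀ x, s (s x) = x) : E X →ₗᵢ[ℝ] E X where
  toFun f := toE (fun y => f (s y)) ((sqE f).comp hs)
  map_add' f g := by
    ext y
    rfl
  map_smul' c f := by
    ext y
    rfl
  norm_map' f := by
    have h : ‖toE (fun y => f (s y)) ((sqE f).comp hs)‖ ^ 2 = ‖f‖ ^ 2 := by
      rw [norm_sq_E, norm_sq_E]
      exact invol_tsum hs (fun y => f y ^ 2)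
    exact (sq_eq_sq₀ (norm_nonneg _) (norm_nonneg _)).1 h

theorem cmp_apply (s : X → X) (hs : ∀ x, s (s x) = x) (f : E X) (y : X) :
    cmp s hs f y = f (s y) := rfl

theorem proj {s0 s1 s2 : X → X} (i0 : ∀ x, s0 (s0 x) = x) (i1 : ∀ x, s1 (s1 x) = x)
    (i2 : ∀ x, s2 (s2 x) = x) (hPV : PV X s0 s1 s2) {η : X → ℝ} (hη : Sq η) :
    ∃ w : X → ℝ, Sq w ∧ (∀ y, w (s1 y) = w y) ∧ (∀ y, w (s2 y) = w y) ∧
      ∀ f : X → ℝ, Sq f → (∀ y, f (s1 y) = f y) → (∀ y, f (s2 y) = f y) →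
        ∑' y, (η y - (w (s0 y) - w y)) * (f (s0 y) - f y) = 0 := by
  obtain ⟨C, hC, hPV⟩ := hPV
  let V : Submodule ℝ (E X) :=
    { carrier := {f | cmp s1 i1 f = f ∧ cmp s2 i2 f = f}
      add_mem' := by
        rintro f g ⟨f1, f2⟩ ⟨g1, g2⟩
        exact ⟨by rw [map_add, f1, g1], by rw [map_add, f2, g2]⟩
      zero_mem' := ⟨map_zero _, map_zero _⟩
      smul_mem' := by
        rintro c f ⟨f1, f2⟩
        exact ⟨by rw [map_smul, f1], by rw [map_smul, f2]⟩ }
  have hVc : IsClosed (V : Set (E X)) := by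
    have e : (V : Set (E X)) = {f | cmp s1 i1 f = f} ∩ {f | cmp s2 i2 f = f} := rfl
    rw [e]
    exact (isClosed_eq (cmp s1 i1).continuous continuous_id).inter
      (isClosed_eq (cmp s2 i2).continuous continuous_id)
  haveI : CompleteSpace V := hVc.completeSpace_coe
  let d : E X →L[ℝ] E X := (cmp s0 i0).toContinuousLinearMap - ContinuousLinearMap.id ℝ (E X)
  have hd : ∀ (f : E X) (y : X), d f y = f (s0 y) - f y := fun f y => rfl
  let dV : V →L[ℝ] E X := d.comp V.subtypeL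
  have hV : ∀ f : V, (∀ y, (f : E X) (s1 y) = (f : E X) y) ∧
      ∀ y, (f : E X) (s2 y) = (f : E X) y := by
    intro f
    refine ⟨fun y => ?_, fun y => ?_⟩
    · have h1 : cmp s1 i1 (f : E X) y = (f : E X) y := by rw [f.2.1]
      exact h1
    · have h1 : cmp s2 i2 (f : E X) y = (f : E X) y := by rw [f.2.2]
      exact h1
  have hanti : ∀ f : V, ‖f‖ ≤ Real.sqrt C * ‖dV f‖ := by
    intro f
    have h1 := hPV (fun y => (f : E X) y) (hV f).1 (hV f).2 (sqE _)
    rw [← norm_sq_E] at h1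
    have h2 : ∑' y, ((f : E X) (s0 y) - (f : E X) y) ^ 2 = ‖dV f‖ ^ 2 := by
      rw [norm_sq_E]
      rfl
    rw [h2] at h1
    rw [← abs_of_nonneg (norm_nonneg f), ← abs_of_nonneg (mul_nonneg (Real.sqrt_nonneg C)
      (norm_nonneg (dV f))), ← sq_le_sq, mul_pow, Real.sq_sqrt hC.le]
    exact h1
  have hcl : IsClosed (range dV) := by
    have h1 : AntilipschitzWith ⟨Real.sqrt C, Real.sqrt_nonneg C⟩ dV :=
      dV.antilipschitz_of_bound hanti
    exact h1.isClosed_range dV.uniformContinuous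
  let K : Submodule ℝ (E X) := LinearMap.range (dV : V →ₗ[ℝ] E X)
  have hKc : IsClosed (K : Set (E X)) := hcl
  haveI : CompleteSpace K := hKc.completeSpace_coe
  have hmem : K.starProjection (toE η hη) ∈ K := K.starProjection_apply_mem _
  obtain ⟨w, hw⟩ := hmem
  refine ⟨fun y => (w : E X) y, sqE _, (hV w).1, (hV w).2, fun f hf f1 f2 => ?_⟩
  have hfV : toE f hf ∈ V := by
    refine ⟨?_, ?_⟩
    · ext y
      exact f1 y
    · ext y
      exact f2 y
  have h3 : dV ⟨toE f hf, hfV⟩ ∈ K := ⟨_, rfl⟩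
  have h4 := K.starProjection_inner_eq_zero (toE η hη) _ h3
  rw [← hw, inner_E] at h4
  exact h4

end L2

open L2 in
theorem l2 (hLA : S_LA) (hLB : S_LB) : S_L2 := by
  intro X s0 s1 s2 k n ε H hPV hPF hHU x
  classical
  obtain ⟨a, a1, a2, a3⟩ := hLA X s0 s1 s2 k n ε H hPV
  obtain ⟨b, b1, b2, b3⟩ := hLB X s0 s1 s2 k n ε H hPF
  have D : Dat s0 s1 s2 a b := ⟨a1, a2, b1, b2⟩
  obtain ⟨h1, _⟩ := D.ineq H a3 b3 x
  refine lt_of_le_of_ne h1 fun heq => ?_
  -- the case of equality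
  have hall : ∀ z y, dm s0 s2 z y = a z y + b z y := by
    intro z
    refine (D.ineq H a3 b3 z).2 ?_
    rw [← sum_const H x z]
    exact heq
  obtain ⟨u, u1, u2, hu, hnot⟩ := hHU
  obtain ⟨w, hw, w1, w2, hw'⟩ := proj H.i0 H.i1 H.i2 hPV (η := fun y => u (s0 y) - u y) hu
  -- `ω = 0`
  have hsq : Sq (fun y => (u (s0 y) - w (s0 y)) - (u y - w y)) := by
    have h2 : (fun y => (u (s0 y) - w (s0 y)) - (u y - w y)) =
        fun y => (u (s0 y) - u y) - (w (s0 y) - w y) := by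
      funext y; ring
    rw [h2]
    exact Sq.sub hu ((hw.comp H.i0).sub hw)
  have hz : ∀ z, (u (s0 z) - w (s0 z)) - (u z - w z) = 0 := by
    intro z
    have e1 := dm_apply (s0 := s0) (s2 := s2)
      (h := fun y => (u (s0 y) - w (s0 y)) - (u y - w y))
      (fun y => by rw [H.i0]; ring) (fun y => by rw [H.c02, u2, w2, u2, w2]) z
    obtain ⟨f, hf, f1, f2, hf'⟩ := a1 z
    obtain ⟨g, hg, g0, g1, hg'⟩ := b1 z
    have e2 : HasSum (fun y => ((u (s0 y) - w (s0 y)) - (u y - w y)) * a z y) 0 := by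
      have e3 := hw' f hf f1 f2
      have e4 : (fun y => ((u (s0 y) - w (s0 y)) - (u y - w y)) * a z y) =
          fun y => (u (s0 y) - u y - (w (s0 y) - w y)) * (f (s0 y) - f y) := by
        funext y
        rw [hf']; ring
      rw [← e3, e4]
      have e5 : Sq (fun y => u (s0 y) - u y - (w (s0 y) - w y)) :=
        Sq.sub hu ((hw.comp H.i0).sub hw)
      have e6 : Sq (fun y => f (s0 y) - f y) := (Sq.comp H.i0 hf).sub hf
      exact (e5.mul e6).hasSum
    have e3 : HasSum (fun y => ((u (s0 y) - w (s0 y)) - (u y - w y)) * b z y) 0 := by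
      have e4 := orth H.i0 H.i1 H.i2 H.c02 (fun x => (H.fcard x).1) (u := fun y => u y - w y)
        (fun y => by rw [u1, w1]) (fun y => by rw [u2, w2]) hsq hg g0 g1
      have e5 : (fun y => ((u (s0 y) - w (s0 y)) - (u y - w y)) * b z y) =
          fun y => ((u (s0 y) - w (s0 y)) - (u y - w y)) * (g y + g (s2 y)) := by
        funext y
        rw [hg']
      rw [← e4, e5]
      have e6 : Sq (fun y => g y + g (s2 y)) := Sq.add hg (Sq.comp H.i2 hg)
      exact (hsq.mul e6).hasSum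
    have e4 := e2.add e3
    have e5 : (fun y => ((u (s0 y) - w (s0 y)) - (u y - w y)) * dm s0 s2 z y) = fun y =>
        ((u (s0 y) - w (s0 y)) - (u y - w y)) * a z y +
          ((u (s0 y) - w (s0 y)) - (u y - w y)) * b z y := by
      funext y
      rw [hall z y]; ring
    rw [e5] at e1
    have e6 := e1.unique e4
    rw [e6, add_zero]
  -- `u - w` is constant
  have hc : ∀ y, u y - w y = u x - w x := by
    intro y
    have h := H.conn x y
    induction h with
    | refl => rfl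
    | @tail p q _ h2 ih =>
      rcases h2 with h2 | h2 | h2
      · have := hz p
        rw [h2, ← ih]
        linarith
      · rw [h2, u1, w1, ih]
      · rw [h2, u2, w2, ih]
  refine hnot (u x - w x) ?_
  refine Summable.congr hw fun y => ?_
  have := hc y
  have h5 : u y - (u x - w x) = w y := by linarith
  rw [h5]

end H292.TL
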