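import Pool.Agent.H292.TL.FB

/-!
Project TL, task LA: projections to the space of coboundaries.
-/

set_option autoImplicit false
open scoped Topology RealInnerProductSpace

namespace H292.TL

namespace LAux

/-! ### the Hilbert space -/

/-- square summable functions -/
abbrev HS (X : Type) := lp (fun _ : X => ℝ) 2

variable {X : Type}

theorem mem_iff (f : X → ℝ) : Memℓp (E := fun _ : X => ℝ) f 2 ↔ Summable fun x => f x ^ 2 := by
  rw [memℓp_gen_iff (by norm_num)]
  refine summable_congr fun x => ?_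
  rw [show (2 : ENNReal).toReal = ((2 : ℕ) : ℝ) by norm_num, Real.rpow_natCast, Real.norm_eq_abs,
    sq_abs]

theorem sm (f : HS X) : Summable fun x => f x ^ 2 := (mem_iff _).1 f.2

theorem smul_sm {f g : X → ℝ} (hf : Summable fun x => f x ^ 2) (hg : Summable fun x => g x ^ 2) :
    Summable fun x => f x * g x := by
  refine Summable.of_norm_bounded (hf.add hg) fun x => ?_
  rw [Real.norm_eq_abs, abs_mul]
  nlinarith [sq_nonneg (|f x| - |g x|), sq_abs (f x), sq_abs (g x), abs_nonneg (f x),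
    abs_nonneg (g x), sq_nonneg (f x), sq_nonneg (g x)]

theorem inner_eq (f g : HS X) : ⟪f, g⟫ = ∑' x, f x * g x := by
  rw [lp.inner_eq_tsum]
  refine tsum_congr fun x => ?_
  simp only [RCLike.inner_apply, conj_trivial]
  ring

theorem norm_sq (f : HS X) : ‖f‖ ^ 2 = ∑' x, f x ^ 2 := by
  rw [← real_inner_self_eq_norm_sq, inner_eq]
  exact tsum_congr fun x => (sq (f x)).symm

/-- square summability of compositions with involutions -/
theorem comp_sm {s : X → X} (hs : ∀ x, s (s x) = x) {f : X → ℝ} (hf : Summable fun x => f x ^ 2) :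
    Summable fun x => f (s x) ^ 2 :=
  hf.comp_injective (i := s) fun a b h => by rw [← hs a, h, hs]

theorem sub_sm {f g : X → ℝ} (hf : Summable fun x => f x ^ 2) (hg : Summable fun x => g x ^ 2) :
    Summable fun x => (f x - g x) ^ 2 := by
  have h1 := (mem_iff f).2 hf
  have h2 := (mem_iff g).2 hg
  exact (mem_iff _).1 (h1.sub h2)

theorem tsum_inv {s : X → X} (hs : ∀ x, s (s x) = x) (f : X → ℝ) :
    ∑' x, f (s x) = ∑' x, f x :=
  (Function.Involutive.toPerm s hs).tsum_eq f

/-- composition with an involution, minus the identity -/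
noncomputable def dif (s : X → X) (hs : ∀ x, s (s x) = x) : HS X →L[ℝ] HS X :=
  LinearMap.mkContinuous
    { toFun := fun f => ⟨fun x => f (s x) - f x, (mem_iff _).2 (sub_sm (comp_sm hs (sm f)) (sm f))⟩
      map_add' := fun f g => by
        ext x
        simp only [lp.coeFn_add, Pi.add_apply]
        ring
      map_smul' := fun c f => by
        ext x
        simp only [lp.coeFn_smul, Pi.smul_apply, smul_eq_mul, RingHom.id_apply]
        ring } 2 fun f => by
    refine abs_le_of_sq_le_sq' (a := ‖_‖) ?_ (by positivity) |>.2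
    rw [norm_sq, mul_pow, norm_sq]
    have h1 : ∀ x, ((f (s x) - f x) ^ 2 : ℝ) ≤ 2 * f (s x) ^ 2 + 2 * f x ^ 2 := fun x => by
      nlinarith [sq_nonneg (f (s x) + f x)]
    have h2 := (comp_sm hs (sm f)).mul_left 2
    have h3 := (sm f).mul_left 2
    calc _ = ∑' x, (f (s x) - f x) ^ 2 := rfl
      _ ≤ ∑' x, (2 * f (s x) ^ 2 + 2 * f x ^ 2) :=
          (sub_sm (comp_sm hs (sm f)) (sm f)).tsum_le_tsum h1 (h2.add h3)
      _ = 2 ^ 2 * ∑' x, f x ^ 2 := by
          rw [h2.tsum_add h3, tsum_mul_left, tsum_mul_left, tsum_inv hs fun x => f x ^ 2]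
          ring

theorem dif_apply (s : X → X) (hs : ∀ x, s (s x) = x) (f : HS X) (x : X) :
    dif s hs f x = f (s x) - f x := rfl

/-- representation of functionals by the energy form -/
theorem exists_ker (W : Submodule ℝ (HS X)) (hW : IsClosed (W : Set (HS X)))
    (D : HS X →L[ℝ] HS X) (C : ℝ) (hC : 0 < C) (hco : ∀ f ∈ W, ‖f‖ ^ 2 ≤ C * ‖D f‖ ^ 2)
    (φ : HS X →L[ℝ] ℝ) : ∃ u ∈ W, ∀ f ∈ W, ⟪D u, D f⟫ = φ f := by
  have : CompleteSpace W := hW.completeSpace_coe
  let B : W →L[ℝ] W →L[ℝ] ℝ :=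
    (innerSL ℝ : HS X →L[ℝ] HS X →L[ℝ] ℝ).bilinearComp (D.comp W.subtypeL) (D.comp W.subtypeL)
  have hB : ∀ u v : W, B u v = ⟪D u, D v⟫ := fun u v => rfl
  have hcoe : IsCoercive B := by
    refine ⟨1 / C, by positivity, fun u => ?_⟩
    have h1 := hco u u.2
    rw [hB, real_inner_self_eq_norm_sq, mul_assoc, ← sq, one_div, inv_mul_le_iff₀ hC]
    exact h1
  let r : W := (InnerProductSpace.toDual ℝ W).symm (φ.comp W.subtypeL)
  have hr : ∀ f : W, ⟪r, f⟫ = φ f := fun f => by
    rw [InnerProductSpace.toDual_symm_apply]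
    rfl
  refine ⟨(hcoe.continuousLinearEquivOfBilin.symm r : W), Subtype.coe_prop _, fun f hf => ?_⟩
  have h1 := hcoe.continuousLinearEquivOfBilin_apply
    (hcoe.continuousLinearEquivOfBilin.symm r) ⟨f, hf⟩
  rw [ContinuousLinearEquiv.apply_symm_apply, hr, hB] at h1
  exact h1.symm

/-- evaluation -/
theorem ev_cont (x : X) : ∃ φ : HS X →L[ℝ] ℝ, ∀ f, φ f = f x :=
  ⟨lp.evalCLM ℝ (fun _ : X => ℝ) 2 x, fun _ => rfl⟩

/-- the kernel -/
theorem kernel (s0 s1 s2 : X → X) (i0 : ∀ x, s0 (s0 x) = x) (hPV : PV X s0 s1 s2) (x : X) :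
    ∃ K : X → ℝ, Summable (fun y => K y ^ 2) ∧ (∀ y, K (s1 y) = K y) ∧ (∀ y, K (s2 y) = K y) ∧
      ∀ f : X → ℝ, Summable (fun y => f y ^ 2) → (∀ y, f (s1 y) = f y) → (∀ y, f (s2 y) = f y) →
        ∑' y, (K (s0 y) - K y) * (f (s0 y) - f y) = f x := by
  obtain ⟨C, hC, hP⟩ := hPV
  let W : Submodule ℝ (HS X) :=
    { carrier := {f | ∀ y, f (s1 y) = f y ∧ f (s2 y) = f y}
      add_mem' := fun {f g} hf hg y => by
        simp only [lp.coeFn_add, Pi.add_apply]
        rw [(hf y).1, (hf y).2, (hg y).1, (hg y).2]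
        exact ⟨rfl, rfl⟩
      zero_mem' := fun y => by simp
      smul_mem' := fun c f hf y => by
        simp only [lp.coeFn_smul, Pi.smul_apply]
        rw [(hf y).1, (hf y).2]
        exact ⟨rfl, rfl⟩ }
  have hWm : ∀ f : HS X, f ∈ W ↔ ∀ y, f (s1 y) = f y ∧ f (s2 y) = f y := fun f => Iff.rfl
  have hW : IsClosed (W : Set (HS X)) := by
    have h1 : (W : Set (HS X)) = ⋂ y, ({f | f (s1 y) = f y} ∩ {f | f (s2 y) = f y}) := by
      ext f
      simp only [SetLike.mem_coe, hWm, Set.mem_iInter, Set.mem_inter_iff, Set.mem_ofPred_eq]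
    rw [h1]
    refine isClosed_iInter fun y => IsClosed.inter ?_ ?_
    · obtain ⟨φ, hφ⟩ := ev_cont (X := X) (s1 y)
      obtain ⟨ψ, hψ⟩ := ev_cont (X := X) y
      simp only [← hφ, ← hψ]
      exact isClosed_eq φ.continuous ψ.continuous
    · obtain ⟨φ, hφ⟩ := ev_cont (X := X) (s2 y)
      obtain ⟨ψ, hψ⟩ := ev_cont (X := X) y
      simp only [← hφ, ← hψ]
      exact isClosed_eq φ.continuous ψ.continuous
  obtain ⟨φ, hφ⟩ := ev_cont (X := X) x
  obtain ⟨u, hu, hK⟩ := exists_ker W hW (dif s0 i0) C hC (fun f hf => by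
    rw [norm_sq, norm_sq]
    exact hP f (fun y => (hf y).1) (fun y => (hf y).2) (sm f)) φ
  refine ⟨u, sm u, fun y => (hu y).1, fun y => (hu y).2, fun f hf h1 h2 => ?_⟩
  have h3 := hK ⟨f, (mem_iff f).2 hf⟩ fun y => ⟨h1 y, h2 y⟩
  rw [inner_eq, hφ] at h3
  exact h3

end LAux

open LAux

theorem la : S_LA := by
  intro X s0 s1 s2 k n ε hA hPV
  classical
  have i0 := hA.i0
  obtain ⟨C, hC, hP⟩ := id hPV
  choose K hKs hK1 hK2 hK using fun x => kernel s0 s1 s2 i0 hPV x
  -- invariant square summable functions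
  let V : (X → ℝ) → Prop := fun f =>
    Summable (fun y => f y ^ 2) ∧ (∀ y, f (s1 y) = f y) ∧ ∀ y, f (s2 y) = f y
  have hKV : ∀ x, V (K x) := fun x => ⟨hKs x, hK1 x, hK2 x⟩
  have hVsub : ∀ f g, V f → V g → V fun y => f y - g y := fun f g hf hg =>
    ⟨sub_sm hf.1 hg.1, fun y => by show f (s1 y) - g (s1 y) = _; rw [hf.2.1, hg.2.1],
      fun y => by show f (s2 y) - g (s2 y) = _; rw [hf.2.2, hg.2.2]⟩
  let d : (X → ℝ) → X → ℝ := fun f y => f (s0 y) - f y
  have hds : ∀ f, V f → Summable fun y => d f y ^ 2 := fun f hf =>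
    sub_sm (comp_sm i0 hf.1) hf.1
  have hKe : ∀ x f, V f → ∑' y, d (K x) y * d f y = f x := fun x f hf =>
    hK x f hf.1 hf.2.1 hf.2.2
  have hEsub : ∀ f g h, V f → V g → V h → ∑' y, d (fun z => f z - g z) y * d h y =
      ∑' y, d f y * d h y - ∑' y, d g y * d h y := by
    intro f g h hf hg hh
    rw [← (smul_sm (hds f hf) (hds h hh)).tsum_sub (smul_sm (hds g hg) (hds h hh))]
    refine tsum_congr fun y => ?_
    simp only [d]
    ring
  have hEcomm : ∀ f g, ∑' y, d f y * d g y = ∑' y, d g y * d f y := fun f g =>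
    tsum_congr fun y => mul_comm _ _
  -- uniqueness
  have huniq : ∀ u v, V u → V v → (∀ f, V f → ∑' y, d u y * d f y = ∑' y, d v y * d f y) →
      u = v := by
    intro u v hu hv h
    have hw := hVsub u v hu hv
    have h1 : ∑' y, d (fun z => u z - v z) y * d (fun z => u z - v z) y = 0 := by
      rw [hEsub u v _ hu hv hw, h _ hw, sub_self]
    have h2 := hP _ hw.2.1 hw.2.2 hw.1
    have h3 : ∑' y, ((fun z => u z - v z) (s0 y) - (fun z => u z - v z) y) ^ 2 = 0 := by
      rw [← h1]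
      exact tsum_congr fun y => sq _
    rw [h3, mul_zero] at h2
    have h4 : ∑' y, (u y - v y) ^ 2 = 0 := le_antisymm h2 (tsum_nonneg fun y => sq_nonneg _)
    have h5 := (hasSum_zero_iff_of_nonneg (fun y => sq_nonneg (u y - v y))).1
      (h4 ▸ hw.1.hasSum)
    funext y
    have h6 := congrFun h5 y
    simp only [Pi.zero_apply] at h6
    have h7 := pow_eq_zero_iff (two_ne_zero) |>.1 h6
    linarith
  have hKsym : ∀ x y, K x y = K y x := by
    intro x y
    rw [← hKe y (K x) (hKV x), hEcomm, hKe x (K y) (hKV y)]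
  -- kernels of equivalent points
  have hrch : ∀ x y, Rch s1 s2 x y → ∀ f, V f → f y = f x := by
    intro x y h f hf
    induction h with
    | refl => rfl
    | tail _ h2 ih =>
      rcases h2 with h2 | h2
      · rw [h2, hf.2.1, ih]
      · rw [h2, hf.2.2, ih]
  have hKr : ∀ x y, Rch s1 s2 x y → K y = K x := by
    intro x y h
    refine huniq _ _ (hKV y) (hKV x) fun f hf => ?_
    rw [hKe y f hf, hKe x f hf]
    exact hrch x y h f hf
  -- automorphisms
  have hKaut : ∀ (γ : Equiv.Perm X), (∀ z, γ (s0 z) = s0 (γ z)) → (∀ z, γ (s1 z) = s1 (γ z)) →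
      (∀ z, γ (s2 z) = s2 (γ z)) → ∀ x y, K (γ x) (γ y) = K x y := by
    intro γ g0 g1 g2 x
    have hV1 : V fun y => K (γ x) (γ y) :=
      ⟨(hKs (γ x)).comp_injective γ.injective,
        fun y => by show K (γ x) (γ (s1 y)) = K (γ x) (γ y); rw [g1, hK1],
        fun y => by show K (γ x) (γ (s2 y)) = K (γ x) (γ y); rw [g2, hK2]⟩
    have hg0 : ∀ z, s0 (γ.symm z) = γ.symm (s0 z) := fun z => by
      rw [Equiv.eq_symm_apply, g0, Equiv.apply_symm_apply]
    have hg1 : ∀ z, s1 (γ.symm z) = γ.symm (s1 z) := fun z => by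
      rw [Equiv.eq_symm_apply, g1, Equiv.apply_symm_apply]
    have hg2 : ∀ z, s2 (γ.symm z) = γ.symm (s2 z) := fun z => by
      rw [Equiv.eq_symm_apply, g2, Equiv.apply_symm_apply]
    refine congrFun (huniq _ _ hV1 (hKV x) fun f hf => ?_)
    have hV2 : V fun y => f (γ.symm y) :=
      ⟨hf.1.comp_injective γ.symm.injective,
        fun y => by show f (γ.symm (s1 y)) = f (γ.symm y); rw [← hg1, hf.2.1],
        fun y => by show f (γ.symm (s2 y)) = f (γ.symm y); rw [← hg2, hf.2.2]⟩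
    rw [hKe x f hf]
    have h1 := hKe (γ x) _ hV2
    rw [Equiv.symm_apply_apply] at h1
    rw [← h1]
    refine Eq.trans ?_ (γ.tsum_eq fun y => d (K (γ x)) y * d (fun y => f (γ.symm y)) y)
    refine tsum_congr fun y => ?_
    simp only [d]
    rw [g0, ← hg0, Equiv.symm_apply_apply]
  have hκ : ∀ x y, K x x = K y y := by
    intro x y
    obtain ⟨γ, g0, g1, g2, hr⟩ := hA.trans x y
    rw [← hKaut γ g0 g1 g2 x x, hKr _ _ hr]
    exact (hrch _ _ hr _ (hKV _)).symm
  -- the projections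
  have hw : ∀ x, V fun y => K (s0 x) y - K x y := fun x => hVsub _ _ (hKV _) (hKV _)
  refine ⟨fun x => d fun z => K (s0 x) z - K x z, fun x => ⟨_, (hw x).1, (hw x).2.1, (hw x).2.2,
    fun y => rfl⟩, fun x f hf h1 h2 => ?_, fun x => ?_⟩
  · have h3 := hEsub (K (s0 x)) (K x) f (hKV _) (hKV _) ⟨hf, h1, h2⟩
    rw [hKe _ f ⟨hf, h1, h2⟩, hKe _ f ⟨hf, h1, h2⟩] at h3
    exact h3
  · have hnorm : ∀ y, ∑' z, (d (fun z => K (s0 y) z - K y z) z) ^ 2 = 2 * (K y y - K y (s0 y)) := by
      intro y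
      have h1 : ∑' z, (d (fun z => K (s0 y) z - K y z) z) ^ 2 =
          ∑' z, d (fun z => K (s0 y) z - K y z) z * d (fun z => K (s0 y) z - K y z) z :=
        tsum_congr fun z => sq _
      rw [h1, hEsub _ _ _ (hKV _) (hKV _) (hw y), hKe _ _ (hw y), hKe _ _ (hw y),
        hκ (s0 y) y, hKsym (s0 y) y]
      ring
    obtain ⟨hfin, _⟩ := hA.vcard x
    have e1 : (∑ᶠ (y : X) (_ : Rch s1 s2 x y),
        ∑' z, (d (fun z => K (s0 y) z - K y z) z) ^ 2) =
        ∑ y ∈ hfin.toFinset, ∑' z, (d (fun z => K (s0 y) z - K y z) z) ^ 2 :=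
      finsum_mem_eq_finite_toFinset_sum _ hfin
    rw [e1]
    -- test function
    let f : X → ℝ := fun y => if Rch s1 s2 x y then 1 else 0
    have hstep : ∀ (s : X → X), (∀ z, s (s z) = z) → (∀ a b, b = s a → Rch s1 s2 x a →
        Rch s1 s2 x b) → ∀ y, f (s y) = f y := by
      intro s hs hR y
      simp only [f]
      by_cases h : Rch s1 s2 x y
      · rw [if_pos h, if_pos (hR y (s y) rfl h)]
      · rw [if_neg h, if_neg fun h' => h (hR (s y) y (hs y).symm h')]
    have hf0 : ∀ y, y ∉ hfin.toFinset → f y = 0 := fun y hy => by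
      simp only [f]
      exact if_neg fun h => hy (hfin.mem_toFinset.2 h)
    have hfV : V f := by
      refine ⟨summable_of_ne_finset_zero (s := hfin.toFinset) fun y hy => by
        rw [hf0 y hy]; norm_num, ?_, ?_⟩
      · exact hstep s1 hA.i1 fun a b hb h => h.tail (Or.inl hb)
      · exact hstep s2 hA.i2 fun a b hb h => h.tail (Or.inr hb)
    have h1 : ∑' y, d (K x) y * d f y = 1 := by
      rw [hKe x f hfV]
      exact if_pos Relation.ReflTransGen.refl
    have hdK := hds _ (hKV x)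
    have hs1 : Summable fun y => d (K x) y * f (s0 y) := smul_sm hdK (comp_sm i0 hfV.1)
    have hs2 : Summable fun y => d (K x) y * f y := smul_sm hdK hfV.1
    have h2 : ∑' y, d (K x) y * d f y = 2 * ∑' y, (K x y - K x (s0 y)) * f y := by
      have e2 : ∑' y, d (K x) y * d f y = ∑' y, d (K x) y * f (s0 y) - ∑' y, d (K x) y * f y := by
        rw [← hs1.tsum_sub hs2]
        refine tsum_congr fun y => ?_
        show d (K x) y * (f (s0 y) - f y) = _
        ring
      have e3 : ∑' y, d (K x) y * f (s0 y) = ∑' y, (K x y - K x (s0 y)) * f y := by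
        rw [← tsum_inv i0]
        refine tsum_congr fun y => ?_
        simp only [d, i0]
      have e4 : ∑' y, d (K x) y * f y = -∑' y, (K x y - K x (s0 y)) * f y := by
        rw [← tsum_neg]
        refine tsum_congr fun y => ?_
        simp only [d]
        ring
      rw [e2, e3, e4]
      ring
    have h3 : ∑' y, (K x y - K x (s0 y)) * f y = ∑ y ∈ hfin.toFinset, (K x y - K x (s0 y)) := by
      rw [tsum_eq_sum (s := hfin.toFinset) fun y hy => by rw [hf0 y hy, mul_zero]]
      refine Finset.sum_congr rfl fun y hy => ?_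
      have : f y = 1 := if_pos (hfin.mem_toFinset.1 hy)
      rw [this, mul_one]
    rw [← h1, h2, h3, Finset.mul_sum]
    refine Finset.sum_congr rfl fun y hy => ?_
    rw [hnorm, hKr x y (hfin.mem_toFinset.1 hy)]

end H292.TL
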