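import Pool.Agent.H292.TL.FB

set_option autoImplicit false
open scoped InnerProductSpace
open Set

namespace H292.TL

section LBsec

variable {X : Type}

/-- square summable functions -/
abbrev LBl2 (X : Type) := lp (fun _ : X => ℝ) 2

theorem LB_mem {f : X → ℝ} : Memℓp f 2 ↔ Summable (fun x => f x ^ 2) := by
  rw [memℓp_gen_iff (by norm_num)]
  have : (fun i => ‖f i‖ ^ (2 : ENNReal).toReal) = fun x => f x ^ 2 := by
    funext i
    rw [ENNReal.toReal_ofNat, Real.rpow_ofNat, Real.norm_eq_abs, sq_abs]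
  rw [this]

/-- the element of `ℓ²` given by a function -/
def LB_mk (f : X → ℝ) (h : Summable (fun x => f x ^ 2)) : LBl2 X := ⟨f, LB_mem.mpr h⟩

theorem LB_mk_apply (f : X → ℝ) (h : Summable (fun x => f x ^ 2)) (x : X) :
    (LB_mk f h : X → ℝ) x = f x := rfl

theorem LB_sum (f : LBl2 X) : Summable (fun x => f x ^ 2) := LB_mem.mp (lp.memℓp f)

theorem LB_inner (f g : LBl2 X) : ⟪f, g⟫_ℝ = ∑' x, f x * g x := by
  rw [lp.inner_eq_tsum]
  congr 1
  funext i
  rw [real_inner_comm]
  rfl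

theorem LB_norm (f : LBl2 X) : ‖f‖ ^ 2 = ∑' x, f x ^ 2 := by
  rw [← real_inner_self_eq_norm_sq, LB_inner]
  congr 1
  funext i
  ring

theorem LB_summ {f g : X → ℝ} (hf : Summable (fun x => f x ^ 2)) (hg : Summable (fun x => g x ^ 2)) :
    Summable (fun x => f x * g x) := by
  have := lp.summable_inner (𝕜 := ℝ) (LB_mk f hf) (LB_mk g hg)
  refine this.congr ?_
  intro x
  rw [real_inner_comm]
  rfl

theorem LB_add {f g : X → ℝ} (hf : Summable (fun x => f x ^ 2)) (hg : Summable (fun x => g x ^ 2)) :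
    Summable (fun x => (f x + g x) ^ 2) := by
  have h := LB_sum (LB_mk f hf + LB_mk g hg)
  exact h

theorem LB_neg {f : X → ℝ} (hf : Summable (fun x => f x ^ 2)) :
    Summable (fun x => (- f x) ^ 2) := by
  refine hf.congr ?_
  intro x; ring

/-- an involution as a permutation -/
def LB_perm (σ : X → X) (hσ : ∀ x, σ (σ x) = x) : Equiv.Perm X := ⟨σ, σ, hσ, hσ⟩

theorem LB_comp_sum {f : X → ℝ} (e : Equiv.Perm X) (hf : Summable (fun x => f x ^ 2)) :
    Summable (fun x => f (e x) ^ 2) := (e.summable_iff (f := fun x => f x ^ 2)).mpr hf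

/-- composition with a permutation on `ℓ²` -/
noncomputable def LB_cmp (e : Equiv.Perm X) : LBl2 X →L[ℝ] LBl2 X :=
  LinearMap.mkContinuous
    { toFun := fun f => LB_mk (fun x => f (e x)) (LB_comp_sum e (LB_sum f))
      map_add' := fun f g => by
        apply lp.ext
        rfl
      map_smul' := fun c f => by
        apply lp.ext
        rfl } 1 (by
    intro f
    rw [one_mul]
    apply le_of_eq
    have h1 : ‖(LB_mk (fun x => f (e x)) (LB_comp_sum e (LB_sum f)))‖ ^ 2 = ‖f‖ ^ 2 := by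
      rw [LB_norm, LB_norm]
      exact e.tsum_eq (fun x => f x ^ 2)
    exact (pow_left_inj₀ (norm_nonneg _) (norm_nonneg _) two_ne_zero).mp h1)

theorem LB_cmp_apply (e : Equiv.Perm X) (f : LBl2 X) (x : X) : LB_cmp e f x = f (e x) := rfl

/-- the Riesz kernel -/
theorem LB_kernel (p0 p1 p2 : Equiv.Perm X) (C : ℝ) (hC : 0 < C)
    (h : ∀ g : X → ℝ, Summable (fun x => g x ^ 2) → (∀ x, g (p0 x) = - g x) →
      (∀ x, g (p1 x) = - g x) → ∑' x, g x ^ 2 ≤ C * ∑' x, (g x + g (p2 x)) ^ 2) :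
    ∃ K : X → X → ℝ, (∀ x, Summable (fun y => K x y ^ 2)) ∧ (∀ x y, K x (p0 y) = - K x y) ∧
      (∀ x y, K x (p1 y) = - K x y) ∧ ∀ x, ∀ g : X → ℝ, Summable (fun x => g x ^ 2) →
        (∀ x, g (p0 x) = - g x) → (∀ x, g (p1 x) = - g x) →
        ∑' y, (K x y + K x (p2 y)) * (g y + g (p2 y)) = g x := by
  classical
  -- the closed subspace
  let A0 : LBl2 X →L[ℝ] LBl2 X := LB_cmp p0 + ContinuousLinearMap.id ℝ _
  let A1 : LBl2 X →L[ℝ] LBl2 X := LB_cmp p1 + ContinuousLinearMap.id ℝ _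
  let V : Submodule ℝ (LBl2 X) := LinearMap.ker (A0 : LBl2 X →ₗ[ℝ] LBl2 X) ⊓ LinearMap.ker (A1 : LBl2 X →ₗ[ℝ] LBl2 X)
  have hVc : IsClosed (V : Set (LBl2 X)) := by
    have h0 : IsClosed ((LinearMap.ker (A0 : LBl2 X →ₗ[ℝ] LBl2 X) : Submodule ℝ (LBl2 X)) : Set (LBl2 X)) :=
      A0.isClosed_ker
    have h1 : IsClosed ((LinearMap.ker (A1 : LBl2 X →ₗ[ℝ] LBl2 X) : Submodule ℝ (LBl2 X)) : Set (LBl2 X)) :=
      A1.isClosed_ker
    exact h0.inter h1
  have hVm : ∀ f : LBl2 X, f ∈ V ↔ (∀ x, f (p0 x) = - f x) ∧ (∀ x, f (p1 x) = - f x) := by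
    intro f
    constructor
    · rintro ⟨h0, h1⟩
      have h0' : A0 f = 0 := h0
      have h1' : A1 f = 0 := h1
      constructor
      · intro x
        have := congrArg (fun u : LBl2 X => u x) h0'
        have h3 : f (p0 x) + f x = 0 := this
        linarith
      · intro x
        have := congrArg (fun u : LBl2 X => u x) h1'
        have h3 : f (p1 x) + f x = 0 := this
        linarith
    · rintro ⟨h0, h1⟩
      constructor
      · change A0 f = 0
        apply lp.ext
        funext x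
        change f (p0 x) + f x = 0
        rw [h0]; ring
      · change A1 f = 0
        apply lp.ext
        funext x
        change f (p1 x) + f x = 0
        rw [h1]; ring
  have : CompleteSpace V := hVc.completeSpace_coe
  let D : LBl2 X →L[ℝ] LBl2 X := ContinuousLinearMap.id ℝ _ + LB_cmp p2
  let DV : V →L[ℝ] LBl2 X := D.comp V.subtypeL
  let B : V →L[ℝ] V →L[ℝ] ℝ := (innerSL ℝ).bilinearComp DV DV
  have hB : ∀ u v : V, B u v = ∑' y, ((u : LBl2 X) y + (u : LBl2 X) (p2 y)) *
      ((v : LBl2 X) y + (v : LBl2 X) (p2 y)) := by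
    intro u v
    change ⟪DV u, DV v⟫_ℝ = _
    rw [LB_inner]
    rfl
  have hco : IsCoercive B := by
    refine ⟨1 / C, by positivity, ?_⟩
    intro u
    have h1 := (hVm u).mp u.2
    have h2 := h (u : LBl2 X) (LB_sum _) h1.1 h1.2
    have h3 : B u u = ∑' x, ((u : LBl2 X) x + (u : LBl2 X) (p2 x)) ^ 2 := by
      rw [hB]
      congr 1
      funext y
      ring
    rw [h3]
    have h4 : ‖u‖ * ‖u‖ = ∑' x, (u : LBl2 X) x ^ 2 := by
      rw [← LB_norm, ← sq]
      rfl
    rw [mul_assoc, h4, div_mul_eq_mul_div, one_mul, div_le_iff₀ hC]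
    linarith
  let S := hco.continuousLinearEquivOfBilin
  let φ : X → (V →L[ℝ] ℝ) := fun x => (innerSL ℝ (lp.single 2 x (1 : ℝ) : LBl2 X)).comp V.subtypeL
  have hφ : ∀ x (v : V), φ x v = (v : LBl2 X) x := by
    intro x v
    change ⟪(lp.single 2 x (1 : ℝ) : LBl2 X), (v : LBl2 X)⟫_ℝ = _
    rw [lp.inner_single_left]
    simp
  let Kv : X → V := fun x => S.symm ((InnerProductSpace.toDual ℝ V).symm (φ x))
  have hK : ∀ x (v : V), B (Kv x) v = (v : LBl2 X) x := by
    intro x v
    rw [← hco.continuousLinearEquivOfBilin_apply]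
    change ⟪S (S.symm ((InnerProductSpace.toDual ℝ V).symm (φ x))), v⟫_ℝ = _
    rw [ContinuousLinearEquiv.apply_symm_apply, InnerProductSpace.toDual_symm_apply, hφ]
  refine ⟨fun x y => (Kv x : LBl2 X) y, fun x => LB_sum _, fun x => ((hVm _).mp (Kv x).2).1,
    fun x => ((hVm _).mp (Kv x).2).2, ?_⟩
  intro x g hg g0 g1
  have hm : LB_mk g hg ∈ V := (hVm _).mpr ⟨g0, g1⟩
  have := hK x ⟨LB_mk g hg, hm⟩
  rw [hB] at this
  exact this


/-- the parity rule along a face -/
theorem LB_par {s0 s1 s2 : X → X} {k : ℕ} {n : X → ℕ} {ε : X → ℝ} (A : AF X s0 s1 s2 k n ε)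
    {g : X → ℝ} (g0 : ∀ y, g (s0 y) = - g y) (g1 : ∀ y, g (s1 y) = - g y) {x y : X}
    (h : Rch s0 s1 x y) : g y * ε y = g x * ε x := by
  induction h with
  | refl => rfl
  | tail _ h2 ih =>
    rcases h2 with h2 | h2
    · rw [h2, g0, A.ε0]; linarith
    · rw [h2, g1, A.ε1]; linarith

theorem lb (HM : S_MT) : S_LB := by
  classical
  intro X s0 s1 s2 k n ε A P
  obtain ⟨C, hC, hP⟩ := P
  let p0 := LB_perm s0 A.i0
  let p1 := LB_perm s1 A.i1
  let p2 := LB_perm s2 A.i2
  have hco : ∀ g : X → ℝ, Summable (fun x => g x ^ 2) → (∀ x, g (s0 x) = - g x) →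
      (∀ x, g (s1 x) = - g x) → ∑' x, g x ^ 2 ≤ C * ∑' x, (g x + g (s2 x)) ^ 2 := by
    intro g hg g0 g1
    have hs : Summable (fun x => (g x + g (s2 x)) ^ 2) := LB_add hg (LB_comp_sum p2 hg)
    have h1 := hP (fun x => |g x|) (fun x => by rw [g0, abs_neg]) (fun x => by rw [g1, abs_neg])
      (by simpa only [sq_abs] using hg)
    simp only [sq_abs] at h1
    have hle : ∀ x, (|g (s2 x)| - |g x|) ^ 2 ≤ (g x + g (s2 x)) ^ 2 := by
      intro x
      have h3 := sq_abs (g (s2 x))
      have h4 := sq_abs (g x)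
      have h5 : -(g x * g (s2 x)) ≤ |g (s2 x)| * |g x| := by
        rw [← abs_mul, mul_comm (g x)]
        exact neg_le_abs _
      nlinarith
    have hs' : Summable (fun x => (|g (s2 x)| - |g x|) ^ 2) :=
      Summable.of_nonneg_of_le (fun x => sq_nonneg _) hle hs
    have h2 := Summable.tsum_le_tsum hle hs' hs
    exact h1.trans (mul_le_mul_of_nonneg_left h2 hC.le)
  obtain ⟨K, K2, K0, K1, KE⟩ := LB_kernel p0 p1 p2 C hC hco
  have K0' : ∀ x y, K x (s0 y) = - K x y := K0
  have K1' : ∀ x y, K x (s1 y) = - K x y := K1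
  have KE' : ∀ x, ∀ g : X → ℝ, Summable (fun x => g x ^ 2) →
        (∀ x, g (s0 x) = - g x) → (∀ x, g (s1 x) = - g x) →
        ∑' y, (K x y + K x (s2 y)) * (g y + g (s2 y)) = g x := KE
  clear K0 K1 KE
  -- symmetry
  have Ksym : ∀ x y, K x y = K y x := by
    intro x y
    rw [← KE' x (K y) (K2 y) (K0' y) (K1' y), ← KE' y (K x) (K2 x) (K0' x) (K1' x)]
    congr 1
    funext z
    ring
  -- square summability of the boundary
  have hbs : ∀ g : X → ℝ, Summable (fun x => g x ^ 2) → Summable (fun x => (g x + g (s2 x)) ^ 2) :=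
    fun g hg => LB_add hg (LB_comp_sum p2 hg)
  -- invariance
  have Kinv : ∀ γ : Equiv.Perm X, (∀ z, γ (s0 z) = s0 (γ z)) → (∀ z, γ (s1 z) = s1 (γ z)) →
      (∀ z, γ (s2 z) = s2 (γ z)) → ∀ x y, K (γ x) (γ y) = K x y := by
    intro γ h0 h1 h2 x
    have i0 : ∀ z, γ.symm (s0 z) = s0 (γ.symm z) := by
      intro z; rw [Equiv.symm_apply_eq, h0, Equiv.apply_symm_apply]
    have i1 : ∀ z, γ.symm (s1 z) = s1 (γ.symm z) := by
      intro z; rw [Equiv.symm_apply_eq, h1, Equiv.apply_symm_apply]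
    have i2 : ∀ z, γ.symm (s2 z) = s2 (γ.symm z) := by
      intro z; rw [Equiv.symm_apply_eq, h2, Equiv.apply_symm_apply]
    set F : X → ℝ := fun y => K (γ x) (γ y) with hF
    have F2 : Summable (fun y => F y ^ 2) := LB_comp_sum γ (K2 (γ x))
    have F0 : ∀ y, F (s0 y) = - F y := by intro y; rw [hF]; simp only; rw [h0, K0']
    have F1 : ∀ y, F (s1 y) = - F y := by intro y; rw [hF]; simp only; rw [h1, K1']
    have FE : ∀ g : X → ℝ, Summable (fun x => g x ^ 2) →
        (∀ x, g (s0 x) = - g x) → (∀ x, g (s1 x) = - g x) →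
        ∑' y, (F y + F (s2 y)) * (g y + g (s2 y)) = g x := by
      intro g hg g0 g1
      have h := KE' (γ x) (fun z => g (γ.symm z)) (LB_comp_sum γ.symm hg)
        (fun z => by rw [i0, g0]) (fun z => by rw [i1, g1])
      rw [Equiv.symm_apply_apply] at h
      rw [← h, ← γ.tsum_eq (fun y => (K (γ x) y + K (γ x) (s2 y)) *
        (g (γ.symm y) + g (γ.symm (s2 y))))]
      congr 1
      funext y
      change (K (γ x) (γ y) + K (γ x) (γ (s2 y))) * (g y + g (s2 y)) =
        (K (γ x) (γ y) + K (γ x) (s2 (γ y))) * (g (γ.symm (γ y)) + g (γ.symm (s2 (γ y))))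
      rw [← h2, Equiv.symm_apply_apply, Equiv.symm_apply_apply]
    -- uniqueness
    set d : X → ℝ := fun y => F y + (- K x y) with hd
    have d2 : Summable (fun y => d y ^ 2) := LB_add F2 (LB_neg (K2 x))
    have d0 : ∀ y, d (s0 y) = - d y := by intro y; rw [hd]; simp only; rw [F0, K0']; ring
    have d1 : ∀ y, d (s1 y) = - d y := by intro y; rw [hd]; simp only; rw [F1, K1']; ring
    have e1 := FE d d2 d0 d1
    have e2 := KE' x d d2 d0 d1
    have u1 : Summable (fun y => (F y + F (s2 y)) * (d y + d (s2 y))) := LB_summ (hbs F F2) (hbs d d2)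
    have u2 : Summable (fun y => (K x y + K x (s2 y)) * (d y + d (s2 y))) :=
      LB_summ (hbs _ (K2 x)) (hbs d d2)
    have e3 : ∑' y, (d y + d (s2 y)) ^ 2 = 0 := by
      have : ∀ y, (d y + d (s2 y)) ^ 2 = (F y + F (s2 y)) * (d y + d (s2 y)) -
          (K x y + K x (s2 y)) * (d y + d (s2 y)) := by
        intro y; rw [hd]; simp only; ring
      rw [tsum_congr this, u1.tsum_sub u2, e1, e2, sub_self]
    have e4 := hco d d2 d0 d1
    rw [e3, mul_zero] at e4
    have e5 : ∑' y, d y ^ 2 = 0 := le_antisymm e4 (tsum_nonneg fun y => sq_nonneg _)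
    have e6 : (fun y => d y ^ 2) = 0 := by
      have := (hasSum_zero_iff_of_nonneg (fun y => sq_nonneg (d y))).mp (e5 ▸ d2.hasSum)
      exact this
    intro y
    have e7 := congrFun e6 y
    have e8 : d y = 0 := by
      have : d y ^ 2 = 0 := e7
      exact pow_eq_zero_iff two_ne_zero |>.mp this
    have : F y + (- K x y) = 0 := e8
    have h9 : F y = K (γ x) (γ y) := rfl
    linarith
  -- the diagonal function
  set q : X → ℝ := fun y => K y y + K y (s2 y) with hq
  have qinv : ∀ γ : Equiv.Perm X, (∀ z, γ (s0 z) = s0 (γ z)) → (∀ z, γ (s1 z) = s1 (γ z)) →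
      (∀ z, γ (s2 z) = s2 (γ z)) → ∀ x, q (γ x) = q x := by
    intro γ h0 h1 h2 x
    rw [hq]; simp only
    rw [← h2, Kinv γ h0 h1 h2, Kinv γ h0 h1 h2]
  have εm : ∀ y, ε y * ε y = 1 := fun y => by have := A.εsq y; rwa [sq] at this
  -- the sum over a face
  have qface : ∀ x, (∑ᶠ (z : X) (_ : Rch s0 s1 x z), q z) = 1 / 2 := by
    intro x
    set Fs : Finset X := (A.fcard x).1.toFinset with hFs
    have hmem : ∀ y, y ∈ Fs ↔ Rch s0 s1 x y := by
      intro y; rw [hFs, Set.Finite.mem_toFinset]; rfl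
    have m0 : ∀ y, s0 y ∈ Fs ↔ y ∈ Fs := by
      intro y
      rw [hmem, hmem]
      constructor
      · intro h
        have := h.tail (Or.inl rfl : s0 (s0 y) = s0 (s0 y) ∨ s0 (s0 y) = s1 (s0 y))
        rwa [A.i0] at this
      · intro h
        exact h.tail (Or.inl rfl)
    have m1 : ∀ y, s1 y ∈ Fs ↔ y ∈ Fs := by
      intro y
      rw [hmem, hmem]
      constructor
      · intro h
        have := h.tail (Or.inr rfl : s1 (s1 y) = s0 (s1 y) ∨ s1 (s1 y) = s1 (s1 y))
        rwa [A.i1] at this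
      · intro h
        exact h.tail (Or.inr rfl)
    have hx : x ∈ Fs := (hmem x).mpr Relation.ReflTransGen.refl
    set w : X → ℝ := fun y => if y ∈ Fs then ε y else 0 with hw
    have w0 : ∀ y, w (s0 y) = - w y := by
      intro y; rw [hw]; simp only [m0, A.ε0]; split_ifs <;> simp
    have w1 : ∀ y, w (s1 y) = - w y := by
      intro y; rw [hw]; simp only [m1, A.ε1]; split_ifs <;> simp
    have wz : ∀ y ∉ Fs, w y = 0 := by
      intro y hy; rw [hw]; simp only; rw [if_neg hy]
    have w2 : Summable (fun y => w y ^ 2) := by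
      apply summable_of_ne_finset_zero (s := Fs)
      intro y hy
      rw [wz y hy]; ring
    have e1 := KE' x w w2 w0 w1
    have wx : w x = ε x := by rw [hw]; simp only; rw [if_pos hx]
    rw [wx] at e1
    have u0 : Summable (fun y => (K x y + K x (s2 y)) * w y) := LB_summ (hbs _ (K2 x)) w2
    have u1 : Summable (fun y => (K x y + K x (s2 y)) * w (s2 y)) :=
      LB_summ (hbs _ (K2 x)) (LB_comp_sum p2 w2)
    have e2 : ∑' y, (K x y + K x (s2 y)) * w (s2 y) = ∑' y, (K x y + K x (s2 y)) * w y := by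
      rw [← p2.tsum_eq (fun y => (K x y + K x (s2 y)) * w y)]
      congr 1
      funext y
      change _ = (K x (s2 y) + K x (s2 (s2 y))) * w (s2 y)
      rw [A.i2]
      ring
    have e3 : ∑' y, (K x y + K x (s2 y)) * (w y + w (s2 y)) =
        2 * ∑' y, (K x y + K x (s2 y)) * w y := by
      have : ∀ y, (K x y + K x (s2 y)) * (w y + w (s2 y)) =
          (K x y + K x (s2 y)) * w y + (K x y + K x (s2 y)) * w (s2 y) := fun y => by ring
      rw [tsum_congr this, u0.tsum_add u1, e2]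
      ring
    have e4 : ∑' y, (K x y + K x (s2 y)) * w y = ∑ y ∈ Fs, (K x y + K x (s2 y)) * w y := by
      apply tsum_eq_sum
      intro y hy
      rw [wz y hy]; ring
    have e5 : ∑ y ∈ Fs, (K x y + K x (s2 y)) * w y = ε x * ∑ y ∈ Fs, q y := by
      rw [Finset.mul_sum]
      apply Finset.sum_congr rfl
      intro y hy
      have hy' := (hmem y).mp hy
      have a1 : ∀ z, K y z * ε y = K x z * ε x := by
        intro z
        have := LB_par A (K0' z) (K1' z) hy'
        rw [Ksym z y, Ksym z x] at this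
        exact this
      have a2 : ∀ z, K x z * ε y = ε x * K y z := by
        intro z
        have h3 : K x z * ε y = K x z * ε x * (ε x * ε y) := by
          rw [show K x z * ε x * (ε x * ε y) = K x z * ε y * (ε x * ε x) by ring, εm, mul_one]
        rw [h3, ← a1, show K y z * ε y * (ε x * ε y) = ε x * K y z * (ε y * ε y) by ring, εm,
          mul_one]
      have a3 : w y = ε y := by rw [hw]; simp only; rw [if_pos hy]
      rw [a3, hq]
      simp only
      rw [add_mul, a2, a2]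
      ring
    have e6 : (∑ᶠ (z : X) (_ : Rch s0 s1 x z), q z) = ∑ y ∈ Fs, q y :=
      finsum_mem_eq_finite_toFinset_sum q (A.fcard x).1
    rw [e6]
    rw [e3, e4, e5] at e1
    have hεx : ε x ≠ 0 := by
      intro h0
      have := εm x
      rw [h0] at this
      norm_num at this
    have e7 : ε x * (2 * ∑ y ∈ Fs, q y) = ε x * 1 := by linarith
    have e8 := mul_left_cancel₀ hεx e7
    linarith
  -- assembling
  refine ⟨fun x y => (K x y + K (s2 x) y) + (K x (s2 y) + K (s2 x) (s2 y)), ?_, ?_, ?_⟩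
  · intro x
    refine ⟨fun y => K x y + K (s2 x) y, LB_add (K2 x) (K2 (s2 x)), ?_, ?_, fun y => rfl⟩
    · intro y; simp only; rw [K0', K0']; ring
    · intro y; simp only; rw [K1', K1']; ring
  · intro x g hg g0 g1
    have e1 := KE' x g hg g0 g1
    have e2 := KE' (s2 x) g hg g0 g1
    have u1 := LB_summ (hbs _ (K2 x)) (hbs g hg)
    have u2 := LB_summ (hbs _ (K2 (s2 x))) (hbs g hg)
    rw [← e1, ← e2, ← u1.tsum_add u2]
    congr 1
    funext y
    ring
  · intro x
    have hb : ∀ y, (∑' z, ((K y z + K (s2 y) z) + (K y (s2 z) + K (s2 y) (s2 z))) ^ 2) =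
        q y + q (s2 y) := by
      intro y
      set g : X → ℝ := fun z => K y z + K (s2 y) z with hg
      have g2 : Summable (fun z => g z ^ 2) := LB_add (K2 y) (K2 (s2 y))
      have g0 : ∀ z, g (s0 z) = - g z := by intro z; rw [hg]; simp only; rw [K0', K0']; ring
      have g1 : ∀ z, g (s1 z) = - g z := by intro z; rw [hg]; simp only; rw [K1', K1']; ring
      have e1 := KE' y g g2 g0 g1
      have e2 := KE' (s2 y) g g2 g0 g1
      have u1 := LB_summ (hbs _ (K2 y)) (hbs g g2)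
      have u2 := LB_summ (hbs _ (K2 (s2 y))) (hbs g g2)
      have e3 : (∑' z, ((K y z + K (s2 y) z) + (K y (s2 z) + K (s2 y) (s2 z))) ^ 2) =
          g y + g (s2 y) := by
        rw [← e1, ← e2, ← u1.tsum_add u2]
        congr 1
        funext z
        rw [hg]
        simp only
        ring
      rw [e3, hg, hq]
      simp only
      rw [A.i2]
      ring
    have hfin := (A.vcard x).1
    have c1 : (∑ᶠ (y : X) (_ : Rch s1 s2 x y),
        ∑' z, ((K y z + K (s2 y) z) + (K y (s2 z) + K (s2 y) (s2 z))) ^ 2) =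
        (∑ᶠ (y : X) (_ : Rch s1 s2 x y), q y) + ∑ᶠ (y : X) (_ : Rch s1 s2 x y), q (s2 y) := by
      simp_rw [hb]
      exact finsum_mem_add_distrib (s := {y | Rch s1 s2 x y}) hfin
    have c2 : (∑ᶠ (y : X) (_ : Rch s1 s2 x y), q (s2 y)) =
        ∑ᶠ (y : X) (_ : Rch s1 s2 x y), q y := by
      refine finsum_mem_eq_of_bijOn (s := {y | Rch s1 s2 x y}) (t := {y | Rch s1 s2 x y})
        s2 ⟨?_, ?_, ?_⟩ (fun y _ => rfl)
      · intro y hy
        exact Relation.ReflTransGen.tail hy (Or.inr rfl)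
      · intro y _ z _ h
        have := congrArg s2 h
        rwa [A.i2, A.i2] at this
      · intro y hy
        exact ⟨s2 y, Relation.ReflTransGen.tail hy (Or.inr rfl), A.i2 y⟩
    have c3 := HM X s0 s1 s2 k n ε A q qinv x
    have c4 : (∑ᶠ (y : X) (_ : Rch s1 s2 x y), (1 / (2 * (n y : ℝ))) *
        ∑ᶠ (z : X) (_ : Rch s0 s1 y z), q z) =
        ∑ᶠ (y : X) (_ : Rch s1 s2 x y), (1 / (2 * (n y : ℝ))) * (1 / 2) := by
      simp_rw [qface]
    have c5 : (∑ᶠ (y : X) (_ : Rch s1 s2 x y), (1 / (2 * (n y : ℝ))) * (1 / 2)) +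
        (∑ᶠ (y : X) (_ : Rch s1 s2 x y), (1 / (2 * (n y : ℝ))) * (1 / 2)) =
        ∑ᶠ (y : X) (_ : Rch s1 s2 x y), 1 / (2 * (n y : ℝ)) := by
      have h7 := (finsum_mem_add_distrib (s := {y | Rch s1 s2 x y})
        (f := fun y => (1 / (2 * (n y : ℝ))) * (1 / 2))
        (g := fun y => (1 / (2 * (n y : ℝ))) * (1 / 2)) hfin)
      refine h7.symm.trans ?_
      congr 1
      funext y
      congr 1
      funext _
      ring
    rw [c1, c2, c3, c4, c5]

end LBsec

end H292.TL
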