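import Pool.Agent.H292.TL.FB

set_option autoImplicit false
open scoped UpperHalfPlane Topology
open Set

namespace H292.TL

/-- Cocycles on an open cover of a simply connected space with constant transition functions are
trivial: the abstract covering space argument. -/
theorem mon_cover {B : Type} [TopologicalSpace B] [SimplyConnectedSpace B]
    [LocallyPathConnectedSpace B] (G : Type) [Group G] (U : B → Set B) (hU : ∀ x, IsOpen (U x))
    (hxU : ∀ x, x ∈ U x) (c : B → B → B → G)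
    (hself : ∀ x, ∀ y ∈ U x, c x x y = 1)
    (hconst : ∀ x x', ∀ y ∈ U x ∩ U x', ∀ y' ∈ U x ∩ U x', c x x' y = c x x' y')
    (hcomp : ∀ x x' x'', ∀ y ∈ U x ∩ U x' ∩ U x'', c x x' y * c x' x'' y = c x x'' y) :
    ∃ γ : B → G, ∀ x, ∀ᶠ y in 𝓝 x, γ y * c y x y = γ x * c x x x := by
  classical
  letI : TopologicalSpace G := ⊥
  haveI : DiscreteTopology G := ⟨rfl⟩
  let Z : FiberBundleCore B B G :=
    { baseSet := U
      isOpen_baseSet := hU
      indexAt := fun x => x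
      mem_baseSet_at := hxU
      coordChange := fun x x' y g => g * c x x' y
      coordChange_self := by
        intro x y hy g
        rw [hself x y hy, mul_one]
      continuousOn_coordChange := by
        intro x x'
        rcases (U x ∩ U x').eq_empty_or_nonempty with he | ⟨y₀, hy₀⟩
        · rw [he, empty_prod]
          exact continuousOn_empty _
        · have h1 : ContinuousOn (fun p : B × G => p.2 * c x x' y₀) ((U x ∩ U x') ×ˢ univ) := by
            have h2 : Continuous (fun g : G => g * c x x' y₀) := continuous_of_discreteTopology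
            exact (h2.comp continuous_snd).continuousOn
          refine h1.congr ?_
          rintro ⟨y, g⟩ hy
          simp only
          rw [hconst x x' y hy.1 y₀ hy₀]
      coordChange_comp := by
        intro x x' x'' y hy g
        rw [mul_assoc, hcomp x x' x'' y hy] }
  have hcov : IsCoveringMap (Bundle.TotalSpace.proj : Z.TotalSpace → B) :=
    FiberBundle.isCoveringMap
  obtain ⟨b₀⟩ : Nonempty B := inferInstance
  let e₀ : Z.TotalSpace := ⟨b₀, (1 : G)⟩
  obtain ⟨σ, ⟨_, hσ⟩, _⟩ := hcov.existsUnique_continuousMap_lifts (ContinuousMap.id B) b₀ e₀ rfl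
  have hproj : ∀ y, (σ y).proj = y := fun y => congrFun hσ y
  have hmem : ∀ x, ∀ y ∈ U x, σ y ∈ (Z.localTriv x).source := by
    intro x y hy
    rw [FiberBundleCore.mem_localTriv_source, hproj]
    exact hy
  let γ : B → G := fun y => (σ y).2
  refine ⟨γ, fun x => ?_⟩
  have hcont : ContinuousAt (fun y => (Z.localTriv x (σ y)).2) x := by
    have h1 : ContinuousAt (Z.localTriv x) (σ x) :=
      (Z.localTriv x).continuousAt (hmem x x (hxU x))
    exact (continuous_snd.continuousAt).comp (h1.comp σ.continuous.continuousAt)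
  have h2 : ∀ᶠ y in 𝓝 x, (Z.localTriv x (σ y)).2 = (Z.localTriv x (σ x)).2 := by
    have h3 : ({(Z.localTriv x (σ x)).2} : Set G) ∈ 𝓝 (Z.localTriv x (σ x)).2 :=
      (isOpen_discrete _).mem_nhds rfl
    exact hcont h3
  filter_upwards [h2] with y hy
  rw [FiberBundleCore.localTriv_apply, FiberBundleCore.localTriv_apply] at hy
  have h4 : γ y * c (σ y).proj x (σ y).proj = γ x * c (σ x).proj x (σ x).proj := hy
  rw [hproj, hproj] at h4
  exact h4

theorem mon : S_MON := by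
  intro T hclosed hconn hcover hlf G _ ρ hρ
  classical
  choose τ hτT hτ using hcover
  have h1 : ∀ s ∈ T, s.Nonempty → ρ s s = 1 := by
    intro s hs hne
    have h2 := hρ s hs s hs s hs (by rwa [inter_self, inter_self])
    exact mul_eq_left.1 h2
  have h2 : ∀ s ∈ T, ∀ t ∈ T, (s ∩ t).Nonempty → ρ s t * ρ t s = 1 := by
    intro s hs t ht hne
    rw [hρ s hs t ht s hs (by
      obtain ⟨p, hp⟩ := hne
      exact ⟨p, hp, hp.1⟩), h1 s hs (by
      obtain ⟨p, hp⟩ := hne
      exact ⟨p, hp.1⟩)]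
  have h3 : ∀ (x : ℍ), ∀ s ∈ T, ∀ t ∈ T, ∀ u ∈ T, x ∈ s → x ∈ t → x ∈ u →
      ρ s t * ρ t u = ρ s u := fun x s hs t ht u hu xs xt xu =>
    hρ s hs t ht u hu ⟨x, ⟨xs, xt⟩, xu⟩
  let U : ℍ → Set ℍ := fun x => (⋃ t : {t // t ∈ T ∧ x ∉ t}, (t : Set ℍ))ᶜ
  have hU : ∀ x, IsOpen (U x) := by
    intro x
    rw [isOpen_compl_iff]
    refine LocallyFinite.isClosed_iUnion ?_ (fun t => hclosed _ t.2.1)
    intro y
    refine ⟨Metric.closedBall y 1, Metric.closedBall_mem_nhds y one_pos, ?_⟩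
    have h4 := hlf y 1
    refine Set.Finite.of_finite_image (f := Subtype.val) (h4.subset ?_) (Subtype.val_injective.injOn)
    rintro _ ⟨t, ht, rfl⟩
    exact ⟨t.2.1, ht⟩
  have hUt : ∀ x, ∀ y ∈ U x, ∀ t ∈ T, y ∈ t → x ∈ t := by
    intro x y hy t ht hyt
    by_contra hx
    exact hy (mem_iUnion.2 ⟨⟨t, ht, hx⟩, hyt⟩)
  have hxU : ∀ x, x ∈ U x := by
    intro x hx
    obtain ⟨t, ht⟩ := mem_iUnion.1 hx
    exact t.2.2 ht
  obtain ⟨γ, hγ⟩ := mon_cover G U hU hxU (fun x x' y => ρ (τ x) (τ y) * ρ (τ y) (τ x'))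
    (by
      intro x y hy
      have a1 := hUt x y hy (τ y) (hτT y) (hτ y)
      exact h2 _ (hτT x) _ (hτT y) ⟨x, hτ x, a1⟩)
    (by
      rintro x x' y ⟨hy, hy'⟩ z ⟨hz, hz'⟩
      have a1 := hUt x y hy (τ y) (hτT y) (hτ y)
      have a2 := hUt x z hz (τ z) (hτT z) (hτ z)
      have a3 := hUt x' y hy' (τ y) (hτT y) (hτ y)
      have a4 := hUt x' z hz' (τ z) (hτT z) (hτ z)
      have b1 := h3 x _ (hτT x) _ (hτT z) _ (hτT y) (hτ x) a2 a1
      have b2 := h3 x' _ (hτT y) _ (hτT z) _ (hτT x') a3 a4 (hτ x')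
      have b3 := h2 _ (hτT z) _ (hτT y) ⟨x, a2, a1⟩
      rw [← b1, ← b2]
      calc ρ (τ x) (τ z) * ρ (τ z) (τ y) * (ρ (τ y) (τ z) * ρ (τ z) (τ x'))
          = ρ (τ x) (τ z) * (ρ (τ z) (τ y) * ρ (τ y) (τ z)) * ρ (τ z) (τ x') := by group
        _ = _ := by rw [b3, mul_one])
    (by
      rintro x x' x'' y ⟨⟨hy, hy'⟩, hy''⟩
      have a3 := hUt x' y hy' (τ y) (hτT y) (hτ y)
      have b3 := h2 _ (hτT y) _ (hτT x') ⟨x', a3, hτ x'⟩
      calc ρ (τ x) (τ y) * ρ (τ y) (τ x') * (ρ (τ x') (τ y) * ρ (τ y) (τ x''))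
          = ρ (τ x) (τ y) * (ρ (τ y) (τ x') * ρ (τ x') (τ y)) * ρ (τ y) (τ x'') := by group
        _ = _ := by rw [b3, mul_one])
  -- the coordinate along a tile
  have hloc : ∀ t ∈ T, ∀ x ∈ t, ∀ᶠ y in 𝓝 x, y ∈ t → γ y * ρ (τ y) t = γ x * ρ (τ x) t := by
    intro t ht x hx
    filter_upwards [hγ x, (hU x).mem_nhds (hxU x)] with y hy hyU hyt
    have a1 := hUt x y hyU (τ y) (hτT y) (hτ y)
    have b1 := h1 _ (hτT y) ⟨y, hτ y⟩
    have b2 := h1 _ (hτT x) ⟨x, hτ x⟩
    rw [b1, b2, one_mul, mul_one, mul_one] at hy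
    rw [← hy, mul_assoc, h3 x _ (hτT y) _ (hτT x) _ ht a1 (hτ x) hx]
  have hcst : ∀ t ∈ T, ∀ x ∈ t, ∀ y ∈ t, γ y * ρ (τ y) t = γ x * ρ (τ x) t := by
    intro t ht x hx y hy
    letI : TopologicalSpace G := ⊥
    haveI : DiscreteTopology G := ⟨rfl⟩
    have hcont : ContinuousOn (fun y => γ y * ρ (τ y) t) t := by
      intro z hz
      rw [ContinuousWithinAt, nhds_discrete, Filter.tendsto_pure]
      rw [eventually_nhdsWithin_iff]
      exact hloc t ht z hz
    exact (hconn t ht).isPreconnected.constant hcont hy hx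
  have hg : ∀ t : Set ℍ, ∃ g : G, t ∈ T → ∀ y ∈ t, γ y * ρ (τ y) t = g := by
    intro t
    by_cases ht : t ∈ T
    · obtain ⟨p, hp⟩ := (hconn t ht).nonempty
      exact ⟨γ p * ρ (τ p) t, fun _ y hy => hcst t ht p hp y hy⟩
    · exact ⟨1, fun h => absurd h ht⟩
  choose g hg using hg
  refine ⟨g, ?_⟩
  rintro s hs t ht ⟨y, hys, hyt⟩
  rw [← hg s hs y hys, ← hg t ht y hyt, mul_assoc,
    h3 y _ (hτT y) _ hs _ ht (hτ y) hys hyt]

end H292.TL
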