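import Pool.Agent.H292.TL.FB

/-!
Project TL: mass transport (S_MT), by double counting of triples `(y, z, γ)` with `y` and `γ z` at
the vertex of `x` and `z` in the face of `y`.
-/

set_option autoImplicit false
open scoped UpperHalfPlane Topology
open Set

namespace H292.TL

namespace MTaux

variable {X : Type}

/-- automorphisms of the flag system -/
def Com (s0 s1 s2 : X → X) (γ : Equiv.Perm X) : Prop :=
  (∀ z, γ (s0 z) = s0 (γ z)) ∧ (∀ z, γ (s1 z) = s1 (γ z)) ∧ (∀ z, γ (s2 z) = s2 (γ z))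

variable {s0 s1 s2 : X → X}

theorem com_inv {γ : Equiv.Perm X} (h : Com s0 s1 s2 γ) : Com s0 s1 s2 γ⁻¹ := by
  refine ⟨fun z => ?_, fun z => ?_, fun z => ?_⟩
  · rw [Equiv.Perm.inv_eq_iff_eq, h.1]
    simp
  · rw [Equiv.Perm.inv_eq_iff_eq, h.2.1]
    simp
  · rw [Equiv.Perm.inv_eq_iff_eq, h.2.2]
    simp

theorem com_mul {γ γ' : Equiv.Perm X} (h : Com s0 s1 s2 γ) (h' : Com s0 s1 s2 γ') :
    Com s0 s1 s2 (γ * γ') := by
  refine ⟨fun z => ?_, fun z => ?_, fun z => ?_⟩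
  · rw [Equiv.Perm.mul_apply, Equiv.Perm.mul_apply, h'.1, h.1]
  · rw [Equiv.Perm.mul_apply, Equiv.Perm.mul_apply, h'.2.1, h.2.1]
  · rw [Equiv.Perm.mul_apply, Equiv.Perm.mul_apply, h'.2.2, h.2.2]

theorem com_one : Com s0 s1 s2 (1 : Equiv.Perm X) :=
  ⟨fun _ => rfl, fun _ => rfl, fun _ => rfl⟩

theorem rch_map {a b : X → X} {γ : Equiv.Perm X} (ha : ∀ z, γ (a z) = a (γ z))
    (hb : ∀ z, γ (b z) = b (γ z)) {y z : X} (h : Rch a b y z) : Rch a b (γ y) (γ z) := by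
  unfold Rch at h ⊢
  induction h with
  | refl => exact Relation.ReflTransGen.refl
  | tail _ h2 ih =>
    refine ih.tail ?_
    rcases h2 with h2 | h2
    · left; rw [h2, ha]
    · right; rw [h2, hb]

theorem com_ext (hc : ∀ x y, Rch3 s0 s1 s2 x y) {γ γ' : Equiv.Perm X} (h : Com s0 s1 s2 γ)
    (h' : Com s0 s1 s2 γ') {z : X} (hz : γ z = γ' z) : γ = γ' := by
  ext w
  have := hc z w
  unfold Rch3 at this
  induction this with
  | refl => exact hz
  | tail _ h2 ih =>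
    rcases h2 with h2 | h2 | h2
    · rw [h2, h.1, h'.1, ih]
    · rw [h2, h.2.1, h'.2.1, ih]
    · rw [h2, h.2.2, h'.2.2, ih]

end MTaux

open MTaux

theorem mt : S_MT := by
  intro X s0 s1 s2 k n ε H q hq x
  have hq' : ∀ γ : Equiv.Perm X, Com s0 s1 s2 γ → ∀ y, q (γ y) = q y :=
    fun γ h y => hq γ h.1 h.2.1 h.2.2 y
  have Vsymm : ∀ {y z : X}, Rch s1 s2 y z → Rch s1 s2 z y := fun h => Rch.symm' H.i1 H.i2 h
  have Fsymm : ∀ {y z : X}, Rch s0 s1 y z → Rch s0 s1 z y := fun h => Rch.symm' H.i0 H.i1 h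
  have Vtrans : ∀ {y z w : X}, Rch s1 s2 y z → Rch s1 s2 z w → Rch s1 s2 y w :=
    fun h h' => Relation.ReflTransGen.trans h h'
  have Ftrans : ∀ {y z w : X}, Rch s0 s1 y z → Rch s0 s1 z w → Rch s0 s1 y w :=
    fun h h' => Relation.ReflTransGen.trans h h'
  -- the number of sides is constant on faces
  have hn : ∀ {y z : X}, Rch s0 s1 y z → n z = n y := by
    intro y z h
    have h1 := (H.fcard y).2
    have h2 := (H.fcard z).2
    have e : {w | Rch s0 s1 y w} = {w | Rch s0 s1 z w} := by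
      ext w
      exact ⟨fun h' => Ftrans (Fsymm h) h', fun h' => Ftrans h h'⟩
    rw [e] at h1
    omega
  -- and invariant
  have hnγ : ∀ γ : Equiv.Perm X, Com s0 s1 s2 γ → ∀ y, n (γ y) = n y := by
    intro γ h y
    have h1 := (H.fcard y).2
    have h2 := (H.fcard (γ y)).2
    have e : {w | Rch s0 s1 (γ y) w} = γ '' {w | Rch s0 s1 y w} := by
      ext w
      constructor
      · intro h'
        refine ⟨γ⁻¹ w, ?_, by simp⟩
        have hi := com_inv h
        have := rch_map hi.1 hi.2.1 h'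
        simpa using this
      · rintro ⟨w', hw', rfl⟩
        exact rch_map h.1 h.2.1 hw'
    rw [e, Set.ncard_image_of_injective _ γ.injective] at h2
    omega
  let V : Finset X := (H.vcard x).1.toFinset
  have hV : ∀ y, y ∈ V ↔ Rch s1 s2 x y := fun y => by simp [V]
  let F : X → Finset X := fun y => (H.fcard y).1.toFinset
  have hF : ∀ y z, z ∈ F y ↔ Rch s0 s1 y z := fun y z => by simp [F]
  have hFc : ∀ y, (F y).card = 2 * n y := by
    intro y
    rw [← (H.fcard y).2, Set.ncard_eq_toFinset_card _ (H.fcard y).1]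
  have hGfin : ∀ z, {γ : Equiv.Perm X | Com s0 s1 s2 γ ∧ Rch s1 s2 x (γ z)}.Finite := by
    intro z
    refine Set.Finite.of_finite_image (f := fun γ : Equiv.Perm X => γ z)
      ((H.vcard x).1.subset ?_) ?_
    · rintro _ ⟨γ, h, rfl⟩
      exact h.2
    · intro γ h γ' h' e
      exact com_ext H.conn h.1 h'.1 e
  let G : X → Finset (Equiv.Perm X) := fun z => (hGfin z).toFinset
  have hG : ∀ z γ, γ ∈ G z ↔ Com s0 s1 s2 γ ∧ Rch s1 s2 x (γ z) := fun z γ => by simp [G]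
  have hGc : ∀ z, (G z).card = (G x).card := by
    intro z
    obtain ⟨γ₀, g0, g1, g2, g3⟩ := H.trans z x
    have h0 : Com s0 s1 s2 γ₀ := ⟨g0, g1, g2⟩
    have h1 : Rch s1 s2 x (γ₀ z) := Vsymm g3
    symm
    refine Finset.card_bij' (fun γ _ => γ * γ₀) (fun γ _ => γ * γ₀⁻¹) ?_ ?_ ?_ ?_
    · intro γ h
      rw [hG] at h ⊢
      refine ⟨com_mul h.1 h0, ?_⟩
      rw [Equiv.Perm.mul_apply]
      exact Vtrans h.2 (rch_map h.1.2.1 h.1.2.2 h1)
    · intro γ h
      rw [hG] at h ⊢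
      refine ⟨com_mul h.1 (com_inv h0), ?_⟩
      rw [Equiv.Perm.mul_apply]
      have hi := com_inv h0
      have h2 := rch_map hi.2.1 hi.2.2 h1
      have h3 : γ₀⁻¹ (γ₀ z) = z := by simp
      rw [h3] at h2
      exact Vtrans h.2 (Vsymm (rch_map h.1.2.1 h.1.2.2 h2))
    · intro γ _
      simp
    · intro γ _
      simp
  have hc : (0 : ℝ) < (G x).card := by
    have : (1 : Equiv.Perm X) ∈ G x := by
      rw [hG]
      exact ⟨com_one, Relation.ReflTransGen.refl⟩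
    exact_mod_cast Finset.card_pos.mpr ⟨_, this⟩
  -- the kernel
  let Φ : X → X → ℝ := fun y z => (1 / (2 * (n y : ℝ))) * q z
  have hΦ : ∀ γ : Equiv.Perm X, Com s0 s1 s2 γ → ∀ y z, Φ (γ y) (γ z) = Φ y z := by
    intro γ h y z
    simp only [Φ]
    rw [hnγ γ h, hq' γ h]
  -- double counting
  have key : ∀ Ψ : X → X → ℝ, (∑ t ∈ V.sigma (fun y => (F y).sigma (fun z => G z)),
      Ψ t.1 t.2.1) = (G x).card * ∑ y ∈ V, ∑ z ∈ F y, Ψ y z := by
    intro Ψ
    rw [Finset.sum_sigma, Finset.mul_sum]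
    refine Finset.sum_congr rfl fun y _ => ?_
    rw [Finset.sum_sigma, Finset.mul_sum]
    refine Finset.sum_congr rfl fun z _ => ?_
    change ∑ _s ∈ G z, Ψ y z = _
    rw [Finset.sum_const, hGc z, nsmul_eq_mul]
  have swap : (∑ t ∈ V.sigma (fun y => (F y).sigma (fun z => G z)), Φ t.1 t.2.1) =
      ∑ t ∈ V.sigma (fun y => (F y).sigma (fun z => G z)), Φ t.2.1 t.1 := by
    have mem : ∀ t : (_ : X) × (_ : X) × Equiv.Perm X,
        t ∈ V.sigma (fun y => (F y).sigma (fun z => G z)) →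
        (⟨t.2.2 t.2.1, t.2.2 t.1, t.2.2⁻¹⟩ : (_ : X) × (_ : X) × Equiv.Perm X) ∈
          V.sigma (fun y => (F y).sigma (fun z => G z)) := by
      rintro ⟨y, z, γ⟩ h
      simp only [Finset.mem_sigma, hV, hF, hG] at h ⊢
      obtain ⟨h1, h2, h3, h4⟩ := h
      refine ⟨h4, rch_map h3.1 h3.2.1 (Fsymm h2), com_inv h3, ?_⟩
      simpa using h1
    refine Finset.sum_nbij' (fun t => ⟨t.2.2 t.2.1, t.2.2 t.1, t.2.2⁻¹⟩)
      (fun t => ⟨t.2.2 t.2.1, t.2.2 t.1, t.2.2⁻¹⟩) mem mem ?_ ?_ ?_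
    · rintro ⟨y, z, γ⟩ _
      simp
    · rintro ⟨y, z, γ⟩ _
      simp
    · rintro ⟨y, z, γ⟩ h
      simp only [Finset.mem_sigma, hV, hF, hG] at h
      exact (hΦ γ h.2.2.1 y z).symm
  rw [key Φ, key (fun y z => Φ z y)] at swap
  have swap' := mul_left_cancel₀ hc.ne' swap
  have e1 : (∑ᶠ (y : X) (_ : Rch s1 s2 x y), q y) = ∑ y ∈ V, q y :=
    finsum_mem_eq_finite_toFinset_sum _ (H.vcard x).1
  have e2 : (∑ᶠ (y : X) (_ : Rch s1 s2 x y),
      (1 / (2 * (n y : ℝ))) * ∑ᶠ (z : X) (_ : Rch s0 s1 y z), q z) =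
      ∑ y ∈ V, (1 / (2 * (n y : ℝ))) * ∑ᶠ (z : X) (_ : Rch s0 s1 y z), q z :=
    finsum_mem_eq_finite_toFinset_sum _ (H.vcard x).1
  rw [e1, e2]
  have e3 : ∀ y, (1 / (2 * (n y : ℝ))) * (∑ᶠ (z : X) (_ : Rch s0 s1 y z), q z) =
      ∑ z ∈ F y, Φ y z := by
    intro y
    have : (∑ᶠ (z : X) (_ : Rch s0 s1 y z), q z) = ∑ z ∈ F y, q z :=
      finsum_mem_eq_finite_toFinset_sum _ (H.fcard y).1
    rw [this, Finset.mul_sum]
  rw [Finset.sum_congr rfl fun y _ => e3 y, swap']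
  refine Finset.sum_congr rfl fun y _ => ?_
  have e4 : ∀ z ∈ F y, Φ z y = (1 / (2 * (n y : ℝ))) * q y := by
    intro z hz
    rw [hF] at hz
    simp only [Φ]
    rw [hn hz]
  rw [Finset.sum_congr rfl e4, Finset.sum_const, hFc, nsmul_eq_mul]
  have := H.n0 y
  push_cast
  field_simp

end H292.TL
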