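import Pool.Agent.H292.TL.FB

/-!
Project TL: local frames on a tile.
-/

set_option autoImplicit false
open scoped UpperHalfPlane Topology
open Set

namespace H292.TL

variable {T : Set (Set ℍ)}

namespace MT1L

open Classical in
/-- the frame of `y` relative to the base flag `x₀` of its tile -/
noncomputable def mfun (l : ℝ) (x₀ y : Flag T) : ℍ ≃ᵢ ℍ :=
  if h : ∃ i < nn T y.t, y = ut^[i] x₀ then (R1 l (nn T y.t) * R0 l) ^ h.choose
  else if h : ∃ i < nn T y.t, y = s1 (ut^[i] x₀) then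
    (R1 l (nn T y.t) * R0 l) ^ h.choose * R1 l (nn T y.t)
  else 1

theorem excl (H : FS T) (hT : S_TENUM) (x₀ : Flag T) {i j : ℕ} (hi : i < nn T x₀.t)
    (hj : j < nn T x₀.t) : ut^[i] x₀ ≠ s1 (ut^[j] x₀) := by
  intro h
  have h1 := congrArg Flag.v h
  rw [H.toFS1.s1_v] at h1
  have h2 := (hT T H x₀).2.1 i hi j hj h1
  rw [h2] at h
  exact H.toFS1.s1_ne _ h.symm

theorem ev1 (H : FS T) (hT : S_TENUM) (l : ℝ) (x₀ : Flag T) {i : ℕ} (hi : i < nn T x₀.t) :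
    mfun l x₀ (ut^[i] x₀) = (R1 l (nn T x₀.t) * R0 l) ^ i := by
  have ht : (ut^[i] x₀).t = x₀.t := H.toFS1.ut_iter_t x₀ i
  have h : ∃ j < nn T (ut^[i] x₀).t, ut^[i] x₀ = ut^[j] x₀ := ⟨i, by rw [ht]; exact hi, rfl⟩
  unfold mfun
  rw [dif_pos h]
  have h1 := h.choose_spec
  have h2 : h.choose < nn T x₀.t := lt_of_lt_of_eq h1.1 (congrArg (nn T) ht)
  have h3 := (hT T H x₀).2.1 i hi _ h2 (congrArg Flag.v h1.2)
  rw [← h3, ht]

theorem ev2 (H : FS T) (hT : S_TENUM) (l : ℝ) (x₀ : Flag T) {i : ℕ} (hi : i < nn T x₀.t) :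
    mfun l x₀ (s1 (ut^[i] x₀)) = (R1 l (nn T x₀.t) * R0 l) ^ i * R1 l (nn T x₀.t) := by
  have ht : (s1 (ut^[i] x₀)).t = x₀.t := by rw [H.toFS1.s1_t, H.toFS1.ut_iter_t]
  have h0 : ¬ ∃ j < nn T (s1 (ut^[i] x₀)).t, s1 (ut^[i] x₀) = ut^[j] x₀ := by
    rintro ⟨j, hj, hj2⟩
    rw [ht] at hj
    exact excl H hT x₀ hj hi hj2.symm
  have h : ∃ j < nn T (s1 (ut^[i] x₀)).t, s1 (ut^[i] x₀) = s1 (ut^[j] x₀) :=
    ⟨i, by rw [ht]; exact hi, rfl⟩
  unfold mfun
  rw [dif_neg h0, dif_pos h]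
  have h1 := h.choose_spec
  have h2 : h.choose < nn T x₀.t := lt_of_lt_of_eq h1.1 (congrArg (nn T) ht)
  have h4 := congrArg Flag.v h1.2
  rw [H.toFS1.s1_v, H.toFS1.s1_v] at h4
  have h3 := (hT T H x₀).2.1 i hi _ h2 h4
  rw [← h3, ht]

/-- the base flag of a tile -/
noncomputable def bt [Nonempty (Flag T)] (t : Set ℍ) : Flag T :=
  Classical.epsilon (fun z : Flag T => z.t = t)

theorem bt_t [Nonempty (Flag T)] (x : Flag T) : (bt (T := T) x.t).t = x.t :=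
  Classical.epsilon_spec (p := fun z : Flag T => z.t = x.t) ⟨x, rfl⟩

theorem loc (H : FS T) (hR : S_REL) (hT : S_TENUM) {l : ℝ} (hl : 0 < l) (x₀ y : Flag T)
    (hy : y.t = x₀.t) :
    mfun l x₀ (s0 y) = mfun l x₀ y * R0 l ∧
      mfun l x₀ (s1 y) = mfun l x₀ y * R1 l (nn T x₀.t) := by
  obtain ⟨-, -, -, hR0, hR1, hR2⟩ := hR
  have hn3 : 3 ≤ nn T x₀.t := H.n3 _ x₀.ht
  have hA : R1 l (nn T x₀.t) * R1 l (nn T x₀.t) = 1 := (hR1 l _).1
  have hB : R0 l * R0 l = 1 := (hR0 l).1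
  have hAB : (R1 l (nn T x₀.t) * R0 l) ^ (nn T x₀.t) = 1 := hR2 l _ hl hn3
  have hcyc := (hT T H x₀).1
  obtain ⟨i, hi, h | h⟩ := (hT T H x₀).2.2 y hy
  · refine ⟨?_, ?_⟩
    · rcases Nat.eq_zero_or_pos i with h0 | h0
      · subst h0
        obtain ⟨k, hk⟩ : ∃ k, nn T x₀.t = k + 1 := ⟨nn T x₀.t - 1, by omega⟩
        have e1 : y = s0 (s1 (ut^[k] x₀)) := by
          rw [h]
          change x₀ = _
          conv_lhs => rw [← hcyc, hk, Function.iterate_succ_apply']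
          rfl
        have e2 : s0 y = s1 (ut^[k] x₀) := by rw [e1, H.toFS1.s0_s0]
        rw [e2, ev2 H hT l x₀ (by omega), h, ev1 H hT l x₀ (by omega), pow_zero, one_mul]
        have h5 : (R1 l (nn T x₀.t) * R0 l) ^ k * R1 l (nn T x₀.t) * R0 l = 1 := by
          rw [mul_assoc, ← pow_succ, ← hk]
          exact hAB
        have h6 : (R1 l (nn T x₀.t) * R0 l) ^ k * R1 l (nn T x₀.t) * (R0 l * R0 l) = R0 l := by
          rw [← mul_assoc, h5, one_mul]
        rw [hB, mul_one] at h6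
        exact h6
      · obtain ⟨k, rfl⟩ : ∃ k, i = k + 1 := ⟨i - 1, by omega⟩
        have e1 : y = s0 (s1 (ut^[k] x₀)) := by
          rw [h, Function.iterate_succ_apply']
          rfl
        have e2 : s0 y = s1 (ut^[k] x₀) := by rw [e1, H.toFS1.s0_s0]
        rw [e2, ev2 H hT l x₀ (by omega), h, ev1 H hT l x₀ hi, pow_succ]
        simp only [mul_assoc]
        rw [hB, mul_one]
    · rw [h, ev2 H hT l x₀ hi, ev1 H hT l x₀ hi]
  · refine ⟨?_, ?_⟩
    · have e1 : s0 y = ut^[i + 1] x₀ := by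
        rw [h, Function.iterate_succ_apply']
        rfl
      have e2 : mfun l x₀ (ut^[i + 1] x₀) = (R1 l (nn T x₀.t) * R0 l) ^ (i + 1) := by
        rcases (Nat.succ_le_of_lt hi).eq_or_lt with h1 | h1
        · have h2 : i + 1 = nn T x₀.t := h1
          rw [h2, hAB, hcyc]
          have := ev1 H hT l x₀ (i := 0) (by omega)
          rw [pow_zero] at this
          exact this
        · exact ev1 H hT l x₀ h1
      rw [e1, e2, h, ev2 H hT l x₀ hi, pow_succ]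
      simp only [mul_assoc]
    · have e1 : s1 y = ut^[i] x₀ := by rw [h, H.toFS1.s1_s1]
      rw [e1, ev1 H hT l x₀ hi, h, ev2 H hT l x₀ hi, mul_assoc, hA, mul_one]

end MT1L

open MT1L in
theorem mt1 (hR : S_REL) (hT : S_TENUM) : S_MT1 := by
  intro T H l hl
  rcases isEmpty_or_nonempty (Flag T) with hE | hE
  · exact ⟨fun _ => 1, fun x => (hE.false x).elim⟩
  · refine ⟨fun x => mfun l (bt x.t) x, fun x => ?_⟩
    have hb : (bt (T := T) x.t).t = x.t := bt_t x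
    have h := loc H hR hT hl (bt x.t) x hb.symm
    rw [hb] at h
    change mfun l (bt (s0 x).t) (s0 x) = mfun l (bt x.t) x * R0 l ∧
      mfun l (bt (s1 x).t) (s1 x) = mfun l (bt x.t) x * R1 l (nn T x.t)
    rw [H.toFS1.s0_t, H.toFS1.s1_t]
    exact h

end H292.TL
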