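import Pool.Agent.H292.TL.FB

/-!
Project TL: local frames at a vertex.
-/

set_option autoImplicit false
open scoped UpperHalfPlane Topology
open Set

namespace H292.TL

variable {T : Set (Set ℍ)}

namespace MV1L

/-- partial angle sums -/
noncomputable def th (l : ℝ) (x₀ : Flag T) (i : ℕ) : ℝ :=
  ∑ j ∈ Finset.range i, angH l (nn T (uv^[j] x₀).t)

theorem th_succ (l : ℝ) (x₀ : Flag T) (i : ℕ) :
    th l x₀ (i + 1) = th l x₀ i + angH l (nn T (uv^[i] x₀).t) := Finset.sum_range_succ _ _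

open Classical in
/-- the frame of `y` relative to the base flag `x₀` of its vertex -/
noncomputable def mfun (l : ℝ) (x₀ y : Flag T) : ℍ ≃ᵢ ℍ :=
  if h : ∃ i < dg T y.v, y = uv^[i] x₀ then rot (th l x₀ h.choose)
  else if h : ∃ i < dg T y.v, y = s1 (uv^[i] x₀) then
    rot (th l x₀ h.choose) * R1 l (nn T y.t)
  else 1

theorem excl (H : FS T) (hT : S_VENUM) (x₀ : Flag T) {i j : ℕ} (hi : i < dg T x₀.v)
    (hj : j < dg T x₀.v) : uv^[i] x₀ ≠ s1 (uv^[j] x₀) := by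
  intro h
  have h1 := congrArg Flag.t h
  rw [H.toFS1.s1_t] at h1
  have h2 := (hT T H x₀).2.1 i hi j hj h1
  rw [h2] at h
  exact H.toFS1.s1_ne _ h.symm

theorem ev1 (H : FS T) (hT : S_VENUM) (l : ℝ) (x₀ : Flag T) {i : ℕ} (hi : i < dg T x₀.v) :
    mfun l x₀ (uv^[i] x₀) = rot (th l x₀ i) := by
  have ht : (uv^[i] x₀).v = x₀.v := H.toFS1.uv_iter_v x₀ i
  have h : ∃ j < dg T (uv^[i] x₀).v, uv^[i] x₀ = uv^[j] x₀ := ⟨i, by rw [ht]; exact hi, rfl⟩
  unfold mfun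
  rw [dif_pos h]
  have h1 := h.choose_spec
  have h2 : h.choose < dg T x₀.v := lt_of_lt_of_eq h1.1 (congrArg (dg T) ht)
  have h3 := (hT T H x₀).2.1 i hi _ h2 (congrArg Flag.t h1.2)
  rw [← h3]

theorem ev2 (H : FS T) (hT : S_VENUM) (l : ℝ) (x₀ : Flag T) {i : ℕ} (hi : i < dg T x₀.v) :
    mfun l x₀ (s1 (uv^[i] x₀)) = rot (th l x₀ i) * R1 l (nn T (uv^[i] x₀).t) := by
  have ht : (s1 (uv^[i] x₀)).v = x₀.v := by rw [H.toFS1.s1_v, H.toFS1.uv_iter_v]
  have h0 : ¬ ∃ j < dg T (s1 (uv^[i] x₀)).v, s1 (uv^[i] x₀) = uv^[j] x₀ := by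
    rintro ⟨j, hj, hj2⟩
    rw [ht] at hj
    exact excl H hT x₀ hj hi hj2.symm
  have h : ∃ j < dg T (s1 (uv^[i] x₀)).v, s1 (uv^[i] x₀) = s1 (uv^[j] x₀) :=
    ⟨i, by rw [ht]; exact hi, rfl⟩
  unfold mfun
  rw [dif_neg h0, dif_pos h]
  have h1 := h.choose_spec
  have h2 : h.choose < dg T x₀.v := lt_of_lt_of_eq h1.1 (congrArg (dg T) ht)
  have h4 := congrArg Flag.t h1.2
  rw [H.toFS1.s1_t, H.toFS1.s1_t] at h4
  have h3 := (hT T H x₀).2.1 i hi _ h2 h4
  rw [← h3, H.toFS1.s1_t]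

/-- the base flag of a vertex -/
noncomputable def bt [Nonempty (Flag T)] (v : ℍ) : Flag T :=
  Classical.epsilon (fun z : Flag T => z.v = v)

theorem bt_v [Nonempty (Flag T)] (x : Flag T) : (bt (T := T) x.v).v = x.v :=
  Classical.epsilon_spec (p := fun z : Flag T => z.v = x.v) ⟨x, rfl⟩

theorem loc (H : FS T) (hR : S_REL) (hT : S_VENUM) {l : ℝ}
    (hs : ∀ x : Flag T, ∑ i ∈ Finset.range (dg T x.v), angH l (nn T (uv^[i] x).t) = 2 * Real.pi)
    (x₀ y : Flag T) (hy : y.v = x₀.v) :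
    mfun l x₀ (s1 y) = mfun l x₀ y * R1 l (nn T y.t) ∧
      mfun l x₀ (s2 y) = mfun l x₀ y * R2 := by
  obtain ⟨hadd, h2π, hR2, -, hR1, -⟩ := hR
  have hcyc := (hT T H x₀).1
  have hpos : 0 < dg T x₀.v := by
    rcases Nat.eq_zero_or_pos (dg T x₀.v) with h0 | h0
    · obtain ⟨i, hi, -⟩ := (hT T H x₀).2.2 x₀ rfl
      omega
    · exact h0
  have hth : th l x₀ (dg T x₀.v) = 2 * Real.pi := hs x₀
  have hrot : ∀ i, rot (th l x₀ i) * R1 l (nn T (uv^[i] x₀).t) * R2 = rot (th l x₀ (i + 1)) := by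
    intro i
    rw [mul_assoc, (hR1 l _).2, ← hadd, th_succ]
  have hrot' : ∀ i, rot (th l x₀ i) * R1 l (nn T (uv^[i] x₀).t) = rot (th l x₀ (i + 1)) * R2 := by
    intro i
    rw [← hrot i, mul_assoc, hR2, mul_one]
  have h00 : rot (th l x₀ 0) = 1 := by
    have : th l x₀ 0 = 0 := Finset.sum_range_zero _
    rw [this]
    have h3 := hadd 0 0
    rw [add_zero] at h3
    exact (mul_eq_left.1 h3.symm)
  obtain ⟨i, hi, h | h⟩ := (hT T H x₀).2.2 y hy
  · refine ⟨?_, ?_⟩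
    · rw [h, ev2 H hT l x₀ hi, ev1 H hT l x₀ hi]
    · rcases Nat.eq_zero_or_pos i with h0 | h0
      · subst h0
        obtain ⟨k, hk⟩ : ∃ k, dg T x₀.v = k + 1 := ⟨dg T x₀.v - 1, by omega⟩
        have e1 : y = s2 (s1 (uv^[k] x₀)) := by
          rw [h]
          change x₀ = _
          conv_lhs => rw [← hcyc, hk, Function.iterate_succ_apply']
          rfl
        have e2 : s2 y = s1 (uv^[k] x₀) := by rw [e1, s2_s2]
        rw [e2, ev2 H hT l x₀ (by omega), h, ev1 H hT l x₀ (by omega), hrot' k, ← hk, hth, h2π, h00]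
      · obtain ⟨k, rfl⟩ : ∃ k, i = k + 1 := ⟨i - 1, by omega⟩
        have e1 : y = s2 (s1 (uv^[k] x₀)) := by
          rw [h, Function.iterate_succ_apply']
          rfl
        have e2 : s2 y = s1 (uv^[k] x₀) := by rw [e1, s2_s2]
        rw [e2, ev2 H hT l x₀ (by omega), h, ev1 H hT l x₀ hi, hrot' k]
  · refine ⟨?_, ?_⟩
    · have e1 : s1 y = uv^[i] x₀ := by rw [h, H.toFS1.s1_s1]
      have e3 : y.t = (uv^[i] x₀).t := by rw [h, H.toFS1.s1_t]
      rw [e1, e3, ev1 H hT l x₀ hi, h, ev2 H hT l x₀ hi, mul_assoc, (hR1 l _).1, mul_one]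
    · have e1 : s2 y = uv^[i + 1] x₀ := by
        rw [h, Function.iterate_succ_apply']
        rfl
      have e2 : mfun l x₀ (uv^[i + 1] x₀) = rot (th l x₀ (i + 1)) := by
        rcases (Nat.succ_le_of_lt hi).eq_or_lt with h1 | h1
        · have h2 : i + 1 = dg T x₀.v := h1
          rw [h2, hth, h2π, hcyc]
          have := ev1 H hT l x₀ (i := 0) hpos
          rw [h00] at this
          exact this
        · exact ev1 H hT l x₀ h1
      rw [e1, e2, h, ev2 H hT l x₀ hi, hrot i]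

end MV1L

open MV1L in
theorem mv1 (hR : S_REL) (hT : S_VENUM) : S_MV1 := by
  intro T H l _ hs
  rcases isEmpty_or_nonempty (Flag T) with hE | hE
  · exact ⟨fun _ => 1, fun x => (hE.false x).elim⟩
  · refine ⟨fun x => mfun l (bt x.v) x, fun x => ?_⟩
    have hb : (bt (T := T) x.v).v = x.v := bt_v x
    have h := loc H hR hT hs (bt x.v) x hb.symm
    change mfun l (bt (s1 x).v) (s1 x) = mfun l (bt x.v) x * R1 l (nn T x.t) ∧
      mfun l (bt (s2 x).v) (s2 x) = mfun l (bt x.v) x * R2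
    rw [H.toFS1.s1_v, s2_v]
    exact h

end H292.TL
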