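import Pool.Agent.H292.TL.FB

/-!
Project TL, task N3: each tile has at least three vertices.
-/

set_option autoImplicit false
open scoped UpperHalfPlane Topology
open Set

namespace H292.TL

namespace N3L

variable {T : Set (Set ℍ)}

/-- three tiles and two vertices on all of them -/
structure Tri (T : Set (Set ℍ)) (t s s' : Set ℍ) (u v : ℍ) : Prop where
  huv : u ≠ v
  ht : t ∈ T
  hs : s ∈ T
  hs' : s' ∈ T
  ts : t ≠ s
  ts' : t ≠ s'
  ss' : s ≠ s'
  hu : u ∈ Vtx T
  hv : v ∈ Vtx T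
  ut : u ∈ t
  us : u ∈ s
  us' : u ∈ s'
  vt : v ∈ t
  vs : v ∈ s
  vs' : v ∈ s'

variable {t s s' : Set ℍ} {u v : ℍ}

/-- membership in the set of the three tiles -/
def InA (t s s' : Set ℍ) (a : Set ℍ) : Prop := a = t ∨ a = s ∨ a = s'

/-- membership in the set of the two vertices -/
def InV (u v : ℍ) (w : ℍ) : Prop := w = u ∨ w = v

theorem Tri.memT (h : Tri T t s s' u v) {a : Set ℍ} (ha : InA t s s' a) : a ∈ T := by
  rcases ha with rfl | rfl | rfl
  · exact h.ht
  · exact h.hs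
  · exact h.hs'

theorem Tri.mem (h : Tri T t s s' u v) {a : Set ℍ} (ha : InA t s s' a) {w : ℍ} (hw : InV u v w) :
    w ∈ a := by
  rcases ha with rfl | rfl | rfl <;> rcases hw with rfl | rfl
  · exact h.ut
  · exact h.vt
  · exact h.us
  · exact h.vs
  · exact h.us'
  · exact h.vs'

theorem Tri.vtx (h : Tri T t s s' u v) {w : ℍ} (hw : InV u v w) : w ∈ Vtx T := by
  rcases hw with rfl | rfl
  · exact h.hu
  · exact h.hv

/-- the flags -/
def Tri.fl (h : Tri T t s s' u v) {w : ℍ} (hw : InV u v w) {a b : Set ℍ} (ha : InA t s s' a)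
    (hb : InA t s s' b) (hab : b ≠ a) : Flag T :=
  ⟨w, a, b, h.vtx hw, h.memT ha, h.memT hb, hab, h.mem ha hw, h.mem hb hw,
    ⟨u, ⟨h.mem hb (Or.inl rfl), h.mem ha (Or.inl rfl)⟩, v, ⟨h.mem hb (Or.inr rfl),
      h.mem ha (Or.inr rfl)⟩, h.huv⟩⟩

theorem Tri.third (h : Tri T t s s' u v) {a b : Set ℍ} (ha : InA t s s' a) (hb : InA t s s' b)
    (hab : b ≠ a) : ∃ c, InA t s s' c ∧ c ≠ a ∧ c ≠ b := by
  rcases ha with rfl | rfl | rfl <;> rcases hb with rfl | rfl | rfl
  · exact absurd rfl hab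
  · exact ⟨s', Or.inr (Or.inr rfl), h.ts'.symm, h.ss'.symm⟩
  · exact ⟨s, Or.inr (Or.inl rfl), h.ts.symm, h.ss'⟩
  · exact ⟨s', Or.inr (Or.inr rfl), h.ss'.symm, h.ts'.symm⟩
  · exact absurd rfl hab
  · exact ⟨t, Or.inl rfl, h.ts, h.ts'⟩
  · exact ⟨s, Or.inr (Or.inl rfl), h.ss', h.ts.symm⟩
  · exact ⟨t, Or.inl rfl, h.ts', h.ts⟩
  · exact absurd rfl hab

theorem Tri.other (h : Tri T t s s' u v) {w : ℍ} (hw : InV u v w) : ∃ w', InV u v w' ∧ w' ≠ w := by
  rcases hw with rfl | rfl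
  · exact ⟨v, Or.inr rfl, h.huv.symm⟩
  · exact ⟨u, Or.inl rfl, h.huv⟩

theorem Tri.st1 (h : Tri T t s s' u v) (H : FS1 T) {z : Flag T} (hz : InA t s s' z.t)
    (hz' : InA t s s' z.s) (hv : InV u v z.v) : InA t s s' (s1 z).s := by
  obtain ⟨c, hc, h1, h2⟩ := h.third hz hz' z.hne
  have e := H.eq_s1 (x := z) (y := h.fl hv hz hc h1) rfl rfl h2
  rw [← e]
  exact hc

theorem Tri.st0 (h : Tri T t s s' u v) (H : FS1 T) {z : Flag T} (hz : InA t s s' z.t)
    (hz' : InA t s s' z.s) (hv : InV u v z.v) : InV u v (s0 z).v := by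
  obtain ⟨w, hw, h1⟩ := h.other hv
  have e := H.eq_s0 (x := z) (y := h.fl hw hz hz' z.hne) rfl rfl h1
  rw [← e]
  exact hw

/-- the flags of the three tiles -/
theorem Tri.tiles (h : Tri T t s s' u v) (H : FS1 T)
    (hc : ∀ x y : Flag T, y.t = x.t → Rch s0 s1 x y) {a : Set ℍ} (ha : InA t s s' a) {z : Flag T}
    (hz : z.t = a) : InA t s s' z.s ∧ InV u v z.v := by
  obtain ⟨b, hb, hab⟩ : ∃ b, InA t s s' b ∧ b ≠ a := by
    by_cases h1 : a = t
    · exact ⟨s, Or.inr (Or.inl rfl), by rw [h1]; exact h.ts.symm⟩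
    · exact ⟨t, Or.inl rfl, fun h2 => h1 h2.symm⟩
  have hr := hc (h.fl (Or.inl rfl) ha hb hab) z hz
  have key : z.t = a ∧ InA t s s' z.s ∧ InV u v z.v := by
    clear hz
    induction hr with
    | refl => exact ⟨rfl, hb, Or.inl rfl⟩
    | @tail y z' _ h2 ih =>
      obtain ⟨i1, i2, i3⟩ := ih
      rcases h2 with h2 | h2
      · rw [h2]
        exact ⟨by rw [H.s0_t, i1], by rw [H.s0_s]; exact i2,
          h.st0 H (by rw [i1]; exact ha) i2 i3⟩
      · rw [h2]
        exact ⟨by rw [H.s1_t, i1], h.st1 H (by rw [i1]; exact ha) i2 i3,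
          by rw [H.s1_v]; exact i3⟩
  exact key.2

/-- the flags at the two vertices -/
theorem Tri.verts (h : Tri T t s s' u v) (H : FS1 T)
    (hc : ∀ x y : Flag T, y.v = x.v → Rch s1 s2 x y) {w : ℍ} (hw : InV u v w)
    {z : Flag T} (hz : z.v = w) : InA t s s' z.t := by
  have hr := hc (h.fl hw (Or.inl rfl) (Or.inr (Or.inl rfl)) h.ts.symm) z hz
  have key : z.v = w ∧ InA t s s' z.t ∧ InA t s s' z.s := by
    clear hz
    induction hr with
    | refl => exact ⟨rfl, Or.inl rfl, Or.inr (Or.inl rfl)⟩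
    | @tail y z' _ h2 ih =>
      obtain ⟨i1, i2, i3⟩ := ih
      rcases h2 with h2 | h2
      · rw [h2]
        exact ⟨by rw [H.s1_v, i1], by rw [H.s1_t]; exact i2,
          h.st1 H i2 i3 (by rw [i1]; exact hw)⟩
      · rw [h2]
        exact ⟨i1, i3, i2⟩
  exact key.2.1

/-- the tiles at a point cover a neighbourhood -/
theorem nbhd (hCNT : S_CNT) (N : Nor T) (p : ℍ) : ⋃₀ {t ∈ T | p ∈ t} ∈ 𝓝 p := by
  obtain ⟨n, hn⟩ := hCNT T N 1
  obtain ⟨hfin, -⟩ := hn p
  have hcl : ∀ a ∈ T, IsClosed a := by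
    intro a ha
    obtain ⟨φ, hφ⟩ := N.chart a ha
    rw [← hφ.img]
    exact ((isCompact_closedBall (0 : ℂ) 1).image_of_continuousOn hφ.cont).isClosed
  set F : Set (Set ℍ) := {t ∈ T | (t ∩ Metric.closedBall p 1).Nonempty} ∩ {t | p ∉ t} with hF
  have hFf : F.Finite := hfin.inter_of_left _
  have hFc : IsClosed (⋃₀ F) := by
    rw [sUnion_eq_biUnion]
    exact hFf.isClosed_biUnion fun a ha => hcl a ha.1.1
  have hp : p ∉ ⋃₀ F := by
    rintro ⟨a, ha, hpa⟩
    exact ha.2 hpa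
  have h1 : (⋃₀ F)ᶜ ∈ 𝓝 p := hFc.isOpen_compl.mem_nhds hp
  have h2 : Metric.closedBall p 1 ∈ 𝓝 p := Metric.closedBall_mem_nhds p one_pos
  filter_upwards [h1, h2] with q hq hq'
  obtain ⟨a, ha, hqa⟩ := N.cover q
  refine ⟨a, ⟨ha, ?_⟩, hqa⟩
  by_contra hpa
  exact hq ⟨a, ⟨⟨ha, ⟨q, hqa, hq'⟩⟩, hpa⟩, hqa⟩

theorem Tri.false (h : Tri T t s s' u v) (hCNT : S_CNT) (N : Nor T) (H : FS1 T) (E : ES T)
    (hct : ∀ x y : Flag T, y.t = x.t → Rch s0 s1 x y)
    (hcv : ∀ x y : Flag T, y.v = x.v → Rch s1 s2 x y) : False := by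
  have hcp : ∀ a ∈ T, IsCompact a := by
    intro a ha
    obtain ⟨φ, hφ⟩ := N.chart a ha
    rw [← hφ.img]
    exact (isCompact_closedBall (0 : ℂ) 1).image_of_continuousOn hφ.cont
  set W : Set ℍ := t ∪ s ∪ s' with hW
  have hsub : ∀ a, InA t s s' a → a ⊆ W := by
    intro a ha
    rcases ha with rfl | rfl | rfl
    · exact subset_union_left.trans subset_union_left
    · exact subset_union_right.trans subset_union_left
    · exact subset_union_right
  have hWc : IsCompact W := ((hcp t h.ht).union (hcp s h.hs)).union (hcp s' h.hs')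
  have hWo : IsOpen W := by
    rw [isOpen_iff_mem_nhds]
    intro p hp
    obtain ⟨a, ha, hpa⟩ : ∃ a, InA t s s' a ∧ p ∈ a := by
      rcases hp with (hp | hp) | hp
      · exact ⟨t, Or.inl rfl, hp⟩
      · exact ⟨s, Or.inr (Or.inl rfl), hp⟩
      · exact ⟨s', Or.inr (Or.inr rfl), hp⟩
    have haT := h.memT ha
    by_cases hi : p ∈ interior a
    · exact Filter.mem_of_superset (mem_interior_iff_mem_nhds.1 hi) (hsub a ha)
    · have hfr : p ∈ frontier a := ⟨subset_closure hpa, hi⟩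
      by_cases hpv : p ∈ Vtx T
      · obtain ⟨y, hy1, hy2⟩ := H.exv p hpv a haT hpa
        have hpV : InV u v p := by
          rw [← hy1]
          exact (h.tiles H hct ha hy2).2
        refine Filter.mem_of_superset (nbhd hCNT N p) ?_
        rintro q ⟨b, ⟨hb, hpb⟩, hqb⟩
        obtain ⟨y', hy1', hy2'⟩ := H.exv p hpv b hb hpb
        have hbA : InA t s s' b := by
          rw [← hy2']
          exact h.verts H hcv hpV hy1'
        exact hsub b hbA hqb
      · obtain ⟨y, hy1, hy2⟩ := E.bd a haT p hfr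
        have hys : InA t s s' y.s := (h.tiles H hct ha hy1).1
        have := E.two y p ⟨hy2, by rw [hy1]; exact hpa⟩ hpv
        refine Filter.mem_of_superset this (union_subset (hsub _ hys) ?_)
        rw [hy1]
        exact hsub a ha
  have hWu : W = univ := IsClopen.eq_univ ⟨hWc.isClosed, hWo⟩ ⟨u, Or.inl (Or.inl h.ut)⟩
  rw [hWu] at hWc
  exact noncompact_univ ℍ hWc

end N3L

open N3L in
/-- each tile has at least three vertices -/
theorem n3 (hCNT : S_CNT) : S_N3 := by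
  intro T N H E hct hcv t ht
  by_contra hlt
  push Not at hlt
  obtain ⟨x, rfl⟩ := H.ext t ht
  have hfin := H.fint x.t x.ht
  have hne : x.v ≠ (s0 x).v := (H.s0_v x).symm
  have hset : ({x.v, (s0 x).v} : Set ℍ) = Vtx T ∩ x.t := by
    refine Set.eq_of_subset_of_ncard_le ?_ ?_ hfin
    · rintro p hp
      rcases hp with rfl | hp
      · exact ⟨x.hv, x.hvt⟩
      · rw [mem_singleton_iff] at hp
        rw [hp]
        refine ⟨(s0 x).hv, ?_⟩
        have := (s0 x).hvt
        rwa [H.s0_t] at this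
    · rw [Set.ncard_pair hne]
      unfold nn at hlt
      omega
  have hv' : (s0 (s1 x)).v = (s0 x).v := by
    have h1 : (s0 (s1 x)).v ∈ Vtx T ∩ x.t := by
      refine ⟨(s0 (s1 x)).hv, ?_⟩
      have := (s0 (s1 x)).hvt
      rwa [H.s0_t, H.s1_t] at this
    rw [← hset] at h1
    rcases h1 with h1 | h1
    · exfalso
      have h2 := H.s0_v (s1 x)
      rw [H.s1_v] at h2
      exact h2 h1
    · exact h1
  have tri : Tri T x.t x.s (s1 x).s x.v (s0 x).v :=
    { huv := hne
      ht := x.ht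
      hs := x.hs
      hs' := (s1 x).hs
      ts := x.hne.symm
      ts' := by
        have := (s1 x).hne.symm
        rwa [H.s1_t] at this
      ss' := (H.s1_s x).symm
      hu := x.hv
      hv := (s0 x).hv
      ut := x.hvt
      us := x.hvs
      us' := by
        have := (s1 x).hvs
        rwa [H.s1_v] at this
      vt := by
        have := (s0 x).hvt
        rwa [H.s0_t] at this
      vs := by
        have := (s0 x).hvs
        rwa [H.s0_s] at this
      vs' := by
        have := (s0 (s1 x)).hvs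
        rwa [H.s0_s, hv'] at this }
  exact tri.false hCNT N H E hct hcv

end H292.TL
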