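import Pool.Agent.H292.TL.FB

/-!
Project TL, task NEV: two distinct intersecting tiles share a vertex.
-/

set_option autoImplicit false
open scoped UpperHalfPlane Topology
open Set

namespace H292.TL

/-- if no third tile contains `p`, then `s ∪ t` is a neighbourhood of `p` -/
theorem nev_nhds (hC : S_CNT) (hF : S_FR) {T : Set (Set ℍ)} (N : Nor T) {s t : Set ℍ} {p : ℍ}
    (h3 : ∀ u ∈ T, u ≠ s → u ≠ t → p ∉ u) : ∃ U : Set ℍ, IsOpen U ∧ p ∈ U ∧ U ⊆ s ∪ t := by
  obtain ⟨_, hN⟩ := hC T N 1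
  have hfin := (hN p).1
  set A : Set (Set ℍ) := {u ∈ T | (u ∩ Metric.closedBall p 1).Nonempty} with hA
  set B : Set (Set ℍ) := {u ∈ A | u ≠ s ∧ u ≠ t} with hB
  have hBfin : B.Finite := hfin.subset (fun u hu => hu.1)
  have hcl : IsClosed (⋃₀ B) := by
    rw [sUnion_eq_biUnion]
    refine hBfin.isClosed_biUnion (fun u hu => ?_)
    obtain ⟨φ, hφ⟩ := N.chart u hu.1.1
    exact (hF φ u hφ).2.2.2.isClosed
  refine ⟨Metric.ball p 1 ∩ (⋃₀ B)ᶜ, Metric.isOpen_ball.inter hcl.isOpen_compl,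
    ⟨Metric.mem_ball_self one_pos, ?_⟩, ?_⟩
  · rintro ⟨u, hu, hpu⟩
    exact h3 u hu.1.1 hu.2.1 hu.2.2 hpu
  · rintro q ⟨hq, hqB⟩
    obtain ⟨u, huT, hqu⟩ := N.cover q
    by_contra hcon
    apply hqB
    refine ⟨u, ⟨⟨huT, q, hqu, Metric.ball_subset_closedBall hq⟩, ?_, ?_⟩, hqu⟩
    · rintro rfl; exact hcon (Or.inl hqu)
    · rintro rfl; exact hcon (Or.inr hqu)

theorem nev (hC : S_CNT) (hF : S_FR) (hD : S_DISJ) (hE : S_EDGE) : S_NEV := by
  intro T N s hs t ht hst hne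
  obtain ⟨φ, hφ⟩ := N.chart t ht
  by_cases hnt : (s ∩ t).Nontrivial
  · obtain ⟨a, b, hab, -, him, hva, -, -⟩ := hE T N s hs t ht hst hnt φ hφ
    refine ⟨φ (ee a), hva, ?_⟩
    rw [him]
    exact ⟨a, ⟨le_rfl, hab.le⟩, rfl⟩
  · rw [Set.not_nontrivial_iff] at hnt
    obtain ⟨p, hp⟩ := hne
    by_cases hpv : p ∈ Vtx T
    · exact ⟨p, hpv, hp⟩
    exfalso
    have h3 : ∀ u ∈ T, u ≠ s → u ≠ t → p ∉ u := by
      intro u hu h1 h2 hpu
      exact hpv ⟨u, hu, s, hs, t, ht, h1, h2, hst, hpu, hp.1, hp.2⟩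
    obtain ⟨U, hU, hpU, hUst⟩ := nev_nhds hC hF N h3
    obtain ⟨hint, hfr, -, -⟩ := hF φ t hφ
    obtain ⟨φs, hφs⟩ := N.chart s hs
    have hscl : IsClosed s := (hF φs s hφs).2.2.2.isClosed
    have hpf : p ∈ frontier t := (hD T N s hs t ht hst).1 hp
    rw [hfr] at hpf
    obtain ⟨z, hz, hzp⟩ := hpf
    have hz1 : ‖z‖ = 1 := by simpa using hz
    -- the path
    have hmem : ∀ δ : ℝ, z * Complex.exp (δ * Complex.I) ∈ Metric.sphere (0 : ℂ) 1 := by
      intro δ
      rw [mem_sphere_zero_iff_norm, norm_mul, hz1, Complex.norm_exp_ofReal_mul_I, one_mul]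
    have hcont : Continuous (fun δ : ℝ => φ (z * Complex.exp (δ * Complex.I))) := by
      refine hφ.cont.comp_continuous (by fun_prop) (fun δ => ?_)
      exact Metric.sphere_subset_closedBall (hmem δ)
    have hopen : (fun δ : ℝ => φ (z * Complex.exp (δ * Complex.I))) ⁻¹' U ∈ 𝓝 (0 : ℝ) := by
      apply (hU.preimage hcont).mem_nhds
      simpa [hzp] using hpU
    obtain ⟨ε, hε, hball⟩ := Metric.mem_nhds_iff.1 hopen
    set δ : ℝ := min (ε / 2) 1 with hδ
    have hδ0 : 0 < δ := lt_min (by linarith) one_pos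
    have hδ1 : δ ≤ 1 := min_le_right _ _
    have hδε : δ < ε := lt_of_le_of_lt (min_le_left _ _) (by linarith)
    have hqU : φ (z * Complex.exp (δ * Complex.I)) ∈ U := by
      apply hball
      rw [Metric.mem_ball, dist_zero_right, Real.norm_eq_abs, abs_of_pos hδ0]
      exact hδε
    have hzne : z * Complex.exp (δ * Complex.I) ≠ z := by
      intro h
      have hz0 : z ≠ 0 := by rw [← norm_pos_iff, hz1]; exact one_pos
      have h1 : Complex.exp (δ * Complex.I) = 1 := by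
        have : z * Complex.exp (δ * Complex.I) = z * 1 := by rw [h, mul_one]
        exact mul_left_cancel₀ hz0 this
      have h2 := congrArg Complex.im h1
      rw [Complex.exp_ofReal_mul_I_im, Complex.one_im] at h2
      have h3 : 0 < Real.sin δ := Real.sin_pos_of_pos_of_lt_pi hδ0 (by
        have := Real.pi_gt_three; linarith)
      exact h3.ne' h2
    set q : ℍ := φ (z * Complex.exp (δ * Complex.I)) with hq
    have hqne : q ≠ p := by
      intro h
      apply hzne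
      refine hφ.inj (Metric.sphere_subset_closedBall (hmem δ)) (Metric.sphere_subset_closedBall hz) ?_
      rw [hzp]; exact h
    have hqfr : q ∈ frontier t := by
      rw [hfr]; exact ⟨_, hmem δ, rfl⟩
    have hqt : q ∈ t := by
      rw [← hφ.img]; exact ⟨_, Metric.sphere_subset_closedBall (hmem δ), rfl⟩
    have hqs : q ∉ s := fun h => hqne (hnt ⟨h, hqt⟩ hp)
    have hqint : q ∈ interior t := by
      rw [mem_interior]
      refine ⟨U ∩ sᶜ, ?_, hU.inter hscl.isOpen_compl, hqU, hqs⟩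
      rintro x ⟨hxU, hxs⟩
      exact (hUst hxU).resolve_left hxs
    exact hqfr.2 hqint

end H292.TL
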