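import Pool.Agent.H292.TL.FB

/-! PBD: the boundary of the regular polygon is the union of its sides -/

set_option autoImplicit false
open scoped UpperHalfPlane Topology
open Set

namespace H292.TL

namespace PBDx

theorem ee_re (θ : ℝ) : (ee θ).re = Real.cos θ := Complex.exp_ofReal_mul_I_re θ

theorem ee_im (θ : ℝ) : (ee θ).im = Real.sin θ := Complex.exp_ofReal_mul_I_im θ

theorem ee_add (a b : ℝ) : ee (a + b) = ee a * ee b := by
  unfold ee
  rw [Complex.ofReal_add, add_mul, Complex.exp_add]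

theorem ee_zero : ee 0 = 1 := by
  unfold ee
  rw [Complex.ofReal_zero, zero_mul, Complex.exp_zero]

theorem ee_two_pi : ee (2 * Real.pi) = 1 := by
  apply Complex.ext
  · rw [ee_re, Real.cos_two_pi, Complex.one_re]
  · rw [ee_im, Real.sin_two_pi, Complex.one_im]

theorem ee_neg_two_pi : ee (-(2 * Real.pi)) = 1 := by
  apply Complex.ext
  · rw [ee_re, Real.cos_neg, Real.cos_two_pi, Complex.one_re]
  · rw [ee_im, Real.sin_neg, Real.sin_two_pi, Complex.one_im, neg_zero]

theorem ee_nat (a : ℝ) (q : ℕ) : ee (a + q * (2 * Real.pi)) = ee a := by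
  induction q with
  | zero => rw [Nat.cast_zero, zero_mul, add_zero]
  | succ q ih =>
    have e : a + ((q + 1 : ℕ) : ℝ) * (2 * Real.pi) = (a + q * (2 * Real.pi)) + 2 * Real.pi := by
      push_cast; ring
    rw [e, ee_add, ih, ee_two_pi, mul_one]

theorem ee_conj (θ : ℝ) : (starRingEnd ℂ) (ee θ) = ee (-θ) := by
  apply Complex.ext
  · rw [Complex.conj_re, ee_re, ee_re, Real.cos_neg]
  · rw [Complex.conj_im, ee_im, ee_im, Real.sin_neg]

theorem ee_norm (θ : ℝ) : ‖ee θ‖ = 1 := Complex.norm_exp_ofReal_mul_I θ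

theorem fre (θ : ℝ) (w : ℂ) : (ee θ * w).re = Real.cos θ * w.re - Real.sin θ * w.im := by
  rw [Complex.mul_re, ee_re, ee_im]

/-- the three term relation -/
theorem three (A x y : ℝ) (w : ℂ) : Real.sin (x + y) * (ee A * w).re =
    Real.sin x * (ee (A - y) * w).re + Real.sin y * (ee (A + x) * w).re := by
  rw [fre, fre, fre, Real.sin_add, Real.cos_sub, Real.sin_sub, Real.cos_add, Real.sin_add]
  ring

/-- two non adjacent sides of a regular polygon do not meet, half of the cases -/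
theorem nonadj {n i : ℕ} (hi : 2 ≤ i) (hin : i < n) {κ : ℝ} (hκ : 0 < κ)
    (hc : 0 ≤ Real.cos (i * Real.pi / n)) (w : ℂ) (A : ℝ) (h1 : (ee A * w).re = κ)
    (h2 : (ee (A + 2 * i * Real.pi / n) * w).re = κ)
    (h3 : (ee (A + 2 * Real.pi / n) * w).re ≤ κ) : False := by
  have hn0 : (0 : ℝ) < n := by exact_mod_cast (by omega : 0 < n)
  have hpi := Real.pi_pos
  have hi0 : (2 : ℝ) ≤ i := by exact_mod_cast hi
  have hin' : (i : ℝ) < n := by exact_mod_cast hin
  have t := three (A + 2 * Real.pi / n) (2 * (i - 1) * Real.pi / n) (2 * Real.pi / n) w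
  have e1 : 2 * ((i : ℝ) - 1) * Real.pi / n + 2 * Real.pi / n = 2 * (i * Real.pi / n) := by ring
  have e2 : A + 2 * Real.pi / n - 2 * Real.pi / n = A := by ring
  have e3 : A + 2 * Real.pi / n + 2 * ((i : ℝ) - 1) * Real.pi / n = A + 2 * i * Real.pi / n := by
    ring
  rw [e1, e2, e3, h1, h2, Real.sin_two_mul] at t
  have e4 : Real.sin (2 * ((i : ℝ) - 1) * Real.pi / n) + Real.sin (2 * Real.pi / n) =
      2 * Real.sin (i * Real.pi / n) * Real.cos (((i : ℝ) - 2) * Real.pi / n) := by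
    have a1 : 2 * ((i : ℝ) - 1) * Real.pi / n = i * Real.pi / n + ((i : ℝ) - 2) * Real.pi / n := by
      ring
    have a2 : 2 * Real.pi / n = i * Real.pi / n - ((i : ℝ) - 2) * Real.pi / n := by ring
    rw [a1, a2, Real.sin_add, Real.sin_sub]
    ring
  have hs : 0 < Real.sin (i * Real.pi / n) := by
    apply Real.sin_pos_of_pos_of_lt_pi
    · positivity
    · rw [div_lt_iff₀ hn0]
      nlinarith
  have hlt : Real.cos (i * Real.pi / n) < Real.cos (((i : ℝ) - 2) * Real.pi / n) := by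
    apply Real.cos_lt_cos_of_nonneg_of_le_pi
    · apply div_nonneg _ hn0.le
      exact mul_nonneg (by linarith) hpi.le
    · rw [div_le_iff₀ hn0]
      nlinarith
    · rw [div_lt_div_iff_of_pos_right hn0]
      nlinarith
  have t2 : Real.cos (i * Real.pi / n) * (ee (A + 2 * Real.pi / n) * w).re =
      κ * Real.cos (((i : ℝ) - 2) * Real.pi / n) := by
    apply mul_left_cancel₀ (mul_ne_zero two_ne_zero hs.ne')
    linear_combination t + κ * e4
  have t3 : Real.cos (i * Real.pi / n) * (ee (A + 2 * Real.pi / n) * w).re ≤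
      Real.cos (i * Real.pi / n) * κ := mul_le_mul_of_nonneg_left h3 hc
  nlinarith

/-- indices -/
theorem idx {n : ℕ} (hn : 0 < n) (j : ℕ) : ∃ i < n,
    ee (-((2 * j + 1) * Real.pi / n)) = ee ((2 * i - 1) * Real.pi / n) := by
  have hn0 : (n : ℝ) ≠ 0 := by exact_mod_cast hn.ne'
  obtain ⟨m, q, hm, hj⟩ : ∃ m q : ℕ, m < n ∧ j = m + n * q :=
    ⟨j % n, j / n, Nat.mod_lt _ hn, (Nat.mod_add_div j n).symm⟩
  rcases Nat.eq_zero_or_pos m with h0 | h0
  · refine ⟨0, hn, ?_⟩
    rw [← ee_nat _ q]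
    congr 1
    rw [hj, h0]
    push_cast
    field_simp
    ring
  · refine ⟨n - m, by omega, ?_⟩
    rw [← ee_nat (-((2 * (j : ℝ) + 1) * Real.pi / n)) (q + 1)]
    congr 1
    rw [hj, Nat.cast_sub hm.le]
    push_cast
    field_simp
    ring

/-- indices, the other direction -/
theorem idx' {n : ℕ} (i : ℕ) (hn : 0 < n) (hi : i ≤ n) : ∃ j : ℕ,
    ee ((2 * i - 1) * Real.pi / n) = ee (-((2 * j + 1) * Real.pi / n)) := by
  have hn0 : (n : ℝ) ≠ 0 := by exact_mod_cast hn.ne'
  refine ⟨n - i, ?_⟩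
  rw [← ee_nat (-((2 * ((n - i : ℕ) : ℝ) + 1) * Real.pi / n)) 1]
  congr 1
  rw [Nat.cast_sub hi]
  push_cast
  field_simp
  ring

section fixed

variable {l : ℝ} {n : ℕ}

theorem mul_app (e₁ e₂ : ℍ ≃ᵢ ℍ) (x : ℍ) : (e₁ * e₂) x = e₁ (e₂ x) := rfl

theorem kl_M1 (hM : S_MINV) (hF : S_KLF) (hl : 0 < l) (hn : 3 ≤ n) (z : ℍ) :
    kl (Minv l n ((R1 l n * R0 l : ℍ ≃ᵢ ℍ) z)) = ee (-(2 * Real.pi / n)) * kl (Minv l n z) := by
  obtain ⟨m1, m2⟩ := hM l n hl hn
  obtain ⟨k1, k2, -, -⟩ := hF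
  rw [mul_app]
  have a1 : Minv l n (R1 l n (R0 l z)) = cj (Minv l n (R0 l z)) := by
    rw [← mul_app, m1, mul_app]
  have a2 : Minv l n (R0 l z) = rot (2 * Real.pi / n) (cj (Minv l n z)) := by
    rw [← mul_app, m2, mul_app, mul_app]
  rw [a1, a2, k2, k1, k2, map_mul, ee_conj, Complex.conj_conj]

theorem kl_Mi (hM : S_MINV) (hF : S_KLF) (hl : 0 < l) (hn : 3 ≤ n) (i : ℕ) (z : ℍ) :
    kl (Minv l n (((R1 l n * R0 l) ^ i : ℍ ≃ᵢ ℍ) z)) =
      ee (-(2 * i * Real.pi / n)) * kl (Minv l n z) := by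
  induction i with
  | zero =>
    rw [pow_zero, Nat.cast_zero, mul_zero, zero_mul, zero_div, neg_zero, ee_zero, one_mul]
    rfl
  | succ i ih =>
    rw [pow_succ', mul_app, kl_M1 hM hF hl hn, ih, ← mul_assoc, ← ee_add]
    congr 2
    push_cast
    ring

theorem poly_inv (hP : S_PINV) (hl : 0 < l) (hn : 3 ≤ n) (i : ℕ) (z : ℍ) :
    ((R1 l n * R0 l) ^ i : ℍ ≃ᵢ ℍ) z ∈ Poly l n ↔ z ∈ Poly l n := by
  obtain ⟨p0, p1⟩ := hP l n hl hn
  have q0 : ∀ z, R0 l z ∈ Poly l n ↔ z ∈ Poly l n := by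
    intro z
    constructor
    · intro h
      rw [← p0] at h
      obtain ⟨y, hy, hyz⟩ := h
      rwa [← (R0 l).injective hyz]
    · intro h
      rw [← p0]
      exact ⟨z, h, rfl⟩
  have q1 : ∀ z, R1 l n z ∈ Poly l n ↔ z ∈ Poly l n := by
    intro z
    constructor
    · intro h
      rw [← p1] at h
      obtain ⟨y, hy, hyz⟩ := h
      rwa [← (R1 l n).injective hyz]
    · intro h
      rw [← p1]
      exact ⟨z, h, rfl⟩
  induction i generalizing z with
  | zero => rw [pow_zero]; exact Iff.rfl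
  | succ i ih =>
    rw [pow_succ', mul_app, mul_app, q1, q0]
    exact ih z

theorem cosn_pos (hn : 3 ≤ n) : 0 < Real.cos (Real.pi / n) := by
  have h3 : (3 : ℝ) ≤ n := by exact_mod_cast hn
  have hpi := Real.pi_pos
  apply Real.cos_pos_of_mem_Ioo
  constructor
  · have : 0 < Real.pi / n := by positivity
    linarith
  · rw [div_lt_div_iff₀ (by linarith) (by norm_num)]
    nlinarith

theorem sinn_pos (hn : 3 ≤ n) : 0 < Real.sin (Real.pi / n) := by
  have h3 : (3 : ℝ) ≤ n := by exact_mod_cast hn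
  have hpi := Real.pi_pos
  apply Real.sin_pos_of_pos_of_lt_pi
  · positivity
  · rw [div_lt_iff₀ (by linarith)]
    nlinarith

theorem sinh_rho (hn : 3 ≤ n) : Real.sinh (rho l n) * Real.sin (Real.pi / n) =
    Real.sinh (l / 2) := by
  unfold rho
  rw [Real.sinh_arsinh, div_mul_cancel₀ _ (sinn_pos hn).ne']

theorem rho_pos (hl : 0 < l) (hn : 3 ≤ n) : 0 < rho l n := by
  unfold rho
  rw [Real.arsinh_pos_iff]
  exact div_pos (Real.sinh_pos_iff.2 (by linarith)) (sinn_pos hn)

theorem sin_a (hn : 3 ≤ n) : Real.sin (angH l n / 2) * Real.cosh (l / 2) =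
    Real.cos (Real.pi / n) := by
  unfold angH
  have h1 : 0 < Real.cosh (l / 2) := Real.cosh_pos _
  have h2 : 1 ≤ Real.cosh (l / 2) := Real.one_le_cosh _
  have h3 := cosn_pos hn
  have h4 := Real.cos_le_one (Real.pi / n)
  have e : 2 * Real.arcsin (Real.cos (Real.pi / n) / Real.cosh (l / 2)) / 2 =
      Real.arcsin (Real.cos (Real.pi / n) / Real.cosh (l / 2)) := by ring
  rw [e, Real.sin_arcsin, div_mul_cancel₀ _ h1.ne']
  · have : 0 ≤ Real.cos (Real.pi / n) / Real.cosh (l / 2) := div_nonneg h3.le h1.le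
    linarith
  · rw [div_le_one h1]
    linarith

theorem cos_a_nonneg : 0 ≤ Real.cos (angH l n / 2) := by
  unfold angH
  have e : 2 * Real.arcsin (Real.cos (Real.pi / n) / Real.cosh (l / 2)) / 2 =
      Real.arcsin (Real.cos (Real.pi / n) / Real.cosh (l / 2)) := by ring
  rw [e]
  exact Real.cos_arcsin_nonneg _

theorem cosh_rho (hn : 3 ≤ n) : Real.cosh (rho l n) * Real.sin (Real.pi / n) =
    Real.cosh (l / 2) * Real.cos (angH l n / 2) := by
  have h1 := sinn_pos hn
  have h2 : 0 < Real.cosh (l / 2) := Real.cosh_pos _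
  have h3 : 0 < Real.cosh (rho l n) := Real.cosh_pos _
  have a1 : 0 ≤ Real.cosh (rho l n) * Real.sin (Real.pi / n) := by positivity
  have a2 : 0 ≤ Real.cosh (l / 2) * Real.cos (angH l n / 2) := mul_nonneg h2.le cos_a_nonneg
  have e : (Real.cosh (rho l n) * Real.sin (Real.pi / n)) ^ 2 =
      (Real.cosh (l / 2) * Real.cos (angH l n / 2)) ^ 2 := by
    have b1 := Real.cosh_sq (rho l n)
    have b2 := Real.cosh_sq (l / 2)
    have b3 := Real.sin_sq_add_cos_sq (Real.pi / n)
    have b4 := Real.sin_sq_add_cos_sq (angH l n / 2)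
    have b5 := sinh_rho (l := l) hn
    have b6 := sin_a (l := l) hn
    have c5 : Real.sinh (rho l n) ^ 2 * Real.sin (Real.pi / n) ^ 2 = Real.sinh (l / 2) ^ 2 := by
      rw [← b5]; ring
    have c6 : Real.sin (angH l n / 2) ^ 2 * Real.cosh (l / 2) ^ 2 =
        Real.cos (Real.pi / n) ^ 2 := by
      rw [← b6]; ring
    rw [mul_pow, mul_pow, b1]
    linear_combination c5 - b2 + b3 - Real.cosh (l / 2) ^ 2 * b4 + c6
  exact (pow_left_inj₀ a1 a2 two_ne_zero).1 e

theorem kl_norm (hH : S_KLH) (z : ℍ) : ‖kl z‖ < 1 := by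
  have : kl z ∈ Metric.ball (0 : ℂ) 1 := by
    rw [← hH.2.2.1]
    exact mem_range_self z
  rwa [mem_ball_zero_iff] at this

/-- the key computation -/
theorem key (hF : S_KLF) (hH : S_KLH) (hS : S_PSEC) (hl : 0 < l) (hn : 3 ≤ n) (z : ℍ) :
    (ee (-(Real.pi / n)) * kl (Minv l n z)).re = kap l n ↔ (kl z).im = 0 := by
  obtain ⟨k1, k2, k3, k4⟩ := hF
  obtain ⟨a0, api, -⟩ := hS l n hl hn
  have hC := Real.cosh_pos (rho l n)
  have hCL := Real.cosh_pos (l / 2)
  have hcn := cosn_pos hn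
  have hsn := sinn_pos hn
  have hsa : 0 < Real.sin (angH l n / 2) :=
    Real.sin_pos_of_pos_of_lt_pi (by linarith) (by linarith)
  have hca : 0 < Real.cos (angH l n / 2) :=
    Real.cos_pos_of_mem_Ioo ⟨by linarith, by linarith⟩
  have hk : kl (Minv l n z) = kl (tr (rho l n) (rot (Real.pi - angH l n / 2) z)) := rfl
  have hn1 := kl_norm hH (rot (Real.pi - angH l n / 2) z)
  rw [hk, k3]
  have hrot := k1 (Real.pi - angH l n / 2) z
  obtain ⟨u, hu⟩ : ∃ u : ℝ, u = (kl (rot (Real.pi - angH l n / 2) z)).re := ⟨_, rfl⟩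
  obtain ⟨v, hv⟩ : ∃ v : ℝ, v = (kl (rot (Real.pi - angH l n / 2) z)).im := ⟨_, rfl⟩
  have hu1 : |u| < 1 := by
    rw [hu]
    exact (Complex.abs_re_le_norm _).trans_lt hn1
  have hth : |Real.tanh (rho l n)| < 1 := Real.abs_tanh_lt_one _
  have hD : 0 < 1 + Real.tanh (rho l n) * u := by
    have h1 : |Real.tanh (rho l n) * u| < 1 := by
      rw [abs_mul]
      nlinarith [abs_nonneg u, abs_nonneg (Real.tanh (rho l n))]
    have := (abs_lt.1 h1).1
    linarith
  have hu' : u = -(Real.cos (angH l n / 2) * (kl z).re + Real.sin (angH l n / 2) * (kl z).im) := by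
    rw [hu, hrot, Complex.mul_re, ee_re, ee_im, Real.cos_pi_sub, Real.sin_pi_sub]
    ring
  have hv' : v = -(Real.cos (angH l n / 2) * (kl z).im - Real.sin (angH l n / 2) * (kl z).re) := by
    rw [hv, hrot, Complex.mul_im, ee_re, ee_im, Real.cos_pi_sub, Real.sin_pi_sub]
    ring
  rw [← hu, ← hv]
  have hre : (ee (-(Real.pi / n)) * ((((u + Real.tanh (rho l n) : ℝ) : ℂ) +
      ((v / Real.cosh (rho l n) : ℝ) : ℂ) * Complex.I) /
      ((1 + Real.tanh (rho l n) * u : ℝ) : ℂ))).re =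
      (Real.cos (Real.pi / n) * (u + Real.tanh (rho l n)) +
        Real.sin (Real.pi / n) * (v / Real.cosh (rho l n))) / (1 + Real.tanh (rho l n) * u) := by
    rw [← mul_div_assoc, Complex.div_ofReal_re, fre, Real.cos_neg, Real.sin_neg]
    congr 1
    simp only [Complex.add_re, Complex.add_im, Complex.ofReal_re, Complex.ofReal_im,
      Complex.mul_re, Complex.mul_im, Complex.I_re, Complex.I_im]
    ring
  rw [hre, div_eq_iff hD.ne', kap, Real.tanh_eq_sinh_div_cosh]
  have hch := cosh_rho (l := l) hn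
  have hsi := sin_a (l := l) hn
  have r4 : Real.cosh (rho l n) * Real.sin (Real.pi / n) * Real.sin (angH l n / 2) =
      Real.cos (angH l n / 2) * Real.cos (Real.pi / n) := by
    linear_combination Real.sin (angH l n / 2) * hch + Real.cos (angH l n / 2) * hsi
  have csq := Real.cosh_sq (rho l n)
  set C := Real.cosh (rho l n)
  set S := Real.sinh (rho l n)
  set cn := Real.cos (Real.pi / n)
  set sn := Real.sin (Real.pi / n)
  set ca := Real.cos (angH l n / 2)
  set sa := Real.sin (angH l n / 2)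
  have hcc : 0 < cn * sa + C * sn * ca := by positivity
  have main : cn * (u + S / C) + sn * (v / C) - S / C * cn * (1 + S / C * u) =
      -((cn * sa + C * sn * ca) * (kl z).im) / C ^ 2 := by
    field_simp
    rw [hu', hv']
    linear_combination (-(cn * (ca * (kl z).re + sa * (kl z).im))) * csq + (kl z).re * r4
  constructor
  · intro h
    have h1 : -((cn * sa + C * sn * ca) * (kl z).im) / C ^ 2 = 0 := by
      rw [← main]; linarith
    have h2 : C ^ 2 ≠ 0 := pow_ne_zero 2 hC.ne'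
    rw [div_eq_zero_iff] at h1
    rcases h1 with h1 | h1
    · rw [neg_eq_zero] at h1
      rcases mul_eq_zero.1 h1 with h3 | h3
      · exact absurd h3 hcc.ne'
      · exact h3
    · exact absurd h1 h2
  · intro h
    rw [h, mul_zero, neg_zero, zero_div] at main
    linarith

theorem kl_trI (hF : S_KLF) (t : ℝ) : kl (tr t UpperHalfPlane.I) = ((Real.tanh t : ℝ) : ℂ) := by
  obtain ⟨k1, k2, k3, k4⟩ := hF
  rw [k3, k4]
  simp

theorem mem_seg (hF : S_KLF) (hH : S_KLH) (hS : S_PSEC) (hl : 0 < l) (hn : 3 ≤ n) (z : ℍ) :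
    z ∈ Seg l ↔ z ∈ Poly l n ∧ (ee (-(Real.pi / n)) * kl (Minv l n z)).re = kap l n := by
  obtain ⟨-, -, -, h4, h5⟩ := hS l n hl hn
  rw [key hF hH hS hl hn]
  constructor
  · intro h
    refine ⟨h5 h, ?_⟩
    obtain ⟨t, -, rfl⟩ := h
    show (kl (tr t UpperHalfPlane.I)).im = 0
    rw [kl_trI hF, Complex.ofReal_im]
  · rintro ⟨h, h'⟩
    exact h4 z h h'

theorem mem_side (hM : S_MINV) (hF : S_KLF) (hH : S_KLH) (hP : S_PINV) (hS : S_PSEC)
    (hl : 0 < l) (hn : 3 ≤ n) (i : ℕ) (z : ℍ) :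
    z ∈ ((R1 l n * R0 l) ^ i : ℍ ≃ᵢ ℍ) '' Seg l ↔
      z ∈ Poly l n ∧ (ee ((2 * i - 1) * Real.pi / n) * kl (Minv l n z)).re = kap l n := by
  obtain ⟨y, rfl⟩ : ∃ y, ((R1 l n * R0 l) ^ i : ℍ ≃ᵢ ℍ) y = z :=
    ((R1 l n * R0 l) ^ i : ℍ ≃ᵢ ℍ).surjective z
  have h1 : (((R1 l n * R0 l) ^ i : ℍ ≃ᵢ ℍ) y ∈ ((R1 l n * R0 l) ^ i : ℍ ≃ᵢ ℍ) '' Seg l) ↔
      y ∈ Seg l := by
    constructor
    · rintro ⟨x, hx, hxy⟩
      rwa [← ((R1 l n * R0 l) ^ i : ℍ ≃ᵢ ℍ).injective hxy]
    · intro h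
      exact ⟨y, h, rfl⟩
  have e : (2 * (i : ℝ) - 1) * Real.pi / n + -(2 * i * Real.pi / n) = -(Real.pi / n) := by ring
  rw [h1, mem_seg hF hH hS hl hn, poly_inv hP hl hn, kl_Mi hM hF hl hn, ← mul_assoc, ← ee_add, e]

theorem kap_pos (hl : 0 < l) (hn : 3 ≤ n) : 0 < kap l n := by
  unfold kap
  apply mul_pos _ (cosn_pos hn)
  rw [Real.tanh_eq_sinh_div_cosh]
  exact div_pos (Real.sinh_pos_iff.2 (rho_pos hl hn)) (Real.cosh_pos _)

theorem le_kap (hn : 3 ≤ n) {z : ℍ} (hz : z ∈ Poly l n) {i : ℕ} (hi : i ≤ n) :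
    (ee ((2 * i - 1) * Real.pi / n) * kl (Minv l n z)).re ≤ kap l n := by
  obtain ⟨j, hj⟩ := idx' i (by omega : 0 < n) hi
  rw [hj]
  exact hz j

end fixed

end PBDx

open PBDx in
theorem pbd (hM : S_MINV) (hF : S_KLF) (hH : S_KLH) (hP : S_PINV) (hS : S_PSEC) : S_PBD := by
  intro l n hl hn
  have hn0 : 0 < n := by omega
  have hnr : (0 : ℝ) < n := by exact_mod_cast hn0
  have hκ := kap_pos hl hn
  have hcont : ∀ θ : ℝ, Continuous (fun z : ℍ => (ee θ * kl (Minv l n z)).re) := by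
    intro θ
    exact Complex.continuous_re.comp (continuous_const.mul
      (hH.1.comp (Minv l n).continuous))
  have hclosed : IsClosed (Poly l n) := by
    have e : Poly l n = ⋂ j : ℕ, {z | (ee (-((2 * j + 1) * Real.pi / n)) *
        kl (Minv l n z)).re ≤ kap l n} := by
      ext z
      rw [mem_iInter]
      exact Iff.rfl
    rw [e]
    exact isClosed_iInter fun j => isClosed_le (hcont _) continuous_const
  refine ⟨?_, ?_, ?_⟩
  · rw [hclosed.frontier_eq]
    ext z
    rw [mem_iUnion₂]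
    constructor
    · rintro ⟨hz, hzi⟩
      by_contra hcon
      push Not at hcon
      apply hzi
      have hopen : IsOpen (⋂ i ∈ Finset.range n,
          {z : ℍ | (ee ((2 * (i : ℕ) - 1) * Real.pi / n) * kl (Minv l n z)).re < kap l n}) :=
        isOpen_biInter_finset fun i _ => isOpen_lt (hcont _) continuous_const
      apply mem_interior.2
      refine ⟨_, ?_, hopen, ?_⟩
      · intro y hy j
        obtain ⟨i, hi, he⟩ := idx hn0 j
        rw [he]
        rw [mem_iInter₂] at hy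
        exact (hy i (Finset.mem_range.2 hi)).le
      · rw [mem_iInter₂]
        intro i hi
        have hi' := Finset.mem_range.1 hi
        have h1 := le_kap hn hz hi'.le
        refine lt_of_le_of_ne h1 fun h2 => ?_
        exact hcon i hi ((mem_side hM hF hH hP hS hl hn i z).2 ⟨hz, h2⟩)
    · rintro ⟨i, hi, hz⟩
      obtain ⟨hz1, hz2⟩ := (mem_side hM hF hH hP hS hl hn i z).1 hz
      refine ⟨hz1, fun hint => ?_⟩
      have hw0 := kl_norm hH (Minv l n z)
      obtain ⟨-, -, -, κ', hκc, hκl, hκr⟩ := hH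
      have hi' := Finset.mem_range.1 hi
      obtain ⟨θ, hθ⟩ : ∃ θ : ℝ, θ = (2 * i - 1) * Real.pi / n := ⟨_, rfl⟩
      obtain ⟨w0, hw⟩ : ∃ w0 : ℂ, w0 = kl (Minv l n z) := ⟨_, rfl⟩
      rw [← hθ, ← hw] at hz2
      rw [← hw] at hw0
      have c1 : Continuous (fun t : ℝ => w0 + (t : ℂ) * ee (-θ)) :=
        continuous_const.add (Complex.continuous_ofReal.mul continuous_const)
      have e1 : w0 + ((0 : ℝ) : ℂ) * ee (-θ) = w0 := by
        rw [Complex.ofReal_zero, zero_mul, add_zero]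
      have hball : Metric.ball (0 : ℂ) 1 ∈ 𝓝 w0 :=
        Metric.isOpen_ball.mem_nhds (by rwa [mem_ball_zero_iff])
      have c2 : ContinuousAt κ' (w0 + ((0 : ℝ) : ℂ) * ee (-θ)) := by
        rw [e1]
        exact hκc.continuousAt hball
      have c3 : ContinuousAt (fun t : ℝ => κ' (w0 + (t : ℂ) * ee (-θ))) 0 :=
        ContinuousAt.comp (f := fun t : ℝ => w0 + (t : ℂ) * ee (-θ)) c2 c1.continuousAt
      have c4 : ContinuousAt (fun t : ℝ => (Minv l n).symm (κ' (w0 + (t : ℂ) * ee (-θ)))) 0 :=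
        ContinuousAt.comp (f := fun t : ℝ => κ' (w0 + (t : ℂ) * ee (-θ)))
          (Minv l n).symm.continuous.continuousAt c3
      have e2 : (Minv l n).symm (κ' (w0 + ((0 : ℝ) : ℂ) * ee (-θ))) = z := by
        rw [e1, hw, hκl, IsometryEquiv.symm_apply_apply]
      have v1 : ∀ᶠ t : ℝ in 𝓝 0,
          (Minv l n).symm (κ' (w0 + (t : ℂ) * ee (-θ))) ∈ interior (Poly l n) := by
        apply c4.eventually
        show ∀ᶠ y in 𝓝 ((Minv l n).symm (κ' (w0 + ((0 : ℝ) : ℂ) * ee (-θ)))),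
          y ∈ interior (Poly l n)
        rw [e2]
        exact isOpen_interior.mem_nhds hint
      have v2 : ∀ᶠ t : ℝ in 𝓝 0, w0 + (t : ℂ) * ee (-θ) ∈ Metric.ball (0 : ℂ) 1 := by
        apply c1.continuousAt.eventually
        show ∀ᶠ x in 𝓝 (w0 + ((0 : ℝ) : ℂ) * ee (-θ)), x ∈ Metric.ball (0 : ℂ) 1
        rw [e1]
        exact hball
      obtain ⟨ε, hε, hb⟩ := Metric.eventually_nhds_iff.1 (v1.and v2)
      obtain ⟨b1, b2⟩ := hb (y := ε / 2) (by
        rw [Real.dist_eq, sub_zero, abs_of_pos (by linarith)]; linarith)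
      have b3 := le_kap hn (interior_subset b1) hi'.le
      rw [IsometryEquiv.apply_symm_apply, hκr _ b2, ← hθ, mul_add, Complex.add_re, hz2] at b3
      have e3 : ee θ * (((ε / 2 : ℝ) : ℂ) * ee (-θ)) = ((ε / 2 : ℝ) : ℂ) := by
        have : ee θ * ee (-θ) = 1 := by rw [← ee_add, add_neg_cancel, ee_zero]
        linear_combination ((ε / 2 : ℝ) : ℂ) * this
      rw [e3, Complex.ofReal_re] at b3
      linarith
  · intro i hi2 hin
    rw [disjoint_left]
    intro z h1 h2
    obtain ⟨hz, h1⟩ := (mem_seg hF hH hS hl hn z).1 h1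
    obtain ⟨-, h2⟩ := (mem_side hM hF hH hP hS hl hn i z).1 h2
    rcases le_or_gt 0 (Real.cos (i * Real.pi / n)) with hc | hc
    · have h3 := le_kap hn hz (i := 1) (by omega)
      refine nonadj hi2 (by omega) hκ hc (kl (Minv l n z)) (-(Real.pi / n)) h1 ?_ ?_
      · have e : -(Real.pi / n) + 2 * i * Real.pi / n = (2 * (i : ℝ) - 1) * Real.pi / n := by ring
        rw [e]
        exact h2
      · have e : -(Real.pi / n) + 2 * Real.pi / n = (2 * ((1 : ℕ) : ℝ) - 1) * Real.pi / n := by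
          push_cast; ring
        rw [e]
        exact h3
    · have h3 := le_kap hn hz (i := i + 1) (by omega)
      have hcast : ((n - i : ℕ) : ℝ) = n - i := Nat.cast_sub (by omega)
      refine nonadj (n := n) (i := n - i) (by omega) (by omega) hκ ?_ (kl (Minv l n z))
        ((2 * (i : ℝ) - 1) * Real.pi / n) h2 ?_ ?_
      · have e : ((n - i : ℕ) : ℝ) * Real.pi / n = Real.pi - i * Real.pi / n := by
          rw [hcast]
          field_simp
        rw [e, Real.cos_pi_sub]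
        linarith
      · have e : (2 * (i : ℝ) - 1) * Real.pi / n + 2 * ((n - i : ℕ) : ℝ) * Real.pi / n =
            -(Real.pi / n) + 2 * Real.pi := by
          rw [hcast]
          field_simp
          ring
        rw [e, ee_add, ee_two_pi, mul_one]
        exact h1
      · have e : (2 * (i : ℝ) - 1) * Real.pi / n + 2 * Real.pi / n =
            (2 * ((i + 1 : ℕ) : ℝ) - 1) * Real.pi / n := by
          push_cast; ring
        rw [e]
        exact h3
  · have hMI : kl (Minv l n UpperHalfPlane.I) = ((Real.tanh (rho l n) : ℝ) : ℂ) := by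
      obtain ⟨k1, k2, k3, k4⟩ := hF
      have e : kl (Minv l n UpperHalfPlane.I) =
        kl (tr (rho l n) (rot (Real.pi - angH l n / 2) UpperHalfPlane.I)) := rfl
      rw [e, k3, k1, k4]
      simp
    have hI0 : UpperHalfPlane.I ∈ Seg l := by
      refine ⟨0, ⟨le_rfl, hl.le⟩, ?_⟩
      apply hH.2.1
      show kl (tr 0 UpperHalfPlane.I) = kl UpperHalfPlane.I
      rw [kl_trI hF, hF.2.2.2, Real.tanh_zero, Complex.ofReal_zero]
    have hside := mem_side hM hF hH hP hS hl hn 1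
    rw [pow_one] at hside
    have e11 : (2 * ((1 : ℕ) : ℝ) - 1) * Real.pi / n = Real.pi / n := by push_cast; ring
    ext z
    rw [mem_inter_iff, mem_singleton_iff]
    constructor
    · rintro ⟨h1, h2⟩
      obtain ⟨hz, h1⟩ := (mem_seg hF hH hS hl hn z).1 h1
      obtain ⟨-, h2⟩ := (hside z).1 h2
      rw [e11, fre] at h2
      rw [fre, Real.cos_neg, Real.sin_neg] at h1
      have hcn := cosn_pos hn
      have hsn := sinn_pos hn
      have i0 : (kl (Minv l n z)).im = 0 := by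
        have : Real.sin (Real.pi / n) * (kl (Minv l n z)).im = 0 := by linarith
        exact (mul_eq_zero.1 this).resolve_left hsn.ne'
      have r0 : (kl (Minv l n z)).re = Real.tanh (rho l n) := by
        rw [i0] at h2
        unfold kap at h2
        apply mul_left_cancel₀ hcn.ne'
        linarith
      apply (Minv l n).injective
      apply hH.2.1
      rw [hMI]
      apply Complex.ext
      · rw [Complex.ofReal_re, r0]
      · rw [Complex.ofReal_im, i0]
    · rintro rfl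
      refine ⟨hI0, (hside _).2 ⟨((mem_seg hF hH hS hl hn _).1 hI0).1, ?_⟩⟩
      rw [e11, fre, hMI, Complex.ofReal_re, Complex.ofReal_im]
      unfold kap
      ring

end H292.TL
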