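import Pool.Agent.H292.TL.FB

/-!
Project TL: the regular polygon is geodesically convex.
-/

set_option autoImplicit false
open scoped UpperHalfPlane Topology
open Set

namespace H292.TL

theorem pconv (hKLG : S_KLG) : S_PCONV := by
  intro l n x hx y hy z hz
  have hx' : ∀ j : ℕ, (ee (-((2 * j + 1) * Real.pi / n)) * kl (Minv l n x)).re ≤ kap l n := hx
  have hy' : ∀ j : ℕ, (ee (-((2 * j + 1) * Real.pi / n)) * kl (Minv l n y)).re ≤ kap l n := hy
  change ∀ j : ℕ, (ee (-((2 * j + 1) * Real.pi / n)) * kl (Minv l n z)).re ≤ kap l n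
  intro j
  have hd : dist (Minv l n x) (Minv l n z) + dist (Minv l n z) (Minv l n y) =
      dist (Minv l n x) (Minv l n y) := by
    rw [(Minv l n).dist_eq, (Minv l n).dist_eq, (Minv l n).dist_eq]
    exact hz
  obtain ⟨a, b, ha, hb, hab, h⟩ := hKLG _ _ _ hd
  rw [← h]
  have e : (ee (-((2 * j + 1) * Real.pi / n)) *
      (a • kl (Minv l n x) + b • kl (Minv l n y))).re =
      a * (ee (-((2 * j + 1) * Real.pi / n)) * kl (Minv l n x)).re +
      b * (ee (-((2 * j + 1) * Real.pi / n)) * kl (Minv l n y)).re := by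
    rw [mul_add, Complex.add_re, mul_smul_comm, mul_smul_comm, Complex.smul_re, Complex.smul_re]
    simp only [smul_eq_mul]
  rw [e]
  have h1 := mul_le_mul_of_nonneg_left (hx' j) ha
  have h2 := mul_le_mul_of_nonneg_left (hy' j) hb
  calc _ ≤ a * kap l n + b * kap l n := add_le_add h1 h2
    _ = kap l n := by rw [← add_mul, hab, one_mul]

end H292.TL
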