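import Pool.Agent.H292.TL.FB

/-! The regular polygon is a closed disc. -/

set_option autoImplicit false
open scoped UpperHalfPlane Topology MatrixGroups
open Set

namespace H292.TL

namespace PDISCaux

/-- the euclidean polygon -/
def Pe (l : ℝ) (n : ℕ) : Set ℂ :=
  {w | ∀ j : ℕ, (ee (-((2 * j + 1) * Real.pi / n)) * w).re ≤ kap l n}

theorem norm_ee (θ : ℝ) : ‖ee θ‖ = 1 := Complex.norm_exp_ofReal_mul_I θ

theorem ee_re (θ : ℝ) : (ee θ).re = Real.cos θ := Complex.exp_ofReal_mul_I_re θ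

theorem ee_add (a b : ℝ) : ee (a + b) = ee a * ee b := by
  unfold ee
  rw [← Complex.exp_add]
  congr 1
  push_cast
  ring

theorem cos_pos {n : ℕ} (hn : 3 ≤ n) : 0 < Real.cos (Real.pi / n) := by
  have hn' : (3:ℝ) ≤ n := by exact_mod_cast hn
  have hpi := Real.pi_pos
  apply Real.cos_pos_of_mem_Ioo
  constructor
  · have : 0 < Real.pi / n := by positivity
    linarith
  · rw [div_lt_div_iff₀ (by linarith) (by norm_num)]
    nlinarith

theorem tanh_pos {l : ℝ} {n : ℕ} (hl : 0 < l) (hn : 3 ≤ n) : 0 < Real.tanh (rho l n) := by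
  have hn' : (3:ℝ) ≤ n := by exact_mod_cast hn
  have hpi := Real.pi_pos
  have h1 : 0 < Real.sin (Real.pi / n) := by
    apply Real.sin_pos_of_pos_of_lt_pi (by positivity)
    exact div_lt_self hpi (by linarith)
  have h2 : 0 < rho l n := by
    unfold rho
    rw [Real.arsinh_pos_iff]
    have : 0 < Real.sinh (l / 2) := Real.sinh_pos_iff.2 (by linarith)
    positivity
  rw [Real.tanh_eq_sinh_div_cosh]
  exact div_pos (Real.sinh_pos_iff.2 h2) (Real.cosh_pos _)

theorem convex_Pe (l : ℝ) (n : ℕ) : Convex ℝ (Pe l n) := by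
  intro x hx y hy a b ha hb hab j
  have h1 := hx j
  have h2 := hy j
  have h3 : (ee (-((2 * j + 1) * Real.pi / n)) * (a • x + b • y)).re =
      a * (ee (-((2 * j + 1) * Real.pi / n)) * x).re +
        b * (ee (-((2 * j + 1) * Real.pi / n)) * y).re := by
    rw [mul_add, mul_smul_comm, mul_smul_comm, Complex.add_re, Complex.smul_re, Complex.smul_re,
      smul_eq_mul, smul_eq_mul]
  rw [h3]
  calc _ ≤ a * kap l n + b * kap l n := by gcongr
    _ = kap l n := by rw [← add_mul, hab, one_mul]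

theorem isClosed_Pe (l : ℝ) (n : ℕ) : IsClosed (Pe l n) := by
  have : Pe l n = ⋂ j : ℕ, {w : ℂ | (ee (-((2 * j + 1) * Real.pi / n)) * w).re ≤ kap l n} := by
    ext w
    simp [Pe]
  rw [this]
  refine isClosed_iInter fun j => ?_
  exact isClosed_le (Complex.continuous_re.comp (continuous_const.mul continuous_id))
    continuous_const

theorem ball_subset (l : ℝ) (n : ℕ) : Metric.ball 0 (kap l n) ⊆ Pe l n := by
  intro w hw j
  rw [mem_ball_zero_iff] at hw
  refine (Complex.re_le_norm _).trans ?_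
  rw [norm_mul, norm_ee, one_mul]
  exact hw.le

/-- the polygon is in a smaller disc -/
theorem subset_ball {l : ℝ} {n : ℕ} (hn : 3 ≤ n) :
    Pe l n ⊆ Metric.closedBall 0 (max 0 (Real.tanh (rho l n))) := by
  intro w hw
  rw [mem_closedBall_zero_iff]
  have hn' : (3:ℝ) ≤ n := by exact_mod_cast hn
  have hn0 : (0:ℝ) < n := by linarith
  have hpi := Real.pi_pos
  -- the argument
  obtain ⟨φ, hφ0, hφ1, hφ⟩ : ∃ φ : ℝ, 0 ≤ φ ∧ φ < 2 * Real.pi ∧ w = ‖w‖ * ee φ := by
    rcases le_or_gt 0 w.arg with h | h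
    · exact ⟨w.arg, h, by linarith [Complex.arg_le_pi w], (Complex.norm_mul_exp_arg_mul_I w).symm⟩
    · refine ⟨w.arg + 2 * Real.pi, by linarith [Complex.neg_pi_lt_arg w], by linarith, ?_⟩
      rw [ee_add]
      have : ee (2 * Real.pi) = 1 := by
        unfold ee
        push_cast
        exact Complex.exp_two_pi_mul_I
      rw [this, mul_one]
      exact (Complex.norm_mul_exp_arg_mul_I w).symm
  obtain ⟨j, hj⟩ : ∃ j : ℕ, j = ⌊φ * n / (2 * Real.pi)⌋₊ := ⟨_, rfl⟩
  have hx0 : 0 ≤ φ * n / (2 * Real.pi) := by positivity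
  have h1 : (j : ℝ) ≤ φ * n / (2 * Real.pi) := by
    rw [hj]
    exact Nat.floor_le hx0
  have h2 : φ * n / (2 * Real.pi) < j + 1 := by
    rw [hj]
    exact Nat.lt_floor_add_one _
  rw [le_div_iff₀ (by positivity)] at h1
  rw [div_lt_iff₀ (by positivity)] at h2
  have h3 : |φ - (2 * j + 1) * Real.pi / n| ≤ Real.pi / n := by
    have e1 : φ = φ * n / n := by field_simp
    rw [e1, ← sub_div, abs_div, abs_of_pos hn0]
    apply div_le_div_of_nonneg_right _ hn0.le
    rw [abs_le]
    constructor <;> linarith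
  have h4 : Real.cos (Real.pi / n) ≤ Real.cos (φ - (2 * j + 1) * Real.pi / n) := by
    rw [← Real.cos_abs (φ - (2 * j + 1) * Real.pi / n)]
    apply Real.cos_le_cos_of_nonneg_of_le_pi (abs_nonneg _) _ h3
    exact (div_le_self hpi.le (by linarith))
  have h5 := hw j
  rw [hφ] at h5
  have h6 : (ee (-((2 * j + 1) * Real.pi / n)) * (‖w‖ * ee φ)).re =
      ‖w‖ * Real.cos (φ - (2 * j + 1) * Real.pi / n) := by
    have : ee (-((2 * j + 1) * Real.pi / n)) * (‖w‖ * ee φ) =
        ((‖w‖ : ℝ) : ℂ) * ee (φ - (2 * j + 1) * Real.pi / n) := by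
      rw [sub_eq_neg_add, ee_add]
      ring
    rw [this, Complex.re_ofReal_mul, ee_re]
  rw [h6] at h5
  have hc := cos_pos hn
  unfold kap at h5
  have h7 : ‖w‖ * Real.cos (Real.pi / n) ≤ Real.tanh (rho l n) * Real.cos (Real.pi / n) :=
    (mul_le_mul_of_nonneg_left h4 (norm_nonneg _)).trans h5
  exact (le_of_mul_le_mul_right h7 hc).trans (le_max_right _ _)

end PDISCaux

open PDISCaux

theorem pdisc (hK : S_KLH) : S_PDISC := by
  intro l n hl hn
  obtain ⟨-, -, -, κ, hκc, hκ1, hκ2⟩ := hK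
  have ht := tanh_pos hl hn
  have hkap : 0 < kap l n := mul_pos ht (cos_pos hn)
  have hsub : Pe l n ⊆ Metric.ball 0 1 := by
    refine (subset_ball hn).trans (Metric.closedBall_subset_ball ?_)
    exact max_lt one_pos (Real.tanh_lt_one _)
  have hne : (interior (Pe l n)).Nonempty :=
    ⟨0, mem_interior.2 ⟨_, ball_subset l n, Metric.isOpen_ball, Metric.mem_ball_self hkap⟩⟩
  have hbd : Bornology.IsBounded (Pe l n) := Metric.isBounded_ball.subset hsub
  obtain ⟨h, -, hh, -⟩ := exists_homeomorph_image_interior_closure_frontier_eq_unitBall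
    (convex_Pe l n) hne hbd
  rw [(isClosed_Pe l n).closure_eq] at hh
  have hh' : ∀ z ∈ Metric.closedBall (0:ℂ) 1, h.symm z ∈ Pe l n := by
    intro z hz
    rw [← hh] at hz
    obtain ⟨w, hw, rfl⟩ := hz
    rw [h.symm_apply_apply]
    exact hw
  refine ⟨fun z => (Minv l n).symm (κ (h.symm z)), ?_, ?_, ?_⟩
  · refine (Minv l n).symm.continuous.comp_continuousOn ?_
    exact hκc.comp h.symm.continuous.continuousOn fun z hz => hsub (hh' z hz)
  · intro z hz z' hz' he
    have h1 : κ (h.symm z) = κ (h.symm z') := (Minv l n).symm.injective he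
    have h2 : h.symm z = h.symm z' := by
      rw [← hκ2 _ (hsub (hh' z hz)), ← hκ2 _ (hsub (hh' z' hz')), h1]
    exact h.symm.injective h2
  · ext p
    constructor
    · rintro ⟨z, hz, rfl⟩
      show Minv l n ((Minv l n).symm (κ (h.symm z))) ∈ Pc l n
      rw [IsometryEquiv.apply_symm_apply]
      intro j
      rw [hκ2 _ (hsub (hh' z hz))]
      exact hh' z hz j
    · intro hp
      have h1 : kl (Minv l n p) ∈ Pe l n := hp
      refine ⟨h (kl (Minv l n p)), ?_, ?_⟩
      · rw [← hh]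
        exact ⟨_, h1, rfl⟩
      · show (Minv l n).symm (κ (h.symm (h (kl (Minv l n p))))) = p
        rw [h.symm_apply_apply, hκ1, IsometryEquiv.symm_apply_apply]

end H292.TL
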