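import Pool.Agent.H292.TL.FB

/-!
Project TL: Poincaré inequality for the face functions (`S_PF`).
-/

set_option autoImplicit false
open scoped UpperHalfPlane Topology MatrixGroups
open Set

namespace H292.TL

variable {T : Set (Set ℍ)}

/-- a tile has at most `2 * nn` flags -/
theorem pf_fiber (H : FS T) {t : Set ℍ} (ht : t ∈ T) :
    {x : Flag T | x.t = t}.Finite ∧ {x : Flag T | x.t = t}.ncard ≤ 2 * nn T t := by
  classical
  obtain ⟨x₀, -⟩ := H.ext t ht
  have hex : ∀ v : ℍ, ∃ x : Flag T, v ∈ Vtx T ∩ t → x.v = v ∧ x.t = t := by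
    intro v
    by_cases hv : v ∈ Vtx T ∩ t
    · obtain ⟨x, hx⟩ := H.exv v hv.1 t ht hv.2
      exact ⟨x, fun _ => hx⟩
    · exact ⟨x₀, fun h => absurd h hv⟩
  choose g hg using hex
  have hfin := H.fint t ht
  have hsub : {x : Flag T | x.t = t} ⊆ g '' (Vtx T ∩ t) ∪ (fun v => s1 (g v)) '' (Vtx T ∩ t) := by
    intro x hx
    have hx' : x.t = t := hx
    have hv : x.v ∈ Vtx T ∩ t := ⟨x.hv, hx' ▸ x.hvt⟩
    have h := hg x.v hv
    rcases H.u1 (g x.v) x h.1.symm (by rw [h.2, hx']) with h1 | h1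
    · left; exact ⟨x.v, hv, h1.symm⟩
    · right; exact ⟨x.v, hv, h1.symm⟩
  have hf1 : (g '' (Vtx T ∩ t)).Finite := hfin.image _
  have hf2 : ((fun v => s1 (g v)) '' (Vtx T ∩ t)).Finite := hfin.image _
  refine ⟨(hf1.union hf2).subset hsub, ?_⟩
  have h1 := Set.ncard_le_ncard hsub (hf1.union hf2)
  have h2 := Set.ncard_union_le (g '' (Vtx T ∩ t)) ((fun v => s1 (g v)) '' (Vtx T ∩ t))
  have h3 := Set.ncard_image_le (f := g) hfin
  have h4 := Set.ncard_image_le (f := fun v => s1 (g v)) hfin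
  unfold nn
  omega

theorem pf (hPOIN : S_POIN) (hBETA : S_BETA) (hCNT : S_CNT) (hCHT : S_CHT) (hBDD : S_BDD) :
    S_PF := by
  classical
  intro T hT H HE
  obtain ⟨r, R, hr, hu⟩ := hT.unif
  choose! c₁ c₂ a1 a2 using hu
  have hc : ∀ t ∈ T, c₁ t ∈ t := fun t ht => a1 t ht (Metric.mem_ball_self hr)
  have hd : ∀ t ∈ T, ∀ p ∈ t, dist (c₁ t) p ≤ 2 * R := by
    intro t ht p hp
    have b1 : dist (c₁ t) (c₂ t) ≤ R := a2 t ht (hc t ht)
    have b2 : dist p (c₂ t) ≤ R := a2 t ht hp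
    have b3 := dist_triangle_right (c₁ t) p (c₂ t)
    linarith
  let pos : {t : Set ℍ // t ∈ T} → ℍ := fun t => c₁ t.1
  let A : {t : Set ℍ // t ∈ T} → {t : Set ℍ // t ∈ T} → Prop :=
    fun s t => ∃ x : Flag T, x.t = s.1 ∧ x.s = t.1
  have k1 : ∀ ρ : ℝ, ∃ N : ℕ, ∀ z : ℍ, {y | dist (pos y) z ≤ ρ}.Finite ∧
      {y | dist (pos y) z ≤ ρ}.ncard ≤ N := by
    intro ρ
    obtain ⟨N, hN⟩ := hCNT T hT ρ
    refine ⟨N, fun z => ?_⟩
    have hm : MapsTo (fun y : {t : Set ℍ // t ∈ T} => y.1) {y | dist (pos y) z ≤ ρ}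
        {t ∈ T | (t ∩ Metric.closedBall z ρ).Nonempty} := by
      intro y hy
      exact ⟨y.2, c₁ y.1, hc y.1 y.2, Metric.mem_closedBall.2 hy⟩
    have hi : InjOn (fun y : {t : Set ℍ // t ∈ T} => y.1) {y | dist (pos y) z ≤ ρ} :=
      Subtype.val_injective.injOn
    exact ⟨(hN z).1.of_injOn hm hi,
      (Set.ncard_le_ncard_of_injOn _ hm hi (hN z).1).trans (hN z).2⟩
  have k2 : ∃ R' : ℝ, ∀ z : ℍ, ∃ y, dist (pos y) z ≤ R' := by
    refine ⟨2 * R, fun z => ?_⟩
    obtain ⟨t, ht, hz⟩ := hT.cover z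
    exact ⟨⟨t, ht⟩, hd t ht z hz⟩
  have k3 : ∃ D : ℝ, ∀ y y', A y y' → dist (pos y) (pos y') ≤ D := by
    refine ⟨4 * R, ?_⟩
    rintro y y' ⟨x, hx1, hx2⟩
    have b1 := hd y.1 y.2 x.v (hx1 ▸ x.hvt)
    have b2 := hd y'.1 y'.2 x.v (hx2 ▸ x.hvs)
    have b3 := dist_triangle_right (c₁ y.1) (c₁ y'.1) x.v
    have b4 : dist (pos y) (pos y') = dist (c₁ y.1) (c₁ y'.1) := rfl
    rw [b4]
    linarith
  have k4 : ∀ D : ℝ, ∃ M : ℕ, ∀ y y', dist (pos y) (pos y') ≤ D →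
      ∃ n ≤ M, ∃ p : ℕ → {t : Set ℍ // t ∈ T}, p 0 = y ∧ p n = y' ∧
        ∀ i < n, A (p i) (p (i+1)) := by
    intro D
    obtain ⟨M, hM⟩ := hCHT T hT H HE D
    refine ⟨M, fun y y' hyy => ?_⟩
    obtain ⟨n, hn, c, hc0, hcn, hcc⟩ :=
      hM y.1 y.2 y'.1 y'.2 (c₁ y.1) (hc y.1 y.2) (c₁ y'.1) (hc y'.1 y'.2) hyy
    have hcT : ∀ i ≤ n, c i ∈ T := by
      intro i hi
      rcases Nat.lt_or_ge i n with h | h
      · obtain ⟨x, hx, -⟩ := hcc i h
        exact hx ▸ x.ht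
      · have : i = n := le_antisymm hi h
        rw [this, hcn]; exact y'.2
    have hP : ∀ i : ℕ, ∃ z : {t : Set ℍ // t ∈ T}, i ≤ n → z.1 = c i := by
      intro i
      by_cases hi : i ≤ n
      · exact ⟨⟨c i, hcT i hi⟩, fun _ => rfl⟩
      · exact ⟨y, fun h => absurd h hi⟩
    choose P hP using hP
    refine ⟨n, hn, P, ?_, ?_, ?_⟩
    · apply Subtype.ext
      rw [hP 0 (Nat.zero_le _)]
      exact hc0
    · apply Subtype.ext
      rw [hP n le_rfl]
      exact hcn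
    · intro i hi
      obtain ⟨x, hx1, hx2⟩ := hcc i hi
      refine ⟨x, ?_, ?_⟩
      · rw [hP i hi.le]; exact hx1
      · rw [hP (i+1) hi]; exact hx2
  obtain ⟨C, hC0, hC⟩ := hPOIN {t : Set ℍ // t ∈ T} pos A k1 (hBETA _ pos k1 k2) k3 k4
  obtain ⟨N, hN, -⟩ := hBDD T hT H HE
  refine ⟨(2 * N + 1) * C, by positivity, ?_⟩
  intro f hf0 hf1 hf
  -- `f` is a function of the tile
  have hft : ∀ x y : Flag T, y.t = x.t → f y = f x := by
    intro x y hxy
    have h := H.c01 x y hxy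
    induction h with
    | refl => rfl
    | tail _ h2 ih =>
      rename_i b c h1
      have hb : b.t = x.t := Rch_t H.toFS1 h1
      rcases h2 with h2 | h2
      · rw [h2, hf0, ih hb]
      · rw [h2, hf1, ih hb]
  have hfl : ∀ y : {t : Set ℍ // t ∈ T}, ∃ x : Flag T, x.t = y.1 := fun y => H.ext y.1 y.2
  choose fl hfl using hfl
  have hflinj : Function.Injective fl := by
    intro y y' h
    apply Subtype.ext
    rw [← hfl y, ← hfl y', h]
  let F : {t : Set ℍ // t ∈ T} → ℝ := fun y => f (fl y)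
  have hF : ∀ x : Flag T, f x = F ⟨x.t, x.ht⟩ := fun x => hft _ _ (hfl ⟨x.t, x.ht⟩).symm
  have hFs : Summable (fun y => F y ^ 2) := hf.comp_injective hflinj
  obtain ⟨e1, e2⟩ := hC F hFs
  -- comparison of the energies
  have hs2 : Function.Injective (s2 : Flag T → Flag T) := fun x y h => by
    rw [← s2_s2 x, h, s2_s2]
  have hfs : Summable (fun x => (f (s2 x) - f x) ^ 2) := by
    have h1 : Summable (fun x => f (s2 x) ^ 2) := hf.comp_injective hs2
    refine Summable.of_nonneg_of_le (fun x => sq_nonneg _) (fun x => ?_)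
      ((h1.mul_left 2).add (hf.mul_left 2))
    nlinarith [sq_nonneg (f (s2 x) + f x)]
  have hE : ∀ e : {e : {t : Set ℍ // t ∈ T} × {t : Set ℍ // t ∈ T} // A e.1 e.2},
      ∃ x : Flag T, x.t = e.1.1.1 ∧ x.s = e.1.2.1 := fun e => e.2
  choose φ hφ using hE
  have hφinj : Function.Injective φ := by
    intro e e' h
    apply Subtype.ext
    apply Prod.ext
    · apply Subtype.ext; rw [← (hφ e).1, ← (hφ e').1, h]
    · apply Subtype.ext; rw [← (hφ e).2, ← (hφ e').2, h]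
  have e3 : ∑' e : {e : {t : Set ℍ // t ∈ T} × {t : Set ℍ // t ∈ T} // A e.1 e.2},
      (F e.1.2 - F e.1.1) ^ 2 ≤ ∑' x, (f (s2 x) - f x) ^ 2 := by
    refine Summable.tsum_le_tsum_of_inj φ hφinj (fun x _ => sq_nonneg _) (fun e => ?_) e1 hfs
    have b1 : F e.1.2 = f (s2 (φ e)) := by
      refine hft _ _ ?_
      rw [hfl, s2_t, (hφ e).2]
    have b2 : F e.1.1 = f (φ e) := by
      refine hft _ _ ?_
      rw [hfl, (hφ e).1]
    rw [b1, b2]
  -- comparison of the norms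
  have e4 : ∑' x, f x ^ 2 ≤ (2 * N + 1) * ∑' y, F y ^ 2 := by
    refine hf.tsum_le_of_sum_le (fun s => ?_)
    let q : Flag T → {t : Set ℍ // t ∈ T} := fun x => ⟨x.t, x.ht⟩
    rw [← Finset.sum_fiberwise_of_maps_to (g := q) (t := s.image q)
      (fun x hx => Finset.mem_image_of_mem q hx)]
    have b1 : ∀ y ∈ s.image q, ∑ x ∈ s.filter (fun x => q x = y), f x ^ 2 ≤
        (2 * N + 1) * F y ^ 2 := by
      intro y _
      have b2 : ∀ x ∈ s.filter (fun x => q x = y), f x ^ 2 = F y ^ 2 := by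
        intro x hx
        rw [hF x, ← (Finset.mem_filter.1 hx).2]
      rw [Finset.sum_congr rfl b2, Finset.sum_const, nsmul_eq_mul]
      refine mul_le_mul_of_nonneg_right ?_ (sq_nonneg _)
      have b3 := pf_fiber H y.2
      have b4 : ((s.filter (fun x => q x = y) : Finset (Flag T)) : Set (Flag T)) ⊆
          {x : Flag T | x.t = y.1} := by
        intro x hx
        have hx' := (Finset.mem_filter.1 (Finset.mem_coe.1 hx)).2
        exact congrArg Subtype.val hx'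
      have b5 := Set.ncard_le_ncard b4 b3.1
      rw [Set.ncard_coe_finset] at b5
      have b6 := hN y.1 y.2
      have b7 : (s.filter (fun x => q x = y)).card ≤ 2 * N + 1 := by omega
      exact_mod_cast b7
    refine (Finset.sum_le_sum b1).trans ?_
    rw [← Finset.mul_sum]
    refine mul_le_mul_of_nonneg_left ?_ (by positivity)
    exact hFs.sum_le_tsum _ (fun y _ => sq_nonneg _)
  calc ∑' x, f x ^ 2 ≤ (2 * N + 1) * ∑' y, F y ^ 2 := e4
    _ ≤ (2 * N + 1) * (C * ∑' x, (f (s2 x) - f x) ^ 2) := by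
        refine mul_le_mul_of_nonneg_left ?_ (by positivity)
        exact e2.trans (mul_le_mul_of_nonneg_left e3 hC0.le)
    _ = (2 * N + 1) * C * ∑' x, (f (s2 x) - f x) ^ 2 := by ring

end H292.TL
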