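import Pool.Agent.H292.TL.FB

/-!
Project TL, PINV: the regular polygon is invariant under `R0`, `R1`.
-/

set_option autoImplicit false
open scoped UpperHalfPlane Topology
open Set

namespace H292.TL

theorem pinv_ee_period (θ : ℝ) (m : ℤ) : ee (θ + m * (2 * Real.pi)) = ee θ := by
  unfold ee
  rw [Complex.exp_eq_exp_iff_exists_int]
  refine ⟨m, ?_⟩
  push_cast
  ring

theorem pinv_ee_add (a b : ℝ) : ee (a + b) = ee a * ee b := by
  unfold ee
  rw [← Complex.exp_add]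
  congr 1
  push_cast
  ring

theorem pinv_ee_conj (a : ℝ) : starRingEnd ℂ (ee a) = ee (-a) := by
  unfold ee
  rw [← Complex.exp_conj]
  congr 1
  simp

/-- the inequalities of the polygon, all integers -/
theorem pinv_int {l : ℝ} {n : ℕ} (hn : 0 < n) {z : ℍ} (h : z ∈ Pc l n) (k : ℤ) :
    (ee (-((2 * (k : ℝ) + 1) * Real.pi / n)) * kl z).re ≤ kap l n := by
  have hn' : (n : ℤ) ≠ 0 := by exact_mod_cast hn.ne'
  have hnR : (n : ℝ) ≠ 0 := by exact_mod_cast hn.ne'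
  obtain ⟨j, hj⟩ : ∃ j : ℕ, (j : ℤ) = k % n := ⟨(k % n).toNat, Int.toNat_of_nonneg (Int.emod_nonneg _ hn')⟩
  have h1 := h j
  have h2 : (k : ℝ) = j + n * ((k / n : ℤ) : ℝ) := by
    have h3 : k = j + n * (k / n) := by
      rw [hj]
      exact (Int.emod_add_mul_ediv k n).symm
    exact_mod_cast h3
  have h4 : -((2 * (k : ℝ) + 1) * Real.pi / n) =
      -((2 * (j : ℝ) + 1) * Real.pi / n) + ((-(k / n : ℤ) : ℤ) : ℝ) * (2 * Real.pi) := by
    rw [h2]
    push_cast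
    field_simp
    ring
  rw [h4, pinv_ee_period]
  exact h1

theorem pinv_cj (hF : S_KLF) {l : ℝ} {n : ℕ} (hn : 0 < n) {z : ℍ} (h : z ∈ Pc l n) :
    cj z ∈ Pc l n := by
  intro j
  have h1 := pinv_int hn h (-(j : ℤ) - 1)
  have h2 : -((2 * ((-(j : ℤ) - 1 : ℤ) : ℝ) + 1) * Real.pi / n) =
      (2 * (j : ℝ) + 1) * Real.pi / n := by
    push_cast
    ring
  rw [h2] at h1
  rw [hF.2.1]
  have h3 : ee (-((2 * (j : ℝ) + 1) * Real.pi / n)) * starRingEnd ℂ (kl z) =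
      starRingEnd ℂ (ee ((2 * (j : ℝ) + 1) * Real.pi / n) * kl z) := by
    rw [map_mul, pinv_ee_conj]
  rw [h3, Complex.conj_re]
  exact h1

theorem pinv_rot (hF : S_KLF) {l : ℝ} {n : ℕ} (hn : 0 < n) {z : ℍ} (h : z ∈ Pc l n) :
    rot (2 * Real.pi / n) z ∈ Pc l n := by
  intro j
  have h1 := pinv_int hn h ((j : ℤ) - 1)
  have h2 : -((2 * (((j : ℤ) - 1 : ℤ) : ℝ) + 1) * Real.pi / n) =
      -((2 * (j : ℝ) + 1) * Real.pi / n) + 2 * Real.pi / n := by
    push_cast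
    ring
  rw [h2, pinv_ee_add] at h1
  rw [hF.1, ← mul_assoc]
  exact h1

theorem pinv (hM : S_MINV) (hF : S_KLF) (hR : S_REL) : S_PINV := by
  intro l n hl hn
  have hn0 : 0 < n := by omega
  obtain ⟨m1, m0⟩ := hM l n hl hn
  have inv : ∀ f : ℍ ≃ᵢ ℍ, f * f = 1 → (∀ z ∈ Poly l n, f z ∈ Poly l n) →
      f '' Poly l n = Poly l n := by
    intro f hf hz
    apply Set.Subset.antisymm
    · rintro _ ⟨z, hz', rfl⟩
      exact hz z hz'
    · intro z hz'
      refine ⟨f z, hz z hz', ?_⟩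
      have := congrArg (fun g : ℍ ≃ᵢ ℍ => g z) hf
      exact this
  constructor
  · refine inv _ (hR.2.2.2.1 l).1 fun z hz => ?_
    have h1 : Minv l n (R0 l z) = rot (2 * Real.pi / n) (cj (Minv l n z)) :=
      congrArg (fun g : ℍ ≃ᵢ ℍ => g z) m0
    change Minv l n (R0 l z) ∈ Pc l n
    rw [h1]
    exact pinv_rot hF hn0 (pinv_cj hF hn0 hz)
  · refine inv _ (hR.2.2.2.2.1 l n).1 fun z hz => ?_
    have h1 : Minv l n (R1 l n z) = cj (Minv l n z) :=
      congrArg (fun g : ℍ ≃ᵢ ℍ => g z) m1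
    change Minv l n (R1 l n z) ∈ Pc l n
    rw [h1]
    exact pinv_cj hF hn0 hz

end H292.TL
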