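import Pool.Agent.H292.TL.FB

/-!
Project TL, task POIN: Poincaré inequality from a two-to-one map of bounded displacement.
-/

set_option autoImplicit false
open scoped UpperHalfPlane Topology ENNReal
open Set

namespace H292.TL

namespace POINAux

/-- counting lemma -/
theorem count_le {I Y : Type} (a : I → Y) (N : ℕ) (hN : ∀ y, (a ⁻¹' {y}).encard ≤ N)
    (g : Y → ℝ≥0∞) : ∑' i, g (a i) ≤ N * ∑' y, g y := by
  rw [← ENNReal.tsum_fiberwise (fun i => g (a i)) a, ← ENNReal.tsum_mul_left]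
  refine ENNReal.tsum_le_tsum fun y => ?_
  have h : ∑' b : (a ⁻¹' {y}), g (a b) = ∑' _ : (a ⁻¹' {y}), g y := by
    refine tsum_congr fun b => ?_
    have hb : a b = y := b.2
    rw [hb]
  rw [h, ENNReal.tsum_set_const]
  gcongr
  have h1 := hN y
  have h2 : (((a ⁻¹' {y}).encard : ℕ∞) : ℝ≥0∞) ≤ ((N : ℕ∞) : ℝ≥0∞) :=
    ENat.toENNReal_mono h1
  simpa using h2

/-- the other direction -/
theorem le_count {I Y : Type} (a : I → Y) (N : ℕ) (hN : ∀ y, (N : ℕ∞) ≤ (a ⁻¹' {y}).encard)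
    (g : Y → ℝ≥0∞) : N * ∑' y, g y ≤ ∑' i, g (a i) := by
  rw [← ENNReal.tsum_fiberwise (fun i => g (a i)) a, ← ENNReal.tsum_mul_left]
  refine ENNReal.tsum_le_tsum fun y => ?_
  have h : ∑' b : (a ⁻¹' {y}), g (a b) = ∑' _ : (a ⁻¹' {y}), g y := by
    refine tsum_congr fun b => ?_
    have hb : a b = y := b.2
    rw [hb]
  rw [h, ENNReal.tsum_set_const]
  gcongr
  have h2 : ((N : ℕ∞) : ℝ≥0∞) ≤ (((a ⁻¹' {y}).encard : ℕ∞) : ℝ≥0∞) :=
    ENat.toENNReal_mono (hN y)
  simpa using h2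

theorem encard_le_of_ncard {α : Type} {s : Set α} {N : ℕ} (hs : s.Finite) (h : s.ncard ≤ N) :
    s.encard ≤ N := by
  rw [← hs.cast_ncard_eq]
  exact_mod_cast h

/-- telescoping and Cauchy–Schwarz -/
theorem tele {Y : Type} (f : Y → ℝ) (p : ℕ → Y) (n M : ℕ) (hn : n ≤ M) :
    (f (p n) - f (p 0)) ^ 2 ≤ M * ∑ i : Fin n, (f (p (i + 1)) - f (p i)) ^ 2 := by
  have h1 : f (p n) - f (p 0) = ∑ i ∈ Finset.range n, (f (p (i + 1)) - f (p i)) :=
    (Finset.sum_range_sub (fun i => f (p i)) n).symm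
  rw [h1, Fin.sum_univ_eq_sum_range (fun i => (f (p (i + 1)) - f (p i)) ^ 2) n]
  have h2 := sq_sum_le_card_mul_sum_sq (s := Finset.range n)
    (f := fun i => f (p (i + 1)) - f (p i))
  rw [Finset.card_range] at h2
  refine h2.trans ?_
  have h3 : (n : ℝ) ≤ M := by exact_mod_cast hn
  exact mul_le_mul_of_nonneg_right h3 (Finset.sum_nonneg fun i _ => sq_nonneg _)

end POINAux

open POINAux

theorem poin : S_POIN := by
  intro Y pos A hfin hβ hD hch
  obtain ⟨β, C, hβC, hβ2⟩ := hβ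
  obtain ⟨D0, hD0⟩ := hD
  obtain ⟨M, hM⟩ := hch C
  set D := max D0 0 with hDdef
  have hD : ∀ y y', A y y' → dist (pos y) (pos y') ≤ D := fun y y' h =>
    (hD0 y y' h).trans (le_max_left _ _)
  have hDn : 0 ≤ D := le_max_right _ _
  obtain ⟨N1, hN1⟩ := hfin D
  obtain ⟨N2, hN2⟩ := hfin (M * D)
  choose n hn p hp0 hpn hpA using fun y => hM y (β y) (hβC y)
  refine ⟨6 * M * (N2 * M) + 1, by positivity, fun f hf => ?_⟩
  set F : Y → ℝ≥0∞ := fun y => ENNReal.ofReal (f y ^ 2) with hF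
  set G : {e : Y × Y // A e.1 e.2} → ℝ≥0∞ :=
    fun e => ENNReal.ofReal ((f e.1.2 - f e.1.1) ^ 2) with hG
  have hS : ∑' y, F y = ENNReal.ofReal (∑' y, f y ^ 2) :=
    (ENNReal.ofReal_tsum_of_nonneg (fun y => sq_nonneg _) hf).symm
  have hSfin : ∑' y, F y ≠ ∞ := by rw [hS]; exact ENNReal.ofReal_ne_top
  -- the energy is finite
  have hE : ∑' e, G e ≤ 2 * (N1 * ∑' y, F y) + 2 * (N1 * ∑' y, F y) := by
    have h1 : ∀ e : {e : Y × Y // A e.1 e.2}, G e ≤ 2 * F e.1.1 + 2 * F e.1.2 := by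
      intro e
      simp only [hG, hF]
      have h2 : (2 : ℝ≥0∞) = ENNReal.ofReal 2 := by simp
      rw [h2, ← ENNReal.ofReal_mul (by norm_num), ← ENNReal.ofReal_mul (by norm_num),
        ← ENNReal.ofReal_add (by positivity) (by positivity)]
      apply ENNReal.ofReal_le_ofReal
      nlinarith [sq_nonneg (f e.1.2 + f e.1.1)]
    have c1 : ∑' e : {e : Y × Y // A e.1 e.2}, F e.1.1 ≤ N1 * ∑' y, F y := by
      refine count_le (fun e : {e : Y × Y // A e.1 e.2} => e.1.1) N1 (fun y => ?_) F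
      have h3 : ((fun e : {e : Y × Y // A e.1 e.2} => e.1.1) ⁻¹' {y}).encard ≤
          {z | dist (pos z) (pos y) ≤ D}.encard := by
        refine Set.encard_le_encard_of_injOn (f := fun e => e.1.2) ?_ ?_
        · rintro ⟨⟨u, v⟩, huv⟩ hu
          have hu' : u = y := hu
          subst hu'
          simp only [mem_ofPred_eq]
          rw [dist_comm]
          exact hD _ _ huv
        · rintro ⟨⟨u, v⟩, huv⟩ hu ⟨⟨u', v'⟩, huv'⟩ hu' h
          have h4 : u = y := hu
          have h5 : u' = y := hu'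
          have h6 : v = v' := h
          subst h4 h6
          subst h5
          rfl
      exact h3.trans (encard_le_of_ncard (hN1 (pos y)).1 (hN1 (pos y)).2)
    have c2 : ∑' e : {e : Y × Y // A e.1 e.2}, F e.1.2 ≤ N1 * ∑' y, F y := by
      refine count_le (fun e : {e : Y × Y // A e.1 e.2} => e.1.2) N1 (fun y => ?_) F
      have h3 : ((fun e : {e : Y × Y // A e.1 e.2} => e.1.2) ⁻¹' {y}).encard ≤
          {z | dist (pos z) (pos y) ≤ D}.encard := by
        refine Set.encard_le_encard_of_injOn (f := fun e => e.1.1) ?_ ?_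
        · rintro ⟨⟨u, v⟩, huv⟩ hu
          have hu' : v = y := hu
          subst hu'
          exact hD _ _ huv
        · rintro ⟨⟨u, v⟩, huv⟩ hu ⟨⟨u', v'⟩, huv'⟩ hu' h
          have h4 : v = y := hu
          have h5 : v' = y := hu'
          have h6 : u = u' := h
          subst h4 h6
          subst h5
          rfl
      exact h3.trans (encard_le_of_ncard (hN1 (pos y)).1 (hN1 (pos y)).2)
    calc ∑' e, G e ≤ ∑' e : {e : Y × Y // A e.1 e.2}, (2 * F e.1.1 + 2 * F e.1.2) :=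
          ENNReal.tsum_le_tsum h1
      _ = 2 * ∑' e : {e : Y × Y // A e.1 e.2}, F e.1.1 +
          2 * ∑' e : {e : Y × Y // A e.1 e.2}, F e.1.2 := by
          rw [ENNReal.tsum_add, ENNReal.tsum_mul_left, ENNReal.tsum_mul_left]
      _ ≤ _ := by gcongr
  have hEfin : ∑' e, G e ≠ ∞ := by
    refine ne_top_of_le_ne_top ?_ hE
    have h1 : (N1 : ℝ≥0∞) * ∑' y, F y ≠ ∞ := ENNReal.mul_ne_top (ENNReal.natCast_ne_top _) hSfin
    have h2 : (2 : ℝ≥0∞) * (N1 * ∑' y, F y) ≠ ∞ := ENNReal.mul_ne_top (by simp) h1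
    exact ENNReal.add_ne_top.2 ⟨h2, h2⟩
  have hsum : Summable (fun e : {e : Y × Y // A e.1 e.2} => (f e.1.2 - f e.1.1) ^ 2) := by
    have h1 := ENNReal.summable_toReal hEfin
    refine h1.congr fun e => ?_
    simp only [hG]
    rw [ENNReal.toReal_ofReal (sq_nonneg _)]
  refine ⟨hsum, ?_⟩
  have hEeq : ∑' e, G e = ENNReal.ofReal (∑' e : {e : Y × Y // A e.1 e.2},
      (f e.1.2 - f e.1.1) ^ 2) :=
    (ENNReal.ofReal_tsum_of_nonneg (fun e => sq_nonneg _) hsum).symm
  -- (i)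
  have h1 : 2 * ∑' y, F y ≤ ∑' y, F (β y) := by
    have h2 := le_count β 2 (fun w => ?_) F
    · simpa using h2
    · obtain ⟨y1, y2, hne, e1, e2⟩ := hβ2 w
      have h3 : ({y1, y2} : Set Y) ⊆ β ⁻¹' {w} := by
        rintro z (rfl | rfl)
        · exact e1
        · exact e2
      have h4 := Set.encard_le_encard h3
      rw [Set.encard_pair hne] at h4
      exact_mod_cast h4
  -- (ii)
  set Q : ℝ≥0∞ := ∑' y, ENNReal.ofReal ((f (β y) - f y) ^ 2) with hQ
  have h2 : Q ≤ M * ((N2 * M : ℕ) * ∑' e, G e) := by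
    have h3 : ∀ y, ENNReal.ofReal ((f (β y) - f y) ^ 2) ≤
        M * ∑' i : Fin (n y), G ⟨(p y i, p y (i + 1)), hpA y i i.isLt⟩ := by
      intro y
      have h4 := tele f (p y) (n y) M (hn y)
      rw [hpn, hp0] at h4
      refine (ENNReal.ofReal_le_ofReal h4).trans ?_
      rw [ENNReal.ofReal_mul (by positivity), ENNReal.ofReal_natCast, tsum_fintype,
        ENNReal.ofReal_sum_of_nonneg (fun i _ => sq_nonneg _)]
    have h5 : Q ≤ M * ∑' y, ∑' i : Fin (n y), G ⟨(p y i, p y (i + 1)), hpA y i i.isLt⟩ := by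
      rw [← ENNReal.tsum_mul_left]
      exact ENNReal.tsum_le_tsum h3
    refine h5.trans ?_
    gcongr
    rw [← ENNReal.tsum_sigma (fun y (i : Fin (n y)) =>
      G ⟨(p y i, p y (i + 1)), hpA y i i.isLt⟩)]
    refine count_le (fun q : (Σ y, Fin (n y)) =>
      (⟨(p q.1 q.2, p q.1 (q.2 + 1)), hpA q.1 q.2 q.2.isLt⟩ : {e : Y × Y // A e.1 e.2}))
      (N2 * M) (fun e => ?_) G
    have hdist : ∀ y i, i ≤ n y → dist (pos y) (pos (p y i)) ≤ i * D := by
      intro y i
      induction i with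
      | zero => intro _; rw [hp0]; simp
      | succ i ih =>
        intro hi
        have h6 := ih (by omega)
        have h7 := hD _ _ (hpA y i (by omega))
        have h8 := dist_triangle (pos y) (pos (p y i)) (pos (p y (i + 1)))
        push_cast
        linarith
    have h6 : ((fun q : (Σ y, Fin (n y)) =>
        (⟨(p q.1 q.2, p q.1 (q.2 + 1)), hpA q.1 q.2 q.2.isLt⟩ : {e : Y × Y // A e.1 e.2})) ⁻¹'
        {e}).encard ≤ ({z | dist (pos z) (pos e.1.1) ≤ M * D} ×ˢ Set.Iio M : Set (Y × ℕ)).encard := by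
      refine Set.encard_le_encard_of_injOn (f := fun q => (q.1, (q.2 : ℕ))) ?_ ?_
      · rintro ⟨y, i⟩ hq
        have h7 : p y i = e.1.1 := by
          have h8 := congrArg (fun z : {e : Y × Y // A e.1 e.2} => z.1.1) hq
          exact h8
        refine ⟨?_, ?_⟩
        · simp only [mem_ofPred_eq]
          rw [← h7]
          refine (hdist y i i.isLt.le).trans ?_
          have h8 : ((i : ℕ) : ℝ) ≤ M := by exact_mod_cast i.isLt.le.trans (hn y)
          exact mul_le_mul_of_nonneg_right h8 hDn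
        · exact lt_of_lt_of_le i.isLt (hn y)
      · rintro ⟨y, i⟩ _ ⟨y', i'⟩ _ h
        have h8 : y = y' := congrArg Prod.fst h
        have h9 : (i : ℕ) = (i' : ℕ) := congrArg Prod.snd h
        subst h8
        have h10 : i = i' := Fin.ext h9
        rw [h10]
    refine h6.trans ?_
    rw [Set.encard_prod]
    have h7 := encard_le_of_ncard (hN2 (pos e.1.1)).1 (hN2 (pos e.1.1)).2
    have h8 : (Set.Iio M : Set ℕ).encard = M := by
      rw [← Set.Finite.cast_ncard_eq (Set.finite_Iio M)]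
      simp
    rw [h8]
    push_cast
    gcongr
  -- (iii)
  have h3 : ∑' y, F (β y) ≤ ENNReal.ofReal (3 / 2) * ∑' y, F y + 3 * Q := by
    have h4 : ∀ y, F (β y) ≤ ENNReal.ofReal (3 / 2) * F y +
        3 * ENNReal.ofReal ((f (β y) - f y) ^ 2) := by
      intro y
      simp only [hF]
      have h5 : (3 : ℝ≥0∞) = ENNReal.ofReal 3 := by simp
      rw [h5, ← ENNReal.ofReal_mul (by norm_num), ← ENNReal.ofReal_mul (by norm_num),
        ← ENNReal.ofReal_add (by positivity) (by positivity)]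
      apply ENNReal.ofReal_le_ofReal
      nlinarith [sq_nonneg (f y - 2 * (f (β y) - f y))]
    calc ∑' y, F (β y) ≤ ∑' y, (ENNReal.ofReal (3 / 2) * F y +
        3 * ENNReal.ofReal ((f (β y) - f y) ^ 2)) := ENNReal.tsum_le_tsum h4
      _ = _ := by rw [ENNReal.tsum_add, ENNReal.tsum_mul_left, ENNReal.tsum_mul_left]
  -- conclusion in real numbers
  set S : ℝ := ∑' y, f y ^ 2 with hSdef
  set E : ℝ := ∑' e : {e : Y × Y // A e.1 e.2}, (f e.1.2 - f e.1.1) ^ 2 with hEdef
  have hS0 : 0 ≤ S := tsum_nonneg fun y => sq_nonneg _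
  have hE0 : 0 ≤ E := tsum_nonneg fun e => sq_nonneg _
  have h4 : ENNReal.ofReal (2 * S) ≤
      ENNReal.ofReal (3 / 2 * S + 3 * (M * ((N2 * M : ℕ) * E))) := by
    rw [ENNReal.ofReal_mul (by norm_num), ENNReal.ofReal_add (by positivity) (by positivity),
      ENNReal.ofReal_mul (by norm_num), ENNReal.ofReal_mul (by norm_num),
      ENNReal.ofReal_mul (by positivity), ENNReal.ofReal_mul (by positivity),
      ENNReal.ofReal_natCast, ENNReal.ofReal_natCast, ← hS, ← hEeq]
    have h5 : ENNReal.ofReal 2 = 2 := by simp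
    have h6 : ENNReal.ofReal 3 = 3 := by simp
    rw [h5, h6]
    refine h1.trans (h3.trans ?_)
    gcongr
  have h5 := (ENNReal.ofReal_le_ofReal_iff (by positivity)).1 h4
  push_cast at h5
  nlinarith [h5, hE0, hS0]

end H292.TL
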