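import Pool.Agent.H292.TL.FB

/-! PSEC: the regular polygon lies in its corner sector and meets the edge line in the edge. -/

set_option autoImplicit false
open scoped UpperHalfPlane Topology MatrixGroups
open Set

namespace H292.TL

namespace PSECaux

theorem ee_re (θ : ℝ) : (ee θ).re = Real.cos θ := Complex.exp_ofReal_mul_I_re θ
theorem ee_im (θ : ℝ) : (ee θ).im = Real.sin θ := Complex.exp_ofReal_mul_I_im θ
theorem ee_norm (θ : ℝ) : ‖ee θ‖ = 1 := Complex.norm_exp_ofReal_mul_I θ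

variable {l : ℝ} {n : ℕ}

theorem cos_pos (hn : 3 ≤ n) : 0 < Real.cos (Real.pi / n) := by
  have h3 : (3:ℝ) ≤ n := by exact_mod_cast hn
  apply Real.cos_pos_of_mem_Ioo
  constructor
  · have : 0 < Real.pi / n := by positivity
    linarith [Real.pi_pos]
  · rw [div_lt_div_iff₀ (by positivity) (by norm_num)]
    nlinarith [Real.pi_pos]

theorem sin_pos (hn : 3 ≤ n) : 0 < Real.sin (Real.pi / n) := by
  have h3 : (3:ℝ) ≤ n := by exact_mod_cast hn
  apply Real.sin_pos_of_pos_of_lt_pi (by positivity)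
  rw [div_lt_iff₀ (by positivity)]
  nlinarith [Real.pi_pos]

theorem q_pos (hn : 3 ≤ n) : 0 < Real.cos (Real.pi / n) / Real.cosh (l / 2) :=
  div_pos (cos_pos hn) (Real.cosh_pos _)

theorem q_lt (hl : 0 < l) (hn : 3 ≤ n) : Real.cos (Real.pi / n) / Real.cosh (l / 2) < 1 := by
  rw [div_lt_one (Real.cosh_pos _)]
  have h1 : 1 < Real.cosh (l / 2) := Real.one_lt_cosh.2 (by positivity)
  linarith [Real.cos_le_one (Real.pi / n)]

theorem ang_pos (hn : 3 ≤ n) : 0 < angH l n := by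
  unfold angH
  have := Real.arcsin_pos.2 (q_pos (l := l) hn)
  linarith

theorem ang_lt (hl : 0 < l) (hn : 3 ≤ n) : angH l n < Real.pi := by
  unfold angH
  have := Real.arcsin_lt_pi_div_two.2 (q_lt hl hn)
  linarith

theorem sin_half (hl : 0 < l) (hn : 3 ≤ n) :
    Real.sin (angH l n / 2) * Real.cosh (l / 2) = Real.cos (Real.pi / n) := by
  have h1 : angH l n / 2 = Real.arcsin (Real.cos (Real.pi / n) / Real.cosh (l / 2)) := by
    unfold angH; ring
  rw [h1, Real.sin_arcsin (by linarith [q_pos (l := l) hn]) (q_lt hl hn).le,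
    div_mul_cancel₀ _ (Real.cosh_pos _).ne']

theorem cos_half_pos (hl : 0 < l) (hn : 3 ≤ n) : 0 < Real.cos (angH l n / 2) := by
  apply Real.cos_pos_of_mem_Ioo
  have h1 := ang_pos (l := l) hn
  have h2 := ang_lt hl hn
  constructor <;> linarith

theorem cosh_rho (hl : 0 < l) (hn : 3 ≤ n) :
    Real.cosh (rho l n) * Real.sin (Real.pi / n) = Real.cosh (l / 2) * Real.cos (angH l n / 2) := by
  have hs := sin_pos hn
  have h1 : Real.sinh (rho l n) * Real.sin (Real.pi / n) = Real.sinh (l / 2) := by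
    unfold rho
    rw [Real.sinh_arsinh, div_mul_cancel₀ _ hs.ne']
  have h2 := Real.cosh_sq (rho l n)
  have h3 := Real.cosh_sq (l / 2)
  have h4 := Real.sin_sq_add_cos_sq (angH l n / 2)
  have h5 := sin_half hl hn
  have h6 := Real.sin_sq_add_cos_sq (Real.pi / n)
  have e : (Real.cosh (rho l n) * Real.sin (Real.pi / n)) ^ 2 =
      (Real.cosh (l / 2) * Real.cos (angH l n / 2)) ^ 2 := by
    rw [mul_pow, mul_pow, h2]
    have e1 : Real.cos (angH l n / 2) ^ 2 = 1 - Real.sin (angH l n / 2) ^ 2 := by linarith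
    rw [e1]
    have e2 : Real.cosh (l / 2) ^ 2 * (1 - Real.sin (angH l n / 2) ^ 2) =
        Real.cosh (l / 2) ^ 2 - (Real.sin (angH l n / 2) * Real.cosh (l / 2)) ^ 2 := by ring
    rw [e2, h5, h3]
    have e3 : (Real.sinh (rho l n) ^ 2 + 1) * Real.sin (Real.pi / n) ^ 2 =
      (Real.sinh (rho l n) * Real.sin (Real.pi / n)) ^ 2 + Real.sin (Real.pi / n) ^ 2 := by ring
    rw [e3, h1]
    linarith
  have hp1 : 0 ≤ Real.cosh (rho l n) * Real.sin (Real.pi / n) :=
    mul_nonneg (Real.cosh_pos _).le hs.le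
  have hp2 : 0 ≤ Real.cosh (l / 2) * Real.cos (angH l n / 2) :=
    mul_nonneg (Real.cosh_pos _).le (cos_half_pos hl hn).le
  exact (pow_left_inj₀ hp1 hp2 two_ne_zero).1 e

theorem kl_lt (hH : S_KLH) (z : ℍ) : ‖kl z‖ < 1 := by
  have : kl z ∈ range kl := ⟨z, rfl⟩
  rw [hH.2.2.1] at this
  simpa using this

theorem den_pos {t x : ℝ} (hx : |x| < 1) : 0 < 1 + Real.tanh t * x := by
  have h1 : |Real.tanh t| < 1 := abs_lt.2 ⟨Real.neg_one_lt_tanh t, Real.tanh_lt_one t⟩
  have h2 : |Real.tanh t * x| < 1 := by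
    rw [abs_mul]
    nlinarith [abs_nonneg x, abs_nonneg (Real.tanh t)]
  linarith [(abs_lt.1 h2).1]

/-- the inequalities defining the polygon -/
theorem poly_iff (hK : S_KLF) (hH : S_KLH) (z : ℍ) : z ∈ Poly l n ↔ ∀ j : ℕ,
    Real.cos ((2 * j + 1) * Real.pi / n) *
      ((ee (Real.pi - angH l n / 2) * kl z).re + Real.tanh (rho l n)) +
    Real.sin ((2 * j + 1) * Real.pi / n) *
      ((ee (Real.pi - angH l n / 2) * kl z).im / Real.cosh (rho l n)) ≤
    kap l n * (1 + Real.tanh (rho l n) * (ee (Real.pi - angH l n / 2) * kl z).re) := by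
  have h1 : ∀ z, Minv l n z = tr (rho l n) (rot (Real.pi - angH l n / 2) z) := fun _ => rfl
  show (∀ j : ℕ, (ee (-((2 * j + 1) * Real.pi / n)) * kl (Minv l n z)).re ≤ kap l n) ↔ _
  rw [h1, hK.2.2.1, hK.1]
  have hu : |(ee (Real.pi - angH l n / 2) * kl z).re| < 1 := by
    refine lt_of_le_of_lt (Complex.abs_re_le_norm _) ?_
    rw [norm_mul, ee_norm, one_mul]
    exact kl_lt hH z
  generalize ee (Real.pi - angH l n / 2) * kl z = u at *
  have hD := den_pos (t := rho l n) hu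
  refine forall_congr' fun j => ?_
  rw [← mul_div_assoc, Complex.div_ofReal_re, div_le_iff₀ hD]
  rw [Complex.mul_re, ee_re, ee_im]
  simp only [Complex.add_re, Complex.ofReal_re, Complex.mul_re, Complex.I_re, Complex.I_im,
    Complex.ofReal_im, Complex.add_im, Complex.mul_im, mul_zero, mul_one, sub_zero,
    add_zero, zero_add, Real.cos_neg, Real.sin_neg, neg_mul, sub_neg_eq_add]

theorem u_re (z : ℂ) (a : ℝ) : (ee (Real.pi - a / 2) * z).re =
    -(Real.cos (a / 2) * z.re) - Real.sin (a / 2) * z.im := by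
  rw [Complex.mul_re, ee_re, ee_im, Real.cos_pi_sub, Real.sin_pi_sub]; ring

theorem u_im (z : ℂ) (a : ℝ) : (ee (Real.pi - a / 2) * z).im =
    Real.sin (a / 2) * z.re - Real.cos (a / 2) * z.im := by
  rw [Complex.mul_im, ee_re, ee_im, Real.cos_pi_sub, Real.sin_pi_sub]; ring

/-- points of the polygon have `0 ≤ im kl` -/
theorem im_nonneg (hK : S_KLF) (hH : S_KLH) (hl : 0 < l) (hn : 3 ≤ n) {z : ℍ}
    (hz : z ∈ Poly l n) : 0 ≤ (kl z).im := by
  have h := (poly_iff hK hH z).1 hz 0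
  rw [u_re, u_im] at h
  have e0 : (2 * ((0:ℕ):ℝ) + 1) * Real.pi / n = Real.pi / n := by push_cast; ring
  rw [e0] at h
  have hC := Real.cosh_pos (rho l n)
  have hKp := Real.cosh_pos (l / 2)
  have hS := sin_half hl hn
  have hR := cosh_rho hl hn
  have hc := Real.sin_sq_add_cos_sq (angH l n / 2)
  have hT : Real.tanh (rho l n) ^ 2 = 1 - 1 / Real.cosh (rho l n) ^ 2 := by
    rw [Real.tanh_eq_sinh_div_cosh, div_pow, eq_sub_iff_add_eq, ← add_div, div_eq_one_iff_eq
      (by positivity)]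
    linarith [Real.cosh_sq (rho l n)]
  unfold kap at h
  generalize Real.tanh (rho l n) = T at *
  generalize Real.cosh (rho l n) = C at *
  generalize Real.cosh (l / 2) = K at *
  generalize Real.sin (angH l n / 2) = s at *
  generalize Real.cos (angH l n / 2) = c at *
  generalize (kl z).re = x at *
  generalize (kl z).im = y at *
  generalize Real.cos (Real.pi / n) = p at *
  generalize Real.sin (Real.pi / n) = q at *
  have hT' : T ^ 2 * C ^ 2 = C ^ 2 - 1 := by
    rw [hT]; field_simp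
  have e2 : q * ((s * x - c * y) / C) * C ^ 2 = (C * q) * (s * x - c * y) := by
    field_simp
  have e3 : (p * (-(c * x) - s * y + T) + q * ((s * x - c * y) / C) -
      T * p * (1 + T * (-(c * x) - s * y))) * C ^ 2 = -(K * y) := by
    rw [hR] at e2
    linear_combination e2 - p * (-(c * x) - s * y) * hT' - (-(c * x) - s * y) * hS - K * y * hc
  have h3 : -(K * y) ≤ 0 := by
    rw [← e3]
    exact mul_nonpos_of_nonpos_of_nonneg (by linarith) (by positivity)
  have hKy : 0 ≤ K * y := by linarith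
  exact nonneg_of_mul_nonneg_right hKy hKp

theorem kl_R1 (hK : S_KLF) (z : ℍ) : kl (R1 l n z) = ee (angH l n) * starRingEnd ℂ (kl z) := by
  have h : R1 l n z = rot (angH l n) (cj z) := rfl
  rw [h, hK.1, hK.2.1]

theorem ee_pi : ee Real.pi = -1 := by
  unfold ee; exact Complex.exp_pi_mul_I

theorem kl_R0 (hK : S_KLF) (z : ℍ) : kl (R0 l z) =
    ((-(kl z).re + Real.tanh l : ℝ) + ((kl z).im / Real.cosh l : ℝ) * Complex.I) /
      ((1 - Real.tanh l * (kl z).re : ℝ) : ℂ) := by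
  have h : R0 l z = tr l (rot Real.pi (cj z)) := rfl
  rw [h, hK.2.2.1, hK.1, hK.2.1, ee_pi]
  have e1 : (-1 * starRingEnd ℂ (kl z)).re = -(kl z).re := by simp
  have e2 : (-1 * starRingEnd ℂ (kl z)).im = (kl z).im := by simp
  rw [e1, e2, mul_neg, ← sub_eq_add_neg]

theorem sector_im (hK : S_KLF) (hH : S_KLH) (hP : S_PINV) (hl : 0 < l) (hn : 3 ≤ n) {z : ℍ}
    (hz : z ∈ Poly l n) :
    0 ≤ Real.sin (angH l n) * (kl z).re - Real.cos (angH l n) * (kl z).im := by
  have h1 : R1 l n z ∈ Poly l n := by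
    rw [← (hP l n hl hn).2]; exact mem_image_of_mem _ hz
  have h2 := im_nonneg hK hH hl hn h1
  rw [kl_R1 hK, Complex.mul_im, ee_re, ee_im, Complex.conj_re, Complex.conj_im] at h2
  linarith

theorem sector (hK : S_KLF) (hH : S_KLH) (hP : S_PINV) (hl : 0 < l) (hn : 3 ≤ n) {z : ℍ}
    (hz : z ∈ Poly l n) :
    ∃ r θ : ℝ, 0 ≤ r ∧ 0 ≤ θ ∧ θ ≤ angH l n ∧ kl z = r * ee θ := by
  have h1 := im_nonneg hK hH hl hn hz
  have h2 := sector_im hK hH hP hl hn hz
  have ha := ang_pos (l := l) hn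
  have ha' := ang_lt hl hn
  by_cases hw : kl z = 0
  · exact ⟨0, 0, le_rfl, le_rfl, ha.le, by rw [hw]; simp⟩
  refine ⟨‖kl z‖, Complex.arg (kl z), norm_nonneg _, Complex.arg_nonneg_iff.2 h1, ?_,
    (Complex.norm_mul_exp_arg_mul_I _).symm⟩
  by_contra hlt
  push Not at hlt
  have hp : 0 < ‖kl z‖ := norm_pos_iff.2 hw
  have e1 : (kl z).re = ‖kl z‖ * Real.cos (Complex.arg (kl z)) :=
    (Complex.norm_mul_cos_arg _).symm
  have e2 : (kl z).im = ‖kl z‖ * Real.sin (Complex.arg (kl z)) :=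
    (Complex.norm_mul_sin_arg _).symm
  have e3 : Real.sin (angH l n) * (kl z).re - Real.cos (angH l n) * (kl z).im =
      -(‖kl z‖ * Real.sin (Complex.arg (kl z) - angH l n)) := by
    rw [Real.sin_sub]
    linear_combination Real.sin (angH l n) * e1 - Real.cos (angH l n) * e2
  rw [e3] at h2
  have h3 : 0 < Real.sin (Complex.arg (kl z) - angH l n) :=
    Real.sin_pos_of_pos_of_lt_pi (by linarith) (by linarith [Complex.arg_le_pi (kl z)])
  nlinarith [mul_pos hp h3]

theorem re_nonneg (hK : S_KLF) (hH : S_KLH) (hP : S_PINV) (hl : 0 < l) (hn : 3 ≤ n) {z : ℍ}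
    (hz : z ∈ Poly l n) (h0 : (kl z).im = 0) : 0 ≤ (kl z).re := by
  have h2 := sector_im hK hH hP hl hn hz
  rw [h0, mul_zero, sub_zero] at h2
  exact nonneg_of_mul_nonneg_right h2
    (Real.sin_pos_of_pos_of_lt_pi (ang_pos hn) (ang_lt hl hn))

theorem re_le (hK : S_KLF) (hH : S_KLH) (hP : S_PINV) (hl : 0 < l) (hn : 3 ≤ n) {z : ℍ}
    (hz : z ∈ Poly l n) (h0 : (kl z).im = 0) : (kl z).re ≤ Real.tanh l := by
  have h1 : R0 l z ∈ Poly l n := by
    rw [← (hP l n hl hn).1]; exact mem_image_of_mem _ hz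
  have hx : |(-(kl z).re)| < 1 := by
    rw [abs_neg]
    exact lt_of_le_of_lt (Complex.abs_re_le_norm _) (kl_lt hH z)
  have hD := den_pos (t := l) hx
  rw [mul_neg, ← sub_eq_add_neg] at hD
  have e := kl_R0 (l := l) hK z
  rw [h0, zero_div, Complex.ofReal_zero, zero_mul, add_zero, ← Complex.ofReal_div] at e
  have h2 := re_nonneg hK hH hP hl hn h1 (by rw [e]; exact Complex.ofReal_im _)
  rw [e, Complex.ofReal_re, le_div_iff₀ hD, zero_mul] at h2
  linarith

theorem kl_trI (hK : S_KLF) (t : ℝ) : kl (tr t UpperHalfPlane.I) = (Real.tanh t : ℂ) := by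
  rw [hK.2.2.1, hK.2.2.2]
  simp

theorem cos_le (hn : 3 ≤ n) (j : ℕ) :
    Real.cos ((2 * j + 1) * Real.pi / n) ≤ Real.cos (Real.pi / n) := by
  have hpi := Real.pi_pos
  have h3 : (3:ℝ) ≤ n := by exact_mod_cast hn
  have hn0 : (n:ℝ) ≠ 0 := by positivity
  have e : (2 * (j:ℝ) + 1) * Real.pi / n =
      (2 * ((j % n : ℕ) : ℝ) + 1) * Real.pi / n + ((j / n : ℕ) : ℝ) * (2 * Real.pi) := by
    have : (j : ℝ) = ((j % n : ℕ) : ℝ) + n * ((j / n : ℕ) : ℝ) := by
      exact_mod_cast (Nat.mod_add_div j n).symm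
    rw [this]
    field_simp
    ring_nf
  rw [e, Real.cos_add_nat_mul_two_pi]
  have hr : j % n < n := Nat.mod_lt _ (by omega)
  have hr' : ((j % n : ℕ) : ℝ) + 1 ≤ n := by exact_mod_cast hr
  have hr0 : (0:ℝ) ≤ ((j % n : ℕ) : ℝ) := by positivity
  generalize ((j % n : ℕ) : ℝ) = r at *
  have hlow : Real.pi / n ≤ (2 * r + 1) * Real.pi / n := by
    rw [div_le_div_iff_of_pos_right (by positivity)]
    nlinarith
  have hup : Real.pi / n ≤ 2 * Real.pi - (2 * r + 1) * Real.pi / n := by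
    rw [le_sub_iff_add_le, ← add_div, div_le_iff₀ (by positivity)]
    nlinarith
  have hp : 0 ≤ Real.pi / n := by positivity
  rcases le_total ((2 * r + 1) * Real.pi / n) Real.pi with h | h
  · exact Real.cos_le_cos_of_nonneg_of_le_pi hp h hlow
  · rw [← Real.cos_two_pi_sub ((2 * r + 1) * Real.pi / n)]
    exact Real.cos_le_cos_of_nonneg_of_le_pi hp (by linarith) hup

theorem I_mem (hK : S_KLF) (hH : S_KLH) (hl : 0 < l) (hn : 3 ≤ n) :
    UpperHalfPlane.I ∈ Poly l n := by
  rw [poly_iff hK hH]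
  intro j
  rw [hK.2.2.2]
  simp only [mul_zero, Complex.zero_re, Complex.zero_im, zero_add, zero_div, add_zero, mul_one]
  unfold kap
  rw [mul_comm (Real.tanh _)]
  refine mul_le_mul_of_nonneg_right (cos_le hn j) ?_
  have h1 : 0 ≤ rho l n := by
    unfold rho
    rw [Real.arsinh_nonneg_iff]
    exact div_nonneg (Real.sinh_nonneg_iff.2 (by positivity)) (sin_pos hn).le
  rw [Real.tanh_eq_sinh_div_cosh]
  exact div_nonneg (Real.sinh_nonneg_iff.2 h1) (Real.cosh_pos _).le

theorem trI_mem (hK : S_KLF) (hH : S_KLH) (hP : S_PINV) (hl : 0 < l) (hn : 3 ≤ n) :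
    tr l UpperHalfPlane.I ∈ Poly l n := by
  have e : tr l UpperHalfPlane.I = R0 l UpperHalfPlane.I := by
    apply hH.2.1
    rw [kl_trI hK, kl_R0 hK, hK.2.2.2]
    simp
  rw [e, ← (hP l n hl hn).1]
  exact mem_image_of_mem _ (I_mem hK hH hl hn)

theorem tanh_mono {s t : ℝ} (h : s ≤ t) : Real.tanh s ≤ Real.tanh t := by
  rw [Real.tanh_eq_sinh_div_cosh, Real.tanh_eq_sinh_div_cosh,
    div_le_div_iff₀ (Real.cosh_pos _) (Real.cosh_pos _)]
  have h1 : 0 ≤ Real.sinh (t - s) := Real.sinh_nonneg_iff.2 (by linarith)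
  rw [Real.sinh_sub] at h1
  linarith

theorem seg_sub (hK : S_KLF) (hH : S_KLH) (hP : S_PINV) (hl : 0 < l) (hn : 3 ≤ n) :
    Seg l ⊆ Poly l n := by
  rintro z ⟨t, ht, rfl⟩
  have h0 := (poly_iff hK hH _).1 (I_mem (l := l) hK hH hl hn)
  have h1 := (poly_iff hK hH _).1 (trI_mem hK hH hP hl hn)
  show tr t UpperHalfPlane.I ∈ Poly l n
  rw [poly_iff hK hH]
  intro j
  specialize h0 j
  specialize h1 j
  rw [u_re, u_im] at h0 h1 ⊢
  rw [hK.2.2.2] at h0
  rw [kl_trI hK] at h1 ⊢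
  simp only [Complex.zero_re, Complex.zero_im, Complex.ofReal_re, Complex.ofReal_im, mul_zero,
    sub_zero, neg_zero, zero_div, zero_add, add_zero, mul_one] at h0 h1 ⊢
  have hx0 : 0 ≤ Real.tanh t := by
    have := tanh_mono ht.1
    rwa [Real.tanh_zero] at this
  have hx1 : Real.tanh t ≤ Real.tanh l := tanh_mono ht.2
  have hl0 : 0 < Real.tanh l := by
    rw [Real.tanh_eq_sinh_div_cosh]
    exact div_pos (Real.sinh_pos_iff.2 hl) (Real.cosh_pos _)
  generalize Real.tanh t = x at *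
  generalize Real.tanh l = X at *
  generalize Real.tanh (rho l n) = T at *
  generalize Real.cos ((2 * j + 1) * Real.pi / n) = A at *
  generalize Real.sin ((2 * j + 1) * Real.pi / n) = B at *
  generalize Real.cos (angH l n / 2) = c at *
  generalize Real.sin (angH l n / 2) = s at *
  generalize kap l n = κ at *
  have hC := Real.cosh_pos (rho l n)
  generalize Real.cosh (rho l n) = C at *
  have m1 := mul_le_mul_of_nonneg_left h1 hx0
  have m0 := mul_le_mul_of_nonneg_left h0 (sub_nonneg.2 hx1)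
  have key : X * (A * (-(c * x) + T) + B * (s * x / C)) ≤ X * (κ * (1 + T * -(c * x))) := by
    have e1 : X * (A * (-(c * x) + T) + B * (s * x / C)) =
      x * (A * (-(c * X) + T) + B * (s * X / C)) + (X - x) * (A * T) := by
      field_simp; ring
    rw [e1]
    linarith
  exact le_of_mul_le_mul_left key hl0

theorem mem_seg (hK : S_KLF) (hH : S_KLH) (hP : S_PINV) (hl : 0 < l) (hn : 3 ≤ n) {z : ℍ}
    (hz : z ∈ Poly l n) (h0 : (kl z).im = 0) : z ∈ Seg l := by
  have h1 := re_nonneg hK hH hP hl hn hz h0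
  have h2 := re_le hK hH hP hl hn hz h0
  have hc : ContinuousOn Real.tanh (Icc 0 l) := by
    have : Real.tanh = fun x => Real.sinh x / Real.cosh x := by
      funext x; exact Real.tanh_eq_sinh_div_cosh x
    rw [this]
    exact (Real.continuous_sinh.div Real.continuous_cosh
      (fun x => (Real.cosh_pos x).ne')).continuousOn
  have h3 := intermediate_value_Icc hl.le hc
  rw [Real.tanh_zero] at h3
  obtain ⟨t, ht, e⟩ := h3 ⟨h1, h2⟩
  refine ⟨t, ht, ?_⟩
  apply hH.2.1
  show kl (tr t UpperHalfPlane.I) = kl z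
  rw [kl_trI hK, e]
  apply Complex.ext
  · simp
  · simp [h0]

end PSECaux

open PSECaux in
/-- the regular polygon lies in its corner sector and meets the edge line in the edge -/
theorem psec (hKLF : S_KLF) (hKLH : S_KLH) (hPINV : S_PINV) : S_PSEC := fun _l _n hl hn =>
  ⟨ang_pos hn, ang_lt hl hn, fun _ hz => sector hKLF hKLH hPINV hl hn hz,
    fun _ hz h0 => mem_seg hKLF hKLH hPINV hl hn hz h0, seg_sub hKLF hKLH hPINV hl hn⟩

end H292.TL
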