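import Pool.Agent.H292.TL.FB

/-!
Project TL (owner helper292): Poincaré inequality for vertex functions (task PV, helper271).
-/

set_option autoImplicit false
open scoped UpperHalfPlane Topology
open Set

namespace H292.TL

/-- a function invariant under two maps is constant on the classes -/
theorem Rch_const {X : Type} {a b : X → X} {f : X → ℝ} (ha : ∀ x, f (a x) = f x)
    (hb : ∀ x, f (b x) = f x) {x y : X} (h : Rch a b x y) : f y = f x := by
  unfold Rch at h
  induction h with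
  | refl => rfl
  | tail _ h2 ih =>
    rcases h2 with h2 | h2
    · rw [h2, ha, ih]
    · rw [h2, hb, ih]

variable {T : Set (Set ℍ)}

/-- the flags at a vertex -/
theorem vfib (H : FS T) (v : ℍ) (hv : v ∈ Vtx T) :
    {x : Flag T | x.v = v}.Finite ∧ {x : Flag T | x.v = v}.ncard ≤ 2 * dg T v := by
  classical
  have hex : ∀ t : Set ℍ, ∃ x : Flag T, t ∈ {t ∈ T | v ∈ t} → x.v = v ∧ x.t = t := by
    intro t
    by_cases ht : t ∈ {t ∈ T | v ∈ t}
    · obtain ⟨x, hx⟩ := H.exv v hv t ht.1 ht.2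
      exact ⟨x, fun _ => hx⟩
    · obtain ⟨a, ha, _, _, _, _, _, _, _, hva, _, _⟩ := id hv
      obtain ⟨x, _⟩ := H.exv v hv a ha hva
      exact ⟨x, fun h => absurd h ht⟩
  choose e he using hex
  have hsub : {x : Flag T | x.v = v} ⊆ e '' {t ∈ T | v ∈ t} ∪ (fun t => s1 (e t)) '' {t ∈ T | v ∈ t} := by
    intro x hx
    have hx' : x.v = v := hx
    have hm : x.t ∈ {t ∈ T | v ∈ t} := ⟨x.ht, by rw [← hx']; exact x.hvt⟩
    obtain ⟨h1, h2⟩ := he x.t hm
    rcases H.u1 (e x.t) x (by rw [h1, hx']) (by rw [h2]) with h | h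
    · left; exact ⟨x.t, hm, h.symm⟩
    · right; exact ⟨x.t, hm, h.symm⟩
  have hfin : (e '' {t ∈ T | v ∈ t} ∪ (fun t => s1 (e t)) '' {t ∈ T | v ∈ t}).Finite :=
    ((H.finv v).image _).union ((H.finv v).image _)
  refine ⟨hfin.subset hsub, ?_⟩
  refine (Set.ncard_le_ncard hsub hfin).trans ((Set.ncard_union_le _ _).trans ?_)
  have h1 := Set.ncard_image_le (f := e) (H.finv v)
  have h2 := Set.ncard_image_le (f := fun t => s1 (e t)) (H.finv v)
  unfold dg
  omega

theorem pv (hP : S_POIN) (hB : S_BETA) (hC : S_CNTV) (hV : S_CHV) (hD : S_BDD) : S_PV := by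
  classical
  intro T hN H hE
  obtain ⟨r, R, hr, huni⟩ := hN.unif
  obtain ⟨N, _, hdg⟩ := hD T hN H hE
  -- the vertex set
  have hdiam : ∀ t ∈ T, ∀ p ∈ t, ∀ q ∈ t, dist p q ≤ 2 * R := by
    intro t ht p hp q hq
    obtain ⟨c₁, c₂, _, h2⟩ := huni t ht
    have h3 := Metric.mem_closedBall.1 (h2 hp)
    have h4 := Metric.mem_closedBall.1 (h2 hq)
    have h5 := dist_triangle_right p q c₂
    linarith
  let Y : Type := {v : ℍ // v ∈ Vtx T}
  let pos : Y → ℍ := fun y => y.1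
  let A : Y → Y → Prop := fun y y' => ∃ x : Flag T, x.v = y.1 ∧ (s0 x).v = y'.1
  have hcnt : ∀ ρ : ℝ, ∃ N : ℕ, ∀ z : ℍ, {y : Y | dist (pos y) z ≤ ρ}.Finite ∧
      {y : Y | dist (pos y) z ≤ ρ}.ncard ≤ N := by
    intro ρ
    obtain ⟨M, hM⟩ := hC T hN H hE ρ
    refine ⟨M, fun z => ?_⟩
    have himg : Subtype.val '' {y : Y | dist (pos y) z ≤ ρ} = Vtx T ∩ Metric.closedBall z ρ := by
      ext p
      constructor
      · rintro ⟨y, hy, rfl⟩
        exact ⟨y.2, Metric.mem_closedBall.2 hy⟩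
      · rintro ⟨hp, hp2⟩
        exact ⟨⟨p, hp⟩, Metric.mem_closedBall.1 hp2, rfl⟩
    constructor
    · refine Set.Finite.of_finite_image ?_ (Subtype.val_injective.injOn)
      rw [himg]
      exact (hM z).1
    · rw [← Set.ncard_image_of_injective _ Subtype.val_injective, himg]
      exact (hM z).2
  have hcob : ∃ R : ℝ, ∀ z : ℍ, ∃ y : Y, dist (pos y) z ≤ R := by
    refine ⟨2 * R, fun z => ?_⟩
    obtain ⟨t, ht, hz⟩ := hN.cover z
    obtain ⟨x, hx⟩ := H.ext t ht
    exact ⟨⟨x.v, x.hv⟩, hdiam t ht _ (by rw [← hx]; exact x.hvt) _ hz⟩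
  have hA : ∃ D : ℝ, ∀ y y', A y y' → dist (pos y) (pos y') ≤ D := by
    refine ⟨2 * R, ?_⟩
    rintro y y' ⟨x, hx, hx'⟩
    have h1 : y.1 ∈ x.t := by rw [← hx]; exact x.hvt
    have h2 : y'.1 ∈ x.t := by rw [← hx', ← H.s0_t x]; exact (s0 x).hvt
    exact hdiam x.t x.ht _ h1 _ h2
  have hch : ∀ D : ℝ, ∃ M : ℕ, ∀ y y', dist (pos y) (pos y') ≤ D →
      ∃ n ≤ M, ∃ p : ℕ → Y, p 0 = y ∧ p n = y' ∧ ∀ i < n, A (p i) (p (i+1)) := by
    intro D
    obtain ⟨M, hM⟩ := hV T hN H hE D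
    refine ⟨M, fun y y' hyy => ?_⟩
    obtain ⟨n, hn, c, hc0, hcn, hc⟩ := hM y.1 y.2 y'.1 y'.2 hyy
    have hmem : ∀ i ≤ n, c i ∈ Vtx T := by
      intro i hi
      rcases Nat.eq_zero_or_pos i with h | h
      · rw [h, hc0]; exact y.2
      · obtain ⟨x, _, hx⟩ := hc (i - 1) (by omega)
        have h3 : i - 1 + 1 = i := by omega
        rw [h3] at hx
        rw [← hx]; exact (s0 x).hv
    refine ⟨n, hn, fun i => if h : c i ∈ Vtx T then ⟨c i, h⟩ else y, ?_, ?_, ?_⟩
    · simp only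
      rw [dif_pos (hmem 0 (Nat.zero_le _))]
      exact Subtype.ext hc0
    · simp only
      rw [dif_pos (hmem n le_rfl)]
      exact Subtype.ext hcn
    · intro i hi
      simp only
      rw [dif_pos (hmem i hi.le), dif_pos (hmem (i+1) hi)]
      exact hc i hi
  obtain ⟨C, hC0, hPI⟩ := hP Y pos A hcnt (hB Y pos hcnt hcob) hA hch
  -- a flag at each vertex
  have hex : ∀ y : Y, ∃ x : Flag T, x.v = y.1 := by
    rintro ⟨v, hv⟩
    obtain ⟨a, ha, _, _, _, _, _, _, _, hva, _, _⟩ := id hv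
    obtain ⟨x, hx, _⟩ := H.exv v hv a ha hva
    exact ⟨x, hx⟩
  choose e he using hex
  have he_inj : Function.Injective e := by
    intro y y' h
    exact Subtype.ext (by rw [← he y, ← he y', h])
  let gv : Flag T → Y := fun x => ⟨x.v, x.hv⟩
  refine ⟨(2 * N + 1) * C, by positivity, ?_⟩
  intro f h1 h2 hsum
  set F : Y → ℝ := fun y => f (e y) with hF
  have hfF : ∀ x, f x = F (gv x) := by
    intro x
    exact Rch_const h1 h2 (H.c12 (e (gv x)) x (he (gv x)).symm)
  have hFsum : Summable (fun y => F y ^ 2) := hsum.comp_injective he_inj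
  obtain ⟨hE1, hE2⟩ := hPI F hFsum
  -- energies
  have hs0inj : Function.Injective (s0 : Flag T → Flag T) := by
    intro x y h
    rw [← H.s0_s0 x, ← H.s0_s0 y, h]
  have hens : Summable (fun x => (f (s0 x) - f x) ^ 2) := by
    have h3 : Summable (fun x => f (s0 x) ^ 2) := hsum.comp_injective hs0inj
    refine Summable.of_nonneg_of_le (fun x => sq_nonneg _) (fun x => ?_)
      ((h3.mul_left 2).add (hsum.mul_left 2))
    nlinarith [sq_nonneg (f (s0 x) + f x)]
  have hpair : ∀ p : {p : Y × Y // A p.1 p.2}, ∃ x : Flag T, x.v = p.1.1.1 ∧ (s0 x).v = p.1.2.1 :=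
    fun p => p.2
  choose j hj1 hj2 using hpair
  have hj_inj : Function.Injective j := by
    intro p p' h
    refine Subtype.ext (Prod.ext (Subtype.ext ?_) (Subtype.ext ?_))
    · rw [← hj1 p, ← hj1 p', h]
    · rw [← hj2 p, ← hj2 p', h]
  have hen : ∑' p : {p : Y × Y // A p.1 p.2}, (F p.1.2 - F p.1.1) ^ 2 ≤ ∑' x, (f (s0 x) - f x) ^ 2 := by
    refine Summable.tsum_le_tsum_of_inj j hj_inj (fun _ _ => sq_nonneg _) (fun p => ?_) hE1 hens
    have e1 : gv (j p) = p.1.1 := Subtype.ext (hj1 p)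
    have e2 : gv (s0 (j p)) = p.1.2 := Subtype.ext (hj2 p)
    rw [hfF (s0 (j p)), hfF (j p), e1, e2]
  -- fibres
  have hfib : ∑' x, f x ^ 2 ≤ (2 * N + 1) * ∑' y, F y ^ 2 := by
    have hs : Summable (fun p : (Σ y : Y, {x : Flag T // gv x = y}) => f p.2.1 ^ 2) := by
      have := (Equiv.sigmaFiberEquiv gv).summable_iff.2 hsum
      exact this
    have h3 : ∑' x, f x ^ 2 = ∑' p : (Σ y : Y, {x : Flag T // gv x = y}), f p.2.1 ^ 2 :=
      ((Equiv.sigmaFiberEquiv gv).tsum_eq (fun x => f x ^ 2)).symm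
    rw [h3, hs.tsum_sigma, ← tsum_mul_left]
    refine Summable.tsum_le_tsum (fun y => ?_) hs.sigma (hFsum.mul_left _)
    have h4 : ∀ x : {x : Flag T // gv x = y}, f x.1 ^ 2 = F y ^ 2 := by
      intro x
      rw [hfF x.1, x.2]
    simp_rw [h4]
    have h5 := vfib H y.1 y.2
    have hset : {x : Flag T | gv x = y} = {x : Flag T | x.v = y.1} := by
      ext x
      exact ⟨fun h => congrArg Subtype.val h, fun h => Subtype.ext h⟩
    have h6 : Nat.card {x : Flag T // gv x = y} ≤ 2 * N := by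
      have h7 : Nat.card {x : Flag T // gv x = y} = {x : Flag T | gv x = y}.ncard := rfl
      rw [h7, hset]
      have := hdg y.1
      omega
    rw [tsum_const, nsmul_eq_mul]
    have h8 : (Nat.card {x : Flag T // gv x = y} : ℝ) ≤ 2 * N := by exact_mod_cast h6
    have h9 := sq_nonneg (F y)
    nlinarith
  calc ∑' x, f x ^ 2 ≤ (2 * N + 1) * ∑' y, F y ^ 2 := hfib
    _ ≤ (2 * N + 1) * (C * ∑' x, (f (s0 x) - f x) ^ 2) := by
        refine mul_le_mul_of_nonneg_left (hE2.trans ?_) (by positivity)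
        exact mul_le_mul_of_nonneg_left hen hC0.le
    _ = (2 * N + 1) * C * ∑' x, (f (s0 x) - f x) ^ 2 := by ring

end H292.TL
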