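import Pool.Agent.H292.TL.FB

/-!
Project TL, task REAL: glue the realization map.
-/

set_option autoImplicit false
open scoped UpperHalfPlane Topology
open Set

namespace H292.TL

theorem image_mul_iso (a b : ℍ ≃ᵢ ℍ) (s : Set ℍ) :
    ((a * b : ℍ ≃ᵢ ℍ) : ℍ → ℍ) '' s = a '' (b '' s) := by
  rw [image_image]
  rfl

theorem poly_const (hPINV : S_PINV) {T : Set (Set ℍ)} (H : FS T) {l : ℝ} (hl : 0 < l)
    {g : Flag T → (ℍ ≃ᵢ ℍ)} (hg : Frames T l g) {x y : Flag T} (h : Rch s0 s1 x y) :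
    y.t = x.t ∧ g y '' Poly l (nn T x.t) = g x '' Poly l (nn T x.t) := by
  have hn : 3 ≤ nn T x.t := H.n3 _ x.ht
  induction h with
  | refl => exact ⟨rfl, rfl⟩
  | tail _ h2 ih =>
    obtain ⟨e, ih⟩ := ih
    rcases h2 with h2 | h2
    · subst h2
      refine ⟨(H.toFS1.s0_t _).trans e, ?_⟩
      rw [(hg _).1, image_mul_iso, (hPINV l _ hl hn).1]
      exact ih
    · subst h2
      refine ⟨(H.toFS1.s1_t _).trans e, ?_⟩
      rw [(hg _).2.1, image_mul_iso, e, (hPINV l _ hl hn).2]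
      exact ih

theorem chart_iso {φ : ℂ → ℍ} {Q : Set ℍ} (h : Chart φ Q) (a : ℍ ≃ᵢ ℍ) :
    Chart (fun z => a (φ z)) (a '' Q) := by
  refine ⟨a.continuous.comp_continuousOn h.cont, fun z hz w hw e => ?_, ?_⟩
  · exact h.inj hz hw (a.injective e)
  · rw [← h.img, image_image]

theorem real1 (hSKEL : S_SKEL) (hBMAP : S_BMAP) (hEXT : S_EXT) (hPDISC : S_PDISC)
    (hPINV : S_PINV) (hCNT : S_CNT) (hFR : S_FR) (hDISJ : S_DISJ) : S_REAL := by
  intro T N H E l hl g hg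
  obtain ⟨b, hb⟩ := hSKEL T N H E l hl g hg
  have hB := hBMAP T N H E l hl g hg b hb
  have h1 : ∀ t ∈ T, ∃ F : ℍ → ℍ, ContinuousOn F t ∧ InjOn F t ∧
      (∀ x : Flag T, x.t = t → F '' t = g x '' Poly l (nn T t)) ∧
      ∀ p ∈ frontier t, F p = b p := by
    intro t ht
    obtain ⟨x, rfl⟩ := H.ext t ht
    obtain ⟨φ, hφ⟩ := N.chart _ x.ht
    obtain ⟨ψ, hψ⟩ := hPDISC l (nn T x.t) hl (H.n3 _ x.ht)
    obtain ⟨F, f1, f2, f3, f4⟩ := hEXT x.t (g x '' Poly l (nn T x.t)) φ _ hφ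
      (chart_iso hψ (g x)) b (hB x).1 (hB x).2.1 (hB x).2.2
    refine ⟨F, f1, f2, fun y hy => ?_, f4⟩
    rw [f3, (poly_const hPINV H hl hg (H.c01 x y hy)).2]
  choose Ft c1 c2 c3 c4 using h1
  choose τ hτ hpτ using N.cover
  have key : ∀ t (ht : t ∈ T), ∀ p ∈ t, Ft (τ p) (hτ p) p = Ft t ht p := by
    intro t ht p hp
    by_cases e : τ p = t
    · subst e
      rfl
    · rw [c4 (τ p) (hτ p) p ((hDISJ T N t ht (τ p) (hτ p) (Ne.symm e)).1 ⟨hp, hpτ p⟩),
        c4 t ht p ((hDISJ T N (τ p) (hτ p) t ht e).1 ⟨hpτ p, hp⟩)]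
  have hcl : ∀ t ∈ T, IsClosed t := by
    intro t ht
    obtain ⟨φ, hφ⟩ := N.chart t ht
    exact (hFR φ t hφ).2.2.2.isClosed
  have hedge : ∀ x : Flag T, ∀ p ∈ x.s ∩ x.t, Ft (τ p) (hτ p) p = b p := by
    intro x p hp
    rw [key x.t x.ht p hp.2]
    exact c4 _ _ p (E.fr x.s x.hs x.t x.ht x.hne hp)
  refine ⟨fun p => Ft (τ p) (hτ p) p, ?_, ?_, ?_, ?_, ?_⟩
  · have hlf : LocallyFinite (fun t : T => (t : Set ℍ)) := by
      intro x
      refine ⟨Metric.closedBall x 1, Metric.closedBall_mem_nhds x one_pos, ?_⟩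
      obtain ⟨n, hn⟩ := hCNT T N 1
      have := (hn x).1
      refine (this.preimage (f := (Subtype.val : T → Set ℍ))
        Subtype.val_injective.injOn).subset fun t ht => ?_
      exact ⟨t.2, ht⟩
    refine hlf.continuous ?_ (fun t => hcl t t.2) fun t => ?_
    · refine eq_univ_of_forall fun p => ?_
      rw [mem_iUnion]
      exact ⟨⟨τ p, hτ p⟩, hpτ p⟩
    · exact (c1 t t.2).congr fun p hp => key t t.2 p hp
  · intro t ht p hp q hq e
    simp only at e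
    rw [key t ht p hp, key t ht q hq] at e
    exact c2 t ht hp hq e
  · intro x
    rw [← c3 x.t x.ht x rfl]
    exact image_congr fun p hp => key x.t x.ht p hp
  · intro x
    rw [← (hb x).2.2.1]
    exact image_congr fun p hp => hedge x p hp
  · intro x
    rw [← (hb x).2.2.2]
    exact hedge x x.v ⟨x.hvs, x.hvt⟩

end H292.TL
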