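import Pool.Agent.H292.TL.FB

/-!
Project TL: relations between rotations, translations and reflections (`S_REL`, `S_MINV`).
-/

set_option autoImplicit false
open scoped UpperHalfPlane Topology MatrixGroups
open Set

namespace H292.TL

/-! ### the homomorphism `SL(2,ℝ) → ℍ ≃ᵢ ℍ` -/

/-- the isometry given by a matrix -/
noncomputable def ism (g : SL(2, ℝ)) : ℍ ≃ᵢ ℍ := IsometryEquiv.constSMul g

theorem ism_apply (g : SL(2, ℝ)) (z : ℍ) : ism g z = g • z := rfl

theorem ism_mul (g h : SL(2, ℝ)) : ism (g * h) = ism g * ism h := by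
  apply IsometryEquiv.ext
  intro z
  rw [IsometryEquiv.mul_apply, ism_apply, ism_apply, ism_apply, mul_smul]

theorem ism_one : ism 1 = 1 := by
  apply IsometryEquiv.ext
  intro z
  rw [ism_apply, one_smul]; rfl

theorem coe_ism (g : SL(2, ℝ)) (z : ℍ) : ((ism g z : ℍ) : ℂ) =
    ((g 0 0 : ℝ) * (z : ℂ) + (g 0 1 : ℝ)) / ((g 1 0 : ℝ) * (z : ℂ) + (g 1 1 : ℝ)) := by
  rw [ism_apply, UpperHalfPlane.coe_specialLinearGroup_apply]
  rfl

theorem ism_neg (g : SL(2, ℝ)) : ism (-g) = ism g := by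
  apply IsometryEquiv.ext
  intro z
  apply UpperHalfPlane.ext
  rw [coe_ism, coe_ism]
  have h : ∀ i j, (-g) i j = -(g i j) := fun i j => rfl
  rw [h, h, h, h]
  rw [← neg_div_neg_eq]
  congr 1 <;> push_cast <;> ring

theorem cj_apply (z : ℍ) : cj z = cj0 z := rfl

theorem cj_cj : cj * cj = 1 := by
  apply IsometryEquiv.ext
  intro z
  rw [IsometryEquiv.mul_apply, cj_apply, cj_apply, cj0_cj0]; rfl

/-- conjugation by the reflection -/
theorem cj_ism (g h : SL(2, ℝ)) (h00 : h 0 0 = g 0 0) (h01 : h 0 1 = -(g 0 1))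
    (h10 : h 1 0 = -(g 1 0)) (h11 : h 1 1 = g 1 1) : cj * ism g = ism h * cj := by
  apply IsometryEquiv.ext
  intro z
  rw [IsometryEquiv.mul_apply, IsometryEquiv.mul_apply, cj_apply, cj_apply]
  apply UpperHalfPlane.ext
  rw [cj0_coe, coe_ism, coe_ism, cj0_coe, h00, h01, h10, h11, map_div₀, ← neg_div]
  simp only [map_add, map_mul, Complex.conj_ofReal]
  congr 1
  · push_cast; ring
  · push_cast; ring

theorem rot_eq (θ : ℝ) : rot θ = ism (rotM θ) := rfl
theorem tr_eq (ρ : ℝ) : tr ρ = ism (trM ρ) := rfl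

theorem rotM_add (a b : ℝ) : rotM (a + b) = rotM a * rotM b := by
  apply Subtype.ext
  change !![Real.cos ((a+b)/2), Real.sin ((a+b)/2); -Real.sin ((a+b)/2), Real.cos ((a+b)/2)] =
    !![Real.cos (a/2), Real.sin (a/2); -Real.sin (a/2), Real.cos (a/2)] *
    !![Real.cos (b/2), Real.sin (b/2); -Real.sin (b/2), Real.cos (b/2)]
  rw [Matrix.mul_fin_two, add_div, Real.cos_add, Real.sin_add]
  congr 1
  · ext i j; fin_cases i <;> fin_cases j <;> simp <;> ring

theorem trM_add (a b : ℝ) : trM (a + b) = trM a * trM b := by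
  apply Subtype.ext
  change !![Real.exp ((a+b)/2), 0; 0, Real.exp (-((a+b)/2))] =
    !![Real.exp (a/2), 0; 0, Real.exp (-(a/2))] *
    !![Real.exp (b/2), 0; 0, Real.exp (-(b/2))]
  rw [Matrix.mul_fin_two, add_div, Real.exp_add, neg_add, Real.exp_add]
  simp

theorem rot_add (a b : ℝ) : rot (a + b) = rot a * rot b := by
  rw [rot_eq, rotM_add, ism_mul]; rfl

theorem tr_add (a b : ℝ) : tr (a + b) = tr a * tr b := by
  rw [tr_eq, trM_add, ism_mul]; rfl

theorem rotM_two_pi : rotM (2 * Real.pi) = -1 := by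
  apply Subtype.ext
  change !![Real.cos (2 * Real.pi / 2), Real.sin (2 * Real.pi / 2);
    -Real.sin (2 * Real.pi / 2), Real.cos (2 * Real.pi / 2)] = -(1 : Matrix (Fin 2) (Fin 2) ℝ)
  rw [mul_div_cancel_left₀ _ (two_ne_zero), Real.cos_pi, Real.sin_pi, Matrix.one_fin_two]
  simp

theorem rot_two_pi : rot (2 * Real.pi) = 1 := by
  rw [rot_eq, rotM_two_pi, ism_neg, ism_one]

theorem rot_zero : rot 0 = 1 := by
  have h := rot_add 0 0
  rw [add_zero] at h
  exact mul_eq_left.1 h.symm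

theorem tr_zero : tr 0 = 1 := by
  have h := tr_add 0 0
  rw [add_zero] at h
  exact mul_eq_left.1 h.symm

theorem rot_neg (a : ℝ) : rot a * rot (-a) = 1 := by
  rw [← rot_add, add_neg_cancel, rot_zero]

theorem tr_neg (a : ℝ) : tr a * tr (-a) = 1 := by
  rw [← tr_add, add_neg_cancel, tr_zero]

theorem rot_add_two_pi (a : ℝ) : rot (a + 2 * Real.pi) = rot a := by
  rw [rot_add, rot_two_pi, mul_one]

theorem cj_rot (θ : ℝ) : cj * rot θ = rot (-θ) * cj := by
  apply cj_ism
  · change Real.cos (-θ/2) = Real.cos (θ/2)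
    rw [neg_div, Real.cos_neg]
  · change Real.sin (-θ/2) = -Real.sin (θ/2)
    rw [neg_div, Real.sin_neg]
  · change -Real.sin (-θ/2) = - -Real.sin (θ/2)
    rw [neg_div, Real.sin_neg]
  · change Real.cos (-θ/2) = Real.cos (θ/2)
    rw [neg_div, Real.cos_neg]

theorem cj_tr (ρ : ℝ) : cj * tr ρ = tr ρ * cj := by
  apply cj_ism
  · rfl
  · change (0:ℝ) = -0
    rw [neg_zero]
  · change (0:ℝ) = -0
    rw [neg_zero]
  · rfl

theorem rot_pi_tr (l : ℝ) : rot Real.pi * tr l = tr (-l) * rot Real.pi := by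
  rw [rot_eq, tr_eq, tr_eq, ← ism_mul, ← ism_mul]
  congr 1
  apply Subtype.ext
  change !![Real.cos (Real.pi/2), Real.sin (Real.pi/2); -Real.sin (Real.pi/2),
      Real.cos (Real.pi/2)] * !![Real.exp (l/2), 0; 0, Real.exp (-(l/2))] =
    !![Real.exp (-l/2), 0; 0, Real.exp (-(-l/2))] * !![Real.cos (Real.pi/2), Real.sin (Real.pi/2);
      -Real.sin (Real.pi/2), Real.cos (Real.pi/2)]
  rw [Matrix.mul_fin_two, Matrix.mul_fin_two, Real.cos_pi_div_two, Real.sin_pi_div_two, neg_div,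
    neg_neg]
  simp

theorem rot_neg_pi : rot (-Real.pi) = rot Real.pi := by
  have h : Real.pi = -Real.pi + 2 * Real.pi := by ring
  conv_rhs => rw [h]
  rw [rot_add_two_pi]

/-! ### the relations -/

theorem R2_R2 : R2 * R2 = 1 := cj_cj

theorem R0_R2 (l : ℝ) : R0 l * R2 = tr l * rot Real.pi := by
  unfold R0 R2
  rw [mul_assoc, cj_cj, mul_one]

theorem R2_R0 (l : ℝ) : R2 * R0 l = tr l * rot Real.pi := by
  unfold R0 R2
  rw [← mul_assoc, ← mul_assoc, cj_tr, mul_assoc (tr l), cj_rot, rot_neg_pi, mul_assoc,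
    mul_assoc, cj_cj, mul_one]

theorem R0_R0 (l : ℝ) : R0 l * R0 l = 1 := by
  have h : R0 l * R0 l = (R0 l * R2) * (R2 * R0 l) := by
    rw [mul_assoc, ← mul_assoc R2, R2_R2, one_mul]
  rw [h, R0_R2, R2_R0, mul_assoc, ← mul_assoc (rot Real.pi), rot_pi_tr, mul_assoc,
    ← mul_assoc (tr l), tr_neg, one_mul]
  nth_rewrite 2 [← rot_neg_pi]
  rw [rot_neg]

theorem R1_R2 (l : ℝ) (n : ℕ) : R1 l n * R2 = rot (angH l n) := by
  unfold R1 R2
  rw [mul_assoc, cj_cj, mul_one]

theorem R1_R1 (l : ℝ) (n : ℕ) : R1 l n * R1 l n = 1 := by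
  unfold R1
  rw [mul_assoc, ← mul_assoc cj, cj_rot, mul_assoc, cj_cj, mul_one, rot_neg]

/-! ### the centre frame -/

theorem Minv_R1 (l : ℝ) (n : ℕ) : Minv l n * R1 l n = cj * Minv l n := by
  unfold Minv R1
  rw [← mul_assoc cj, cj_tr, mul_assoc (tr _) cj, cj_rot, mul_assoc, ← mul_assoc (rot _),
    ← rot_add]
  congr 2
  rw [← rot_add_two_pi (-(Real.pi - angH l n / 2))]
  congr 1
  ring

section trig

variable {l : ℝ} {n : ℕ}

theorem sin_pi_div_pos (hn : 3 ≤ n) : 0 < Real.sin (Real.pi / n) := by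
  have h3 : (3:ℝ) ≤ n := by exact_mod_cast hn
  apply Real.sin_pos_of_pos_of_lt_pi
  · exact div_pos Real.pi_pos (by linarith)
  · rw [div_lt_iff₀ (by linarith)]
    nlinarith [Real.pi_pos]

theorem sin_half_angH (l : ℝ) (n : ℕ) :
    Real.sin (angH l n / 2) * Real.cosh (l / 2) = Real.cos (Real.pi / n) := by
  have hc : 1 ≤ Real.cosh (l / 2) := Real.one_le_cosh _
  unfold angH
  rw [mul_div_cancel_left₀ _ (two_ne_zero), Real.sin_arcsin, div_mul_cancel₀]
  · linarith
  · rw [le_div_iff₀ (by linarith)]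
    have := Real.neg_one_le_cos (Real.pi / n)
    linarith
  · rw [div_le_one (by linarith)]
    have := Real.cos_le_one (Real.pi / n)
    linarith

theorem cos_half_angH_nonneg (l : ℝ) (n : ℕ) : 0 ≤ Real.cos (angH l n / 2) := by
  unfold angH
  rw [mul_div_cancel_left₀ _ (two_ne_zero)]
  exact Real.cos_arcsin_nonneg _

theorem sinh_rho (hn : 3 ≤ n) (l : ℝ) :
    Real.sinh (rho l n) * Real.sin (Real.pi / n) = Real.sinh (l / 2) := by
  unfold rho
  rw [Real.sinh_arsinh, div_mul_cancel₀]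
  exact (sin_pi_div_pos hn).ne'

theorem cosh_rho (hn : 3 ≤ n) (l : ℝ) :
    Real.cosh (rho l n) * Real.sin (Real.pi / n) = Real.cosh (l / 2) * Real.cos (angH l n / 2) := by
  have hs := sin_pi_div_pos hn
  have h1 := sin_half_angH l n
  have h2 := sinh_rho hn l
  have h3 := cos_half_angH_nonneg l n
  have h4 := Real.cosh_sq (rho l n)
  have h5 := Real.cosh_sq (l / 2)
  have h6 := Real.sin_sq_add_cos_sq (angH l n / 2)
  have h7 := Real.sin_sq_add_cos_sq (Real.pi / n)
  have h8 : 0 ≤ Real.cosh (rho l n) * Real.sin (Real.pi / n) :=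
    mul_nonneg (Real.cosh_pos _).le hs.le
  have h9 : 0 ≤ Real.cosh (l / 2) * Real.cos (angH l n / 2) :=
    mul_nonneg (Real.cosh_pos _).le h3
  have h10 : (Real.cosh (rho l n) * Real.sin (Real.pi / n)) ^ 2 =
      (Real.cosh (l / 2) * Real.cos (angH l n / 2)) ^ 2 := by
    calc (Real.cosh (rho l n) * Real.sin (Real.pi / n)) ^ 2
        = (Real.sinh (rho l n) * Real.sin (Real.pi / n)) ^ 2 + Real.sin (Real.pi / n) ^ 2 := by
          rw [mul_pow, h4]; ring
      _ = Real.sinh (l / 2) ^ 2 + (1 - Real.cos (Real.pi / n) ^ 2) := by rw [h2]; linarith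
      _ = Real.cosh (l / 2) ^ 2 - (Real.sin (angH l n / 2) * Real.cosh (l / 2)) ^ 2 := by
          rw [h1, h5]; ring
      _ = Real.cosh (l / 2) ^ 2 * (1 - Real.sin (angH l n / 2) ^ 2) := by ring
      _ = (Real.cosh (l / 2) * Real.cos (angH l n / 2)) ^ 2 := by
          rw [mul_pow]; congr 1; linarith
  exact (pow_left_inj₀ h8 h9 two_ne_zero).1 h10

end trig

theorem Minv_R0_mat (l : ℝ) (n : ℕ) (hn : 3 ≤ n) :
    trM (rho l n) * rotM (Real.pi - angH l n / 2) * trM l * rotM Real.pi =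
      -(rotM (2 * Real.pi / n) * trM (rho l n) * rotM (-(Real.pi - angH l n / 2))) := by
  have hs1 := sin_half_angH l n
  have hs2 := sinh_rho hn l
  have hs3 := cosh_rho hn l
  obtain ⟨q, hq⟩ : ∃ q : ℝ, q = angH l n / 4 := ⟨_, rfl⟩
  have hq2 : angH l n / 2 = 2 * q := by rw [hq]; ring
  have e1 : (Real.pi - angH l n / 2) / 2 = Real.pi / 2 - q := by rw [hq2]; ring
  have e2 : (-(Real.pi - angH l n / 2)) / 2 = -(Real.pi / 2 - q) := by rw [hq2]; ring
  have e3 : 2 * Real.pi / n / 2 = Real.pi / n := by ring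
  rw [hq2] at hs1 hs3
  rw [Real.sin_two_mul] at hs1
  rw [Real.cos_two_mul] at hs3
  apply Subtype.ext
  change !![Real.exp (rho l n/2), 0; 0, Real.exp (-(rho l n/2))] *
      !![Real.cos ((Real.pi - angH l n / 2)/2), Real.sin ((Real.pi - angH l n / 2)/2);
        -Real.sin ((Real.pi - angH l n / 2)/2), Real.cos ((Real.pi - angH l n / 2)/2)] *
      !![Real.exp (l/2), 0; 0, Real.exp (-(l/2))] *
      !![Real.cos (Real.pi/2), Real.sin (Real.pi/2); -Real.sin (Real.pi/2), Real.cos (Real.pi/2)] =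
    -(!![Real.cos (2 * Real.pi / n/2), Real.sin (2 * Real.pi / n/2);
        -Real.sin (2 * Real.pi / n/2), Real.cos (2 * Real.pi / n/2)] *
      !![Real.exp (rho l n/2), 0; 0, Real.exp (-(rho l n/2))] *
      !![Real.cos ((-(Real.pi - angH l n / 2))/2), Real.sin ((-(Real.pi - angH l n / 2))/2);
        -Real.sin ((-(Real.pi - angH l n / 2))/2), Real.cos ((-(Real.pi - angH l n / 2))/2)])
  rw [e1, e2, e3, Real.cos_neg, Real.sin_neg, Real.cos_pi_div_two_sub, Real.sin_pi_div_two_sub,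
    Real.cos_pi_div_two, Real.sin_pi_div_two]
  have hE : Real.exp (rho l n / 2) * Real.exp (-(rho l n / 2)) = 1 := by
    rw [← Real.exp_add, add_neg_cancel, Real.exp_zero]
  have hE2 : Real.exp (rho l n / 2) * Real.exp (rho l n / 2) =
      Real.cosh (rho l n) + Real.sinh (rho l n) := by
    rw [← Real.exp_add, add_halves, Real.cosh_add_sinh]
  have hE3 : Real.exp (-(rho l n / 2)) * Real.exp (-(rho l n / 2)) =
      Real.cosh (rho l n) - Real.sinh (rho l n) := by
    rw [← Real.exp_add, ← neg_add, add_halves, Real.cosh_sub_sinh]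
  have hL : Real.exp (l / 2) = Real.cosh (l / 2) + Real.sinh (l / 2) := by
    rw [Real.cosh_add_sinh]
  have hL' : Real.exp (-(l / 2)) = Real.cosh (l / 2) - Real.sinh (l / 2) := by
    rw [Real.cosh_sub_sinh]
  have hSC := Real.sin_sq_add_cos_sq q
  generalize Real.exp (rho l n / 2) = E at *
  generalize Real.exp (-(rho l n / 2)) = E' at *
  generalize Real.exp (l / 2) = L at *
  generalize Real.exp (-(l / 2)) = L' at *
  generalize Real.cosh (l / 2) = ch at *
  generalize Real.sinh (l / 2) = sh at *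
  generalize Real.cosh (rho l n) = Ch at *
  generalize Real.sinh (rho l n) = Sh at *
  generalize Real.sin (Real.pi / n) = s at *
  generalize Real.cos (Real.pi / n) = c at *
  generalize Real.sin q = S at *
  generalize Real.cos q = C at *
  have k1 : s * (E * E) = ch * (C ^ 2 - S ^ 2) + sh := by
    rw [hE2]
    linear_combination hs3 + hs2 + ch * hSC
  have k2 : s * (E' * E') = ch * (C ^ 2 - S ^ 2) - sh := by
    rw [hE3]
    linear_combination hs3 - hs2 + ch * hSC
  have i1 : E * C * L' = c * E * S + s * C * E' := by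
    linear_combination E * C * hL' + E * S * hs1 - C * E * k2 + s * C * E' * hE - E * C * ch * hSC
  have i2 : E * S * L = c * E * C - s * S * E' := by
    linear_combination E * S * hL + E * C * hs1 + S * E * k2 - s * S * E' * hE - E * S * ch * hSC
  have i3 : S * E' * L' = -(s * E * S) + c * C * E' := by
    linear_combination E' * S * hL' + C * E' * hs1 + S * E' * k1 - s * S * E * hE -
      E' * S * ch * hSC
  have i4 : C * L * E' = s * E * C + c * S * E' := by
    linear_combination C * E' * hL + S * E' * hs1 - C * E' * k1 + s * C * E * hE -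
      C * E' * ch * hSC
  rw [Matrix.mul_fin_two, Matrix.mul_fin_two, Matrix.mul_fin_two, Matrix.mul_fin_two,
    Matrix.mul_fin_two]
  ext i j
  fin_cases i <;> fin_cases j <;> simp <;> linarith

theorem Minv_R0 (l : ℝ) (n : ℕ) (hn : 3 ≤ n) :
    Minv l n * R0 l = rot (2 * Real.pi / n) * cj * Minv l n := by
  have key : tr (rho l n) * rot (Real.pi - angH l n / 2) * tr l * rot Real.pi =
      rot (2 * Real.pi / n) * tr (rho l n) * rot (-(Real.pi - angH l n / 2)) := by
    rw [rot_eq, rot_eq, rot_eq, rot_eq, tr_eq, tr_eq, ← ism_mul, ← ism_mul, ← ism_mul, ← ism_mul,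
      ← ism_mul, ← ism_neg, Minv_R0_mat l n hn, neg_neg]
  unfold Minv R0
  calc tr (rho l n) * rot (Real.pi - angH l n / 2) * (tr l * rot Real.pi * cj)
      = (tr (rho l n) * rot (Real.pi - angH l n / 2) * tr l * rot Real.pi) * cj := by
        simp only [mul_assoc]
    _ = rot (2 * Real.pi / n) * tr (rho l n) * (rot (-(Real.pi - angH l n / 2)) * cj) := by
        rw [key]; simp only [mul_assoc]
    _ = rot (2 * Real.pi / n) * (tr (rho l n) * cj) * rot (Real.pi - angH l n / 2) := by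
        rw [← cj_rot]; simp only [mul_assoc]
    _ = rot (2 * Real.pi / n) * cj * (tr (rho l n) * rot (Real.pi - angH l n / 2)) := by
        rw [← cj_tr]; simp only [mul_assoc]

theorem minv : S_MINV := fun l n _ hn => ⟨Minv_R1 l n, Minv_R0 l n hn⟩

theorem R1_R0_pow (l : ℝ) (n : ℕ) (hn : 3 ≤ n) : (R1 l n * R0 l) ^ n = 1 := by
  have h1 : Minv l n * (R1 l n * R0 l) * (Minv l n)⁻¹ = rot (-(2 * Real.pi / n)) := by
    rw [← mul_assoc, Minv_R1, mul_assoc cj, Minv_R0 l n hn, ← mul_assoc, ← mul_assoc, cj_rot,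
      mul_assoc (rot _), cj_cj, mul_one, mul_assoc, mul_inv_cancel, mul_one]
  have h2 : ∀ (a : ℝ) (k : ℕ), rot a ^ k = rot (k * a) := by
    intro a k
    induction k with
    | zero => simp [rot_zero]
    | succ k ih => rw [pow_succ, ih, ← rot_add]; congr 1; push_cast; ring
  have h3 : (Minv l n * (R1 l n * R0 l) * (Minv l n)⁻¹) ^ n = 1 := by
    rw [h1, h2]
    have h4 : (n : ℝ) ≠ 0 := by
      have : n ≠ 0 := by omega
      exact_mod_cast this
    have h5 : (n : ℝ) * -(2 * Real.pi / n) = -(2 * Real.pi) := by field_simp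
    rw [h5]
    have h6 := rot_neg (2 * Real.pi)
    rwa [rot_two_pi, one_mul] at h6
  rw [conj_pow] at h3
  have h4 := mul_inv_eq_one.1 h3
  exact mul_eq_left.1 h4

theorem rel : S_REL :=
  ⟨rot_add, rot_two_pi, R2_R2, fun l => ⟨R0_R0 l, by rw [R0_R2, R2_R0]⟩,
    fun l n => ⟨R1_R1 l n, R1_R2 l n⟩, fun l n _ hn => R1_R0_pow l n hn⟩

end H292.TL
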