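import Pool.Agent.H292.TL.FB

/-!
Project TL, task SINJ (helper553): injectivity on the star of a vertex.
-/

set_option autoImplicit false
open scoped UpperHalfPlane Topology
open Set

namespace H292.TL

theorem sinj_mul (a b : ℍ ≃ᵢ ℍ) (z : ℍ) : (a * b) z = a (b z) := rfl

theorem sinj_rot0 (hR : S_REL) : rot 0 = 1 := by
  have h := hR.1 0 0
  rw [add_zero] at h
  exact (mul_eq_left.mp h.symm)

theorem sinj (hS : S_STAR) (hV : S_VENUM) (hR : S_REL) : S_SINJ := by
  intro T _ H _ l hl hsum g hg F hF v hv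
  have H1 := H.toFS1
  obtain ⟨a, ha, b, hb, c, hc, hab, hac, hbc, hva, hvb, hvc⟩ := id hv
  obtain ⟨y0, hy0, -⟩ := H1.exv v hv a ha hva
  -- the degree
  have hk : 3 ≤ dg T v := by
    have h1 : ({a, b, c} : Set (Set ℍ)) ⊆ {t ∈ T | v ∈ t} := by
      rintro t (rfl | rfl | rfl)
      · exact ⟨ha, hva⟩
      · exact ⟨hb, hvb⟩
      · exact ⟨hc, hvc⟩
    have h2 := Set.ncard_le_ncard h1 (H1.finv v)
    have h3 : ({a, b, c} : Set (Set ℍ)).ncard = 3 := Set.ncard_eq_three.mpr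
      ⟨a, b, c, hab, hac, hbc, rfl⟩
    unfold dg
    omega
  obtain ⟨hper, -, hall⟩ := hV T H y0
  rw [hy0] at hper hall
  -- the frames around the vertex
  set θ : ℕ → ℝ := fun i => ∑ m ∈ Finset.range i, angH l (nn T (uv^[m] y0).t) with hθ
  have hfr : ∀ i : ℕ, g (uv^[i] y0) = g y0 * rot (θ i) := by
    intro i
    induction i with
    | zero => simp [hθ, sinj_rot0 hR]
    | succ i ih =>
      rw [Function.iterate_succ_apply']
      show g (s2 (s1 (uv^[i] y0))) = _
      rw [(hg (s1 (uv^[i] y0))).2.2, (hg (uv^[i] y0)).2.1, ih, mul_assoc,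
        (hR.2.2.2.2.1 l (nn T (uv^[i] y0).t)).2, mul_assoc, ← hR.1]
      simp only [hθ]
      rw [Finset.sum_range_succ]
  have hth : ∀ i, θ i = ∑ m ∈ Finset.range i, angH l (nn T (uv^[m] y0).t) := fun i => rfl
  have hn3 : ∀ i, 3 ≤ nn T (uv^[i] y0).t := fun i => H.n3 _ (uv^[i] y0).ht
  have hs := hsum y0
  rw [hy0] at hs
  have key := hS l (dg T v) (fun i => nn T (uv^[i] y0).t) hl hk hn3 hs
  have hvt : ∀ i, v ∈ (uv^[i] y0).t := by
    intro i
    have := (uv^[i] y0).hvt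
    rwa [H1.uv_iter_v, hy0] at this
  -- the main case
  have main : ∀ i j : ℕ, i < j → j < dg T v → ∀ p ∈ (uv^[i] y0).t, ∀ q ∈ (uv^[j] y0).t,
      F p = F q → p = q := by
    intro i j hij hj p hp q hq hpq
    have inji := hF.inj _ (uv^[i] y0).ht
    have injj := hF.inj _ (uv^[j] y0).ht
    -- a common point of the two tiles with the same image
    have fin : ∀ r, r ∈ (uv^[i] y0).t → r ∈ (uv^[j] y0).t → F r = F p → p = q := by
      intro r hri hrj hr
      rw [← inji hri hp hr]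
      exact injj hrj hq (hr.trans hpq)
    obtain ⟨w, hw, hwp⟩ : F p ∈ g (uv^[i] y0) '' Poly l (nn T (uv^[i] y0).t) := by
      rw [← hF.tile]
      exact mem_image_of_mem F hp
    obtain ⟨w', hw', hwq⟩ : F q ∈ g (uv^[j] y0) '' Poly l (nn T (uv^[j] y0).t) := by
      rw [← hF.tile]
      exact mem_image_of_mem F hq
    rw [hfr, sinj_mul] at hwp hwq
    have hz : rot (θ i) w = rot (θ j) w' := by
      apply (g y0).injective
      rw [hwp, hwq, hpq]
    rcases key i j hij hj (rot (θ i) w) ⟨w, hw, rfl⟩ ⟨w', hw', hz.symm⟩ with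
      ⟨h1, h2⟩ | ⟨h1, h2, h3⟩ | h1
    · -- consecutive tiles
      have h4 : F p ∈ F '' ((uv^[j] y0).s ∩ (uv^[j] y0).t) := by
        rw [hF.edge, hfr]
        obtain ⟨u, hu, hu'⟩ := h2
        refine ⟨u, hu, ?_⟩
        rw [sinj_mul, ← hwp]
        exact congrArg (g y0) hu'
      obtain ⟨r, ⟨hr1, hr2⟩, hr⟩ := h4
      refine fin r ?_ hr2 hr
      rw [h1, Function.iterate_succ_apply', H1.uv_s] at hr1
      exact hr1
    · -- the first and the last tile
      have h4 : F p ∈ F '' (y0.s ∩ y0.t) := by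
        rw [hF.edge]
        exact ⟨rot (θ i) w, h3, hwp⟩
      obtain ⟨r, ⟨hr1, hr2⟩, hr⟩ := h4
      have h5 : y0.s = (uv^[j] y0).t := by
        have h6 : uv (uv^[j] y0) = y0 := by
          rw [← Function.iterate_succ_apply' uv j y0]
          have : j.succ = dg T v := by omega
          rw [this]
          exact hper
        have h7 := H1.uv_s (uv^[j] y0)
        rw [h6] at h7
        exact h7
      refine fin r ?_ (h5 ▸ hr1) hr
      rw [h1]
      exact hr2
    · -- the vertex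
      refine fin v (hvt i) (hvt j) ?_
      rw [← hwp, h1, ← hy0]
      exact hF.vert y0
  intro p hp q hq hpq
  obtain ⟨t, ⟨ht, hvt1⟩, hpt⟩ := hp
  obtain ⟨t', ⟨ht', hvt2⟩, hqt⟩ := hq
  have tile : ∀ t ∈ T, v ∈ t → ∃ i < dg T v, t = (uv^[i] y0).t := by
    intro t ht hvt
    obtain ⟨y, hy1, hy2⟩ := H1.exv v hv t ht hvt
    obtain ⟨i, hi, h | h⟩ := hall y hy1
    · exact ⟨i, hi, by rw [← hy2, h]⟩
    · exact ⟨i, hi, by rw [← hy2, h, H1.s1_t]⟩
  obtain ⟨i, hi, rfl⟩ := tile t ht hvt1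
  obtain ⟨j, hj, rfl⟩ := tile t' ht' hvt2
  rcases lt_trichotomy i j with h | h | h
  · exact main i j h hj p hpt q hqt hpq
  · subst h
    exact hF.inj _ (uv^[i] y0).ht hpt hqt hpq
  · exact (main j i h hi q hqt p hpt hpq.symm).symm

end H292.TL
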