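import Pool.Agent.H292.TL.FB

/-!
Project TL: maps on the edges, compatible at the vertices (task SKEL).
-/

set_option autoImplicit false
open scoped UpperHalfPlane Topology MatrixGroups
open Set

namespace H292.TL

namespace SKELaux

/-! ### the isometries on the imaginary axis -/

theorem tr_I_coe (t : ℝ) : ((tr t UpperHalfPlane.I : ℍ) : ℂ) = Real.exp t * Complex.I := by
  have h : (tr t UpperHalfPlane.I : ℍ) = trM t • UpperHalfPlane.I := rfl
  rw [h, UpperHalfPlane.coe_specialLinearGroup_apply]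
  simp only [trM, Matrix.SpecialLinearGroup.coe_mk, Matrix.of_apply, Matrix.cons_val', Matrix.cons_val_zero,
    Matrix.cons_val_one, Matrix.cons_val_fin_one, UpperHalfPlane.coe_I, Algebra.algebraMap_self,
    RingHom.id_apply, Complex.ofReal_zero, zero_mul, zero_add, add_zero]
  have h2 : (Real.exp t : ℂ) = Real.exp (t / 2) / Real.exp (-(t / 2)) := by
    rw [← Complex.ofReal_div, ← Real.exp_sub]
    congr 2
    ring
  rw [h2]
  ring

theorem tr_mul (a b : ℝ) : tr a (tr b UpperHalfPlane.I) = tr (a + b) UpperHalfPlane.I := by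
  apply UpperHalfPlane.ext
  rw [tr_I_coe]
  have h : (tr a (tr b UpperHalfPlane.I) : ℍ) = trM a • (tr b UpperHalfPlane.I) := rfl
  rw [h, UpperHalfPlane.coe_specialLinearGroup_apply, tr_I_coe]
  simp only [trM, Matrix.SpecialLinearGroup.coe_mk, Matrix.of_apply, Matrix.cons_val', Matrix.cons_val_zero,
    Matrix.cons_val_one, Matrix.cons_val_fin_one, Algebra.algebraMap_self,
    RingHom.id_apply, Complex.ofReal_zero, zero_mul, zero_add, add_zero]
  have h2 : (Real.exp (a + b) : ℂ) = Real.exp (a / 2) / Real.exp (-(a / 2)) * Real.exp b := by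
    rw [← Complex.ofReal_div, ← Real.exp_sub, ← Complex.ofReal_mul, ← Real.exp_add]
    congr 2
    ring
  rw [h2]
  ring

theorem tr_zero : tr 0 UpperHalfPlane.I = UpperHalfPlane.I := by
  apply UpperHalfPlane.ext
  rw [tr_I_coe, Real.exp_zero, Complex.ofReal_one, one_mul, UpperHalfPlane.coe_I]

theorem cj_tr (t : ℝ) : cj (tr t UpperHalfPlane.I) = tr t UpperHalfPlane.I := by
  apply UpperHalfPlane.ext
  change ((cj0 (tr t UpperHalfPlane.I) : ℍ) : ℂ) = _
  rw [cj0_coe, tr_I_coe, map_mul, Complex.conj_ofReal, Complex.conj_I]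
  ring

theorem rot_pi_tr (t : ℝ) : rot Real.pi (tr t UpperHalfPlane.I) = tr (-t) UpperHalfPlane.I := by
  apply UpperHalfPlane.ext
  rw [tr_I_coe]
  have h : (rot Real.pi (tr t UpperHalfPlane.I) : ℍ) = rotM Real.pi • (tr t UpperHalfPlane.I) := rfl
  rw [h, UpperHalfPlane.coe_specialLinearGroup_apply, tr_I_coe]
  simp only [rotM, Matrix.SpecialLinearGroup.coe_mk, Matrix.of_apply, Matrix.cons_val', Matrix.cons_val_zero,
    Matrix.cons_val_one, Matrix.cons_val_fin_one, Algebra.algebraMap_self,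
    RingHom.id_apply, Real.cos_pi_div_two, Real.sin_pi_div_two, Complex.ofReal_zero, zero_mul,
    zero_add, add_zero, Complex.ofReal_neg, Complex.ofReal_one]
  have h2 : (Real.exp t : ℂ) ≠ 0 := by exact_mod_cast (Real.exp_pos t).ne'
  rw [Real.exp_neg, Complex.ofReal_inv]
  field_simp
  rw [Complex.I_sq]

theorem rot_I (θ : ℝ) : rot θ UpperHalfPlane.I = UpperHalfPlane.I := by
  apply UpperHalfPlane.ext
  have h : (rot θ UpperHalfPlane.I : ℍ) = rotM θ • UpperHalfPlane.I := rfl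
  rw [h, UpperHalfPlane.coe_specialLinearGroup_apply]
  simp only [rotM, Matrix.SpecialLinearGroup.coe_mk, Matrix.of_apply, Matrix.cons_val', Matrix.cons_val_zero,
    Matrix.cons_val_one, Matrix.cons_val_fin_one, Algebra.algebraMap_self,
    RingHom.id_apply, UpperHalfPlane.coe_I, Complex.ofReal_neg]
  have h1 : ((Real.cos (θ / 2) : ℂ)) ^ 2 + (Real.sin (θ / 2) : ℂ) ^ 2 = 1 := by
    have := Real.cos_sq_add_sin_sq (θ / 2)
    exact_mod_cast this
  have h2 : -(Real.sin (θ / 2) : ℂ) * Complex.I + (Real.cos (θ / 2) : ℂ) ≠ 0 := by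
    intro h3
    have h4 : ((Real.cos (θ / 2) : ℂ)) ^ 2 + (Real.sin (θ / 2) : ℂ) ^ 2 =
        (-(Real.sin (θ / 2) : ℂ) * Complex.I + (Real.cos (θ / 2) : ℂ)) *
          ((Real.sin (θ / 2) : ℂ) * Complex.I + (Real.cos (θ / 2) : ℂ)) := by
      have := Complex.I_sq
      linear_combination (Real.sin (θ / 2) : ℂ) ^ 2 * this
    rw [h3, zero_mul, h1] at h4
    exact one_ne_zero h4
  rw [div_eq_iff h2]
  have := Complex.I_sq
  linear_combination (Real.sin (θ / 2) : ℂ) * this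

theorem R0_tr (l t : ℝ) : R0 l (tr t UpperHalfPlane.I) = tr (l - t) UpperHalfPlane.I := by
  change tr l (rot Real.pi (cj (tr t UpperHalfPlane.I))) = _
  rw [cj_tr, rot_pi_tr, tr_mul, sub_eq_add_neg]

theorem R0_I (l : ℝ) : R0 l UpperHalfPlane.I = tr l UpperHalfPlane.I := by
  have := R0_tr l 0
  rwa [tr_zero, sub_zero] at this

theorem R1_I (l : ℝ) (n : ℕ) : R1 l n UpperHalfPlane.I = UpperHalfPlane.I := by
  change rot (angH l n) (cj UpperHalfPlane.I) = _
  have := cj_tr 0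
  rw [tr_zero] at this
  rw [this, rot_I]

theorem R2_tr (t : ℝ) : R2 (tr t UpperHalfPlane.I) = tr t UpperHalfPlane.I := cj_tr t

theorem R2_I : R2 UpperHalfPlane.I = UpperHalfPlane.I := by
  have := R2_tr 0
  rwa [tr_zero] at this

theorem R0_Seg (l : ℝ) : R0 l '' Seg l = Seg l := by
  unfold Seg
  rw [image_image]
  ext z
  constructor
  · rintro ⟨t, ht, rfl⟩
    refine ⟨l - t, ⟨by linarith [ht.2], by linarith [ht.1]⟩, ?_⟩
    change _ = R0 l (tr t UpperHalfPlane.I)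
    rw [R0_tr]
  · rintro ⟨t, ht, rfl⟩
    refine ⟨l - t, ⟨by linarith [ht.2], by linarith [ht.1]⟩, ?_⟩
    change R0 l (tr (l - t) UpperHalfPlane.I) = _
    rw [R0_tr, sub_sub_cancel]

theorem R2_Seg (l : ℝ) : R2 '' Seg l = Seg l := by
  unfold Seg
  rw [image_image]
  refine image_congr fun t _ => ?_
  exact R2_tr t

theorem tr_cont : Continuous fun t : ℝ => tr t UpperHalfPlane.I := by
  rw [UpperHalfPlane.isEmbedding_coe.continuous_iff]
  have : ((fun z : ℍ => (z : ℂ)) ∘ fun t : ℝ => tr t UpperHalfPlane.I) =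
      fun t : ℝ => (Real.exp t : ℂ) * Complex.I := funext fun t => tr_I_coe t
  rw [this]
  fun_prop

theorem tr_inj {a b : ℝ} (h : tr a UpperHalfPlane.I = tr b UpperHalfPlane.I) : a = b := by
  have h1 : ((tr a UpperHalfPlane.I : ℍ) : ℂ) = ((tr b UpperHalfPlane.I : ℍ) : ℂ) := by rw [h]
  rw [tr_I_coe, tr_I_coe] at h1
  have h2 := mul_right_cancel₀ Complex.I_ne_zero h1
  have h3 : Real.exp a = Real.exp b := by exact_mod_cast h2
  exact Real.exp_injective h3

/-! ### the inverse of an injective continuous map on a compact interval -/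

theorem inv_cont {c : ℝ → ℍ} (hc : ContinuousOn c (Icc 0 1)) (hi : InjOn c (Icc 0 1)) :
    ContinuousOn (Function.invFunOn c (Icc 0 1)) (c '' Icc 0 1) := by
  rw [continuousOn_iff_isClosed]
  intro F hF
  refine ⟨c '' (Icc 0 1 ∩ F), ?_, ?_⟩
  · have h1 : IsCompact (Icc (0:ℝ) 1 ∩ F) := isCompact_Icc.inter_right hF
    exact (h1.image_of_continuousOn (hc.mono inter_subset_left)).isClosed
  · ext p
    constructor
    · rintro ⟨h1, t, ht, rfl⟩
      rw [mem_preimage, hi.leftInvOn_invFunOn ht] at h1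
      exact ⟨⟨t, ⟨ht, h1⟩, rfl⟩, ⟨t, ht, rfl⟩⟩
    · rintro ⟨⟨t, ⟨ht, htF⟩, rfl⟩, _⟩
      refine ⟨?_, ⟨t, ht, rfl⟩⟩
      rw [mem_preimage, hi.leftInvOn_invFunOn ht]
      exact htF

variable {T : Set (Set ℍ)}

/-- the map on one edge -/
theorem edge_map (E : ES T) {l : ℝ} (hl : 0 < l) (g : Flag T → (ℍ ≃ᵢ ℍ)) (hg : Frames T l g)
    (r : Flag T) : ∃ B : ℍ → ℍ, ContinuousOn B (r.s ∩ r.t) ∧ InjOn B (r.s ∩ r.t) ∧
      B '' (r.s ∩ r.t) = g r '' Seg l ∧ B r.v = g r UpperHalfPlane.I ∧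
      B (s0 r).v = g (s0 r) UpperHalfPlane.I := by
  obtain ⟨c, hc, hi, him, h0, h1⟩ := E.arc r
  let B : ℍ → ℍ := fun p => g r (tr (l * Function.invFunOn c (Icc 0 1) p) UpperHalfPlane.I)
  have hB : ∀ t ∈ Icc (0:ℝ) 1, B (c t) = g r (tr (l * t) UpperHalfPlane.I) := by
    intro t ht
    change g r (tr (l * Function.invFunOn c (Icc 0 1) (c t)) UpperHalfPlane.I) = _
    rw [hi.leftInvOn_invFunOn ht]
  refine ⟨B, ?_, ?_, ?_, ?_, ?_⟩
  · rw [← him]
    exact (g r).continuous.comp_continuousOn (tr_cont.comp_continuousOn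
      (continuousOn_const.mul (inv_cont hc hi)))
  · rw [← him]
    rintro _ ⟨a, ha, rfl⟩ _ ⟨b, hb, rfl⟩ hab
    rw [hB a ha, hB b hb] at hab
    have h2 := tr_inj ((g r).injective hab)
    rw [mul_left_cancel₀ hl.ne' h2]
  · rw [← him]
    unfold Seg
    ext z
    constructor
    · rintro ⟨_, ⟨t, ht, rfl⟩, rfl⟩
      rw [hB t ht]
      refine ⟨_, ⟨l * t, ⟨by nlinarith [ht.1], by nlinarith [ht.2]⟩, rfl⟩, rfl⟩
    · rintro ⟨_, ⟨t, ht, rfl⟩, rfl⟩
      have ht' : t / l ∈ Icc (0:ℝ) 1 :=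
        ⟨div_nonneg ht.1 hl.le, by rw [div_le_one hl]; exact ht.2⟩
      refine ⟨c (t / l), ⟨t / l, ht', rfl⟩, ?_⟩
      rw [hB _ ht', mul_div_cancel₀ _ hl.ne']
  · rw [← h0, hB 0 (by simp), mul_zero, tr_zero]
  · rw [← h1, hB 1 (by simp), mul_one, (hg r).1]
    change _ = g r (R0 l UpperHalfPlane.I)
    rw [R0_I]

/-- the vertex values -/
theorem vtx_val {l : ℝ} (g : Flag T → (ℍ ≃ᵢ ℍ)) (hg : Frames T l g) {x y : Flag T}
    (h : Rch s1 s2 x y) : g y UpperHalfPlane.I = g x UpperHalfPlane.I := by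
  induction h with
  | refl => rfl
  | tail _ h2 ih =>
    rename_i b c _
    rcases h2 with h2 | h2
    · rw [h2, (hg b).2.1, ← ih]
      change g b (R1 l (nn T b.t) UpperHalfPlane.I) = _
      rw [R1_I]
    · rw [h2, (hg b).2.2, ← ih]
      change g b (R2 UpperHalfPlane.I) = _
      rw [R2_I]

/-- the tiles of an edge through a point which is not a vertex -/
theorem two_tiles {x y : Flag T} {p : ℍ} (hp : p ∉ Vtx T) (hx : p ∈ x.s ∩ x.t)
    (hy : p ∈ y.s ∩ y.t) : (y.s = x.s ∧ y.t = x.t) ∨ (y.s = x.t ∧ y.t = x.s) := by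
  have key : ∀ a ∈ T, p ∈ a → a = x.s ∨ a = x.t := by
    intro a ha hpa
    by_contra hcon
    rw [not_or] at hcon
    exact hp ⟨x.s, x.hs, x.t, x.ht, a, ha, x.hne, fun h => hcon.1 h.symm, fun h => hcon.2 h.symm,
      hx.1, hx.2, hpa⟩
  rcases key y.s y.hs hy.1 with h1 | h1 <;> rcases key y.t y.ht hy.2 with h2 | h2
  · exact absurd (h1.trans h2.symm) y.hne
  · exact Or.inl ⟨h1, h2⟩
  · exact Or.inr ⟨h1, h2⟩
  · exact absurd (h1.trans h2.symm) y.hne

/-- the image of the segment depends only on the edge -/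
theorem seg_eq (H : FS T) {l : ℝ} (g : Flag T → (ℍ ≃ᵢ ℍ)) (hg : Frames T l g) {x y : Flag T}
    (h : (y.s = x.s ∧ y.t = x.t) ∨ (y.s = x.t ∧ y.t = x.s)) : g y '' Seg l = g x '' Seg l := by
  have h0 : ∀ z : Flag T, g (s0 z) '' Seg l = g z '' Seg l := by
    intro z
    rw [(hg z).1]
    have : (g z * R0 l : ℍ ≃ᵢ ℍ) '' Seg l = g z '' (R0 l '' Seg l) := by
      rw [image_image]; rfl
    rw [this, R0_Seg]
  have h2 : ∀ z : Flag T, g (s2 z) '' Seg l = g z '' Seg l := by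
    intro z
    rw [(hg z).2.2]
    have : (g z * R2 : ℍ ≃ᵢ ℍ) '' Seg l = g z '' (R2 '' Seg l) := by
      rw [image_image]; rfl
    rw [this, R2_Seg]
  rcases h with ⟨ha, hb⟩ | ⟨ha, hb⟩
  · rcases H.u0 x y hb ha with h3 | h3
    · rw [h3]
    · rw [h3, h0]
  · rcases H.u0 (s2 x) y (by rw [hb]; rfl) (by rw [ha]; rfl) with h3 | h3
    · rw [h3, h2]
    · rw [h3, h0, h2]

end SKELaux

open SKELaux in
/-- maps on the edges, compatible at the vertices -/
theorem skel : S_SKEL := by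
  intro T _ H E l hl g hg
  classical
  choose B hB1 hB2 hB3 hB4 hB5 using edge_map E hl g hg
  -- the chosen flag of an edge
  let Ed : Flag T → Set ℍ := fun x => x.s ∩ x.t
  let rep : Flag T → Flag T := fun x => (⟨x, rfl⟩ : ∃ y : Flag T, Ed y = Ed x).choose
  let rp : Set ℍ → Flag T → Flag T := fun e x => if h : ∃ y : Flag T, Ed y = e then h.choose else x
  have hrp : ∀ x y : Flag T, Ed (rp (Ed x) y) = Ed x := by
    intro x y
    have h : ∃ z : Flag T, Ed z = Ed x := ⟨x, rfl⟩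
    change Ed (if h : ∃ y : Flag T, Ed y = Ed x then h.choose else y) = _
    rw [dif_pos h]
    exact h.choose_spec
  have hrp2 : ∀ x y z : Flag T, Ed x = Ed y → rp (Ed x) x = rp (Ed y) y := by
    intro x y _ hxy
    have h : ∃ z : Flag T, Ed z = Ed x := ⟨x, rfl⟩
    have h' : ∃ z : Flag T, Ed z = Ed y := ⟨y, rfl⟩
    change (if h : ∃ y : Flag T, Ed y = Ed x then h.choose else x) =
      (if h : ∃ z : Flag T, Ed z = Ed y then h.choose else y)
    rw [dif_pos h, dif_pos h']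
    congr 1
    funext z
    rw [hxy]
  let b : ℍ → ℍ := fun p => if h : ∃ x : Flag T, p ∈ Ed x then B (rp (Ed h.choose) h.choose) p else p
  -- vertex values
  have hval : ∀ (r x : Flag T), x.v ∈ Ed r → B r x.v = g x UpperHalfPlane.I := by
    intro r x hx
    rcases H.toFS1.vtx_edge r x.hv hx.1 hx.2 with h | h
    · rw [h, hB4]
      exact (vtx_val g hg (H.c12 r x h)).symm
    · rw [h, hB5]
      exact (vtx_val g hg (H.c12 (s0 r) x h)).symm
  have hvE : ∀ x : Flag T, x.v ∈ Ed x := fun x => ⟨x.hvs, x.hvt⟩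
  have hEd : ∀ x y : Flag T, (y.s = x.s ∧ y.t = x.t) ∨ (y.s = x.t ∧ y.t = x.s) → Ed y = Ed x := by
    rintro x y (⟨h1, h2⟩ | ⟨h1, h2⟩)
    · change y.s ∩ y.t = x.s ∩ x.t
      rw [h1, h2]
    · change y.s ∩ y.t = x.s ∩ x.t
      rw [h1, h2, inter_comm]
  have hb : ∀ x : Flag T, ∀ p ∈ Ed x, b p = B (rp (Ed x) x) p := by
    intro x p hp
    have h : ∃ x : Flag T, p ∈ Ed x := ⟨x, hp⟩
    have hy := h.choose_spec
    have hbp : b p = B (rp (Ed h.choose) h.choose) p := by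
      change (if h : ∃ x : Flag T, p ∈ Ed x then B (rp (Ed h.choose) h.choose) p else p) = _
      rw [dif_pos h]
    rw [hbp]
    generalize h.choose = y at hy
    by_cases hv : p ∈ Vtx T
    · obtain ⟨z, hz, -⟩ := H.exv p hv x.t x.ht hp.2
      have h1 : z.v ∈ Ed (rp (Ed y) y) := by rw [hrp, hz]; exact hy
      have h2 : z.v ∈ Ed (rp (Ed x) x) := by rw [hrp, hz]; exact hp
      rw [← hz, hval _ _ h1, hval _ _ h2]
    · have h1 := two_tiles hv hp hy
      rw [hrp2 y x x (hEd x y h1)]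
  refine ⟨b, fun x => ?_⟩
  have hEx : Ed (rp (Ed x) x) = x.s ∩ x.t := hrp x x
  have hbx : EqOn b (B (rp (Ed x) x)) (x.s ∩ x.t) := fun p hp => hb x p hp
  refine ⟨?_, ?_, ?_, ?_⟩
  · refine ContinuousOn.congr ?_ hbx
    rw [← hEx]
    exact hB1 _
  · refine InjOn.congr ?_ hbx.symm
    rw [← hEx]
    exact hB2 _
  · rw [hbx.image_eq]
    have h1 : B (rp (Ed x) x) '' (x.s ∩ x.t) = g (rp (Ed x) x) '' Seg l := by
      rw [← hEx]
      exact hB3 _
    rw [h1]
    -- an interior point of the edge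
    obtain ⟨c, hc, hi, him, h0, h1'⟩ := E.arc x
    have hmid : c (1/2) ∈ x.s ∩ x.t := by
      rw [← him]
      exact ⟨1/2, ⟨by norm_num, by norm_num⟩, rfl⟩
    have hnv : c (1/2) ∉ Vtx T := by
      intro hv
      rcases H.toFS1.vtx_edge x hv hmid.1 hmid.2 with h | h
      · rw [← h0] at h
        have := hi (show (1/2:ℝ) ∈ Icc (0:ℝ) 1 from ⟨by norm_num, by norm_num⟩)
          (show (0:ℝ) ∈ Icc (0:ℝ) 1 from ⟨le_rfl, zero_le_one⟩) h
        norm_num at this
      · rw [← h1'] at h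
        have := hi (show (1/2:ℝ) ∈ Icc (0:ℝ) 1 from ⟨by norm_num, by norm_num⟩)
          (show (1:ℝ) ∈ Icc (0:ℝ) 1 from ⟨zero_le_one, le_rfl⟩) h
        norm_num at this
    have hmid2 : c (1/2) ∈ (rp (Ed x) x).s ∩ (rp (Ed x) x).t := by
      have : c (1/2) ∈ Ed (rp (Ed x) x) := by rw [hEx]; exact hmid
      exact this
    exact seg_eq H g hg (two_tiles hnv hmid hmid2)
  · rw [hb x x.v (hvE x)]
    refine hval _ _ ?_
    rw [hEx]
    exact hvE x

end H292.TL
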