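import Pool.Agent.H292.TL.FB

/-!
# TL STAR: polygons around a vertex
-/

set_option autoImplicit false
open scoped UpperHalfPlane Topology
open Set

namespace H292.TL

theorem star_ee_add (a b : ℝ) : ee (a + b) = ee a * ee b := by
  unfold ee
  rw [← Complex.exp_add]
  congr 1
  push_cast
  ring

theorem star_ee_norm (a : ℝ) : ‖ee a‖ = 1 := by
  unfold ee
  exact Complex.norm_exp_ofReal_mul_I a

theorem star_ee_ne (a : ℝ) : ee a ≠ 0 := Complex.exp_ne_zero _

theorem star_ee_eq {a b : ℝ} (h : ee a = ee b) : ∃ m : ℤ, a = b + m * (2 * Real.pi) := by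
  unfold ee at h
  obtain ⟨m, hm⟩ := Complex.exp_eq_exp_iff_exists_int.1 h
  refine ⟨m, ?_⟩
  have h1 : ((a : ℂ)) * Complex.I = ((b + m * (2 * Real.pi) : ℝ) : ℂ) * Complex.I := by
    rw [hm]
    push_cast
    ring
  exact_mod_cast mul_right_cancel₀ Complex.I_ne_zero h1

theorem star_ee_zero : ee 0 = 1 := by
  unfold ee
  simp

theorem star (hP : S_PSEC) (hF : S_KLF) (hH : S_KLH) (hR : S_REL) : S_STAR := by
  intro l k n hl hk hn hsum i j hij hjk z hzi hzj
  have hang : ∀ m, 0 < angH l (n m) := fun m => (hP l (n m) hl (hn m)).1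
  obtain ⟨Θ, hΘ⟩ : ∃ Θ : ℕ → ℝ, Θ = fun i => ∑ m ∈ Finset.range i, angH l (n m) := ⟨_, rfl⟩
  have hΘ' : ∀ i, ∑ m ∈ Finset.range i, angH l (n m) = Θ i := fun i => by rw [hΘ]
  rw [hΘ'] at hzi hzj hsum
  rw [hΘ']
  have hsucc : ∀ i, Θ (i + 1) = Θ i + angH l (n i) := fun i => by
    rw [hΘ]
    exact Finset.sum_range_succ _ _
  have hmono : StrictMono Θ := strictMono_nat_of_lt_succ fun i => by
    rw [hsucc]
    linarith [hang i]
  have h0 : Θ 0 = 0 := by rw [hΘ]; simp
  obtain ⟨p, hp, hpz⟩ := hzi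
  obtain ⟨p', hp', hpz'⟩ := hzj
  obtain ⟨-, -, hs1, hs2, -⟩ := hP l (n i) hl (hn i)
  obtain ⟨-, -, hs1', hs2', -⟩ := hP l (n j) hl (hn j)
  obtain ⟨r, φ, hr, hφ0, hφ1, hk1⟩ := hs1 p hp
  obtain ⟨r', φ', hr', hφ0', hφ1', hk2⟩ := hs1' p' hp'
  have k1 : kl z = r * ee (Θ i + φ) := by
    rw [← hpz, hF.1, hk1, star_ee_add]
    ring
  have k2 : kl z = r' * ee (Θ j + φ') := by
    rw [← hpz', hF.1, hk2, star_ee_add]
    ring
  have n1 : ‖kl z‖ = r := by
    rw [k1, norm_mul, star_ee_norm, mul_one, Complex.norm_real, Real.norm_eq_abs, abs_of_nonneg hr]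
  have n2 : ‖kl z‖ = r' := by
    rw [k2, norm_mul, star_ee_norm, mul_one, Complex.norm_real, Real.norm_eq_abs, abs_of_nonneg hr']
  have hrr : r' = r := by rw [← n1, n2]
  rcases hr.eq_or_lt with hr0 | hr0
  · right; right
    apply hH.2.1
    rw [hF.2.2.2, k1, ← hr0]
    simp
  · have hee : ee (Θ j + φ') = ee (Θ i + φ) := by
      rw [hrr] at k2
      have hrc : (r : ℂ) ≠ 0 := by exact_mod_cast hr0.ne'
      exact mul_left_cancel₀ hrc (k2.symm.trans k1)
    obtain ⟨m, hm⟩ := star_ee_eq hee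
    have hpi := Real.pi_pos
    have b1 : Θ i + φ ≤ Θ (i + 1) := by rw [hsucc]; linarith
    have b2 : Θ (i + 1) ≤ Θ j := hmono.monotone hij
    have b3 : Θ j + φ' ≤ Θ (j + 1) := by rw [hsucc]; linarith
    have b4 : Θ (j + 1) ≤ Θ k := hmono.monotone hjk
    have b5 : 0 ≤ Θ i := by rw [← h0]; exact hmono.monotone (Nat.zero_le i)
    have hm0 : 0 ≤ m := by
      by_contra hc
      have : (m : ℝ) ≤ -1 := by exact_mod_cast (by omega : m ≤ -1)
      nlinarith
    have hm1 : m ≤ 1 := by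
      by_contra hc
      have : (2 : ℝ) ≤ m := by exact_mod_cast (by omega : 2 ≤ m)
      nlinarith
    have hm01 : m = 0 ∨ m = 1 := by omega
    rcases hm01 with rfl | rfl
    · left
      rw [Int.cast_zero, zero_mul, add_zero] at hm
      have e1 : φ' = 0 := by linarith
      have e2 : Θ (i + 1) = Θ j := by linarith
      refine ⟨(hmono.injective e2).symm, p', hs2' p' hp' ?_, hpz'⟩
      rw [hk2, e1, star_ee_zero, mul_one, Complex.ofReal_im]
    · right; left
      rw [Int.cast_one, one_mul] at hm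
      have e1 : φ = 0 := by linarith
      have e2 : Θ i = Θ 0 := by linarith
      have e3 : Θ (j + 1) = Θ k := by linarith
      have i0 : i = 0 := hmono.injective e2
      have jk := hmono.injective e3
      refine ⟨i0, by omega, ?_⟩
      have hrot : rot (Θ i) = 1 := by
        have h1 := hR.1 0 0
        rw [add_zero] at h1
        rw [e2, h0]
        exact (mul_eq_left.1 h1.symm)
      have hz : z = p := by
        rw [← hpz, hrot]
        rfl
      rw [hz]
      apply hs2 p hp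
      rw [hk1, e1, star_ee_zero, mul_one, Complex.ofReal_im]

end H292.TL
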