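import Pool.Agent.H292.TL.FB

/-!
Project TL, task SUM: the sum over the rotation at a vertex is the sum over the tiles at the vertex.
-/

set_option autoImplicit false
open scoped UpperHalfPlane Topology MatrixGroups
open Set

namespace H292.TL

theorem sum_tiles (hV : S_VENUM) : S_SUM := by
  classical
  intro T H f x
  obtain ⟨-, h2, h3⟩ := hV T H x
  have hS : {t : Set ℍ | t ∈ T ∧ x.v ∈ t} =
      (((Finset.range (dg T x.v)).image (fun i => (uv^[i] x).t) : Finset (Set ℍ)) :
        Set (Set ℍ)) := by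
    ext t
    simp only [Set.mem_ofPred_eq, Finset.coe_image, Finset.coe_range, Set.mem_image, Set.mem_Iio]
    constructor
    · rintro ⟨ht, hv⟩
      obtain ⟨y, hy, hyt⟩ := H.exv x.v x.hv t ht hv
      obtain ⟨i, hi, h | h⟩ := h3 y hy
      · exact ⟨i, hi, by rw [← h, hyt]⟩
      · refine ⟨i, hi, ?_⟩
        rw [← hyt, h, H.toFS1.s1_t]
    · rintro ⟨i, -, rfl⟩
      refine ⟨(uv^[i] x).ht, ?_⟩
      have := (uv^[i] x).hvt
      rwa [H.toFS1.uv_iter_v] at this
  change _ = ∑ᶠ (t : Set ℍ) (_ : t ∈ {t : Set ℍ | t ∈ T ∧ x.v ∈ t}), f t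
  rw [hS, finsum_mem_coe_finset, Finset.sum_image]
  intro i hi j hj h
  exact h2 i (Finset.mem_range.1 hi) j (Finset.mem_range.1 hj) h

end H292.TL
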