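import Pool.Agent.H292.TL.FB

/-!
# TL TCYC: the flags of a tile are connected
-/

set_option autoImplicit false
open scoped UpperHalfPlane Topology
open Set

namespace H292.TL

theorem tcyc_fin {T : Set (Set ℍ)} (H : FS1 T) {t : Set ℍ} (ht : t ∈ T) :
    {z : Flag T | z.t = t}.Finite := by
  have h1 : {z : Flag T | z.t = t} ⊆ ⋃ v ∈ Vtx T ∩ t, {z : Flag T | z.v = v ∧ z.t = t} := by
    intro z hz
    have hz' : z.t = t := hz
    rw [mem_iUnion₂]
    exact ⟨z.v, ⟨z.hv, hz' ▸ z.hvt⟩, rfl, hz'⟩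
  refine ((H.fint t ht).biUnion fun v _ => ?_).subset h1
  rcases Set.eq_empty_or_nonempty {z : Flag T | z.v = v ∧ z.t = t} with h | ⟨z0, h0⟩
  · rw [h]
    exact Set.finite_empty
  · refine (Set.toFinite ({z0, s1 z0} : Set (Flag T))).subset ?_
    intro z hz
    rcases H.u1 z0 z (hz.1.trans h0.1.symm) (hz.2.trans h0.2.symm) with h | h
    · left
      exact h
    · right
      exact h

theorem tcyc (hFR : S_FR) : S_TCYC := by
  intro T hN H E x y hyx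
  have hcl : ∀ t ∈ T, IsClosed t := by
    intro t ht
    obtain ⟨φ, hφ⟩ := hN.chart t ht
    exact (hFR φ t hφ).2.2.2.isClosed
  obtain ⟨φ, hφ⟩ := hN.chart x.t x.ht
  obtain ⟨-, hfr, -, -⟩ := hFR φ x.t hφ
  have hconn : IsPreconnected (frontier x.t) := by
    rw [hfr]
    refine IsPreconnected.image ?_ _ (hφ.cont.mono Metric.sphere_subset_closedBall)
    exact isPreconnected_sphere (by rw [Complex.rank_real_complex]; norm_num) 0 1
  by_contra hcon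
  let O : Set (Flag T) := {z | Rch s0 s1 x z}
  let O' : Set (Flag T) := {z | z.t = x.t ∧ ¬ Rch s0 s1 x z}
  have hOt : ∀ z ∈ O, z.t = x.t := fun z hz => Rch_t H hz
  have hOf : O.Finite := (tcyc_fin H x.ht).subset hOt
  have hOf' : O'.Finite := (tcyc_fin H x.ht).subset fun z hz => hz.1
  have hc1 : IsClosed (⋃ z ∈ O, (z.s ∩ x.t)) :=
    hOf.isClosed_biUnion fun z _ => (hcl _ z.hs).inter (hcl _ x.ht)
  have hc2 : IsClosed (⋃ z ∈ O', (z.s ∩ x.t)) :=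
    hOf'.isClosed_biUnion fun z _ => (hcl _ z.hs).inter (hcl _ x.ht)
  have hcov : frontier x.t ⊆ (⋃ z ∈ O, (z.s ∩ x.t)) ∪ (⋃ z ∈ O', (z.s ∩ x.t)) := by
    intro p hp
    obtain ⟨z, hz, hpz⟩ := E.bd x.t x.ht p hp
    have hpt : p ∈ x.t := (hcl _ x.ht).frontier_subset hp
    by_cases h : Rch s0 s1 x z
    · left
      rw [mem_iUnion₂]
      exact ⟨z, h, hpz, hpt⟩
    · right
      rw [mem_iUnion₂]
      exact ⟨z, ⟨hz, h⟩, hpz, hpt⟩
  have hvf : ∀ z : Flag T, z.t = x.t → z.v ∈ frontier x.t ∧ z.v ∈ z.s ∩ x.t := by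
    intro z hz
    have h1 : z.v ∈ z.s ∩ z.t := ⟨z.hvs, z.hvt⟩
    have h2 := E.fr z.s z.hs z.t z.ht z.hne h1
    rw [hz] at h1 h2
    exact ⟨h2, h1⟩
  have hn1 : (frontier x.t ∩ ⋃ z ∈ O, (z.s ∩ x.t)).Nonempty := by
    refine ⟨x.v, (hvf x rfl).1, ?_⟩
    rw [mem_iUnion₂]
    exact ⟨x, Relation.ReflTransGen.refl, (hvf x rfl).2⟩
  have hn2 : (frontier x.t ∩ ⋃ z ∈ O', (z.s ∩ x.t)).Nonempty := by
    refine ⟨y.v, (hvf y hyx).1, ?_⟩
    rw [mem_iUnion₂]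
    exact ⟨y, ⟨hyx, hcon⟩, (hvf y hyx).2⟩
  obtain ⟨q, -, hq1, hq2⟩ := isPreconnected_closed_iff.1 hconn _ _ hc1 hc2 hcov hn1 hn2
  rw [mem_iUnion₂] at hq1 hq2
  obtain ⟨z, hz, hqz, hqt⟩ := hq1
  obtain ⟨z', hz', hqz', -⟩ := hq2
  have hzt := hOt z hz
  have hz't := hz'.1
  have step0 : ∀ w : Flag T, Rch s0 s1 x w → Rch s0 s1 x (s0 w) := fun w hw =>
    Relation.ReflTransGen.tail hw (Or.inl rfl)
  have step1 : ∀ w : Flag T, Rch s0 s1 x w → Rch s0 s1 x (s1 w) := fun w hw =>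
    Relation.ReflTransGen.tail hw (Or.inr rfl)
  by_cases hs : z'.s = z.s
  · rcases H.u0 z z' (hz't.trans hzt.symm) hs with h | h
    · exact hz'.2 (h ▸ hz)
    · exact hz'.2 (h ▸ step0 z hz)
  · have hqV : q ∈ Vtx T := by
      refine ⟨x.t, x.ht, z.s, z.hs, z'.s, z'.hs, ?_, ?_, fun h => hs h.symm, hqt, hqz, hqz'⟩
      · rw [← hzt]
        exact z.hne.symm
      · rw [← hz't]
        exact z'.hne.symm
    have h1 : ∃ w : Flag T, Rch s0 s1 x w ∧ w.v = q ∧ w.t = x.t := by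
      rcases H.vtx_edge z hqV hqz (by rw [hzt]; exact hqt) with h | h
      · exact ⟨z, hz, h.symm, hzt⟩
      · exact ⟨s0 z, step0 z hz, h.symm, by rw [H.s0_t, hzt]⟩
    have h2 : ∃ w : Flag T, ¬ Rch s0 s1 x w ∧ w.v = q ∧ w.t = x.t := by
      rcases H.vtx_edge z' hqV hqz' (by rw [hz't]; exact hqt) with h | h
      · exact ⟨z', hz'.2, h.symm, hz't⟩
      · refine ⟨s0 z', fun hc => hz'.2 ?_, h.symm, by rw [H.s0_t, hz't]⟩
        have := step0 _ hc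
        rwa [H.s0_s0] at this
    obtain ⟨w, w1, w2, w3⟩ := h1
    obtain ⟨w', w1', w2', w3'⟩ := h2
    rcases H.u1 w w' (w2'.trans w2.symm) (w3'.trans w3.symm) with h | h
    · exact w1' (h ▸ w1)
    · exact w1' (h ▸ step1 w w1)

end H292.TL
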