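import Pool.Agent.H292.TL.FB

/-!
Project TL, task TENUM (helper553): enumeration of the flags of a tile.
-/

set_option autoImplicit false
open scoped UpperHalfPlane Topology
open Set

namespace H292.TL

theorem tenum_finite (T : Set (Set ℍ)) (H : FS T) (x : Flag T) :
    {y : Flag T | y.t = x.t}.Finite := by
  have h1 : {y : Flag T | y.t = x.t} ⊆
      ⋃ v ∈ Vtx T ∩ x.t, {y : Flag T | y.v = v ∧ y.t = x.t} := by
    intro y hy
    have hy' : y.t = x.t := hy
    rw [mem_iUnion₂]
    exact ⟨y.v, ⟨y.hv, hy' ▸ y.hvt⟩, rfl, hy'⟩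
  refine Set.Finite.subset (Set.Finite.biUnion (H.fint x.t x.ht) ?_) h1
  intro v _
  by_cases h : ∃ y : Flag T, y.v = v ∧ y.t = x.t
  · obtain ⟨y, hy1, hy2⟩ := h
    refine Set.Finite.subset (Set.toFinite {y, s1 y}) ?_
    rintro z ⟨hz1, hz2⟩
    rcases H.u1 y z (by rw [hz1, hy1]) (by rw [hz2, hy2]) with h | h
    · left; exact h
    · right; exact h
  · refine Set.Finite.subset Set.finite_empty ?_
    rintro z ⟨hz1, hz2⟩
    exact absurd ⟨z, hz1, hz2⟩ h

theorem tenum (hC : S_CYC) : S_TENUM := by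
  intro T H x
  have H1 := H.toFS1
  have hR : ∀ y : Flag T, y.t = x.t → Rch s1 s0 x y := by
    intro y hy
    have h := H.c01 x y hy
    unfold Rch at h ⊢
    exact Relation.ReflTransGen.mono (fun a b hab => Or.symm hab) _ _ h
  have hR' : ∀ y : Flag T, Rch s1 s0 x y → y.t = x.t := by
    intro y hy
    unfold Rch at hy
    induction hy with
    | refl => rfl
    | tail _ h2 ih =>
      rcases h2 with h2 | h2
      · rw [h2, H1.s1_t, ih]
      · rw [h2, H1.s0_t, ih]
  have hfin : {y | Rch s1 s0 x y}.Finite :=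
    (tenum_finite T H x).subset (fun y hy => hR' y hy)
  obtain ⟨m, hm, hper, hinj, hne, hall⟩ := hC (Flag T) s1 s0 H1.s1_s1 H1.s0_s0 H1.s1_ne H1.s0_ne
    x hfin
  have hu : (s0 ∘ s1 : Flag T → Flag T) = ut := rfl
  rw [hu] at hper hinj hne hall
  have hvinj : ∀ i < m, ∀ j < m, (ut^[i] x).v = (ut^[j] x).v → i = j := by
    intro i hi j hj hv
    rcases H1.u1 (ut^[i] x) (ut^[j] x) hv.symm (by rw [H1.ut_iter_t, H1.ut_iter_t]) with h | h
    · exact (hinj j hj i hi h).symm
    · exact absurd h (hne j i)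
  have hset : (fun i : ℕ => (ut^[i] x).v) '' (Finset.range m : Set ℕ) = Vtx T ∩ x.t := by
    ext v
    constructor
    · rintro ⟨i, _, rfl⟩
      have h := H1.v_ne_vtx (ut^[i] x)
      rw [H1.ut_iter_t] at h
      exact h
    · rintro ⟨hv, hvt⟩
      obtain ⟨y, hy1, hy2⟩ := H1.exv v hv x.t x.ht hvt
      obtain ⟨i, hi, h | h⟩ := hall y (hR y hy2)
      · exact ⟨i, by simpa using hi, by rw [← hy1, h]⟩
      · refine ⟨i, by simpa using hi, ?_⟩
        show (ut^[i] x).v = v
        rw [← hy1, h, H1.s1_v]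
  have hnn : nn T x.t = m := by
    unfold nn
    rw [← hset, Set.InjOn.ncard_image, Set.ncard_coe_finset, Finset.card_range]
    intro i hi j hj hij
    exact hvinj i (by simpa using hi) j (by simpa using hj) hij
  rw [hnn]
  exact ⟨hper, hvinj, fun y hy => hall y (hR y hy)⟩

end H292.TL
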