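import Pool.Agent.H292.TL.FB

/-!
Project TL, task TWO (helper52): exactly two edges of a tile meet at each of its vertices.
-/

set_option autoImplicit false
open scoped UpperHalfPlane Topology
open Set

namespace H292.TL

namespace TWO

theorem ee_cont : Continuous ee := by
  unfold ee
  fun_prop

theorem ee_norm (θ : ℝ) : ‖ee θ‖ = 1 := Complex.norm_exp_ofReal_mul_I θ

theorem ee_sphere (θ : ℝ) : ee θ ∈ Metric.sphere (0 : ℂ) 1 := by
  rw [mem_sphere_zero_iff_norm, ee_norm]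

theorem ee_disc (θ : ℝ) : ee θ ∈ Metric.closedBall (0 : ℂ) 1 :=
  Metric.sphere_subset_closedBall (ee_sphere θ)

theorem ee_add (a b : ℝ) : ee (a + b) = ee a * ee b := by
  unfold ee
  rw [← Complex.exp_add]
  congr 1
  push_cast
  ring

theorem ee_surj {z : ℂ} (hz : z ∈ Metric.sphere (0 : ℂ) 1) : ∃ θ : ℝ, ee θ = z := by
  rw [mem_sphere_zero_iff_norm] at hz
  refine ⟨Complex.arg z, ?_⟩
  have h := Complex.norm_mul_exp_arg_mul_I z
  rw [hz] at h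
  simpa [ee] using h

theorem ee_eq {a b : ℝ} (h : ee a = ee b) : ∃ n : ℤ, a = b + n * (2 * Real.pi) := by
  unfold ee at h
  rw [Complex.exp_eq_exp_iff_exists_int] at h
  obtain ⟨n, hn⟩ := h
  refine ⟨n, ?_⟩
  have h1 := congrArg Complex.im hn
  simpa using h1

/-- `ee` is injective on short intervals -/
theorem ee_ne {a b : ℝ} (h1 : a < b) (h2 : b < a + 2 * Real.pi) : ee a ≠ ee b := by
  intro h
  obtain ⟨n, hn⟩ := ee_eq h
  have hpi := Real.pi_pos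
  have h3 : (n : ℝ) * (2 * Real.pi) < 0 := by linarith
  have h4 : (-1 : ℝ) * (2 * Real.pi) < n * (2 * Real.pi) := by linarith
  have h5 : (n : ℝ) < 0 := by
    by_contra h6
    push Not at h6
    have := mul_nonneg h6 (by linarith : (0 : ℝ) ≤ 2 * Real.pi)
    linarith
  have h6 : (-1 : ℝ) < n := lt_of_mul_lt_mul_right h4 (by linarith)
  have h7 : n < 0 := by exact_mod_cast h5
  have h8 : -1 < n := by exact_mod_cast h6
  omega

/-- shift an equality -/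
theorem ee_shift {a b : ℝ} (h : ee a = ee b) (δ : ℝ) : ee (a + δ) = ee (b + δ) := by
  rw [ee_add, ee_add, h]

end TWO

open TWO

theorem two (hCNT : S_CNT) (hFR : S_FR) (hDISJ : S_DISJ) (hFINV : S_FINV) (hBD : S_BD)
    (hEDGE : S_EDGE) : S_TWO := by
  intro T hT t ht v hv hvt
  have hpi := Real.pi_pos
  -- a second tile at `v`
  obtain ⟨s, hs, hst, hvs⟩ : ∃ s ∈ T, s ≠ t ∧ v ∈ s := by
    obtain ⟨a, ha, b, hb, c, hc, hab, hac, hbc, hva, hvb, hvc⟩ := hv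
    by_cases h : a = t
    · exact ⟨b, hb, fun h' => hab (h.trans h'.symm), hvb⟩
    · exact ⟨a, ha, h, hva⟩
  obtain ⟨φ, hφ⟩ := hT.chart t ht
  obtain ⟨-, hfr, -, hcomp⟩ := hFR φ t hφ
  have hvf : v ∈ frontier t := (hDISJ T hT s hs t ht hst).1 ⟨hvs, hvt⟩
  rw [hfr] at hvf
  obtain ⟨z, hz, hzv⟩ := hvf
  obtain ⟨θ₀, rfl⟩ := ee_surj hz
  -- the boundary near `v`
  obtain ⟨f, hf⟩ : ∃ f : ℝ → ℍ, ∀ δ, f δ = φ (ee (θ₀ + δ)) := ⟨_, fun _ => rfl⟩
  have hfc : Continuous f := by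
    have h1 : f = fun δ => φ (ee (θ₀ + δ)) := funext hf
    rw [h1]
    exact hφ.cont.comp_continuous (ee_cont.comp (continuous_const.add continuous_id))
      fun δ => ee_disc _
  have hf0 : f 0 = v := by rw [hf, add_zero, hzv]
  have hff : ∀ δ, f δ ∈ frontier t := fun δ => by
    rw [hfr, hf]
    exact ⟨_, ee_sphere _, rfl⟩
  have hft : ∀ δ, f δ ∈ t := fun δ => by
    rw [hf, ← hφ.img]
    exact ⟨_, ee_disc _, rfl⟩
  have hφi : ∀ {a b : ℝ}, φ (ee a) = φ (ee b) → ee a = ee b := fun h =>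
    hφ.inj (ee_disc _) (ee_disc _) h
  have hfne : ∀ δ, δ ≠ 0 → |δ| < 2 * Real.pi → f δ ≠ v := by
    intro δ h1 h2 h3
    rw [← hf0, hf, hf, add_zero] at h3
    have h4 := hφi h3
    rw [abs_lt] at h2
    rcases lt_or_gt_of_ne h1 with h5 | h5
    · exact ee_ne (by linarith : θ₀ + δ < θ₀) (by linarith) h4
    · exact ee_ne (by linarith : θ₀ < θ₀ + δ) (by linarith) h4.symm
  -- no other vertices near `v`
  obtain ⟨δ₀, hδ0, hδ1, hnv⟩ : ∃ δ₀ : ℝ, 0 < δ₀ ∧ δ₀ ≤ 1 ∧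
      ∀ δ, δ ≠ 0 → |δ| < δ₀ → f δ ∉ Vtx T := by
    have hfin : ((Vtx T ∩ t) \ {v}).Finite := (hFINV T hT t ht).subset sdiff_subset
    have hopen : IsOpen ((Vtx T ∩ t) \ {v})ᶜ := hfin.isClosed.isOpen_compl
    have h0 : f ⁻¹' ((Vtx T ∩ t) \ {v})ᶜ ∈ 𝓝 (0 : ℝ) :=
      (hopen.preimage hfc).mem_nhds (by
        change f 0 ∉ (Vtx T ∩ t) \ {v}
        rw [hf0]
        exact fun h => h.2 rfl)
    obtain ⟨ε, hε, h1⟩ := Metric.mem_nhds_iff.1 h0
    refine ⟨min ε 1, lt_min hε one_pos, min_le_right _ _, fun δ h2 h3 h4 => ?_⟩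
    have h5 : δ ∈ Metric.ball (0 : ℝ) ε := by
      rw [Metric.mem_ball, Real.dist_eq, sub_zero]
      exact h3.trans_le (min_le_left _ _)
    refine h1 h5 ⟨⟨h4, hft δ⟩, ?_⟩
    refine hfne δ h2 ?_
    have := h3.trans_le (min_le_right _ _)
    have := Real.pi_gt_three
    linarith
  -- tiles are closed
  have hcl : ∀ a ∈ T, IsClosed a := by
    intro a ha
    obtain ⟨ψ, hψ⟩ := hT.chart a ha
    exact (hFR ψ a hψ).2.2.2.isClosed
  -- the adjacent tiles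
  obtain ⟨Adj, hAdj⟩ : ∃ Adj : Set (Set ℍ), Adj = {a | a ∈ T ∧ a ≠ t ∧ (a ∩ t).Nontrivial} :=
    ⟨_, rfl⟩
  have hAdjfin : Adj.Finite := by
    obtain ⟨r, R, -, hu⟩ := hT.unif
    obtain ⟨c₁, c₂, -, h2⟩ := hu t ht
    obtain ⟨N, hN⟩ := hCNT T hT R
    refine (hN c₂).1.subset ?_
    rw [hAdj]
    rintro a ⟨ha, -, hat⟩
    obtain ⟨p, hpa, hpt⟩ := hat.nonempty
    exact ⟨ha, p, hpa, h2 hpt⟩
  have huniq : ∀ a ∈ T, ∀ b ∈ T, a ≠ t → b ≠ t → ∀ δ, f δ ∉ Vtx T → f δ ∈ a → f δ ∈ b →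
      a = b := by
    intro a ha b hb hat hbt δ h1 h2 h3
    by_contra hab
    exact h1 ⟨a, ha, b, hb, t, ht, hab, hat, hbt, h2, h3, hft δ⟩
  -- one tile on each side
  have hside : ∀ p q : ℝ, p < q → (∀ δ ∈ Ioo p q, f δ ∉ Vtx T) →
      ∃ a ∈ Adj, ∀ δ ∈ Icc p q, f δ ∈ a := by
    intro p q hpq hn
    have hm : (p + q) / 2 ∈ Ioo p q := ⟨by linarith, by linarith⟩
    obtain ⟨a, haT, hat, han, ha⟩ := hBD T hT t ht _ (hff ((p + q) / 2))
    have haA : a ∈ Adj := by rw [hAdj]; exact ⟨haT, hat, han⟩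
    refine ⟨a, haA, ?_⟩
    have hA : IsClosed (f ⁻¹' a) := (hcl a haT).preimage hfc
    have hB : IsClosed (⋃ b ∈ Adj \ {a}, f ⁻¹' b) := by
      refine (hAdjfin.subset sdiff_subset).isClosed_biUnion fun b hb => ?_
      rw [hAdj] at hb
      exact (hcl b hb.1.1).preimage hfc
    have hcov : Ioo p q ⊆ f ⁻¹' a ∪ ⋃ b ∈ Adj \ {a}, f ⁻¹' b := by
      intro δ hδ
      obtain ⟨b, hbT, hbt, hbn, hb⟩ := hBD T hT t ht _ (hff δ)
      by_cases hba : b = a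
      · left
        rw [← hba]
        exact hb
      · right
        refine mem_biUnion (x := b) ⟨?_, hba⟩ hb
        rw [hAdj]
        exact ⟨hbT, hbt, hbn⟩
    have hpre : IsPreconnected (Ioo p q) := isPreconnected_Ioo
    have hsub : Ioo p q ⊆ f ⁻¹' a := by
      intro δ hδ
      by_contra hδa
      have hδB : δ ∈ ⋃ b ∈ Adj \ {a}, f ⁻¹' b := (hcov hδ).resolve_left hδa
      obtain ⟨δ', hδ', h1, h2⟩ := isPreconnected_closed_iff.1 hpre _ _ hA hB hcov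
        ⟨_, hm, ha⟩ ⟨δ, hδ, hδB⟩
      obtain ⟨b, ⟨hb, hba⟩, hδb⟩ := mem_iUnion₂.1 h2
      rw [hAdj] at hb
      exact hba (huniq b hb.1 a haT hb.2.1 hat δ' (hn δ' hδ') hδb h1)
    have h3 : closure (Ioo p q) ⊆ f ⁻¹' a := hA.closure_subset_iff.2 hsub
    rw [closure_Ioo hpq.ne] at h3
    exact fun δ hδ => h3 hδ
  obtain ⟨a, haA, ha⟩ := hside 0 δ₀ hδ0 fun δ hδ =>
    hnv δ hδ.1.ne' (by rw [abs_of_pos hδ.1]; exact hδ.2)
  obtain ⟨b, hbA, hb⟩ := hside (-δ₀) 0 (by linarith) fun δ hδ =>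
    hnv δ hδ.2.ne (by rw [abs_of_neg hδ.2]; linarith [hδ.1])
  rw [hAdj] at haA hbA
  obtain ⟨haT, hat, han⟩ := haA
  obtain ⟨hbT, hbt, hbn⟩ := hbA
  have hva : v ∈ a := by rw [← hf0]; exact ha 0 ⟨le_rfl, hδ0.le⟩
  have hvb : v ∈ b := by rw [← hf0]; exact hb 0 ⟨by linarith, le_rfl⟩
  -- the end points of an edge at `v`
  have hend : ∀ s ∈ T, s ≠ t → v ∈ s → (s ∩ t).Nontrivial → ∃ α β : ℝ, α < β ∧
      β < α + 2 * Real.pi ∧ s ∩ t = (fun θ => φ (ee θ)) '' Icc α β ∧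
      (ee θ₀ = ee α ∨ ee θ₀ = ee β) := by
    intro s hs hst hvs hn
    obtain ⟨α, β, h1, h2, h3, -, -, h4⟩ := hEDGE T hT s hs t ht hst hn φ hφ
    refine ⟨α, β, h1, h2, h3, ?_⟩
    have h5 : v ∈ s ∩ t := ⟨hvs, hvt⟩
    rw [h3] at h5
    obtain ⟨γ, hγ, hγv⟩ := h5
    have h6 : γ = α ∨ γ = β := by
      by_contra h7
      push Not at h7
      refine (h4 γ ⟨lt_of_le_of_ne hγ.1 (Ne.symm h7.1), lt_of_le_of_ne hγ.2 h7.2⟩).2 ?_
      rw [show φ (ee γ) = v from hγv]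
      exact hv
    have h7 : ee θ₀ = ee γ := hφi (hzv.trans hγv.symm)
    rcases h6 with rfl | rfl
    · exact Or.inl h7
    · exact Or.inr h7
  have hab : a ≠ b := by
    rintro rfl
    obtain ⟨α, β, h1, h2, h3, h4⟩ := hend a haT hat hva han
    obtain ⟨δ, hδ, hδ', hδ''⟩ : ∃ δ : ℝ, 0 < δ ∧ δ < δ₀ ∧ δ < 2 * Real.pi - (β - α) := by
      have h5 : 0 < min δ₀ (2 * Real.pi - (β - α)) := lt_min hδ0 (by linarith)
      refine ⟨min δ₀ (2 * Real.pi - (β - α)) / 2, half_pos h5, ?_, ?_⟩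
      · exact (half_lt_self h5).trans_le (min_le_left _ _)
      · exact (half_lt_self h5).trans_le (min_le_right _ _)
    rcases h4 with h4 | h4
    · have h5 : f (-δ) ∈ a ∩ t := ⟨hb (-δ) ⟨by linarith, by linarith⟩, hft _⟩
      rw [h3] at h5
      obtain ⟨γ, hγ, hγe⟩ := h5
      rw [hf] at hγe
      have h6 := hφi hγe
      rw [ee_shift h4 (-δ)] at h6
      exact ee_ne (by linarith [hγ.1] : α + -δ < γ) (by linarith [hγ.2]) h6.symm
    · have h5 : f δ ∈ a ∩ t := ⟨ha δ ⟨hδ.le, hδ'.le⟩, hft _⟩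
      rw [h3] at h5
      obtain ⟨γ, hγ, hγe⟩ := h5
      rw [hf] at hγe
      have h6 := hφi hγe
      rw [ee_shift h4 δ] at h6
      exact ee_ne (by linarith [hγ.2] : γ < β + δ) (by linarith [hγ.1]) h6
  refine ⟨a, haT, b, hbT, hab, hat, hbt, hva, hvb, han, hbn, ?_⟩
  intro s' hs' hs't hvs' hn
  obtain ⟨α, β, h1, h2, h3, h4⟩ := hend s' hs' hs't hvs' hn
  obtain ⟨δ, hδ, hδ', hδ''⟩ : ∃ δ : ℝ, 0 < δ ∧ δ < δ₀ ∧ δ < β - α := by
    have h5 : 0 < min δ₀ (β - α) := lt_min hδ0 (by linarith)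
    refine ⟨min δ₀ (β - α) / 2, half_pos h5, ?_, ?_⟩
    · exact (half_lt_self h5).trans_le (min_le_left _ _)
    · exact (half_lt_self h5).trans_le (min_le_right _ _)
  rcases h4 with h4 | h4
  · left
    have h5 : f δ ∈ s' ∩ t := by
      rw [h3, hf, ee_shift h4 δ]
      exact ⟨α + δ, ⟨by linarith, by linarith⟩, rfl⟩
    exact huniq s' hs' a haT hs't hat δ (hnv δ hδ.ne' (by rw [abs_of_pos hδ]; exact hδ')) h5.1
      (ha δ ⟨hδ.le, hδ'.le⟩)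
  · right
    have h5 : f (-δ) ∈ s' ∩ t := by
      rw [h3, hf, ee_shift h4 (-δ)]
      exact ⟨β + -δ, ⟨by linarith, by linarith⟩, rfl⟩
    exact huniq s' hs' b hbT hs't hbt (-δ) (hnv (-δ) (by linarith)
      (by rw [abs_neg, abs_of_pos hδ]; exact hδ')) h5.1 (hb (-δ) ⟨by linarith, by linarith⟩)

end H292.TL
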