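import Pool.Agent.H292.TL.FB
import Pool.Agent.H292.TL.CNT
import Pool.Agent.H292.TL.FR

set_option autoImplicit false
open scoped UpperHalfPlane Topology
open Set Filter

namespace H292.TL

namespace Uni

variable {T : Set (Set ℍ)}

theorem tclosed (hN : Nor T) {t : Set ℍ} (ht : t ∈ T) : IsCompact t := by
  obtain ⟨φ, hφ⟩ := hN.chart t ht
  exact (fr φ t hφ).2.2.2

theorem st_compact (hN : Nor T) (hF : FS1 T) (v : ℍ) : IsCompact (st T v) := by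
  unfold st
  rw [sUnion_eq_biUnion]
  exact (hF.finv v).isCompact_biUnion fun t ht => tclosed hN ht.1

theorem sub_st {t : Set ℍ} {v : ℍ} (ht : t ∈ T) (hv : v ∈ t) : t ⊆ st T v :=
  subset_sUnion_of_mem ⟨ht, hv⟩

theorem st_nhds (hN : Nor T) (v : ℍ) : st T v ∈ 𝓝 v := by
  obtain ⟨N, hNN⟩ := cnt T hN 1
  have hfin : {t ∈ T | (t ∩ Metric.closedBall v 1).Nonempty ∧ v ∉ t}.Finite :=
    (hNN v).1.subset fun t ht => ⟨ht.1, ht.2.1⟩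
  have hcl : IsClosed (⋃ t ∈ {t ∈ T | (t ∩ Metric.closedBall v 1).Nonempty ∧ v ∉ t}, t) :=
    hfin.isClosed_biUnion fun t ht => (tclosed hN ht.1).isClosed
  have hv : v ∉ (⋃ t ∈ {t ∈ T | (t ∩ Metric.closedBall v 1).Nonempty ∧ v ∉ t}, t) := by
    intro h
    rw [mem_iUnion₂] at h
    obtain ⟨t, ht, hvt⟩ := h
    exact ht.2.2 hvt
  filter_upwards [hcl.isOpen_compl.mem_nhds hv, Metric.closedBall_mem_nhds v one_pos] with p hp hp1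
  obtain ⟨t, ht, hpt⟩ := hN.cover p
  by_cases hvt : v ∈ t
  · exact sub_st ht hvt hpt
  · exact absurd (mem_iUnion₂.2 ⟨t, ⟨ht, ⟨p, hpt, hp1⟩, hvt⟩, hpt⟩) hp

theorem exists_vtx (hN : Nor T) (hF : FS1 T) (hE : ES T) {t : Set ℍ} (ht : t ∈ T) {p : ℍ}
    (hp : p ∈ t) : ∃ v ∈ Vtx T, v ∈ t ∧ st T v ∈ 𝓝 p := by
  by_cases hpv : p ∈ Vtx T
  · exact ⟨p, hpv, hp, st_nhds hN p⟩
  by_cases hpi : p ∈ interior t
  · obtain ⟨x, hx⟩ := hF.ext t ht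
    have hxt : x.v ∈ t := hx ▸ x.hvt
    exact ⟨x.v, x.hv, hxt, mem_of_superset (mem_interior_iff_mem_nhds.1 hpi) (sub_st ht hxt)⟩
  · have hfr : p ∈ frontier t := ⟨subset_closure hp, hpi⟩
    obtain ⟨x, hx, hpx⟩ := hE.bd t ht p hfr
    have hxt : x.v ∈ t := hx ▸ x.hvt
    refine ⟨x.v, x.hv, hxt, mem_of_superset (hE.two x p ⟨hpx, hx ▸ hp⟩ hpv) ?_⟩
    exact union_subset (sub_st x.hs x.hvs) (sub_st x.ht x.hvt)

theorem leb (hN : Nor T) (hF : FS1 T) (hE : ES T) (F : ℍ → ℍ) (hc : Continuous F)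
    (hi : ∀ v ∈ Vtx T, InjOn F (st T v)) {t : Set ℍ} (ht : t ∈ T) :
    ∃ δ > 0, ∀ p ∈ t, ∃ v ∈ Vtx T, v ∈ t ∧ Metric.ball (F p) δ ⊆ F '' st T v := by
  have hcomp : IsCompact (F '' t) := (tclosed hN ht).image hc
  obtain ⟨δ, hδ, h⟩ := lebesgue_number_lemma_of_metric (s := F '' t)
    (c := fun v : {v : ℍ // v ∈ Vtx T ∧ v ∈ t} => interior (F '' st T v)) hcomp
    (fun v => isOpen_interior) (by
      rintro _ ⟨p, hp, rfl⟩
      obtain ⟨v, hv, hvt, hst⟩ := exists_vtx hN hF hE ht hp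
      exact mem_iUnion.2 ⟨⟨v, hv, hvt⟩,
        mem_interior_iff_mem_nhds.2 (iodHH F hst hc.continuousOn (hi v hv) hst)⟩)
  refine ⟨δ, hδ, fun p hp => ?_⟩
  obtain ⟨v, hv⟩ := h (F p) (mem_image_of_mem F hp)
  exact ⟨v, v.2.1, v.2.2, hv.trans interior_subset⟩

theorem vtx_map (h : ℍ ≃ₜ ℍ) (hT : ∀ s : Set ℍ, s ∈ T ↔ h '' s ∈ T) {v : ℍ} (hv : v ∈ Vtx T) :
    h v ∈ Vtx T := by
  obtain ⟨a, ha, b, hb, c, hc, hab, hac, hbc, hva, hvb, hvc⟩ := hv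
  have hinj : Function.Injective (fun s : Set ℍ => h '' s) := h.injective.image_injective
  exact ⟨h '' a, (hT a).1 ha, h '' b, (hT b).1 hb, h '' c, (hT c).1 hc, hinj.ne hab, hinj.ne hac,
    hinj.ne hbc, mem_image_of_mem h hva, mem_image_of_mem h hvb, mem_image_of_mem h hvc⟩

end Uni

open Uni

theorem uni : S_UNI := by
  intro T hN hFS hE hTr F hc hi hiso
  have hF := hFS.toFS1
  obtain ⟨t₀, ht₀, -⟩ := hN.cover UpperHalfPlane.I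
  obtain ⟨x₀, hx₀⟩ := hF.ext t₀ ht₀
  have hfin := hF.finv x₀.v
  have key : ∃ δ : ℝ, 0 < δ ∧ ∀ t ∈ {t ∈ T | x₀.v ∈ t}, ∀ p ∈ t, ∃ v ∈ Vtx T, v ∈ t ∧
      Metric.ball (F p) δ ⊆ F '' st T v := by
    have : ∀ᶠ δ in 𝓝[>] (0:ℝ), ∀ t ∈ {t ∈ T | x₀.v ∈ t}, ∀ p ∈ t, ∃ v ∈ Vtx T, v ∈ t ∧
        Metric.ball (F p) δ ⊆ F '' st T v := by
      rw [Filter.eventually_all_finite hfin]
      intro t ht
      obtain ⟨δ, hδ, h⟩ := leb hN hF hE F hc hi ht.1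
      filter_upwards [Ioc_mem_nhdsGT hδ] with η hη p hp
      obtain ⟨v, hv, hvt, hb⟩ := h p hp
      exact ⟨v, hv, hvt, (Metric.ball_subset_ball hη.2).trans hb⟩
    obtain ⟨δ, h1, h2⟩ := (this.and self_mem_nhdsWithin).exists
    exact ⟨δ, h2, h1⟩
  obtain ⟨δ, hδ, key⟩ := key
  refine ⟨δ, hδ, fun p => ?_⟩
  obtain ⟨t', ht', hpt'⟩ := hN.cover p
  obtain ⟨x', hx'⟩ := hF.ext t' ht'
  obtain ⟨h, hT, hw⟩ := hTr x₀.v x₀.hv x'.v x'.hv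
  obtain ⟨q, -, hq⟩ := hiso h hT
  have himg : h '' (h ⁻¹' t') = t' := image_preimage_eq _ h.surjective
  have ht : h ⁻¹' t' ∈ T := (hT _).2 (by rw [himg]; exact ht')
  have hv₀ : x₀.v ∈ h ⁻¹' t' := by
    show h x₀.v ∈ t'
    rw [hw, ← hx']; exact x'.hvt
  have hFp : F p ∈ q '' (F '' (h ⁻¹' t')) := by
    rw [← hq _ ht, himg]; exact mem_image_of_mem F hpt'
  obtain ⟨_, ⟨y, hy, rfl⟩, hqy⟩ := hFp
  obtain ⟨v, hv, hvt, hb⟩ := key _ ⟨ht, hv₀⟩ y hy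
  have hhv := vtx_map h hT hv
  refine ⟨st T (h v), st_compact hN hF _, sub_st ht' hvt hpt', hi _ hhv, ?_⟩
  intro z hz
  rw [← hqy] at hz
  have hz' : q.symm z ∈ Metric.ball (F y) δ := by
    rw [Metric.mem_ball] at hz ⊢
    rw [← q.dist_eq, q.apply_symm_apply]; exact hz
  obtain ⟨w, hwst, hw2⟩ := hb hz'
  obtain ⟨s, ⟨hs, hvs⟩, hws⟩ := hwst
  have hz2 : z ∈ q '' (F '' s) := ⟨F w, mem_image_of_mem F hws, by rw [hw2, q.apply_symm_apply]⟩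
  rw [← hq s hs] at hz2
  exact image_mono (sub_st ((hT s).1 hs) (mem_image_of_mem h hvs)) hz2

end H292.TL
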