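import Pool.Agent.H292.TL.FB

/-!
Project TL (owner helper292): enumeration of the flags at a vertex (by helper177).
-/

set_option autoImplicit false
open scoped UpperHalfPlane Topology
open Set

namespace H292.TL

/-- the flags at a point are finitely many -/
theorem VENUM.fin_v {T : Set (Set ℍ)} (H : FS1 T) (v : ℍ) : {y : Flag T | y.v = v}.Finite := by
  have h1 := (H.finv v).prod (H.finv v)
  apply Set.Finite.of_finite_image (f := fun y : Flag T => (y.t, y.s))
  · apply h1.subset
    rintro _ ⟨y, hy, rfl⟩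
    have hy' : y.v = v := hy
    exact ⟨⟨y.ht, hy' ▸ y.hvt⟩, ⟨y.hs, hy' ▸ y.hvs⟩⟩
  · intro y hy z hz hyz
    have hy' : y.v = v := hy
    have hz' : z.v = v := hz
    simp only [Prod.mk.injEq] at hyz
    exact Flag.ext (hy'.trans hz'.symm) hyz.1 hyz.2

theorem venum (h : S_CYC) : S_VENUM := by
  intro T H x
  obtain ⟨m, hm, hper, hinj, hne, hall⟩ := h (Flag T) s1 s2 H.s1_s1 s2_s2 H.s1_ne s2_ne x
    ((VENUM.fin_v H.toFS1 x.v).subset fun y hy => Rch_v H.toFS1 hy)
  have hinj' : ∀ i < m, ∀ j < m, (uv^[i] x).t = (uv^[j] x).t → i = j := by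
    intro i hi j hj hij
    rcases H.u1 (uv^[i] x) (uv^[j] x) (by rw [H.uv_iter_v, H.uv_iter_v]) hij.symm with h1 | h1
    · exact (hinj j hj i hi h1).symm
    · exact absurd h1 (hne j i)
  have hdg : dg T x.v = m := by
    have hset : {t ∈ T | x.v ∈ t} = (fun i => (uv^[i] x).t) '' Set.Iio m := by
      ext t
      constructor
      · rintro ⟨ht, hv⟩
        obtain ⟨y, hyv, hyt⟩ := H.exv x.v x.hv t ht hv
        obtain ⟨i, hi, h1⟩ := hall y (H.c12 x y hyv)
        refine ⟨i, hi, ?_⟩
        show (uv^[i] x).t = t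
        rcases h1 with h1 | h1
        · rw [← hyt, h1]
          rfl
        · have h2 : y = s1 (uv^[i] x) := h1
          rw [← hyt, h2, H.s1_t]
      · rintro ⟨i, _, rfl⟩
        refine ⟨(uv^[i] x).ht, ?_⟩
        have h1 := (uv^[i] x).hvt
        rw [H.uv_iter_v] at h1
        exact h1
    unfold dg
    have hio : Set.InjOn (fun i => (uv^[i] x).t) (Set.Iio m) := by
      intro i hi j hj hij
      exact hinj' i hi j hj hij
    rw [hset, hio.ncard_image, Set.ncard_eq_toFinset_card', Set.toFinset_Iio, Nat.card_Iio]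
  rw [hdg]
  refine ⟨hper, hinj', ?_⟩
  intro y hy
  exact hall y (H.c12 x y hy)

end H292.TL
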