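import Pool.Agent.H292.TL.Fin
import Pool.Agent.H292.TL.CNT
import Pool.Agent.H292.TL.FR
import Pool.Agent.H292.TL.GLUE
import Pool.Agent.H292.TL.CIRC
import Pool.Agent.H292.TL.CINJ
import Pool.Agent.H292.TL.DISJ
import Pool.Agent.H292.TL.FULL
import Pool.Agent.H292.TL.EDGE
import Pool.Agent.H292.TL.NEV
import Pool.Agent.H292.TL.FINV
import Pool.Agent.H292.TL.BD
import Pool.Agent.H292.TL.TWO
import Pool.Agent.H292.TL.FS1
import Pool.Agent.H292.TL.TCYC
import Pool.Agent.H292.TL.VCYC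
import Pool.Agent.H292.TL.CCYC
import Pool.Agent.H292.TL.N3
import Pool.Agent.H292.TL.CYC
import Pool.Agent.H292.TL.VENUM
import Pool.Agent.H292.TL.TENUM
import Pool.Agent.H292.TL.SUM
import Pool.Agent.H292.TL.AUT
import Pool.Agent.H292.TL.MT
import Pool.Agent.H292.TL.LA
import Pool.Agent.H292.TL.LB
import Pool.Agent.H292.TL.L2
import Pool.Agent.H292.TL.BETA
import Pool.Agent.H292.TL.POIN
import Pool.Agent.H292.TL.CHAIN
import Pool.Agent.H292.TL.CHT
import Pool.Agent.H292.TL.CHV
import Pool.Agent.H292.TL.BDD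
import Pool.Agent.H292.TL.CNTV
import Pool.Agent.H292.TL.PV
import Pool.Agent.H292.TL.PF
import Pool.Agent.H292.TL.HU
import Pool.Agent.H292.TL.AF
import Pool.Agent.H292.TL.HYP
import Pool.Agent.H292.TL.REL
import Pool.Agent.H292.TL.KLH
import Pool.Agent.H292.TL.KLF
import Pool.Agent.H292.TL.KLG
import Pool.Agent.H292.TL.PINV
import Pool.Agent.H292.TL.PCONV
import Pool.Agent.H292.TL.PDISC
import Pool.Agent.H292.TL.PSEC
import Pool.Agent.H292.TL.PBD
import Pool.Agent.H292.TL.STAR
import Pool.Agent.H292.TL.LEN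
import Pool.Agent.H292.TL.MON
import Pool.Agent.H292.TL.MT1
import Pool.Agent.H292.TL.MV1
import Pool.Agent.H292.TL.FRAME
import Pool.Agent.H292.TL.EXT
import Pool.Agent.H292.TL.SKEL
import Pool.Agent.H292.TL.BMAP
import Pool.Agent.H292.TL.REAL
import Pool.Agent.H292.TL.SINJ
import Pool.Agent.H292.TL.ISO
import Pool.Agent.H292.TL.UNI
import Pool.Agent.H292.TL.COV

/-! Project TL: the complete proof of `S_GOAL`. -/

set_option autoImplicit false

namespace H292.TL

theorem tl_disj : S_DISJ := disj fr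
theorem tl_full : S_FULL := full fr glue cinj tl_disj
theorem tl_edge : S_EDGE := edge cnt fr tl_disj glue circ tl_full
theorem tl_nev : S_NEV := nev cnt fr tl_disj tl_edge
theorem tl_finv : S_FINV := finv cnt tl_edge
theorem tl_bd : S_BD := bd cnt fr
theorem tl_two : S_TWO := two cnt fr tl_disj tl_finv tl_bd tl_edge
theorem tl_fs1 : S_FS1 := fs1 cnt fr tl_disj tl_edge tl_nev tl_bd tl_finv tl_two
theorem tl_venum : S_VENUM := venum cyc
theorem tl_tenum : S_TENUM := tenum cyc
theorem tl_l2 : S_L2 := l2 la (lb mt)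
theorem tl_cht : S_CHT := cht cnt (chain cnt) tl_venum
theorem tl_chv : S_CHV := chv (chain cnt) tl_tenum bdd
theorem tl_pv : S_PV := pv poin beta (cntv cnt bdd) tl_chv bdd
theorem tl_pf : S_PF := pf poin beta cnt tl_cht bdd
theorem tl_hyp : S_HYP := hyp (af tl_venum tl_tenum aut) tl_pv tl_pf (hu bdd) tl_l2 tl_venum
theorem tl_pinv : S_PINV := pinv minv klf rel
theorem tl_pconv : S_PCONV := pconv klg
theorem tl_psec : S_PSEC := psec klf klh tl_pinv
theorem tl_pbd : S_PBD := pbd minv klf klh tl_pinv tl_psec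
theorem tl_star : S_STAR := star tl_psec klf klh rel
theorem tl_frame : S_FRAME := frame (mt1 rel tl_tenum) (mv1 rel tl_venum) mon rel cnt
theorem tl_bmap : S_BMAP := bmap tl_pbd tl_tenum fr
theorem tl_real : S_REAL := real1 skel tl_bmap (ext fr) (pdisc klh) tl_pinv cnt fr tl_disj
theorem tl_sinj : S_SINJ := sinj tl_star tl_venum rel
theorem tl_uni : S_UNI := uni

theorem tl_goal : S_GOAL :=
  goal tl_fs1 (tcyc fr) (vcyc cnt fr tl_disj) (ccyc cnt fr tl_disj) (n3 cnt) (sum_tiles tl_venum)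
    aut tl_hyp len tl_frame tl_real tl_sinj (iso aut) tl_uni cov tl_pconv

end H292.TL
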