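import Pool.Agent.H292.TL.FB
import Pool.Agent.H292.TL.CNT

/-!
Project TL, task BDD (helper549): bounds for `nn` and `dg`.
-/

set_option autoImplicit false
open scoped UpperHalfPlane Topology
open Set

namespace H292.TL

theorem bdd : S_BDD := by
  classical
  intro T hT H _
  obtain ⟨r, R, hr, hu⟩ := hT.unif
  obtain ⟨N0, hN0⟩ := cnt T hT 0
  obtain ⟨N1, hN1⟩ := cnt T hT R
  refine ⟨N0 + N1 * 2, ?_, ?_⟩
  · intro t ht
    obtain ⟨c₁, c₂, h1, h2⟩ := hu t ht
    obtain ⟨hfin, hcard⟩ := hN1 c₂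
    -- the possible vertices on a given neighbour
    let G : Set ℍ → Finset ℍ := fun s =>
      if h : ∃ x : Flag T, x.t = t ∧ x.s = s then {h.choose.v, (s0 h.choose).v} else ∅
    have hG : ∀ s, (G s).card ≤ 2 := by
      intro s
      by_cases h : ∃ x : Flag T, x.t = t ∧ x.s = s
      · show (if h : ∃ x : Flag T, x.t = t ∧ x.s = s then
          ({h.choose.v, (s0 h.choose).v} : Finset ℍ) else ∅).card ≤ 2
        rw [dif_pos h]
        exact Finset.card_le_two
      · show (if h : ∃ x : Flag T, x.t = t ∧ x.s = s then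
          ({h.choose.v, (s0 h.choose).v} : Finset ℍ) else ∅).card ≤ 2
        rw [dif_neg h]
        simp
    have hsub : Vtx T ∩ t ⊆ ((hfin.toFinset.biUnion G : Finset ℍ) : Set ℍ) := by
      rintro p ⟨hp, hpt⟩
      obtain ⟨x, hxv, hxt⟩ := H.exv p hp t ht hpt
      rw [Finset.mem_coe, Finset.mem_biUnion]
      refine ⟨x.s, ?_, ?_⟩
      · rw [Set.Finite.mem_toFinset]
        exact ⟨x.hs, p, hxv ▸ x.hvs, h2 hpt⟩
      · have h : ∃ y : Flag T, y.t = t ∧ y.s = x.s := ⟨x, hxt, rfl⟩
        show p ∈ (if h : ∃ y : Flag T, y.t = t ∧ y.s = x.s then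
          ({h.choose.v, (s0 h.choose).v} : Finset ℍ) else ∅)
        rw [dif_pos h]
        have h3 := h.choose_spec
        have h4 := H.toFS1.vtx_edge h.choose (p := p) hp
          (by rw [h3.2]; exact hxv ▸ x.hvs) (by rw [h3.1]; exact hpt)
        rw [Finset.mem_insert, Finset.mem_singleton]
        exact h4
    have h5 : (Vtx T ∩ t).ncard ≤ (hfin.toFinset.biUnion G).card := by
      rw [← Set.ncard_coe_finset]
      exact Set.ncard_le_ncard hsub (Finset.finite_toSet _)
    have h6 : (hfin.toFinset.biUnion G).card ≤ hfin.toFinset.card * 2 :=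
      Finset.card_biUnion_le_card_mul _ _ _ fun s _ => hG s
    have h7 : hfin.toFinset.card ≤ N1 := by
      rw [← Set.ncard_eq_toFinset_card _ hfin]
      exact hcard
    show (Vtx T ∩ t).ncard ≤ N0 + N1 * 2
    have h8 : hfin.toFinset.card * 2 ≤ N1 * 2 := Nat.mul_le_mul_right 2 h7
    omega
  · intro v
    obtain ⟨hfin, hcard⟩ := hN0 v
    have h1 : {t ∈ T | v ∈ t} ⊆ {t ∈ T | (t ∩ Metric.closedBall v 0).Nonempty} := by
      rintro t ⟨ht, hv⟩
      exact ⟨ht, v, hv, by simp⟩
    have h2 : dg T v ≤ N0 := (Set.ncard_le_ncard h1 hfin).trans hcard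
    omega

end H292.TL
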