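import Mathlib

/-!
Project TL (owner helper292), problem MP_4f6843_co, frozen statement S08699.
Basic definitions.  See `Stmts.lean` for the statements of the subtasks.
-/

set_option autoImplicit false
open scoped UpperHalfPlane Topology MatrixGroups
open Set

namespace H292.TL

/-! ### tilings -/

/-- vertices of a tiling: points in three distinct tiles -/
def Vtx (T : Set (Set ℍ)) : Set ℍ :=
  {v | ∃ a ∈ T, ∃ b ∈ T, ∃ c ∈ T, a ≠ b ∧ a ≠ c ∧ b ≠ c ∧ v ∈ a ∧ v ∈ b ∧ v ∈ c}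

/-- `φ` restricted to the closed unit disc of `ℂ` is a homeomorphism onto `t`. -/
structure Chart (φ : ℂ → ℍ) (t : Set ℍ) : Prop where
  cont : ContinuousOn φ (Metric.closedBall 0 1)
  inj : InjOn φ (Metric.closedBall 0 1)
  img : φ '' Metric.closedBall 0 1 = t

/-- normal tilings (no symmetry assumed) -/
structure Nor (T : Set (Set ℍ)) : Prop where
  cover : ∀ p : ℍ, ∃ t ∈ T, p ∈ t
  chart : ∀ t ∈ T, ∃ φ, Chart φ t
  disj : ∀ s ∈ T, ∀ t ∈ T, s ≠ t → Disjoint (interior s) (interior t)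
  conn : ∀ s ∈ T, ∀ t ∈ T, IsPreconnected (s ∩ t)
  unif : ∃ r R : ℝ, 0 < r ∧ ∀ t ∈ T, ∃ c₁ c₂ : ℍ,
    Metric.ball c₁ r ⊆ t ∧ t ⊆ Metric.closedBall c₂ R

/-- vertex transitivity under homeomorphisms preserving `T` -/
def Tr (T : Set (Set ℍ)) : Prop :=
  ∀ v ∈ Vtx T, ∀ w ∈ Vtx T, ∃ h : ℍ ≃ₜ ℍ, (∀ s : Set ℍ, s ∈ T ↔ h '' s ∈ T) ∧ h v = w

/-- the point `e^{iθ}` of the unit circle -/
noncomputable def ee (θ : ℝ) : ℂ := Complex.exp (θ * Complex.I)

/-- number of vertices on `t` -/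
noncomputable def nn (T : Set (Set ℍ)) (t : Set ℍ) : ℕ := (Vtx T ∩ t).ncard

/-- number of tiles containing `v` -/
noncomputable def dg (T : Set (Set ℍ)) (v : ℍ) : ℕ := {t ∈ T | v ∈ t}.ncard

/-- union of the tiles containing `v` -/
def st (T : Set (Set ℍ)) (v : ℍ) : Set ℍ := ⋃₀ {t ∈ T | v ∈ t}

/-- A flag: vertex `v`, tile `t`, and a tile `s ≠ t` sharing an edge (at least two points)
with `t`, with `v ∈ s ∩ t`. -/
@[ext]
structure Flag (T : Set (Set ℍ)) where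
  v : ℍ
  t : Set ℍ
  s : Set ℍ
  hv : v ∈ Vtx T
  ht : t ∈ T
  hs : s ∈ T
  hne : s ≠ t
  hvt : v ∈ t
  hvs : v ∈ s
  hadj : (s ∩ t).Nontrivial

variable {T : Set (Set ℍ)}

open Classical in
/-- change the vertex -/
noncomputable def s0 (x : Flag T) : Flag T :=
  if h : ∃ y : Flag T, y.t = x.t ∧ y.s = x.s ∧ y.v ≠ x.v then h.choose else x

open Classical in
/-- change the edge -/
noncomputable def s1 (x : Flag T) : Flag T :=
  if h : ∃ y : Flag T, y.v = x.v ∧ y.t = x.t ∧ y.s ≠ x.s then h.choose else x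

/-- change the tile -/
def s2 (x : Flag T) : Flag T where
  v := x.v
  t := x.s
  s := x.t
  hv := x.hv
  ht := x.hs
  hs := x.ht
  hne := x.hne.symm
  hvt := x.hvs
  hvs := x.hvt
  hadj := by rw [inter_comm]; exact x.hadj

/-- rotation about the vertex -/
noncomputable def uv (x : Flag T) : Flag T := s2 (s1 x)

/-- rotation about the tile -/
noncomputable def ut (x : Flag T) : Flag T := s0 (s1 x)

/-- reachability under two maps -/
def Rch {X : Type} (a b : X → X) : X → X → Prop :=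
  Relation.ReflTransGen (fun x y => y = a x ∨ y = b x)

/-- reachability under three maps -/
def Rch3 {X : Type} (a b c : X → X) : X → X → Prop :=
  Relation.ReflTransGen (fun x y => y = a x ∨ y = b x ∨ y = c x)

/-- basic combinatorial properties of the flags -/
structure FS1 (T : Set (Set ℍ)) : Prop where
  e0 : ∀ x : Flag T, ∃ y : Flag T, y.t = x.t ∧ y.s = x.s ∧ y.v ≠ x.v
  u0 : ∀ x y : Flag T, y.t = x.t → y.s = x.s → y = x ∨ y = s0 x
  e1 : ∀ x : Flag T, ∃ y : Flag T, y.v = x.v ∧ y.t = x.t ∧ y.s ≠ x.s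
  u1 : ∀ x y : Flag T, y.v = x.v → y.t = x.t → y = x ∨ y = s1 x
  ext : ∀ t ∈ T, ∃ x : Flag T, x.t = t
  exv : ∀ v ∈ Vtx T, ∀ t ∈ T, v ∈ t → ∃ x : Flag T, x.v = v ∧ x.t = t
  fint : ∀ t ∈ T, (Vtx T ∩ t).Finite
  finv : ∀ v : ℍ, {t ∈ T | v ∈ t}.Finite

/-- topological properties of the edges -/
structure ES (T : Set (Set ℍ)) : Prop where
  /-- two distinct intersecting tiles share a vertex -/
  nev : ∀ s ∈ T, ∀ t ∈ T, s ≠ t → (s ∩ t).Nonempty → ∃ v ∈ Vtx T, v ∈ s ∩ t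
  /-- edges are arcs joining their two vertices -/
  arc : ∀ x : Flag T, ∃ c : ℝ → ℍ, ContinuousOn c (Icc 0 1) ∧ InjOn c (Icc 0 1) ∧
    c '' Icc 0 1 = x.s ∩ x.t ∧ c 0 = x.v ∧ c 1 = (s0 x).v
  /-- the two tiles of an edge cover a neighbourhood of each interior point of the edge -/
  two : ∀ x : Flag T, ∀ p ∈ x.s ∩ x.t, p ∉ Vtx T → x.s ∪ x.t ∈ 𝓝 p
  /-- the boundary of a tile is covered by its edges -/
  bd : ∀ t ∈ T, ∀ p ∈ frontier t, ∃ x : Flag T, x.t = t ∧ p ∈ x.s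
  /-- a point of two distinct tiles is a boundary point -/
  fr : ∀ s ∈ T, ∀ t ∈ T, s ≠ t → s ∩ t ⊆ frontier t

/-- all combinatorial properties of the flags -/
structure FS (T : Set (Set ℍ)) : Prop extends FS1 T where
  c01 : ∀ x y : Flag T, y.t = x.t → Rch s0 s1 x y
  c12 : ∀ x y : Flag T, y.v = x.v → Rch s1 s2 x y
  c012 : ∀ x y : Flag T, Rch3 s0 s1 s2 x y
  n3 : ∀ t ∈ T, 3 ≤ nn T t

/-! ### geometry of `ℍ` -/

/-- the matrix of the rotation by `θ` about `i` -/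
noncomputable def rotM (θ : ℝ) : SL(2, ℝ) :=
  ⟨!![Real.cos (θ/2), Real.sin (θ/2); -Real.sin (θ/2), Real.cos (θ/2)], by
    rw [Matrix.det_fin_two_of]; nlinarith [Real.sin_sq_add_cos_sq (θ/2)]⟩

/-- the matrix of the translation by `ρ` along the imaginary axis -/
noncomputable def trM (ρ : ℝ) : SL(2, ℝ) :=
  ⟨!![Real.exp (ρ/2), 0; 0, Real.exp (-(ρ/2))], by
    rw [Matrix.det_fin_two_of, ← Real.exp_add]; simp⟩

/-- rotation by `θ` about `i` -/
noncomputable def rot (θ : ℝ) : ℍ ≃ᵢ ℍ := IsometryEquiv.constSMul (rotM θ)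

/-- translation by `ρ` along the imaginary axis: `z ↦ e^ρ z` -/
noncomputable def tr (ρ : ℝ) : ℍ ≃ᵢ ℍ := IsometryEquiv.constSMul (trM ρ)

/-- the map `z ↦ - conj z` -/
def cj0 (z : ℍ) : ℍ := ⟨-(starRingEnd ℂ (z : ℂ)), by simpa using z.2⟩

theorem cj0_coe (z : ℍ) : ((cj0 z : ℍ) : ℂ) = -(starRingEnd ℂ (z : ℂ)) := rfl

theorem cj0_cj0 (z : ℍ) : cj0 (cj0 z) = z := by
  apply UpperHalfPlane.ext
  rw [cj0_coe, cj0_coe]; simp

theorem cj0_im (z : ℍ) : (cj0 z).im = z.im := by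
  have : ((cj0 z : ℍ) : ℂ).im = (z : ℂ).im := by rw [cj0_coe]; simp
  exact this

theorem cj0_dist (z w : ℍ) : dist (cj0 z) (cj0 w) = dist z w := by
  rw [UpperHalfPlane.dist_eq, UpperHalfPlane.dist_eq, cj0_im, cj0_im, cj0_coe, cj0_coe]
  congr 3
  rw [dist_eq_norm, dist_eq_norm, ← Complex.norm_conj ((z:ℂ) - w), ← norm_neg]
  congr 1
  simp only [map_sub]
  ring

/-- reflection in the imaginary axis -/
noncomputable def cj : ℍ ≃ᵢ ℍ where
  toFun := cj0
  invFun := cj0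
  left_inv := cj0_cj0
  right_inv := cj0_cj0
  isometry_toFun := Isometry.of_dist_eq cj0_dist

/-- Klein model coordinate, centred at `i`; the upper half of the imaginary axis goes to the
positive reals, `kl z = 2w/(1+|w|²)` with `w = (z-i)/(z+i)`. -/
noncomputable def kl (z : ℍ) : ℂ :=
  (((Complex.normSq (z : ℂ) - 1 : ℝ) : ℂ) - ((2 * z.re : ℝ) : ℂ) * Complex.I) /
    ((Complex.normSq (z : ℂ) + 1 : ℝ) : ℂ)

/-- angle of the regular `n`-gon of edge length `l` -/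
noncomputable def angH (l : ℝ) (n : ℕ) : ℝ :=
  2 * Real.arcsin (Real.cos (Real.pi / n) / Real.cosh (l / 2))

/-- circumradius of the regular `n`-gon of edge length `l` -/
noncomputable def rho (l : ℝ) (n : ℕ) : ℝ :=
  Real.arsinh (Real.sinh (l / 2) / Real.sin (Real.pi / n))

/-- Klein inradius -/
noncomputable def kap (l : ℝ) (n : ℕ) : ℝ := Real.tanh (rho l n) * Real.cos (Real.pi / n)

/-- reflection exchanging the end points of the standard edge `[i, e^l i]` -/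
noncomputable def R0 (l : ℝ) : ℍ ≃ᵢ ℍ := tr l * rot Real.pi * cj

/-- reflection in the bisector of the corner of the `n`-gon at `i` -/
noncomputable def R1 (l : ℝ) (n : ℕ) : ℍ ≃ᵢ ℍ := rot (angH l n) * cj

/-- reflection in the line of the standard edge -/
noncomputable def R2 : ℍ ≃ᵢ ℍ := cj

/-- isometry from the vertex frame to the frame centred at the centre of the `n`-gon -/
noncomputable def Minv (l : ℝ) (n : ℕ) : ℍ ≃ᵢ ℍ := tr (rho l n) * rot (Real.pi - angH l n / 2)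

/-- the regular `n`-gon centred at `i` -/
def Pc (l : ℝ) (n : ℕ) : Set ℍ :=
  {z | ∀ j : ℕ, (ee (-((2 * j + 1) * Real.pi / n)) * kl z).re ≤ kap l n}

/-- the regular `n`-gon of edge length `l` with a vertex at `i`, one edge being
`[i, e^l i]`, lying on the side `0 ≤ im (kl z)` -/
def Poly (l : ℝ) (n : ℕ) : Set ℍ := {z | Minv l n z ∈ Pc l n}

/-- the standard edge `[i, e^l i]` -/
noncomputable def Seg (l : ℝ) : Set ℍ := (fun t : ℝ => tr t UpperHalfPlane.I) '' Icc 0 l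

/-- the defining relations of a family of frames indexed by the flags -/
def Frames (T : Set (Set ℍ)) (l : ℝ) (g : Flag T → (ℍ ≃ᵢ ℍ)) : Prop :=
  ∀ x : Flag T, g (s0 x) = g x * R0 l ∧ g (s1 x) = g x * R1 l (nn T x.t) ∧
    g (s2 x) = g x * R2

/-- the map `F` realizes the frames -/
structure Real1 (T : Set (Set ℍ)) (l : ℝ) (g : Flag T → (ℍ ≃ᵢ ℍ)) (F : ℍ → ℍ) : Prop where
  cont : Continuous F
  inj : ∀ t ∈ T, InjOn F t
  tile : ∀ x : Flag T, F '' x.t = g x '' Poly l (nn T x.t)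
  edge : ∀ x : Flag T, F '' (x.s ∩ x.t) = g x '' Seg l
  vert : ∀ x : Flag T, F x.v = g x UpperHalfPlane.I

end H292.TL
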