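import Pool.Agent.H292.TL.Stmts

/-!
Project TL: basic calculus of flags (proved), to be imported by all tasks on flags.
-/

set_option autoImplicit false
open scoped UpperHalfPlane Topology
open Set

namespace H292.TL

variable {T : Set (Set ℍ)}

@[simp] theorem s2_v (x : Flag T) : (s2 x).v = x.v := rfl
@[simp] theorem s2_t (x : Flag T) : (s2 x).t = x.s := rfl
@[simp] theorem s2_s (x : Flag T) : (s2 x).s = x.t := rfl
@[simp] theorem s2_s2 (x : Flag T) : s2 (s2 x) = x := rfl

theorem s2_ne (x : Flag T) : s2 x ≠ x := fun h => x.hne (congrArg Flag.t h)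

namespace FS1
variable (H : FS1 T)
include H

theorem s0_t (x : Flag T) : (s0 x).t = x.t := by
  unfold s0; rw [dif_pos (H.e0 x)]; exact (H.e0 x).choose_spec.1
theorem s0_s (x : Flag T) : (s0 x).s = x.s := by
  unfold s0; rw [dif_pos (H.e0 x)]; exact (H.e0 x).choose_spec.2.1
theorem s0_v (x : Flag T) : (s0 x).v ≠ x.v := by
  unfold s0; rw [dif_pos (H.e0 x)]; exact (H.e0 x).choose_spec.2.2
theorem s1_v (x : Flag T) : (s1 x).v = x.v := by
  unfold s1; rw [dif_pos (H.e1 x)]; exact (H.e1 x).choose_spec.1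
theorem s1_t (x : Flag T) : (s1 x).t = x.t := by
  unfold s1; rw [dif_pos (H.e1 x)]; exact (H.e1 x).choose_spec.2.1
theorem s1_s (x : Flag T) : (s1 x).s ≠ x.s := by
  unfold s1; rw [dif_pos (H.e1 x)]; exact (H.e1 x).choose_spec.2.2

theorem s0_ne (x : Flag T) : s0 x ≠ x := fun h => H.s0_v x (congrArg Flag.v h)
theorem s1_ne (x : Flag T) : s1 x ≠ x := fun h => H.s1_s x (congrArg Flag.s h)

/-- a flag with the same tiles and another vertex is `s0 x` -/
theorem eq_s0 {x y : Flag T} (ht : y.t = x.t) (hs : y.s = x.s) (hv : y.v ≠ x.v) : y = s0 x := by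
  rcases H.u0 x y ht hs with h | h
  · exact absurd (congrArg Flag.v h) hv
  · exact h

/-- a flag with the same vertex and tile and another second tile is `s1 x` -/
theorem eq_s1 {x y : Flag T} (hv : y.v = x.v) (ht : y.t = x.t) (hs : y.s ≠ x.s) : y = s1 x := by
  rcases H.u1 x y hv ht with h | h
  · exact absurd (congrArg Flag.s h) hs
  · exact h

theorem s0_s0 (x : Flag T) : s0 (s0 x) = x := by
  rcases H.u0 x (s0 (s0 x)) (by rw [H.s0_t, H.s0_t]) (by rw [H.s0_s, H.s0_s]) with h | h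
  · exact h
  · exact absurd h (H.s0_ne _)

theorem s1_s1 (x : Flag T) : s1 (s1 x) = x := by
  rcases H.u1 x (s1 (s1 x)) (by rw [H.s1_v, H.s1_v]) (by rw [H.s1_t, H.s1_t]) with h | h
  · exact h
  · exact absurd h (H.s1_ne _)

theorem s0_s2 (x : Flag T) : s0 (s2 x) = s2 (s0 x) := by
  symm
  refine H.eq_s0 ?_ ?_ ?_
  · rw [s2_t, s2_t, H.s0_s]
  · rw [s2_s, s2_s, H.s0_t]
  · rw [s2_v, s2_v]; exact H.s0_v x

theorem s0_ne_s2 (x : Flag T) : s0 x ≠ s2 x := fun h => by
  have := congrArg Flag.t h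
  rw [H.s0_t, s2_t] at this
  exact x.hne this.symm

theorem s0_s2_ne (x : Flag T) : s0 (s2 x) ≠ x := fun h => by
  have := congrArg Flag.t h
  rw [H.s0_t, s2_t] at this
  exact x.hne this

theorem uv_v (x : Flag T) : (uv x).v = x.v := by unfold uv; rw [s2_v, H.s1_v]
theorem uv_t (x : Flag T) : (uv x).t = (s1 x).s := rfl
theorem uv_s (x : Flag T) : (uv x).s = x.t := by unfold uv; rw [s2_s, H.s1_t]
theorem ut_t (x : Flag T) : (ut x).t = x.t := by unfold ut; rw [H.s0_t, H.s1_t]
theorem ut_s (x : Flag T) : (ut x).s = (s1 x).s := by unfold ut; rw [H.s0_s]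

theorem uv_iter_v (x : Flag T) (i : ℕ) : (uv^[i] x).v = x.v := by
  induction i with
  | zero => rfl
  | succ i ih => rw [Function.iterate_succ_apply', H.uv_v, ih]

theorem ut_iter_t (x : Flag T) (i : ℕ) : (ut^[i] x).t = x.t := by
  induction i with
  | zero => rfl
  | succ i ih => rw [Function.iterate_succ_apply', H.ut_t, ih]

theorem v_ne_vtx (x : Flag T) : x.v ∈ Vtx T ∩ x.t := ⟨x.hv, x.hvt⟩

/-- the vertices of an edge -/
theorem vtx_edge (x : Flag T) {p : ℍ} (hp : p ∈ Vtx T) (hs : p ∈ x.s) (ht : p ∈ x.t) :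
    p = x.v ∨ p = (s0 x).v := by
  let y : Flag T := ⟨p, x.t, x.s, hp, x.ht, x.hs, x.hne, ht, hs, x.hadj⟩
  rcases H.u0 x y rfl rfl with h | h
  · left; exact congrArg Flag.v h
  · right; exact congrArg Flag.v h

end FS1

/-- reachability is symmetric for involutions -/
theorem Rch.symm' {X : Type} {a b : X → X} (ha : ∀ x, a (a x) = x) (hb : ∀ x, b (b x) = x)
    {x y : X} (h : Rch a b x y) : Rch a b y x := by
  unfold Rch at h ⊢
  induction h with
  | refl => exact Relation.ReflTransGen.refl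
  | tail _ h2 ih =>
    refine Relation.ReflTransGen.trans (Relation.ReflTransGen.single ?_) ih
    rcases h2 with h2 | h2
    · left; rw [h2, ha]
    · right; rw [h2, hb]

/-- `Rch s1 s2` preserves the vertex -/
theorem Rch_v (H : FS1 T) {x y : Flag T} (h : Rch s1 s2 x y) : y.v = x.v := by
  induction h with
  | refl => rfl
  | tail _ h2 ih =>
    rcases h2 with h2 | h2
    · rw [h2, H.s1_v, ih]
    · rw [h2, s2_v, ih]

/-- `Rch s0 s1` preserves the tile -/
theorem Rch_t (H : FS1 T) {x y : Flag T} (h : Rch s0 s1 x y) : y.t = x.t := by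
  induction h with
  | refl => rfl
  | tail _ h2 ih =>
    rcases h2 with h2 | h2
    · rw [h2, H.s0_t, ih]
    · rw [h2, H.s1_t, ih]

theorem Rch_v_iff (H : FS T) {x y : Flag T} : Rch s1 s2 x y ↔ y.v = x.v :=
  ⟨Rch_v H.toFS1, H.c12 x y⟩

theorem Rch_t_iff (H : FS T) {x y : Flag T} : Rch s0 s1 x y ↔ y.t = x.t :=
  ⟨Rch_t H.toFS1, H.c01 x y⟩

/-- induction over all flags -/
theorem Flag.ind3 (H : FS T) {P : Flag T → Prop} (x₀ : Flag T) (h0 : P x₀)
    (a0 : ∀ x, P x → P (s0 x)) (a1 : ∀ x, P x → P (s1 x)) (a2 : ∀ x, P x → P (s2 x))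
    (x : Flag T) : P x := by
  have h := H.c012 x₀ x
  induction h with
  | refl => exact h0
  | tail _ h2 ih =>
    rcases h2 with h2 | h2 | h2
    · rw [h2]; exact a0 _ ih
    · rw [h2]; exact a1 _ ih
    · rw [h2]; exact a2 _ ih

end H292.TL
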