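import Pool.Agent.H292.TL.Goal

/-!
Project TL: from `S_GOAL` to the frozen statement S08699.
-/

set_option autoImplicit false
open scoped UpperHalfPlane Topology
open Set

namespace H292.TL

/-- a chart from a homeomorphism with the closed unit ball of `EuclideanSpace ℝ (Fin 2)` -/
theorem chart_of_homeo (t : Set ℍ)
    (e : ↥t ≃ₜ ↥(Metric.closedBall (0 : EuclideanSpace ℝ (Fin 2)) 1)) : ∃ φ, Chart φ t := by
  let L : ℂ ≃ₗᵢ[ℝ] EuclideanSpace ℝ (Fin 2) := Complex.orthonormalBasisOneI.repr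
  have hL : ∀ z ∈ Metric.closedBall (0:ℂ) 1,
      L z ∈ Metric.closedBall (0 : EuclideanSpace ℝ (Fin 2)) 1 := by
    intro z hz
    rw [mem_closedBall_zero_iff] at hz ⊢
    rw [L.norm_map]; exact hz
  have hc : Continuous (fun z : Metric.closedBall (0:ℂ) 1 =>
      ((e.symm ⟨L z, hL z z.2⟩ : t) : ℍ)) := by
    apply continuous_subtype_val.comp
    apply e.symm.continuous.comp
    exact (L.continuous.comp continuous_subtype_val).subtype_mk _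
  classical
  let φ : ℂ → ℍ := fun z => if hz : z ∈ Metric.closedBall (0:ℂ) 1 then
    ((e.symm ⟨L z, hL z hz⟩ : t) : ℍ) else UpperHalfPlane.I
  have hφ : ∀ z (hz : z ∈ Metric.closedBall (0:ℂ) 1), φ z = ((e.symm ⟨L z, hL z hz⟩ : t) : ℍ) :=
    fun z hz => dif_pos hz
  refine ⟨φ, ?_, ?_, ?_⟩
  · rw [continuousOn_iff_continuous_domRestrict]
    have : (Metric.closedBall (0:ℂ) 1).domRestrict φ = fun z : Metric.closedBall (0:ℂ) 1 =>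
      ((e.symm ⟨L z, hL z z.2⟩ : t) : ℍ) := by
      funext z; exact hφ z z.2
    rw [this]; exact hc
  · intro a ha b hb hab
    rw [hφ a ha, hφ b hb] at hab
    have h1 := e.symm.injective (Subtype.ext hab)
    exact L.injective (congrArg Subtype.val h1)
  · ext p
    constructor
    · rintro ⟨z, hz, rfl⟩
      rw [hφ z hz]; exact Subtype.coe_prop _
    · intro hp
      have h1 : L.symm ((e ⟨p, hp⟩ : Metric.closedBall (0 : EuclideanSpace ℝ (Fin 2)) 1) :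
          EuclideanSpace ℝ (Fin 2)) ∈ Metric.closedBall (0:ℂ) 1 := by
        have := (e ⟨p, hp⟩).2
        rw [mem_closedBall_zero_iff] at this ⊢
        rw [L.symm.norm_map]; exact this
      refine ⟨_, h1, ?_⟩
      rw [hφ _ h1]
      have h2 : (⟨L (L.symm ((e ⟨p, hp⟩ : Metric.closedBall (0 : EuclideanSpace ℝ (Fin 2)) 1) :
          EuclideanSpace ℝ (Fin 2))), hL _ h1⟩ :
          Metric.closedBall (0 : EuclideanSpace ℝ (Fin 2)) 1) = e ⟨p, hp⟩ :=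
        Subtype.ext (L.apply_symm_apply _)
      rw [h2, e.symm_apply_apply]

theorem fin (hg : S_GOAL) :
  ∀ T : Set (Set ℍ),
    (⋃₀ T = Set.univ) →
    (∀ t ∈ T, IsClosed t ∧
      Nonempty (↥t ≃ₜ ↥(Metric.closedBall (0 : EuclideanSpace ℝ (Fin 2)) 1))) →
    (∀ s ∈ T, ∀ t ∈ T, s ≠ t → Disjoint (interior s) (interior t)) →
    (∀ s ∈ T, ∀ t ∈ T, IsPreconnected (s ∩ t)) →
    (∃ r R : ℝ, 0 < r ∧ ∀ t ∈ T, ∃ c₁ c₂ : ℍ,
      Metric.ball c₁ r ⊆ t ∧ t ⊆ Metric.closedBall c₂ R) →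
    (∀ v w : ℍ,
      (∃ a ∈ T, ∃ b ∈ T, ∃ c ∈ T, a ≠ b ∧ a ≠ c ∧ b ≠ c ∧ v ∈ a ∧ v ∈ b ∧ v ∈ c) →
      (∃ a ∈ T, ∃ b ∈ T, ∃ c ∈ T, a ≠ b ∧ a ≠ c ∧ b ≠ c ∧ w ∈ a ∧ w ∈ b ∧ w ∈ c) →
      ∃ h : ℍ ≃ₜ ℍ, (∀ s : Set ℍ, s ∈ T ↔ h '' s ∈ T) ∧ h v = w) →
    ∃ T' : Set (Set ℍ), ∃ h : ℍ ≃ₜ ℍ,
      (∀ s : Set ℍ, s ∈ T ↔ h '' s ∈ T') ∧
      (∀ t ∈ T', ∀ x ∈ t, ∀ y ∈ t, ∀ z : ℍ, dist x z + dist z y = dist x y → z ∈ t) ∧
      (∀ v w : ℍ,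
        (∃ a ∈ T', ∃ b ∈ T', ∃ c ∈ T', a ≠ b ∧ a ≠ c ∧ b ≠ c ∧ v ∈ a ∧ v ∈ b ∧ v ∈ c) →
        (∃ a ∈ T', ∃ b ∈ T', ∃ c ∈ T', a ≠ b ∧ a ≠ c ∧ b ≠ c ∧ w ∈ a ∧ w ∈ b ∧ w ∈ c) →
        ∃ g : ℍ ≃ᵢ ℍ, (∀ s : Set ℍ, s ∈ T' ↔ g '' s ∈ T') ∧ g v = w) := by
  intro T hcov hdisk hdisj hconn hunif htr
  have N : Nor T := by
    refine ⟨fun p => ?_, fun t ht => ?_, hdisj, hconn, hunif⟩
    · have : p ∈ ⋃₀ T := by rw [hcov]; trivial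
      exact this
    · obtain ⟨-, ⟨e⟩⟩ := hdisk t ht
      exact chart_of_homeo t e
  obtain ⟨T', h, h1, h2, h3⟩ := hg T N (fun v hv w hw => htr v w hv hw)
  exact ⟨T', h, h1, h2, fun v w hv hw => h3 v hv w hw⟩

end H292.TL
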