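import Pool.Agent.H292.TL.FB

/-!
Project TL: assembly of the goal from the statements.
-/

set_option autoImplicit false
open scoped UpperHalfPlane Topology
open Set

namespace H292.TL

theorem isTile_iff {T : Set (Set ℍ)} {h : ℍ ≃ₜ ℍ} (H : ∀ s : Set ℍ, s ∈ T ↔ h '' s ∈ T)
    (s : Set ℍ) : s ∈ T ↔ h ⁻¹' s ∈ T := by
  rw [H (h ⁻¹' s), image_preimage_eq s h.surjective]

/-- all flags: FS -/
theorem mkFS (hfs1 : S_FS1) (htc : S_TCYC) (hvc : S_VCYC) (hcc : S_CCYC) (hn3 : S_N3)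
    (T : Set (Set ℍ)) (N : Nor T) : FS T ∧ ES T := by
  obtain ⟨F1, E⟩ := hfs1 T N
  have c01 := htc T N F1 E
  have c12 := hvc T N F1 E
  exact ⟨{ toFS1 := F1, c01 := c01, c12 := c12, c012 := hcc T N F1 E c01 c12,
           n3 := hn3 T N F1 E c01 c12 }, E⟩

/-- invariance of the angle sums -/
theorem sums_eq (hsum : S_SUM) (haut : S_AUT) (T : Set (Set ℍ)) (F : FS T) (tr : Tr T)
    (f : ℕ → ℝ) (x y : Flag T) :
    ∑ i ∈ Finset.range (dg T x.v), f (nn T (uv^[i] x).t) =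
    ∑ i ∈ Finset.range (dg T y.v), f (nn T (uv^[i] y).t) := by
  obtain ⟨h, hT, hv⟩ := tr x.v x.hv y.v y.hv
  obtain ⟨γ, g1, g0, g1', g2, gn, gd⟩ := haut T F h hT
  have huv : ∀ z, γ (uv z) = uv (γ z) := fun z => by unfold uv; rw [g2, g1']
  have hit : ∀ i z, γ (uv^[i] z) = uv^[i] (γ z) := by
    intro i
    induction i with
    | zero => intro z; rfl
    | succ i ih => intro z; rw [Function.iterate_succ_apply, Function.iterate_succ_apply, ih, huv]
  have e1 : (γ x).v = y.v := by rw [(g1 x).1, hv]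
  have s1 : ∑ i ∈ Finset.range (dg T x.v), f (nn T (uv^[i] x).t) =
      ∑ i ∈ Finset.range (dg T (γ x).v), f (nn T (uv^[i] (γ x)).t) := by
    rw [gd]
    refine Finset.sum_congr rfl fun i _ => ?_
    rw [← hit, gn]
  rw [s1, hsum T F (fun t => f (nn T t)) (γ x), hsum T F (fun t => f (nn T t)) y, e1]

theorem goal (hfs1 : S_FS1) (htc : S_TCYC) (hvc : S_VCYC) (hcc : S_CCYC)
    (hn3 : S_N3) (hsum : S_SUM) (haut : S_AUT) (hhyp : S_HYP) (hlen : S_LEN)
    (hfr : S_FRAME) (hreal : S_REAL) (hsinj : S_SINJ) (hiso : S_ISO) (huni : S_UNI)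
    (hcov : S_COV) (hpc : S_PCONV) : S_GOAL := by
  intro T N tr
  obtain ⟨F, E⟩ := mkFS hfs1 htc hvc hcc hn3 T N
  -- a flag
  obtain ⟨t0, ht0, -⟩ := N.cover UpperHalfPlane.I
  obtain ⟨x0, -⟩ := F.ext t0 ht0
  -- edge length
  obtain ⟨l, hl, hsl⟩ := hlen (dg T x0.v) (fun i => nn T (uv^[i] x0).t)
    (fun i => F.n3 _ (uv^[i] x0).ht) (hhyp T N F E tr x0)
  have hall : ∀ x : Flag T, ∑ i ∈ Finset.range (dg T x.v), angH l (nn T (uv^[i] x).t) =
      2 * Real.pi := fun x => by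
    rw [sums_eq hsum haut T F tr (fun n => angH l n) x x0]; exact hsl
  obtain ⟨g, hg⟩ := hfr T N F E l hl hall
  obtain ⟨Φ, hΦ⟩ := hreal T N F E l hl g hg
  have hinj := hsinj T N F E l hl hall g hg Φ hΦ
  have his := hiso T N F E l hl g hg Φ hΦ
  obtain ⟨h, hh⟩ := hcov Φ hΦ.cont (huni T N F E tr Φ hΦ.cont hinj his)
  have hfun : (h : ℍ → ℍ) = Φ := funext hh
  -- vertices of the image
  have hvtx : ∀ v, v ∈ Vtx {s | ∃ t ∈ T, s = h '' t} → ∃ w ∈ Vtx T, v = h w := by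
    rintro v ⟨a, ⟨a', ha', rfl⟩, b, ⟨b', hb', rfl⟩, c, ⟨c', hc', rfl⟩, hab, hac, hbc, hva, hvb, hvc'⟩
    obtain ⟨w, hw, rfl⟩ := hva
    obtain ⟨w1, hw1, e1⟩ := hvb
    obtain ⟨w2, hw2, e2⟩ := hvc'
    have e1' := h.injective e1
    have e2' := h.injective e2
    rw [e1'] at hw1
    rw [e2'] at hw2
    exact ⟨w, ⟨a', ha', b', hb', c', hc', fun e => hab (by rw [e]), fun e => hac (by rw [e]),
      fun e => hbc (by rw [e]), hw, hw1, hw2⟩, rfl⟩
  refine ⟨{s | ∃ t ∈ T, s = h '' t}, h, ?_, ?_, ?_⟩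
  · intro s
    constructor
    · intro hs; exact ⟨s, hs, rfl⟩
    · rintro ⟨t, ht, e⟩
      have : s = t := h.injective.image_injective e
      rw [this]; exact ht
  · rintro _ ⟨t, ht, rfl⟩ x hx y hy z hz
    obtain ⟨f, hf⟩ := F.ext t ht
    have e : h '' t = g f '' Poly l (nn T f.t) := by
      rw [hfun, ← hf]; exact hΦ.tile f
    rw [e] at hx hy ⊢
    obtain ⟨x', hx', rfl⟩ := hx
    obtain ⟨y', hy', rfl⟩ := hy
    refine ⟨(g f).symm z, ?_, (g f).apply_symm_apply z⟩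
    refine hpc l _ x' hx' y' hy' _ ?_
    rw [← (g f).dist_eq x' ((g f).symm z), ← (g f).dist_eq ((g f).symm z) y',
      ← (g f).dist_eq x' y', (g f).apply_symm_apply]
    exact hz
  · intro v hv w hw
    obtain ⟨v', hv', rfl⟩ := hvtx v hv
    obtain ⟨w', hw', rfl⟩ := hvtx w hw
    obtain ⟨k, hk, hkv⟩ := tr v' hv' w' hw'
    obtain ⟨q, q1, q2⟩ := his k hk
    refine ⟨q, ?_, ?_⟩
    · intro s
      constructor
      · rintro ⟨t, ht, rfl⟩
        refine ⟨k '' t, (hk t).1 ht, ?_⟩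
        rw [hfun, q2 t ht]
      · rintro ⟨t, ht, e⟩
        have hkt : k ⁻¹' t ∈ T := (isTile_iff hk t).1 ht
        refine ⟨k ⁻¹' t, hkt, ?_⟩
        have e2 := q2 _ hkt
        rw [image_preimage_eq t k.surjective] at e2
        rw [hfun] at e ⊢
        rw [e2] at e
        exact q.injective.image_injective e
    · rw [hfun, ← q1 v' hv', hkv]

end H292.TL
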