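import Mathlib

set_option autoImplicit false

namespace H292.TL.Pl

open Set Complex Real Topology Filter Metric

theorem lift {E : Type} [NormedAddCommGroup E] [NormedSpace ℝ E] (G : E → ℂ) (hG : Continuous G)
    (h0 : ∀ x, G x ≠ 0) : ∃ L : E → ℂ, Continuous L ∧ ∀ x, cexp (L x) = G x := by
  obtain ⟨F, ⟨-, hF⟩, -⟩ := Complex.isCoveringMap_exp.existsUnique_continuousMap_lifts
    (⟨fun x => ⟨G x, h0 x⟩, hG.subtype_mk _⟩ : C(E, {z : ℂ // z ≠ 0})) 0 (Complex.log (G 0))
    (Subtype.ext (Complex.exp_log (h0 0)))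
  exact ⟨F, F.continuous, fun x => congrArg Subtype.val (congrFun hF x)⟩

theorem const {E : Type} [TopologicalSpace E] [PreconnectedSpace E] (u : E → ℂ) (hu : Continuous u)
    (h : ∀ x y, cexp (u x) = cexp (u y)) (x y : E) : u x = u y :=
  Complex.isCoveringMap_exp.const_of_comp hu (fun a b => Subtype.ext (h a b)) x y

/-- `c` is the increment of a continuous logarithm of `γ` over a period -/
def W (γ : ℝ → ℂ) (c : ℂ) : Prop :=
  ∃ L : ℝ → ℂ, Continuous L ∧ (∀ θ, cexp (L θ) = γ θ) ∧ ∀ θ, L (θ + 2 * π) = L θ + c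

theorem W.uniq {γ : ℝ → ℂ} {c d : ℂ} (h1 : W γ c) (h2 : W γ d) : c = d := by
  obtain ⟨L, l1, l2, l3⟩ := h1
  obtain ⟨M, m1, m2, m3⟩ := h2
  have := const (fun θ => L θ - M θ) (l1.sub m1) (fun x y => by
    rw [Complex.exp_sub, Complex.exp_sub, l2, l2, m2, m2, div_self, div_self]
    · rw [← l2]; exact Complex.exp_ne_zero _
    · rw [← l2]; exact Complex.exp_ne_zero _) (0 + 2 * π) 0
  simp only [l3, m3] at this
  linear_combination this

theorem period {E : Type} [NormedAddCommGroup E] [NormedSpace ℝ E] {G L : E → ℂ}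
    (hL : Continuous L) (h : ∀ x, cexp (L x) = G x) (v : E) (hv : ∀ x, G (x + v) = G x) :
    ∃ c, ∀ x, L (x + v) = L x + c := by
  refine ⟨L (0 + v) - L 0, fun x => ?_⟩
  have := const (fun x => L (x + v) - L x) ((hL.comp (continuous_id.add continuous_const)).sub hL)
    (fun x y => by
      rw [Complex.exp_sub, Complex.exp_sub, h, h, h, h, hv, hv, div_self, div_self]
      · rw [← h]; exact Complex.exp_ne_zero _
      · rw [← h]; exact Complex.exp_ne_zero _) x 0
  linear_combination this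

theorem W.homot {c : ℂ} (H : ℝ → ℝ → ℂ) (hH : Continuous fun p : ℝ × ℝ => H p.1 p.2)
    (h0 : ∀ t ∈ Icc (0 : ℝ) 1, ∀ θ, H t θ ≠ 0) (hp : ∀ t θ, H t (θ + 2 * π) = H t θ)
    (h : W (H 0) c) : W (H 1) c := by
  let cl : ℝ → ℝ := fun t => (projIcc (0 : ℝ) 1 zero_le_one t : ℝ)
  have hcl : Continuous cl := continuous_subtype_val.comp continuous_projIcc
  have c0 : cl 0 = 0 := by simp [cl]
  have c1 : cl 1 = 1 := by simp [cl]
  obtain ⟨L, l1, l2⟩ := lift (fun p : ℝ × ℝ => H (cl p.1) p.2)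
    (hH.comp ((hcl.comp continuous_fst).prodMk continuous_snd))
    (fun p => h0 _ (projIcc _ _ _ _).2 _)
  obtain ⟨d, hd⟩ := period l1 l2 ((0 : ℝ), 2 * π) (fun p => by simp [hp])
  have key : ∀ t, W (H (cl t)) d := fun t =>
    ⟨fun θ => L (t, θ), l1.comp (continuous_const.prodMk continuous_id), fun θ => l2 (t, θ),
      fun θ => by simpa using hd (t, θ)⟩
  have k0 := key 0
  have k1 := key 1
  rw [c0] at k0
  rw [c1] at k1
  rw [h.uniq k0]
  exact k1

/-- an odd loop has an odd increment -/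
theorem W.odd {γ : ℝ → ℂ} {c : ℂ} (h : W γ (c + c)) (hc : cexp c = 1)
    (ho : ∀ θ, γ (θ + π) = -γ θ) : False := by
  obtain ⟨L, l1, l2, l3⟩ := h
  have hne : ∀ θ, γ θ ≠ 0 := fun θ => by rw [← l2]; exact Complex.exp_ne_zero _
  have e : ∀ θ, cexp (L (θ + π) - L θ) = -1 := fun θ => by
    rw [Complex.exp_sub, l2, l2, ho, neg_div, div_self (hne θ)]
  have := const (fun θ => L (θ + π) - L θ) ((l1.comp (continuous_id.add continuous_const)).sub l1)
    (fun x y => by rw [e, e]) π 0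
  have h2 := l3 0
  rw [show (0 : ℝ) + 2 * π = π + π by ring] at h2
  have h3 : L (0 + π) - L 0 = c := by
    rw [zero_add] at this ⊢
    linear_combination (h2 - this) / 2
  have := e 0
  rw [h3, hc] at this
  norm_num at this


/-- invariance of domain in the plane -/
theorem iod (h : ℂ → ℂ) {r : ℝ} (hr : 0 < r) (hc : ContinuousOn h (closedBall 0 r))
    (hi : InjOn h (closedBall 0 r)) : h '' closedBall 0 r ∈ 𝓝 (h 0) := by
  -- a continuous extension of h
  obtain ⟨g, hg⟩ := ContinuousMap.exists_restrict_eq (isClosed_closedBall (x := (0 : ℂ)) (ε := r))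
    (⟨fun x => h x, continuousOn_iff_continuous_domRestrict.1 hc⟩ : C(closedBall (0 : ℂ) r, ℂ))
  have hgh : ∀ x ∈ closedBall (0 : ℂ) r, g x = h x := fun x hx =>
    congrFun (congrArg DFunLike.coe hg) ⟨x, hx⟩
  have h0 : (0 : ℂ) ∈ closedBall (0 : ℂ) r := mem_closedBall_self hr.le
  obtain ⟨x0, hx0, hmin⟩ := (isCompact_sphere (0 : ℂ) r).exists_isMinOn
    (NormedSpace.sphere_nonempty.2 hr.le) (f := fun x => ‖g x - g 0‖) (by fun_prop)
  have hm : 0 < ‖g x0 - g 0‖ := by
    rw [norm_pos_iff, sub_ne_zero, hgh _ (sphere_subset_closedBall hx0), hgh _ h0]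
    intro e
    have := hi (sphere_subset_closedBall hx0) h0 e
    rw [this] at hx0
    simp at hx0
    exact hr.ne hx0
  refine mem_of_superset (ball_mem_nhds (h 0) hm) fun w hw => ?_
  by_contra hwn
  let c : ℝ → ℂ := fun θ => r * cexp (θ * I)
  have cc : Continuous c := by fun_prop
  have cn : ∀ θ, ‖c θ‖ = r := fun θ => by
    simp [c, Complex.norm_exp_ofReal_mul_I, abs_of_pos hr]
  have cp : ∀ θ, c (θ + 2 * π) = c θ := fun θ => by
    simp only [c]
    push_cast
    rw [add_mul, Complex.exp_add, Complex.exp_two_pi_mul_I, mul_one]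
  have co : ∀ θ, c (θ + π) = -c θ := fun θ => by
    simp only [c]
    push_cast
    rw [add_mul, Complex.exp_add, Complex.exp_pi_mul_I]; ring
  have mem : ∀ t : ℝ, |t| ≤ 1 → ∀ θ, (t : ℂ) * c θ ∈ closedBall (0 : ℂ) r := fun t ht θ => by
    rw [mem_closedBall_zero_iff, norm_mul, cn, Complex.norm_real, Real.norm_eq_abs]
    nlinarith
  have ne : ∀ x ∈ closedBall (0 : ℂ) r, g x - w ≠ 0 := fun x hx e =>
    hwn ⟨x, hx, by rw [← hgh x hx]; exact sub_eq_zero.1 e⟩
  have w0 : W (fun θ => g (((0 : ℝ) : ℂ) * c θ) - w) 0 :=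
    ⟨fun _ => Complex.log (g 0 - w), continuous_const, fun θ => by
      simp only [ofReal_zero, zero_mul]; exact Complex.exp_log (ne 0 h0), fun θ => by simp⟩
  have w1 := W.homot (fun t θ => g ((t : ℂ) * c θ) - w) (by fun_prop)
    (fun t ht θ => ne _ (mem t (abs_le.2 ⟨by linarith [ht.1], ht.2⟩) θ))
    (fun t θ => by simp only [cp]) w0
  have w2 := W.homot (c := 0) (fun t θ => g (c θ) - (w + t * (g 0 - w))) (by fun_prop)
    (fun t ht θ e => by
      have h1 : ‖g x0 - g 0‖ ≤ ‖g (c θ) - g 0‖ :=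
        hmin (show c θ ∈ sphere (0 : ℂ) r by simp [cn])
      have h2 : g (c θ) - g 0 = ((1 - t : ℝ) : ℂ) * (w - g 0) := by
        push_cast; linear_combination e
      rw [h2, norm_mul, Complex.norm_real, Real.norm_eq_abs, abs_of_nonneg (by linarith [ht.2])]
        at h1
      rw [mem_ball, dist_eq_norm, ← hgh 0 h0] at hw
      nlinarith [ht.1, norm_nonneg (w - g 0)])
    (fun t θ => by simp only [cp]) (by simpa using w1)
  have w3 := W.homot (c := 0) (fun t θ => g (c θ) - g (((-t : ℝ) : ℂ) * c θ)) (by fun_prop)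
    (fun t ht θ e => by
      have m1 := mem 1 (by simp) θ
      have m2 := mem (-t) (by rw [abs_neg]; exact abs_le.2 ⟨by linarith [ht.1], ht.2⟩) θ
      rw [ofReal_one, one_mul] at m1
      rw [sub_eq_zero, hgh _ m1, hgh _ m2] at e
      have e2 := hi m1 m2 e
      have e3 : ((1 + t : ℝ) : ℂ) * c θ = 0 := by push_cast at e2 ⊢; linear_combination e2
      rcases mul_eq_zero.1 e3 with e4 | e4
      · have : 1 + t = 0 := by exact_mod_cast e4
        linarith [ht.1]
      · have := cn θ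
        rw [e4, norm_zero] at this
        exact hr.ne this)
    (fun t θ => by simp only [cp]) (by simpa using w2)
  refine W.odd (c := 0) (by simpa using w3) (by simp) fun θ => ?_
  simp [co]



end H292.TL.Pl

namespace H292.TL
open Set Topology Filter Metric
open scoped UpperHalfPlane

/-- invariance of domain for maps `ℂ → ℂ`. -/
theorem iodCC (f : ℂ → ℂ) {x : ℂ} {U : Set ℂ} (hU : U ∈ 𝓝 x) (hc : ContinuousOn f U)
    (hi : InjOn f U) {V : Set ℂ} (hV : V ∈ 𝓝 x) : f '' V ∈ 𝓝 (f x) := by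
  obtain ⟨r, hr, hb⟩ := Metric.nhds_basis_closedBall.mem_iff.1 (inter_mem hU hV)
  have h1 : MapsTo (fun z : ℂ => x + z) (closedBall (0:ℂ) r) (U ∩ V) := by
    intro z hz
    apply hb
    simpa [mem_closedBall, dist_eq_norm] using hz
  have := Pl.iod (fun z => f (x + z)) hr
    (hc.comp (by fun_prop) (h1.mono_right inter_subset_left))
    (fun a ha b hb' hab => by
      have := hi (h1 ha).1 (h1 hb').1 hab
      exact add_left_cancel this)
  simp only [add_zero] at this
  refine mem_of_superset this ?_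
  rintro _ ⟨z, hz, rfl⟩
  exact ⟨x + z, (h1 hz).2, rfl⟩

/-- invariance of domain for maps `ℂ → ℍ`. -/
theorem iodCH (f : ℂ → ℍ) {x : ℂ} {U : Set ℂ} (hU : U ∈ 𝓝 x) (hc : ContinuousOn f U)
    (hi : InjOn f U) {V : Set ℂ} (hV : V ∈ 𝓝 x) : f '' V ∈ 𝓝 (f x) := by
  have h1 := iodCC (fun z => (f z : ℂ)) hU
    (UpperHalfPlane.continuous_coe.comp_continuousOn hc)
    (fun a ha b hb hab => hi ha hb (UpperHalfPlane.ext hab)) hV
  have h2 := UpperHalfPlane.continuous_coe.continuousAt.preimage_mem_nhds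
    (x := f x) (t := (fun z => (f z : ℂ)) '' V) h1
  refine mem_of_superset h2 ?_
  rintro w ⟨z, hz, hzw⟩
  exact ⟨z, hz, UpperHalfPlane.ext hzw⟩

/-- invariance of domain for maps `ℍ → ℍ`. -/
theorem iodHH (f : ℍ → ℍ) {x : ℍ} {U : Set ℍ} (hU : U ∈ 𝓝 x) (hc : ContinuousOn f U)
    (hi : InjOn f U) {V : Set ℍ} (hV : V ∈ 𝓝 x) : f '' V ∈ 𝓝 (f x) := by
  -- precompose with `ofComplex`
  have hx : ((x : ℂ)) ∈ {z : ℂ | 0 < z.im} := x.2
  have h0 : IsOpen {z : ℂ | 0 < z.im} := isOpen_lt continuous_const Complex.continuous_im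
  let g : ℂ → ℍ := fun z => UpperHalfPlane.ofComplex z
  have hg : ∀ w : ℍ, g w = w := fun w => UpperHalfPlane.ofComplex_apply w
  have hgc : ContinuousOn g {z : ℂ | 0 < z.im} := by
    intro z hz
    have : ContinuousAt UpperHalfPlane.ofComplex z := by
      have h := UpperHalfPlane.contMDiffAt_ofComplex (n := 0) (z := z) hz
      exact h.continuousAt
    exact this.continuousWithinAt
  have hgi : ∀ z : ℂ, 0 < z.im → ((g z : ℍ) : ℂ) = z := fun z hz => by
    show ((UpperHalfPlane.ofComplex z : ℍ) : ℂ) = z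
    rw [UpperHalfPlane.ofComplex_apply_of_im_pos hz]
  have hsub : ∀ W ∈ 𝓝 x, ({z : ℂ | 0 < z.im} ∩ g ⁻¹' W) ∈ 𝓝 ((x : ℂ)) := by
    intro W hW
    refine inter_mem (h0.mem_nhds hx) ?_
    have : ContinuousAt g (x : ℂ) := hgc.continuousAt (h0.mem_nhds hx)
    apply this.preimage_mem_nhds
    rw [hg]; exact hW
  have h1 := iodCH (fun z => f (g z)) (hsub U hU)
    (hc.comp (hgc.mono inter_subset_left) (fun z hz => hz.2))
    (fun a ha b hb hab => by
      have := hi ha.2 hb.2 hab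
      rw [← hgi a ha.1, ← hgi b hb.1, this]) (hsub V hV)
  simp only [hg] at h1
  refine mem_of_superset h1 ?_
  rintro w ⟨z, hz, hzw⟩
  exact ⟨g z, hz.2, hzw⟩

end H292.TL
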