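import Pool.Agent.H292.TL.FB

/-!
Project TL, task LEN: existence of the edge length.
-/

set_option autoImplicit false
open scoped UpperHalfPlane Topology MatrixGroups
open Set Filter

namespace H292.TL

theorem len_cont (k : ℕ) (n : ℕ → ℕ) :
    Continuous fun l : ℝ => ∑ i ∈ Finset.range k, angH l (n i) := by
  refine continuous_finsetSum _ fun i _ => ?_
  unfold angH
  refine continuous_const.mul (Real.continuous_arcsin.comp ?_)
  exact continuous_const.div (Real.continuous_cosh.comp (continuous_id.div_const 2))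
    (fun l => (Real.cosh_pos _).ne')

theorem len_zero {m : ℕ} (hm : 3 ≤ m) : angH 0 m = Real.pi * (1 - 2 / (m : ℝ)) := by
  have hm' : (3 : ℝ) ≤ m := by exact_mod_cast hm
  have hp := Real.pi_pos
  have h1 : Real.pi / m ≤ Real.pi / 3 := by gcongr
  have h0 : 0 < Real.pi / m := by positivity
  unfold angH
  rw [zero_div, Real.cosh_zero, div_one, ← Real.sin_pi_div_two_sub,
    Real.arcsin_sin (by linarith) (by linarith)]
  field_simp

theorem len_tendsto (m : ℕ) : Tendsto (fun l : ℝ => angH l m) atTop (𝓝 0) := by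
  have h1 : Tendsto (fun l : ℝ => Real.cosh (l / 2)) atTop atTop := by
    have h2 : Tendsto (fun l : ℝ => Real.exp (l / 2) / 2) atTop atTop :=
      (Real.tendsto_exp_atTop.comp (tendsto_id.atTop_div_const (by norm_num))).atTop_div_const
        (by norm_num)
    refine tendsto_atTop_mono (fun l => ?_) h2
    rw [Real.cosh_eq]
    have := Real.exp_pos (-(l / 2))
    linarith
  have h3 : Tendsto (fun l : ℝ => Real.cos (Real.pi / m) / Real.cosh (l / 2)) atTop (𝓝 0) :=
    h1.const_div_atTop _
  have h4 : Tendsto (fun l : ℝ => 2 * Real.arcsin (Real.cos (Real.pi / m) / Real.cosh (l / 2)))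
      atTop (𝓝 (2 * Real.arcsin 0)) :=
    ((Real.continuous_arcsin.tendsto 0).comp h3).const_mul 2
  rw [Real.arcsin_zero, mul_zero] at h4
  exact h4

theorem len : S_LEN := by
  intro k n hn hs
  have hp := Real.pi_pos
  have h0 : 2 * Real.pi < ∑ i ∈ Finset.range k, angH 0 (n i) := by
    have h1 : ∑ i ∈ Finset.range k, angH 0 (n i) =
        Real.pi * ∑ i ∈ Finset.range k, (1 - 2 / (n i : ℝ)) := by
      rw [Finset.mul_sum]
      exact Finset.sum_congr rfl fun i _ => len_zero (hn i)
    rw [h1]
    nlinarith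
  have ht : Tendsto (fun l : ℝ => ∑ i ∈ Finset.range k, angH l (n i)) atTop (𝓝 0) := by
    have h1 := tendsto_finsetSum (Finset.range k) (fun i _ => len_tendsto (n i))
    simpa using h1
  have h2 := ht.eventually (gt_mem_nhds (show (0 : ℝ) < 2 * Real.pi by positivity))
  obtain ⟨l₁, hl₁, hl₁'⟩ := (h2.and (eventually_gt_atTop (0 : ℝ))).exists
  obtain ⟨l, hl, hl2⟩ := intermediate_value_Icc' hl₁'.le (len_cont k n).continuousOn
    ⟨hl₁.le, h0.le⟩
  refine ⟨l, lt_of_le_of_ne hl.1 ?_, hl2⟩
  rintro rfl
  simp only at hl2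
  linarith

end H292.TL
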