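import Pool.Agent.H292.TL.Defs
import Pool.Agent.H292.TL.Iod

/-!
Project TL (owner helper292), problem MP_4f6843_co, frozen statement S08699.
Statements of the subtasks.
-/

set_option autoImplicit false
open scoped UpperHalfPlane Topology
open Set

namespace H292.TL

/-! ### Part I: topology of the tiling -/

/-- uniform local finiteness -/
def S_CNT : Prop := ∀ T : Set (Set ℍ), Nor T → ∀ ρ : ℝ, ∃ N : ℕ, ∀ x : ℍ,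
  {t ∈ T | (t ∩ Metric.closedBall x ρ).Nonempty}.Finite ∧
  {t ∈ T | (t ∩ Metric.closedBall x ρ).Nonempty}.ncard ≤ N

/-- interior and frontier of a disc -/
def S_FR : Prop := ∀ (φ : ℂ → ℍ) (t : Set ℍ), Chart φ t →
  interior t = φ '' Metric.ball 0 1 ∧ frontier t = φ '' Metric.sphere 0 1 ∧
  t ⊆ closure (interior t) ∧ IsCompact t

/-- two discs sharing an arc in their boundaries cover a neighbourhood of its interior points -/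
def S_GLUE : Prop := ∀ (s t : Set ℍ) (φ ψ : ℂ → ℍ), Chart φ s → Chart ψ t →
  s ∩ t ⊆ frontier s → s ∩ t ⊆ frontier t →
  ∀ c : ℝ → ℍ, ContinuousOn c (Icc 0 1) → InjOn c (Icc 0 1) → (∀ x ∈ Icc (0:ℝ) 1, c x ∈ s ∩ t) →
  ∀ x ∈ Ioo (0:ℝ) 1, s ∪ t ∈ 𝓝 (c x)

/-- proper closed connected subsets of the circle are arcs -/
def S_CIRC : Prop := ∀ K : Set ℂ, K ⊆ Metric.sphere 0 1 → IsClosed K → IsPreconnected K →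
  K.Nontrivial → K ≠ Metric.sphere 0 1 →
  ∃ a b : ℝ, a < b ∧ b < a + 2 * Real.pi ∧ K = ee '' Icc a b

/-- an injective continuous self-map of the circle is surjective -/
def S_CINJ : Prop := ∀ f : ℂ → ℂ, ContinuousOn f (Metric.sphere 0 1) →
  InjOn f (Metric.sphere 0 1) → MapsTo f (Metric.sphere 0 1) (Metric.sphere 0 1) →
  f '' Metric.sphere 0 1 = Metric.sphere 0 1

/-- no tile contains the boundary of another one -/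
def S_FULL : Prop := ∀ T : Set (Set ℍ), Nor T → ∀ s ∈ T, ∀ t ∈ T, s ≠ t → ¬ frontier t ⊆ s

/-- a point of two distinct tiles is a boundary point -/
def S_DISJ : Prop := ∀ T : Set (Set ℍ), Nor T → ∀ s ∈ T, ∀ t ∈ T, s ≠ t →
  s ∩ t ⊆ frontier t ∧ Disjoint s (interior t)

/-- structure of an edge -/
def S_EDGE : Prop := ∀ T : Set (Set ℍ), Nor T → ∀ s ∈ T, ∀ t ∈ T, s ≠ t → (s ∩ t).Nontrivial →
  ∀ φ : ℂ → ℍ, Chart φ t → ∃ a b : ℝ, a < b ∧ b < a + 2 * Real.pi ∧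
    s ∩ t = (fun θ => φ (ee θ)) '' Icc a b ∧ φ (ee a) ∈ Vtx T ∧ φ (ee b) ∈ Vtx T ∧
    ∀ θ ∈ Ioo a b, s ∪ t ∈ 𝓝 (φ (ee θ)) ∧ φ (ee θ) ∉ Vtx T

/-- two distinct intersecting tiles share a vertex -/
def S_NEV : Prop := ∀ T : Set (Set ℍ), Nor T → ∀ s ∈ T, ∀ t ∈ T, s ≠ t → (s ∩ t).Nonempty →
  ∃ v ∈ Vtx T, v ∈ s ∩ t

/-- the boundary of a tile is covered by its edges -/
def S_BD : Prop := ∀ T : Set (Set ℍ), Nor T → ∀ t ∈ T, ∀ p ∈ frontier t,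
  ∃ s ∈ T, s ≠ t ∧ (s ∩ t).Nontrivial ∧ p ∈ s

/-- a tile has finitely many vertices -/
def S_FINV : Prop := ∀ T : Set (Set ℍ), Nor T → ∀ t ∈ T, (Vtx T ∩ t).Finite

/-- exactly two edges of a tile meet at each of its vertices -/
def S_TWO : Prop := ∀ T : Set (Set ℍ), Nor T → ∀ t ∈ T, ∀ v ∈ Vtx T, v ∈ t →
  ∃ a ∈ T, ∃ b ∈ T, a ≠ b ∧ a ≠ t ∧ b ≠ t ∧ v ∈ a ∧ v ∈ b ∧ (a ∩ t).Nontrivial ∧
    (b ∩ t).Nontrivial ∧ ∀ s ∈ T, s ≠ t → v ∈ s → (s ∩ t).Nontrivial → s = a ∨ s = b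

/-- the flag structure -/
def S_FS1 : Prop := ∀ T : Set (Set ℍ), Nor T → FS1 T ∧ ES T

/-- the flags of a tile are connected -/
def S_TCYC : Prop := ∀ T : Set (Set ℍ), Nor T → FS1 T → ES T →
  ∀ x y : Flag T, y.t = x.t → Rch s0 s1 x y

/-- the flags at a vertex are connected -/
def S_VCYC : Prop := ∀ T : Set (Set ℍ), Nor T → FS1 T → ES T →
  ∀ x y : Flag T, y.v = x.v → Rch s1 s2 x y

/-- all flags are connected -/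
def S_CCYC : Prop := ∀ T : Set (Set ℍ), Nor T → FS1 T → ES T →
  (∀ x y : Flag T, y.t = x.t → Rch s0 s1 x y) → (∀ x y : Flag T, y.v = x.v → Rch s1 s2 x y) →
  ∀ x y : Flag T, Rch3 s0 s1 s2 x y

/-- each tile has at least three vertices -/
def S_N3 : Prop := ∀ T : Set (Set ℍ), Nor T → FS1 T → ES T →
  (∀ x y : Flag T, y.t = x.t → Rch s0 s1 x y) → (∀ x y : Flag T, y.v = x.v → Rch s1 s2 x y) →
  ∀ t ∈ T, 3 ≤ nn T t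

/-- orbits of two involutions -/
def S_CYC : Prop := ∀ (X : Type) (a b : X → X), (∀ x, a (a x) = x) → (∀ x, b (b x) = x) →
  (∀ x, a x ≠ x) → (∀ x, b x ≠ x) → ∀ x : X, {y | Rch a b x y}.Finite →
  ∃ m : ℕ, 0 < m ∧ (b ∘ a)^[m] x = x ∧
    (∀ i < m, ∀ j < m, (b ∘ a)^[i] x = (b ∘ a)^[j] x → i = j) ∧
    (∀ i j : ℕ, (b ∘ a)^[i] x ≠ a ((b ∘ a)^[j] x)) ∧
    ∀ y, Rch a b x y → ∃ i < m, y = (b ∘ a)^[i] x ∨ y = a ((b ∘ a)^[i] x)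

/-- enumeration of the flags at a vertex -/
def S_VENUM : Prop := ∀ T : Set (Set ℍ), FS T → ∀ x : Flag T,
  uv^[dg T x.v] x = x ∧
  (∀ i < dg T x.v, ∀ j < dg T x.v, (uv^[i] x).t = (uv^[j] x).t → i = j) ∧
  ∀ y : Flag T, y.v = x.v → ∃ i < dg T x.v, y = uv^[i] x ∨ y = s1 (uv^[i] x)

/-- enumeration of the flags of a tile -/
def S_TENUM : Prop := ∀ T : Set (Set ℍ), FS T → ∀ x : Flag T,
  ut^[nn T x.t] x = x ∧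
  (∀ i < nn T x.t, ∀ j < nn T x.t, (ut^[i] x).v = (ut^[j] x).v → i = j) ∧
  ∀ y : Flag T, y.t = x.t → ∃ i < nn T x.t, y = ut^[i] x ∨ y = s1 (ut^[i] x)

/-- sums over the rotation at a vertex are sums over the tiles at the vertex -/
def S_SUM : Prop := ∀ T : Set (Set ℍ), FS T → ∀ f : Set ℍ → ℝ, ∀ x : Flag T,
  ∑ i ∈ Finset.range (dg T x.v), f (uv^[i] x).t = ∑ᶠ (t : Set ℍ) (_ : t ∈ T ∧ x.v ∈ t), f t

/-- homeomorphisms preserving the tiling act on the flags -/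
def S_AUT : Prop := ∀ T : Set (Set ℍ), FS T → ∀ h : ℍ ≃ₜ ℍ, (∀ s : Set ℍ, s ∈ T ↔ h '' s ∈ T) →
  ∃ γ : Equiv.Perm (Flag T), (∀ x, (γ x).v = h x.v ∧ (γ x).t = h '' x.t ∧ (γ x).s = h '' x.s) ∧
    (∀ x, γ (s0 x) = s0 (γ x)) ∧ (∀ x, γ (s1 x) = s1 (γ x)) ∧ (∀ x, γ (s2 x) = s2 (γ x)) ∧
    (∀ x, nn T (γ x).t = nn T x.t) ∧ (∀ x, dg T (γ x).v = dg T x.v)

/-! ### Part II: hyperbolicity of the combinatorial type -/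

/-- abstract flag systems with vertex transitive automorphism group; `k` is the degree of the
vertices, `n x` the number of sides of the face of `x`, `ε` a local orientation of the faces -/
structure AF (X : Type) (s0 s1 s2 : X → X) (k : ℕ) (n : X → ℕ) (ε : X → ℝ) : Prop where
  i0 : ∀ x, s0 (s0 x) = x
  i1 : ∀ x, s1 (s1 x) = x
  i2 : ∀ x, s2 (s2 x) = x
  c02 : ∀ x, s0 (s2 x) = s2 (s0 x)
  ne0 : ∀ x, s0 x ≠ x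
  ne1 : ∀ x, s1 x ≠ x
  ne2 : ∀ x, s2 x ≠ x
  ne02 : ∀ x, s0 x ≠ s2 x
  n0 : ∀ x, 0 < n x
  k0 : 0 < k
  vcard : ∀ x, {y | Rch s1 s2 x y}.Finite ∧ {y | Rch s1 s2 x y}.ncard = 2 * k
  fcard : ∀ x, {y | Rch s0 s1 x y}.Finite ∧ {y | Rch s0 s1 x y}.ncard = 2 * n x
  conn : ∀ x y, Rch3 s0 s1 s2 x y
  ε0 : ∀ x, ε (s0 x) = - ε x
  ε1 : ∀ x, ε (s1 x) = - ε x
  εsq : ∀ x, ε x ^ 2 = 1
  trans : ∀ x y, ∃ γ : Equiv.Perm X, (∀ z, γ (s0 z) = s0 (γ z)) ∧ (∀ z, γ (s1 z) = s1 (γ z)) ∧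
    (∀ z, γ (s2 z) = s2 (γ z)) ∧ Rch s1 s2 (γ x) y

/-- Poincaré inequality for vertex functions -/
def PV (X : Type) (s0 s1 s2 : X → X) : Prop := ∃ C : ℝ, 0 < C ∧ ∀ f : X → ℝ,
  (∀ x, f (s1 x) = f x) → (∀ x, f (s2 x) = f x) → Summable (fun x => f x ^ 2) →
  ∑' x, f x ^ 2 ≤ C * ∑' x, (f (s0 x) - f x) ^ 2

/-- Poincaré inequality for face functions -/
def PF (X : Type) (s0 s1 s2 : X → X) : Prop := ∃ C : ℝ, 0 < C ∧ ∀ f : X → ℝ,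
  (∀ x, f (s0 x) = f x) → (∀ x, f (s1 x) = f x) → Summable (fun x => f x ^ 2) →
  ∑' x, f x ^ 2 ≤ C * ∑' x, (f (s2 x) - f x) ^ 2

/-- a vertex function of finite energy that is not constant plus square summable -/
def HU (X : Type) (s0 s1 s2 : X → X) : Prop := ∃ u : X → ℝ,
  (∀ x, u (s1 x) = u x) ∧ (∀ x, u (s2 x) = u x) ∧ Summable (fun x => (u (s0 x) - u x) ^ 2) ∧
  ∀ c : ℝ, ¬ Summable (fun x => (u x - c) ^ 2)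

/-- mass transport -/
def S_MT : Prop := ∀ (X : Type) (s0 s1 s2 : X → X) (k : ℕ) (n : X → ℕ) (ε : X → ℝ),
  AF X s0 s1 s2 k n ε → ∀ q : X → ℝ,
  (∀ γ : Equiv.Perm X, (∀ z, γ (s0 z) = s0 (γ z)) → (∀ z, γ (s1 z) = s1 (γ z)) →
    (∀ z, γ (s2 z) = s2 (γ z)) → ∀ x, q (γ x) = q x) →
  ∀ x : X, (∑ᶠ (y : X) (_ : Rch s1 s2 x y), q y) =
    ∑ᶠ (y : X) (_ : Rch s1 s2 x y), (1 / (2 * (n y : ℝ))) * ∑ᶠ (z : X) (_ : Rch s0 s1 y z), q z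

/-- projections to the space of coboundaries -/
def S_LA : Prop := ∀ (X : Type) (s0 s1 s2 : X → X) (k : ℕ) (n : X → ℕ) (ε : X → ℝ),
  AF X s0 s1 s2 k n ε → PV X s0 s1 s2 →
  ∃ a : X → X → ℝ,
    (∀ x, ∃ w : X → ℝ, Summable (fun y => w y ^ 2) ∧ (∀ y, w (s1 y) = w y) ∧
      (∀ y, w (s2 y) = w y) ∧ ∀ y, a x y = w (s0 y) - w y) ∧
    (∀ x, ∀ f : X → ℝ, Summable (fun y => f y ^ 2) → (∀ y, f (s1 y) = f y) →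
      (∀ y, f (s2 y) = f y) → ∑' y, a x y * (f (s0 y) - f y) = f (s0 x) - f x) ∧
    (∀ x, (∑ᶠ (y : X) (_ : Rch s1 s2 x y), ∑' z, a y z ^ 2) = 1)

/-- projections to the space of boundaries -/
def S_LB : Prop := ∀ (X : Type) (s0 s1 s2 : X → X) (k : ℕ) (n : X → ℕ) (ε : X → ℝ),
  AF X s0 s1 s2 k n ε → PF X s0 s1 s2 →
  ∃ b : X → X → ℝ,
    (∀ x, ∃ g : X → ℝ, Summable (fun y => g y ^ 2) ∧ (∀ y, g (s0 y) = - g y) ∧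
      (∀ y, g (s1 y) = - g y) ∧ ∀ y, b x y = g y + g (s2 y)) ∧
    (∀ x, ∀ g : X → ℝ, Summable (fun y => g y ^ 2) → (∀ y, g (s0 y) = - g y) →
      (∀ y, g (s1 y) = - g y) → ∑' y, b x y * (g y + g (s2 y)) = g x + g (s2 x)) ∧
    (∀ x, (∑ᶠ (y : X) (_ : Rch s1 s2 x y), ∑' z, b y z ^ 2) =
      ∑ᶠ (y : X) (_ : Rch s1 s2 x y), 1 / (2 * (n y : ℝ)))

/-- the strict inequality -/
def S_L2 : Prop := ∀ (X : Type) (s0 s1 s2 : X → X) (k : ℕ) (n : X → ℕ) (ε : X → ℝ),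
  AF X s0 s1 s2 k n ε → PV X s0 s1 s2 → PF X s0 s1 s2 → HU X s0 s1 s2 →
  ∀ x : X, 1 + (∑ᶠ (y : X) (_ : Rch s1 s2 x y), 1 / (2 * (n y : ℝ))) < (k : ℝ) / 2

/-- a two-to-one map of bounded displacement -/
def S_BETA : Prop := ∀ (Y : Type) (pos : Y → ℍ),
  (∀ ρ : ℝ, ∃ N : ℕ, ∀ z : ℍ, {y | dist (pos y) z ≤ ρ}.Finite ∧ {y | dist (pos y) z ≤ ρ}.ncard ≤ N) →
  (∃ R : ℝ, ∀ z : ℍ, ∃ y, dist (pos y) z ≤ R) →
  ∃ (β : Y → Y) (C : ℝ), (∀ y, dist (pos y) (pos (β y)) ≤ C) ∧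
    ∀ w, ∃ y₁ y₂, y₁ ≠ y₂ ∧ β y₁ = w ∧ β y₂ = w

/-- Poincaré inequality from a two-to-one map -/
def S_POIN : Prop := ∀ (Y : Type) (pos : Y → ℍ) (A : Y → Y → Prop),
  (∀ ρ : ℝ, ∃ N : ℕ, ∀ z : ℍ, {y | dist (pos y) z ≤ ρ}.Finite ∧ {y | dist (pos y) z ≤ ρ}.ncard ≤ N) →
  (∃ (β : Y → Y) (C : ℝ), (∀ y, dist (pos y) (pos (β y)) ≤ C) ∧
    ∀ w, ∃ y₁ y₂, y₁ ≠ y₂ ∧ β y₁ = w ∧ β y₂ = w) →
  (∃ D : ℝ, ∀ y y', A y y' → dist (pos y) (pos y') ≤ D) →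
  (∀ D : ℝ, ∃ M : ℕ, ∀ y y', dist (pos y) (pos y') ≤ D →
    ∃ n ≤ M, ∃ p : ℕ → Y, p 0 = y ∧ p n = y' ∧ ∀ i < n, A (p i) (p (i+1))) →
  ∃ C : ℝ, 0 < C ∧ ∀ f : Y → ℝ, Summable (fun y => f y ^ 2) →
    Summable (fun e : {e : Y × Y // A e.1 e.2} => (f e.1.2 - f e.1.1) ^ 2) ∧
    ∑' y, f y ^ 2 ≤ C * ∑' e : {e : Y × Y // A e.1 e.2}, (f e.1.2 - f e.1.1) ^ 2

/-- chains of intersecting tiles -/
def S_CHAIN : Prop := ∀ T : Set (Set ℍ), Nor T → ∀ D : ℝ, ∃ M : ℕ, ∀ s ∈ T, ∀ t ∈ T,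
  ∀ p ∈ s, ∀ q ∈ t, dist p q ≤ D →
  ∃ n ≤ M, ∃ c : ℕ → Set ℍ, c 0 = s ∧ c n = t ∧ (∀ i ≤ n, c i ∈ T) ∧
    ∀ i < n, (c i ∩ c (i+1)).Nonempty

/-- chains of adjacent tiles -/
def S_CHT : Prop := ∀ T : Set (Set ℍ), Nor T → FS T → ES T → ∀ D : ℝ, ∃ M : ℕ,
  ∀ s ∈ T, ∀ t ∈ T, ∀ p ∈ s, ∀ q ∈ t, dist p q ≤ D →
  ∃ n ≤ M, ∃ c : ℕ → Set ℍ, c 0 = s ∧ c n = t ∧
    ∀ i < n, ∃ x : Flag T, x.t = c i ∧ x.s = c (i+1)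

/-- chains of adjacent vertices -/
def S_CHV : Prop := ∀ T : Set (Set ℍ), Nor T → FS T → ES T → ∀ D : ℝ, ∃ M : ℕ,
  ∀ v ∈ Vtx T, ∀ w ∈ Vtx T, dist v w ≤ D →
  ∃ n ≤ M, ∃ c : ℕ → ℍ, c 0 = v ∧ c n = w ∧
    ∀ i < n, ∃ x : Flag T, x.v = c i ∧ (s0 x).v = c (i+1)

/-- number of vertices in balls -/
def S_CNTV : Prop := ∀ T : Set (Set ℍ), Nor T → FS T → ES T → ∀ ρ : ℝ, ∃ N : ℕ, ∀ x : ℍ,
  (Vtx T ∩ Metric.closedBall x ρ).Finite ∧ (Vtx T ∩ Metric.closedBall x ρ).ncard ≤ N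

/-- bounds for `nn` and `dg` -/
def S_BDD : Prop := ∀ T : Set (Set ℍ), Nor T → FS T → ES T →
  ∃ N : ℕ, (∀ t ∈ T, nn T t ≤ N) ∧ ∀ v, dg T v ≤ N

def S_PV : Prop := ∀ T : Set (Set ℍ), Nor T → FS T → ES T → PV (Flag T) s0 s1 s2

def S_PF : Prop := ∀ T : Set (Set ℍ), Nor T → FS T → ES T → PF (Flag T) s0 s1 s2

def S_HU : Prop := ∀ T : Set (Set ℍ), Nor T → FS T → ES T → HU (Flag T) s0 s1 s2

/-- the flag system of a tiling is an abstract flag system -/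
def S_AF : Prop := ∀ T : Set (Set ℍ), Nor T → FS T → ES T → Tr T → ∀ x₀ : Flag T,
  ∃ ε : Flag T → ℝ, AF (Flag T) s0 s1 s2 (dg T x₀.v) (fun x => nn T x.t) ε

/-- hyperbolicity of the type, and its invariance -/
def S_HYP : Prop := ∀ T : Set (Set ℍ), Nor T → FS T → ES T → Tr T → ∀ x : Flag T,
  2 < ∑ i ∈ Finset.range (dg T x.v), (1 - 2 / (nn T (uv^[i] x).t : ℝ))

/-! ### Part III: geometry of regular polygons -/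

/-- relations between the basic isometries -/
def S_REL : Prop := (∀ a b : ℝ, rot (a + b) = rot a * rot b) ∧ rot (2 * Real.pi) = 1 ∧
  R2 * R2 = 1 ∧ (∀ l : ℝ, R0 l * R0 l = 1 ∧ R0 l * R2 = R2 * R0 l) ∧
  (∀ (l : ℝ) (n : ℕ), R1 l n * R1 l n = 1 ∧ R1 l n * R2 = rot (angH l n)) ∧
  (∀ (l : ℝ) (n : ℕ), 0 < l → 3 ≤ n → (R1 l n * R0 l) ^ n = 1)

/-- `Minv` conjugates the corner frame to the centre frame -/
def S_MINV : Prop := ∀ (l : ℝ) (n : ℕ), 0 < l → 3 ≤ n →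
  Minv l n * R1 l n = cj * Minv l n ∧
  Minv l n * R0 l = rot (2 * Real.pi / n) * cj * Minv l n

/-- Klein model: `kl` is a homeomorphism onto the open unit disc -/
def S_KLH : Prop := Continuous kl ∧ Function.Injective kl ∧ range kl = Metric.ball 0 1 ∧
  ∃ κ : ℂ → ℍ, ContinuousOn κ (Metric.ball 0 1) ∧ (∀ z, κ (kl z) = z) ∧
    ∀ w ∈ Metric.ball (0:ℂ) 1, kl (κ w) = w

/-- Klein model: formulas for the isometries -/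
def S_KLF : Prop := (∀ (θ : ℝ) (z : ℍ), kl (rot θ z) = ee θ * kl z) ∧
  (∀ z : ℍ, kl (cj z) = starRingEnd ℂ (kl z)) ∧
  (∀ (ρ : ℝ) (z : ℍ), kl (tr ρ z) =
    (((kl z).re + Real.tanh ρ : ℝ) + ((kl z).im / Real.cosh ρ : ℝ) * Complex.I) /
      ((1 + Real.tanh ρ * (kl z).re : ℝ) : ℂ)) ∧
  kl UpperHalfPlane.I = 0

/-- Klein model: geodesics are segments -/
def S_KLG : Prop := ∀ x y z : ℍ, dist x z + dist z y = dist x y → kl z ∈ segment ℝ (kl x) (kl y)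

/-- the polygon is invariant under its symmetries -/
def S_PINV : Prop := ∀ (l : ℝ) (n : ℕ), 0 < l → 3 ≤ n →
  R0 l '' Poly l n = Poly l n ∧ R1 l n '' Poly l n = Poly l n

/-- the polygon is geodesically convex -/
def S_PCONV : Prop := ∀ (l : ℝ) (n : ℕ), ∀ x ∈ Poly l n, ∀ y ∈ Poly l n, ∀ z : ℍ,
  dist x z + dist z y = dist x y → z ∈ Poly l n

/-- the polygon is a disc -/
def S_PDISC : Prop := ∀ (l : ℝ) (n : ℕ), 0 < l → 3 ≤ n → ∃ φ, Chart φ (Poly l n)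

/-- the polygon lies in a sector, and meets the line of the standard edge in the edge -/
def S_PSEC : Prop := ∀ (l : ℝ) (n : ℕ), 0 < l → 3 ≤ n →
  0 < angH l n ∧ angH l n < Real.pi ∧
  (∀ z ∈ Poly l n, ∃ r θ : ℝ, 0 ≤ r ∧ 0 ≤ θ ∧ θ ≤ angH l n ∧ kl z = r * ee θ) ∧
  (∀ z ∈ Poly l n, (kl z).im = 0 → z ∈ Seg l) ∧ Seg l ⊆ Poly l n

/-- the boundary of the polygon -/
def S_PBD : Prop := ∀ (l : ℝ) (n : ℕ), 0 < l → 3 ≤ n →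
  frontier (Poly l n) = (⋃ i ∈ Finset.range n, ((R1 l n * R0 l) ^ i : ℍ ≃ᵢ ℍ) '' Seg l) ∧
  (∀ i : ℕ, 2 ≤ i → i + 2 ≤ n → Disjoint (Seg l) (((R1 l n * R0 l) ^ i : ℍ ≃ᵢ ℍ) '' Seg l)) ∧
  Seg l ∩ (R1 l n * R0 l : ℍ ≃ᵢ ℍ) '' Seg l = {UpperHalfPlane.I}

/-- polygons around a vertex -/
def S_STAR : Prop := ∀ (l : ℝ) (k : ℕ) (n : ℕ → ℕ), 0 < l → 3 ≤ k → (∀ i, 3 ≤ n i) →
  ∑ i ∈ Finset.range k, angH l (n i) = 2 * Real.pi →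
  ∀ i j : ℕ, i < j → j < k →
    ∀ z : ℍ, z ∈ rot (∑ m ∈ Finset.range i, angH l (n m)) '' Poly l (n i) →
      z ∈ rot (∑ m ∈ Finset.range j, angH l (n m)) '' Poly l (n j) →
      (j = i + 1 ∧ z ∈ rot (∑ m ∈ Finset.range j, angH l (n m)) '' Seg l) ∨
      (i = 0 ∧ j = k - 1 ∧ z ∈ Seg l) ∨ z = UpperHalfPlane.I

/-- existence of the edge length -/
def S_LEN : Prop := ∀ (k : ℕ) (n : ℕ → ℕ), (∀ i, 3 ≤ n i) →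
  2 < ∑ i ∈ Finset.range k, (1 - 2 / (n i : ℝ)) →
  ∃ l : ℝ, 0 < l ∧ ∑ i ∈ Finset.range k, angH l (n i) = 2 * Real.pi

/-! ### Part IV: realization -/

/-- monodromy: cocycles on a locally finite closed cover of `ℍ` are trivial -/
def S_MON : Prop := ∀ (T : Set (Set ℍ)), (∀ t ∈ T, IsClosed t) → (∀ t ∈ T, IsConnected t) →
  (∀ p : ℍ, ∃ t ∈ T, p ∈ t) →
  (∀ (x : ℍ) (ρ : ℝ), {t ∈ T | (t ∩ Metric.closedBall x ρ).Nonempty}.Finite) →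
  ∀ (G : Type) [Group G] (ρ : Set ℍ → Set ℍ → G),
  (∀ s ∈ T, ∀ t ∈ T, ∀ u ∈ T, (s ∩ t ∩ u).Nonempty → ρ s t * ρ t u = ρ s u) →
  ∃ g : Set ℍ → G, ∀ s ∈ T, ∀ t ∈ T, (s ∩ t).Nonempty → g s * ρ s t = g t

/-- local frames on a tile -/
def S_MT1 : Prop := ∀ (T : Set (Set ℍ)), FS T → ∀ l : ℝ, 0 < l →
  ∃ m : Flag T → (ℍ ≃ᵢ ℍ), ∀ x : Flag T, m (s0 x) = m x * R0 l ∧
    m (s1 x) = m x * R1 l (nn T x.t)

/-- local frames at a vertex -/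
def S_MV1 : Prop := ∀ (T : Set (Set ℍ)), FS T → ∀ l : ℝ, 0 < l →
  (∀ x : Flag T, ∑ i ∈ Finset.range (dg T x.v), angH l (nn T (uv^[i] x).t) = 2 * Real.pi) →
  ∃ m : Flag T → (ℍ ≃ᵢ ℍ), ∀ x : Flag T, m (s1 x) = m x * R1 l (nn T x.t) ∧
    m (s2 x) = m x * R2

/-- global frames -/
def S_FRAME : Prop := ∀ (T : Set (Set ℍ)), Nor T → FS T → ES T → ∀ l : ℝ, 0 < l →
  (∀ x : Flag T, ∑ i ∈ Finset.range (dg T x.v), angH l (nn T (uv^[i] x).t) = 2 * Real.pi) →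
  ∃ g : Flag T → (ℍ ≃ᵢ ℍ), Frames T l g

/-- extension of boundary homeomorphisms -/
def S_EXT : Prop := ∀ (t Q : Set ℍ) (φ ψ : ℂ → ℍ), Chart φ t → Chart ψ Q →
  ∀ b : ℍ → ℍ, ContinuousOn b (frontier t) → InjOn b (frontier t) →
  b '' frontier t = frontier Q →
  ∃ F : ℍ → ℍ, ContinuousOn F t ∧ InjOn F t ∧ F '' t = Q ∧ ∀ p ∈ frontier t, F p = b p

/-- maps on the edges, compatible at the vertices -/
def S_SKEL : Prop := ∀ (T : Set (Set ℍ)), Nor T → FS T → ES T → ∀ l : ℝ, 0 < l →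
  ∀ g : Flag T → (ℍ ≃ᵢ ℍ), Frames T l g →
  ∃ b : ℍ → ℍ, ∀ x : Flag T, ContinuousOn b (x.s ∩ x.t) ∧ InjOn b (x.s ∩ x.t) ∧
    b '' (x.s ∩ x.t) = g x '' Seg l ∧ b x.v = g x UpperHalfPlane.I

/-- the boundary map of a tile -/
def S_BMAP : Prop := ∀ (T : Set (Set ℍ)), Nor T → FS T → ES T → ∀ l : ℝ, 0 < l →
  ∀ g : Flag T → (ℍ ≃ᵢ ℍ), Frames T l g → ∀ b : ℍ → ℍ,
  (∀ x : Flag T, ContinuousOn b (x.s ∩ x.t) ∧ InjOn b (x.s ∩ x.t) ∧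
    b '' (x.s ∩ x.t) = g x '' Seg l ∧ b x.v = g x UpperHalfPlane.I) →
  ∀ x : Flag T, ContinuousOn b (frontier x.t) ∧ InjOn b (frontier x.t) ∧
    b '' frontier x.t = frontier (g x '' Poly l (nn T x.t))

/-- realization of the frames -/
def S_REAL : Prop := ∀ (T : Set (Set ℍ)), Nor T → FS T → ES T → ∀ l : ℝ, 0 < l →
  ∀ g : Flag T → (ℍ ≃ᵢ ℍ), Frames T l g → ∃ F : ℍ → ℍ, Real1 T l g F

/-- injectivity on the stars -/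
def S_SINJ : Prop := ∀ (T : Set (Set ℍ)), Nor T → FS T → ES T → ∀ l : ℝ, 0 < l →
  (∀ x : Flag T, ∑ i ∈ Finset.range (dg T x.v), angH l (nn T (uv^[i] x).t) = 2 * Real.pi) →
  ∀ g : Flag T → (ℍ ≃ᵢ ℍ), Frames T l g → ∀ F : ℍ → ℍ, Real1 T l g F →
  ∀ v ∈ Vtx T, InjOn F (st T v)

/-- automorphisms are realized by isometries -/
def S_ISO : Prop := ∀ (T : Set (Set ℍ)), Nor T → FS T → ES T → ∀ l : ℝ, 0 < l →
  ∀ g : Flag T → (ℍ ≃ᵢ ℍ), Frames T l g → ∀ F : ℍ → ℍ, Real1 T l g F →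
  ∀ h : ℍ ≃ₜ ℍ, (∀ s : Set ℍ, s ∈ T ↔ h '' s ∈ T) →
  ∃ q : ℍ ≃ᵢ ℍ, (∀ v ∈ Vtx T, F (h v) = q (F v)) ∧ ∀ t ∈ T, F '' (h '' t) = q '' (F '' t)

/-- uniformity -/
def S_UNI : Prop := ∀ (T : Set (Set ℍ)), Nor T → FS T → ES T → Tr T → ∀ F : ℍ → ℍ,
  Continuous F → (∀ v ∈ Vtx T, InjOn F (st T v)) →
  (∀ h : ℍ ≃ₜ ℍ, (∀ s : Set ℍ, s ∈ T ↔ h '' s ∈ T) →
    ∃ q : ℍ ≃ᵢ ℍ, (∀ v ∈ Vtx T, F (h v) = q (F v)) ∧ ∀ t ∈ T, F '' (h '' t) = q '' (F '' t)) →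
  ∃ δ : ℝ, 0 < δ ∧ ∀ p : ℍ, ∃ A : Set ℍ, IsCompact A ∧ p ∈ A ∧ InjOn F A ∧
    Metric.ball (F p) δ ⊆ F '' A

/-- uniform local inverses imply homeomorphism -/
def S_COV : Prop := ∀ F : ℍ → ℍ, Continuous F →
  (∃ δ : ℝ, 0 < δ ∧ ∀ p : ℍ, ∃ A : Set ℍ, IsCompact A ∧ p ∈ A ∧ InjOn F A ∧
    Metric.ball (F p) δ ⊆ F '' A) →
  ∃ h : ℍ ≃ₜ ℍ, ∀ p, h p = F p

/-- the final statement for normal tilings -/
def S_GOAL : Prop := ∀ T : Set (Set ℍ), Nor T → Tr T →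
  ∃ T' : Set (Set ℍ), ∃ h : ℍ ≃ₜ ℍ,
    (∀ s : Set ℍ, s ∈ T ↔ h '' s ∈ T') ∧
    (∀ t ∈ T', ∀ x ∈ t, ∀ y ∈ t, ∀ z : ℍ, dist x z + dist z y = dist x y → z ∈ t) ∧
    (∀ v ∈ Vtx T', ∀ w ∈ Vtx T',
      ∃ g : ℍ ≃ᵢ ℍ, (∀ s : Set ℍ, s ∈ T' ↔ g '' s ∈ T') ∧ g v = w)

end H292.TL
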