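import Pool.Agent.H292.TL.FB

/-!
Project TL: the flags at a vertex are connected (`S_VCYC`).
-/

set_option autoImplicit false
open scoped UpperHalfPlane Topology
open Set

namespace H292.TL

namespace VCYC

/-- a punctured disc in `ℂ` is connected -/
theorem punct (v : ℂ) {ε : ℝ} (hε : 0 < ε) : IsPreconnected (Metric.ball v ε \ {v}) := by
  have hr : 1 < Module.rank ℝ ℂ := by
    rw [Complex.rank_real_complex]
    exact_mod_cast (by norm_num : (1 : ℕ) < 2)
  have h1 : IsPreconnected ({0}ᶜ : Set ℂ) :=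
    (isConnected_compl_singleton_of_one_lt_rank hr 0).isPreconnected
  have hf : Continuous (fun y : ℂ => v + (ε / (1 + ‖y‖)) • y) := by
    refine continuous_const.add ((continuous_const.div (continuous_const.add continuous_norm)
      fun y => ?_).smul continuous_id)
    have h0 : 0 < 1 + ‖y‖ := by have := norm_nonneg y; linarith
    exact h0.ne'
  have h2 := h1.image _ hf.continuousOn
  have h3 : (fun y : ℂ => v + (ε / (1 + ‖y‖)) • y) '' ({0}ᶜ : Set ℂ) = Metric.ball v ε \ {v} := by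
    apply Subset.antisymm
    · rintro _ ⟨y, hy, rfl⟩
      have hy0 : 0 < ‖y‖ := norm_pos_iff.2 hy
      have hp : 0 < 1 + ‖y‖ := by linarith
      refine ⟨?_, ?_⟩
      · rw [Metric.mem_ball, dist_eq_norm]
        have e1 : v + (ε / (1 + ‖y‖)) • y - v = (ε / (1 + ‖y‖)) • y := by ring
        rw [e1, norm_smul, Real.norm_eq_abs, abs_of_pos (by positivity), div_mul_eq_mul_div,
          div_lt_iff₀ hp]
        nlinarith
      · intro h
        have h4 : (ε / (1 + ‖y‖)) • y = 0 := by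
          have : v + (ε / (1 + ‖y‖)) • y = v := h
          simpa using this
        rcases smul_eq_zero.1 h4 with h5 | h5
        · have : 0 < ε / (1 + ‖y‖) := by positivity
          exact absurd h5 this.ne'
        · exact hy h5
    · rintro w ⟨hw, hwv⟩
      rw [Metric.mem_ball, dist_eq_norm] at hw
      have hd : w - v ≠ 0 := sub_ne_zero.2 hwv
      have hd0 : 0 < ‖w - v‖ := norm_pos_iff.2 hd
      have hq : 0 < ε - ‖w - v‖ := by linarith
      refine ⟨(1 / (ε - ‖w - v‖)) • (w - v), ?_, ?_⟩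
      · intro h
        rcases smul_eq_zero.1 h with h5 | h5
        · have : 0 < 1 / (ε - ‖w - v‖) := by positivity
          exact absurd h5 this.ne'
        · exact hd h5
      · have e1 : ‖(1 / (ε - ‖w - v‖)) • (w - v)‖ = ‖w - v‖ / (ε - ‖w - v‖) := by
          rw [norm_smul, Real.norm_eq_abs, abs_of_pos (by positivity), one_div, inv_mul_eq_div]
        have e2 : ε / (1 + ‖w - v‖ / (ε - ‖w - v‖)) = ε - ‖w - v‖ := by
          field_simp
          ring
        show v + (ε / (1 + ‖(1 / (ε - ‖w - v‖)) • (w - v)‖)) • ((1 / (ε - ‖w - v‖)) • (w - v)) = w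
        rw [e1, e2, smul_smul, mul_one_div_cancel hq.ne', one_smul]
        ring
  rw [← h3]
  exact h2

/-- small neighbourhoods in `ℍ` whose puncture is connected -/
theorem nbhd (v : ℍ) {N : Set ℍ} (hN : N ∈ 𝓝 v) :
    ∃ U : Set ℍ, IsOpen U ∧ v ∈ U ∧ U ⊆ N ∧ IsPreconnected (U \ {v}) := by
  have hemb := UpperHalfPlane.isOpenEmbedding_coe
  have h1 : ((↑) : ℍ → ℂ) '' N ∈ 𝓝 (v : ℂ) := hemb.isOpenMap.image_mem_nhds hN
  obtain ⟨ε, hε, hb⟩ := Metric.mem_nhds_iff.1 h1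
  refine ⟨((↑) : ℍ → ℂ) ⁻¹' Metric.ball (v : ℂ) ε, Metric.isOpen_ball.preimage hemb.continuous,
    Metric.mem_ball_self hε, ?_, ?_⟩
  · intro z hz
    obtain ⟨n, hn, hnz⟩ := hb hz
    rwa [← hemb.injective hnz]
  · have h2 : ((↑) : ℍ → ℂ) ⁻¹' Metric.ball (v : ℂ) ε \ {v} =
        ((↑) : ℍ → ℂ) ⁻¹' (Metric.ball (v : ℂ) ε \ {(v : ℂ)}) := by
      ext z
      constructor
      · rintro ⟨hz, hzv⟩
        exact ⟨hz, fun h => hzv (hemb.injective h)⟩
      · rintro ⟨hz, hzv⟩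
        exact ⟨hz, fun h => hzv (congrArg _ h)⟩
    rw [h2]
    refine (punct v hε).preimage_of_isOpenMap hemb.injective hemb.isOpenMap ?_
    intro z hz
    obtain ⟨n, -, hnz⟩ := hb hz.1
    exact ⟨n, hnz⟩

end VCYC

theorem vcyc (hCNT : S_CNT) (hFR : S_FR) (hDISJ : S_DISJ) : S_VCYC := by
  intro T hT H E x y hxy
  have hcomp : ∀ t ∈ T, IsCompact t := fun t ht => by
    obtain ⟨φ, hφ⟩ := hT.chart t ht
    exact (hFR φ t hφ).2.2.2
  have hclos : ∀ t ∈ T, IsClosed t := fun t ht => (hcomp t ht).isClosed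
  have hint : ∀ t ∈ T, t ⊆ closure (interior t) := fun t ht => by
    obtain ⟨φ, hφ⟩ := hT.chart t ht
    exact (hFR φ t hφ).2.2.1
  obtain ⟨K, hK⟩ := hCNT T hT 1
  have hfin := (hK x.v).1
  -- the tiles near `v` that do not contain `v`
  let B : Set ℍ := ⋃₀ {t ∈ {t ∈ T | (t ∩ Metric.closedBall x.v 1).Nonempty} | x.v ∉ t}
  have hB : IsClosed B := by
    have hf : {t ∈ {t ∈ T | (t ∩ Metric.closedBall x.v 1).Nonempty} | x.v ∉ t}.Finite :=
      hfin.subset (fun t ht => ht.1)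
    show IsClosed (⋃₀ {t ∈ {t ∈ T | (t ∩ Metric.closedBall x.v 1).Nonempty} | x.v ∉ t})
    rw [sUnion_eq_biUnion]
    exact hf.isClosed_biUnion (fun t ht => hclos t ht.1.1)
  -- the vertices near `v`
  let P : Set ℍ := (⋃ t ∈ {t ∈ T | (t ∩ Metric.closedBall x.v 1).Nonempty}, Vtx T ∩ t) \ {x.v}
  have hP : P.Finite := (hfin.biUnion (fun t ht => H.fint t ht.1)).subset sdiff_subset
  have hvB : x.v ∉ B := by
    rintro ⟨t, ht, hvt⟩
    exact ht.2 hvt
  have hN : Metric.ball x.v 1 ∩ Bᶜ ∩ Pᶜ ∈ 𝓝 x.v := by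
    refine Filter.inter_mem (Filter.inter_mem (Metric.ball_mem_nhds _ one_pos)
      (hB.isOpen_compl.mem_nhds hvB)) (hP.isClosed.isOpen_compl.mem_nhds ?_)
    exact fun h => h.2 rfl
  obtain ⟨U, hUo, hvU, hUN, hUc⟩ := VCYC.nbhd x.v hN
  have hball : ∀ q ∈ U, q ∈ Metric.closedBall x.v 1 := fun q hq =>
    Metric.ball_subset_closedBall (hUN hq).1.1
  have hU1 : ∀ t ∈ T, ∀ q ∈ U, q ∈ t → x.v ∈ t := by
    intro t ht q hq hqt
    by_contra hv
    exact (hUN hq).1.2 ⟨t, ⟨⟨ht, q, hqt, hball q hq⟩, hv⟩, hqt⟩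
  have hU2 : ∀ q ∈ U, q ≠ x.v → q ∉ Vtx T := by
    intro q hq hne hqV
    obtain ⟨t, ht, -, -, -, -, -, -, -, hqt, -⟩ := id hqV
    refine (hUN hq).2 ⟨?_, hne⟩
    simp only [mem_iUnion]
    exact ⟨t, ⟨ht, q, hqt, hball q hq⟩, hqV, hqt⟩
  -- the union of the tiles of the flags reachable from `x`
  let W : Set ℍ := ⋃₀ {t | ∃ z : Flag T, Rch s1 s2 x z ∧ z.t = t}
  have hWc : IsClosed W := by
    have hsub : {t | ∃ z : Flag T, Rch s1 s2 x z ∧ z.t = t} ⊆ {t ∈ T | x.v ∈ t} := by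
      rintro t ⟨z, hz, rfl⟩
      refine ⟨z.ht, ?_⟩
      rw [← Rch_v H hz]
      exact z.hvt
    have hf : {t | ∃ z : Flag T, Rch s1 s2 x z ∧ z.t = t}.Finite := (H.finv x.v).subset hsub
    show IsClosed (⋃₀ {t | ∃ z : Flag T, Rch s1 s2 x z ∧ z.t = t})
    rw [sUnion_eq_biUnion]
    exact hf.isClosed_biUnion (fun t ht => hclos t (hsub ht).1)
  have hWo : ∀ q ∈ U \ {x.v}, q ∈ W → W ∈ 𝓝 q := by
    rintro q ⟨hqU, hqv⟩ ⟨t, ⟨z, hz, rfl⟩, hqt⟩
    have hzW : z.t ⊆ W := subset_sUnion_of_mem ⟨z, hz, rfl⟩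
    by_cases hqi : q ∈ interior z.t
    · exact Filter.mem_of_superset (mem_interior_iff_mem_nhds.1 hqi) hzW
    · have hqf : q ∈ frontier z.t := ⟨subset_closure hqt, hqi⟩
      obtain ⟨w, hwt, hqw⟩ := E.bd z.t z.ht q hqf
      have hqw' : q ∈ w.t := by rw [hwt]; exact hqt
      have h2 := E.two w q ⟨hqw, hqw'⟩ (hU2 q hqU hqv)
      have hvs : x.v ∈ w.s := hU1 w.s w.hs q hqU hqw
      have hvt : x.v ∈ w.t := hU1 w.t w.ht q hqU hqw'
      let y' : Flag T := ⟨x.v, w.t, w.s, x.hv, w.ht, w.hs, w.hne, hvt, hvs, w.hadj⟩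
      have hy' : Rch s1 s2 x y' := by
        rcases H.u1 z y' (Rch_v H hz).symm hwt with h | h
        · rw [h]; exact hz
        · rw [h]; exact Relation.ReflTransGen.tail hz (Or.inl rfl)
      have hy2 : Rch s1 s2 x (s2 y') := Relation.ReflTransGen.tail hy' (Or.inr rfl)
      refine Filter.mem_of_superset h2 (union_subset ?_ ?_)
      · exact subset_sUnion_of_mem ⟨s2 y', hy2, rfl⟩
      · exact subset_sUnion_of_mem ⟨y', hy', rfl⟩
  -- points of the interior of a tile near `v`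
  have hpt : ∀ z : Flag T, z.v = x.v → ∃ q ∈ U \ {x.v}, q ∈ interior z.t := by
    intro z hzv
    have h1 : x.v ∈ closure (interior z.t) := hint z.t z.ht (by rw [← hzv]; exact z.hvt)
    obtain ⟨q, hqU, hqi⟩ := mem_closure_iff.1 h1 U hUo hvU
    refine ⟨q, ⟨hqU, ?_⟩, hqi⟩
    rintro (rfl : q = x.v)
    have h2 := E.fr z.s z.hs z.t z.ht z.hne ⟨z.hvs, z.hvt⟩
    rw [hzv] at h2
    exact h2.2 hqi
  have hsub : U \ {x.v} ⊆ W := by
    intro q hq
    by_contra hqW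
    obtain ⟨p, hp, hpi⟩ := hpt x rfl
    have hpW : p ∈ interior W := by
      have : x.t ⊆ W := subset_sUnion_of_mem ⟨x, Relation.ReflTransGen.refl, rfl⟩
      exact interior_mono this hpi
    have hcov : U \ {x.v} ⊆ interior W ∪ Wᶜ := by
      intro z hz
      by_cases hzW : z ∈ W
      · exact Or.inl (mem_interior_iff_mem_nhds.2 (hWo z hz hzW))
      · exact Or.inr hzW
    obtain ⟨z, -, hz1, hz2⟩ := hUc (interior W) Wᶜ isOpen_interior hWc.isOpen_compl hcov
      ⟨p, hp, hpW⟩ ⟨q, hq, hqW⟩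
    exact hz2 (interior_subset hz1)
  obtain ⟨q, hq, hqi⟩ := hpt y hxy
  obtain ⟨t, ⟨z, hz, rfl⟩, hqt⟩ := hsub hq
  have hzt : z.t = y.t := by
    by_contra hne
    exact Set.disjoint_left.1 (hDISJ T hT z.t z.ht y.t y.ht hne).2 hqt hqi
  rcases H.u1 z y (by rw [hxy, Rch_v H hz]) hzt.symm with h | h
  · rw [h]; exact hz
  · rw [h]; exact Relation.ReflTransGen.tail hz (Or.inl rfl)

end H292.TL
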